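import Mathlib

/-!
# Local translation structures (MP_273810_co, open dense theorem; library H32D, helper32)

`TS X`: every point `x` has a disc `u ↦ add x u`, `‖u‖ < rho x`, compatible. `Path W I z`: `z` is a straight path
with the velocity `W` on the set `I` of parameters.
-/

open Set Filter Topology

namespace Pool.Agent.Lib.H32D

structure TS (X : Type*) where
  rho : X → ℝ
  add : X → ℂ → X
  rho_pos : ∀ x, 0 < rho x
  add_zero : ∀ x, add x 0 = x
  rho_add : ∀ x u, ‖u‖ < rho x → rho x - ‖u‖ ≤ rho (add x u)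
  add_add : ∀ x u u', ‖u‖ + ‖u'‖ < rho x → add (add x u) u' = add x (u + u')

variable {X : Type*} (T : TS X)

/-- straight path with velocity `W` on the parameter set `I` -/
def TS.Path (W : ℂ) (I : Set ℝ) (z : ℝ → X) : Prop :=
  ∀ s ∈ I, ∃ ε > 0, ∀ s' ∈ I, |s' - s| < ε → z s' = T.add (z s) (((s' - s : ℝ) : ℂ) * W)

theorem norm_mul_ofReal (a : ℝ) (W : ℂ) : ‖((a : ℝ) : ℂ) * W‖ = |a| * ‖W‖ := by
  rw [norm_mul, Complex.norm_real, Real.norm_eq_abs]

/-- cancellation -/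
theorem TS.add_neg {x y : X} {u : ℂ} (hu : 2 * ‖u‖ < T.rho x) (h : y = T.add x u) : x = T.add y (-u) := by
  rw [h, T.add_add _ _ _ (by rw [norm_neg]; linarith), add_neg_cancel, T.add_zero]

theorem TS.Path.mono {W : ℂ} {I J : Set ℝ} {z : ℝ → X} (h : T.Path W I z) (hJ : J ⊆ I) : T.Path W J z := by
  intro s hs
  obtain ⟨ε, hε, h1⟩ := h s (hJ hs)
  exact ⟨ε, hε, fun s' hs' => h1 s' (hJ hs')⟩

theorem TS.Path.congr {W : ℂ} {I : Set ℝ} {z z' : ℝ → X} (h : T.Path W I z) (hz : ∀ s ∈ I, z' s = z s) :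
    T.Path W I z' := by
  intro s hs
  obtain ⟨ε, hε, h1⟩ := h s hs
  exact ⟨ε, hε, fun s' hs' h2 => by rw [hz s' hs', hz s hs]; exact h1 s' hs' h2⟩

/-- a small positive number below given bounds times the norm -/
theorem exists_small (W : ℂ) {a b : ℝ} (ha : 0 < a) (hb : 0 < b) :
    ∃ ε > 0, ε ≤ a ∧ ∀ t : ℝ, |t| < ε → |t| * ‖W‖ < b := by
  refine ⟨min a (b / (‖W‖ + 1)), lt_min ha (by positivity), min_le_left _ _, fun t ht => ?_⟩
  have h1 : |t| < b / (‖W‖ + 1) := ht.trans_le (min_le_right _ _)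
  rw [lt_div_iff₀ (by positivity)] at h1
  have h2 := abs_nonneg t
  nlinarith [norm_nonneg W]

/-- local constancy of a property along an interval -/
theorem prop_const {I : Set ℝ} (hI : I.OrdConnected) (Q : ℝ → Prop)
    (h : ∀ s ∈ I, ∃ ε > 0, ∀ s' ∈ I, |s' - s| < ε → (Q s ↔ Q s')) {s s' : ℝ} (hs : s ∈ I) (hs' : s' ∈ I) :
    Q s ↔ Q s' := by
  have hp : IsPreconnected I := hI.isPreconnected
  refine hp.induction₂ (fun a b => Q a ↔ Q b) ?_ ?_ ?_ hs hs'
  · intro x hx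
    obtain ⟨ε, hε, h1⟩ := h x hx
    rw [eventually_nhdsWithin_iff, Metric.eventually_nhds_iff]
    exact ⟨ε, hε, fun y hy hyI => h1 y hyI (by rwa [Real.dist_eq] at hy)⟩
  · intro x y z _ _ _ h1 h2
    exact h1.trans h2
  · intro x y _ _ h1
    exact h1.symm

/-- the formula holds as long as the displacement is smaller than the radius -/
theorem TS.Path.far {W : ℂ} {I : Set ℝ} (hI : I.OrdConnected) {z : ℝ → X} (h : T.Path W I z) {s s' : ℝ}
    (hs : s ∈ I) (hs' : s' ∈ I) (hd : |s' - s| * ‖W‖ < T.rho (z s)) :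
    z s' = T.add (z s) (((s' - s : ℝ) : ℂ) * W) := by
  have hJ : (uIcc s s') ⊆ I := hI.uIcc_subset hs hs'
  have key := prop_const (I := uIcc s s') ordConnected_uIcc
    (fun u => z u = T.add (z s) (((u - s : ℝ) : ℂ) * W)) ?_ (left_mem_uIcc) (right_mem_uIcc)
  · exact key.1 (by simp [T.add_zero])
  intro u hu
  obtain ⟨ε, hε, h1⟩ := h u (hJ hu)
  obtain ⟨δ₁, hδ₁, hδ₁', h2⟩ := exists_small W hε (sub_pos.2 hd)
  obtain ⟨δ₂, hδ₂, hδ₂', h3⟩ := exists_small W hδ₁ (half_pos (T.rho_pos (z u)))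
  refine ⟨δ₂, hδ₂, fun u' hu' huu => ?_⟩
  have hu1 : |u - s| ≤ |s' - s| := abs_sub_left_of_mem_uIcc hu
  have hu2 : |u' - s| ≤ |s' - s| := abs_sub_left_of_mem_uIcc hu'
  have e1 : |u' - u| * ‖W‖ < T.rho (z s) - |s' - s| * ‖W‖ := h2 _ (huu.trans_le hδ₂')
  have e2 : |u' - u| * ‖W‖ < T.rho (z u) / 2 := h3 _ huu
  have e3 : z u' = T.add (z u) (((u' - u : ℝ) : ℂ) * W) :=
    h1 u' (hJ hu') (huu.trans_le (hδ₂'.trans hδ₁'))
  have e4 : |u - s| * ‖W‖ ≤ |s' - s| * ‖W‖ := mul_le_mul_of_nonneg_right hu1 (norm_nonneg W)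
  have e5 : |u' - s| * ‖W‖ ≤ |s' - s| * ‖W‖ := mul_le_mul_of_nonneg_right hu2 (norm_nonneg W)
  constructor
  · intro hQ
    rw [e3, hQ, T.add_add _ _ _ (by rw [norm_mul_ofReal, norm_mul_ofReal]; linarith), ← add_mul,
      ← Complex.ofReal_add]
    congr 3
    ring
  · intro hQ
    have e6 : z u = T.add (z u') (-(((u' - u : ℝ) : ℂ) * W)) :=
      T.add_neg (by rw [norm_mul_ofReal]; linarith) e3
    rw [e6, hQ, T.add_add _ _ _ (by rw [norm_neg, norm_mul_ofReal, norm_mul_ofReal]; linarith)]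
    congr 1
    push_cast
    ring

/-- uniqueness of straight paths -/
theorem TS.Path.uniq {W : ℂ} {I : Set ℝ} (hI : I.OrdConnected) {z z' : ℝ → X} (h : T.Path W I z)
    (h' : T.Path W I z') {s₀ s : ℝ} (hs₀ : s₀ ∈ I) (h0 : z s₀ = z' s₀) (hs : s ∈ I) : z s = z' s := by
  refine (prop_const hI (fun u => z u = z' u) ?_ hs₀ hs).1 h0
  intro u hu
  obtain ⟨ε, hε, h1⟩ := h u hu
  obtain ⟨ε', hε', h1'⟩ := h' u hu
  obtain ⟨δ₁, hδ₁, hδ₁', h2⟩ := exists_small W (lt_min hε hε') (half_pos (T.rho_pos (z u)))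
  obtain ⟨δ₂, hδ₂, hδ₂', h3⟩ := exists_small W hδ₁ (half_pos (T.rho_pos (z' u)))
  refine ⟨δ₂, hδ₂, fun u' hu' huu => ?_⟩
  have e0 : |u' - u| < min ε ε' := huu.trans_le (hδ₂'.trans hδ₁')
  have e1 := h1 u' hu' (e0.trans_le (min_le_left _ _))
  have e2 := h1' u' hu' (e0.trans_le (min_le_right _ _))
  constructor
  · intro hQ
    rw [e1, e2, hQ]
  · intro hQ
    have e3 : |u' - u| * ‖W‖ < T.rho (z u) / 2 := h2 _ (huu.trans_le hδ₂')
    have e4 : |u' - u| * ‖W‖ < T.rho (z' u) / 2 := h3 _ huu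
    have e5 := T.add_neg (by rw [norm_mul_ofReal]; linarith) e1
    have e6 := T.add_neg (by rw [norm_mul_ofReal]; linarith) e2
    rw [e5, e6, hQ]

/-- positive lower bound of the radius on a compact path -/
theorem TS.Path.rho_bound {W : ℂ} {a b : ℝ} {z : ℝ → X} (h : T.Path W (Icc a b) z) :
    ∃ r > 0, ∀ s ∈ Icc a b, r ≤ T.rho (z s) := by
  refine isCompact_Icc.induction_on (p := fun S => ∃ r > 0, ∀ s ∈ S, r ≤ T.rho (z s)) ?_ ?_ ?_ ?_
  · exact ⟨1, one_pos, fun s hs => absurd hs (notMem_empty s)⟩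
  · rintro S S' hS ⟨r, hr, h1⟩
    exact ⟨r, hr, fun s hs => h1 s (hS hs)⟩
  · rintro S S' ⟨r, hr, h1⟩ ⟨r', hr', h1'⟩
    refine ⟨min r r', lt_min hr hr', fun s hs => ?_⟩
    rcases hs with hs | hs
    · exact (min_le_left _ _).trans (h1 s hs)
    · exact (min_le_right _ _).trans (h1' s hs)
  · intro s hs
    obtain ⟨ε, hε, h1⟩ := h s hs
    obtain ⟨δ, hδ, hδ', h2⟩ := exists_small W hε (half_pos (T.rho_pos (z s)))
    refine ⟨{s' | s' ∈ Icc a b ∧ |s' - s| < δ}, ?_, T.rho (z s) / 2, half_pos (T.rho_pos _), ?_⟩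
    · rw [mem_nhdsWithin]
      refine ⟨Metric.ball s δ, Metric.isOpen_ball, Metric.mem_ball_self hδ, ?_⟩
      rintro s' ⟨h3, h4⟩
      exact ⟨h4, by rwa [Metric.mem_ball, Real.dist_eq] at h3⟩
    · rintro s' ⟨h3, h4⟩
      have h5 := h2 _ h4
      rw [h1 s' h3 (h4.trans_le hδ')]
      have h6 := T.rho_add (z s) (((s' - s : ℝ) : ℂ) * W) (by rw [norm_mul_ofReal]; linarith [T.rho_pos (z s)])
      rw [norm_mul_ofReal] at h6
      linarith

/-- parallel translation of a path -/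
theorem TS.Path.shift {W : ℂ} {I : Set ℝ} {z : ℝ → X} (h : T.Path W I z) (u : ℂ)
    (hu : ∀ s ∈ I, ‖u‖ < T.rho (z s)) : T.Path W I (fun s => T.add (z s) u) := by
  intro s hs
  obtain ⟨ε, hε, h1⟩ := h s hs
  obtain ⟨δ, hδ, hδ', h2⟩ := exists_small W hε (sub_pos.2 (hu s hs))
  refine ⟨δ, hδ, fun s' hs' hss => ?_⟩
  have h3 := h2 _ hss
  show T.add (z s') u = T.add (T.add (z s) u) (((s' - s : ℝ) : ℂ) * W)
  rw [h1 s' hs' (hss.trans_le hδ'), T.add_add _ _ _ (by rw [norm_mul_ofReal]; linarith),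
    T.add_add _ _ _ (by rw [norm_mul_ofReal]; linarith), add_comm]

/-- two paths with the same velocity that meet are one path -/
theorem TS.Path.glue {W : ℂ} {a b c : ℝ} (hab : a ≤ b) (hbc : b ≤ c) {y y' : ℝ → X} (h : T.Path W (Icc a b) y)
    (h' : T.Path W (Icc b c) y') (hb : y b = y' b) :
    T.Path W (Icc a c) (fun s => if s ≤ b then y s else y' s) := by
  intro s hs
  rcases lt_trichotomy s b with hsb | hsb | hsb
  · obtain ⟨ε, hε, h1⟩ := h s ⟨hs.1, hsb.le⟩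
    refine ⟨min ε (b - s), lt_min hε (by linarith), fun s' hs' hss => ?_⟩
    have h2 : s' ≤ b := by
      have := (abs_lt.1 (hss.trans_le (min_le_right _ _))).2
      linarith
    simp only [h2, hsb.le, if_true]
    exact h1 s' ⟨hs'.1, h2⟩ (hss.trans_le (min_le_left _ _))
  · subst hsb
    obtain ⟨ε, hε, h1⟩ := h s ⟨hs.1, le_rfl⟩
    obtain ⟨ε', hε', h1'⟩ := h' s ⟨le_rfl, hs.2⟩
    refine ⟨min ε ε', lt_min hε hε', fun s' hs' hss => ?_⟩
    simp only [le_refl, if_true]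
    by_cases h2 : s' ≤ s
    · simp only [h2, if_true]
      exact h1 s' ⟨hs'.1, h2⟩ (hss.trans_le (min_le_left _ _))
    · simp only [h2, if_false]
      rw [hb]
      exact h1' s' ⟨by linarith, hs'.2⟩ (hss.trans_le (min_le_right _ _))
  · obtain ⟨ε, hε, h1⟩ := h' s ⟨hsb.le, hs.2⟩
    refine ⟨min ε (s - b), lt_min hε (by linarith), fun s' hs' hss => ?_⟩
    have h2 : ¬ s' ≤ b := by
      have := (abs_lt.1 (hss.trans_le (min_le_right _ _))).1
      push Not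
      linarith
    simp only [h2, not_le.2 hsb, if_false]
    exact h1 s' ⟨by linarith, hs'.2⟩ (hss.trans_le (min_le_left _ _))

/-- change of the parameter -/
theorem TS.Path.comp {W : ℂ} {I J : Set ℝ} {z : ℝ → X} (h : T.Path W I z) (c d : ℝ)
    (hJ : ∀ s ∈ J, c * s + d ∈ I) : T.Path ((c : ℂ) * W) J (fun s => z (c * s + d)) := by
  intro s hs
  obtain ⟨ε, hε, h1⟩ := h _ (hJ s hs)
  refine ⟨ε / (|c| + 1), by positivity, fun s' hs' hss => ?_⟩
  have h2 : |c * s' + d - (c * s + d)| < ε := by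
    rw [show c * s' + d - (c * s + d) = c * (s' - s) by ring, abs_mul]
    rw [lt_div_iff₀ (by positivity)] at hss
    nlinarith [abs_nonneg c, abs_nonneg (s' - s)]
  show z (c * s' + d) = _
  rw [h1 _ (hJ s' hs') h2]
  congr 1
  push_cast
  ring

end Pool.Agent.Lib.H32D
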