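import Pool.Agent.Lib.H45Z.TSurf
import Pool.Agent.Lib.H45Z.Surf2
import Pool.Agent.Lib.H25D.Basic
import Pool.Agent.Lib.H23D.Unf

/-!
# The surface of the polygon is connected (MP_273810_co, library H32D, helper32)
-/

open Set Filter Topology Metric

namespace Pool.Agent.Lib.H32D

open Pool.Agent.Lib.H42I (IsPolygon)
open Pool.Agent.H52W (cdet)
open Pool.Agent.Lib.H45Z
open Pool.Agent.Lib.H25D

variable {n N : ℕ} [NeZero N] {P : Set ℂ} {v : ZMod n → ℂ} {kap : ZMod n → ZMod N}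

private theorem cdet_add_smul' (a x u : ℂ) (t : ℝ) : cdet a (x + (t : ℂ) * u) = cdet a x + t * cdet a u := by
  simp only [cdet, Complex.add_re, Complex.add_im, Complex.mul_re, Complex.mul_im, Complex.ofReal_re,
    Complex.ofReal_im]
  ring

private theorem cdet_smul' (a u : ℂ) (t : ℝ) : cdet a ((t : ℂ) * u) = t * cdet a u := by
  simp only [cdet, Complex.mul_re, Complex.mul_im, Complex.ofReal_re, Complex.ofReal_im]
  ring

private theorem cdet_self' (a : ℂ) : cdet a a = 0 := by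
  simp only [cdet]; ring

/-- joined by a chain of segments -/
def Jn (hP : IsPolygon P v) (hk : Par v kap) (x y : SPt P v N) : Prop :=
  Relation.ReflTransGen (fun a b => ∃ W, (PS hP hk).Seg a W b) x y

theorem Jn.symm {hP : IsPolygon P v} {hk : Par v kap} {x y : SPt P v N} (h : Jn hP hk x y) : Jn hP hk y x := by
  unfold Jn at h ⊢
  induction h with
  | refl => exact Relation.ReflTransGen.refl
  | tail _ h ih =>
    obtain ⟨W, h⟩ := h
    exact Relation.ReflTransGen.head ⟨-W, TSurf.seg_symm h⟩ ih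

theorem Jn.trans {hP : IsPolygon P v} {hk : Par v kap} {x y z : SPt P v N} (h : Jn hP hk x y) (h' : Jn hP hk y z) :
    Jn hP hk x z := Relation.ReflTransGen.trans h h'

theorem jn_refl {hP : IsPolygon P v} {hk : Par v kap} (x : SPt P v N) : Jn hP hk x x :=
  Relation.ReflTransGen.refl

theorem jn_add {hP : IsPolygon P v} {hk : Par v kap} (x : SPt P v N) {u : ℂ} (hu : ‖u‖ < rho2 v x.p) :
    Jn hP hk x (sadd hP hk x u) :=
  Relation.ReflTransGen.single ⟨u, TSurf.seg_add (M := PS hP hk) hu⟩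

theorem int_nv (hP : IsPolygon P v) {z : ℂ} (hz : z ∈ interior P) (i : ZMod n) : z ≠ v i := by
  rintro rfl
  exact (side_mem hP (left_mem_segment ℝ (v i) (v (i + 1)))).2 hz

/-- a state in the interior -/
def ipt (hP : IsPolygon P v) {z : ℂ} (hz : z ∈ interior P) (g : Fr N) : SPt P v N :=
  ⟨z, g, interior_subset hz, int_nv hP hz, fun h => absurd hz h⟩

theorem sadd_ipt (hP : IsPolygon P v) (hk : Par v kap) (x : SPt P v N) {u : ℂ} (hu : ‖u‖ < rho2 v x.p)
    (h : x.p + fr x.g u ∈ interior P) : sadd hP hk x u = ipt hP h x.g := by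
  obtain ⟨h1, h2⟩ := sadd_int hP hk x u hu h
  exact SPt.ext h1 h2

/-- the same frame -/
theorem jn_int (hP : IsPolygon P v) (hk : Par v kap) (g : Fr N) {z z' : ℂ} (hz : z ∈ interior P)
    (hz' : z' ∈ interior P) : Jn hP hk (ipt hP hz g) (ipt hP hz' g) := by
  have key : ∀ a ∈ interior P, ∀ᶠ b in 𝓝[interior P] a, ∀ (ha : a ∈ interior P) (hb : b ∈ interior P),
      Jn hP hk (ipt hP ha g) (ipt hP hb g) := by
    intro a ha
    obtain ⟨r, hr, hball⟩ := Metric.isOpen_iff.1 (isOpen_interior (s := P)) a ha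
    have hpos : 0 < rho2 v a := rho2_pos hP a (int_nv hP ha)
    rw [eventually_nhdsWithin_iff, Metric.eventually_nhds_iff]
    refine ⟨min r (rho2 v a), lt_min hr hpos, fun b hb hbI ha' hb' => ?_⟩
    have hd : ‖fri g (b - a)‖ < rho2 v a := by
      rw [← norm_fr g, fr_fri, ← dist_eq_norm]
      exact hb.trans_le (min_le_right _ _)
    have h1 : (ipt hP ha' g).p + fr (ipt hP ha' g).g (fri g (b - a)) = b := by
      show a + fr g (fri g (b - a)) = b
      rw [fr_fri]; ring
    have h2 := sadd_ipt hP hk (ipt hP ha' g) (u := fri g (b - a)) hd (by rw [h1]; exact hb')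
    have h3 := jn_add (hP := hP) (hk := hk) (ipt hP ha' g) (u := fri g (b - a)) hd
    rw [h2] at h3
    convert h3 using 1
    exact SPt.ext h1.symm rfl
  exact hP.connected.isPreconnected.induction₂
    (fun a b => ∀ (ha : a ∈ interior P) (hb : b ∈ interior P), Jn hP hk (ipt hP ha g) (ipt hP hb g))
    key (fun a b c _ hb _ h1 h2 ha hc => (h1 ha hb).trans (h2 hb hc)) (fun a b _ _ h1 hb ha => (h1 ha hb).symm)
    hz hz' hz hz'

/-- points near a point of an open side -/
theorem side_near (hP : IsPolygon P v) {i : ZMod n} {p : ℂ} (hp : p ∈ openSegment ℝ (v i) (v (i + 1))) :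
    ∃ w w' : ℂ, ‖w‖ < rho2 v p ∧ ‖w'‖ < rho2 v p ∧ p + w ∈ interior P ∧ p + w' ∉ P ∧
      ∀ (kap : ZMod n → ZMod N), Par v kap → mir v kap i (p + w') ∈ interior P := by
  obtain ⟨hns, hpos, σ, hσ, hcut⟩ := ns_open hP hp
  have hne := Pool.Agent.H52W.side_ne_of_polygon hP i
  set d : ℂ := v (i + 1) - v i with hd
  have hd0 : d ≠ 0 := sub_ne_zero.2 (Ne.symm hne)
  have hdn : 0 < ‖d‖ := norm_pos_iff.2 hd0
  have hseg := openSegment_subset_segment ℝ _ _ hp
  have hp0 : cdet d (p - v i) = 0 := by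
    obtain ⟨s, _, _, hs⟩ := Pool.Agent.H52W.mem_segment_param hseg
    have e : p - v i = (s : ℂ) * d := by rw [hs]; ring
    rw [e, cdet_smul', cdet_self', mul_zero]
  set t : ℝ := rho2 v p / (2 * ‖d‖) with ht
  have ht0 : 0 < t := by positivity
  have hσa : |σ| = 1 := by rcases hσ with rfl | rfl <;> simp
  have hσ2 : σ * σ = 1 := by rcases hσ with rfl | rfl <;> norm_num
  have hn : ∀ τ : ℝ, |τ| = 1 → ‖(((τ * t : ℝ)) : ℂ) * (Complex.I * d)‖ < rho2 v p := by
    intro τ hτ
    rw [norm_mul, Complex.norm_real, Real.norm_eq_abs, abs_mul, hτ, abs_of_pos ht0, norm_mul, Complex.norm_I,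
      one_mul, one_mul, ht]
    field_simp
    linarith
  have hb : ∀ w : ℂ, ‖w‖ < rho2 v p → p + w ∈ ball p (rho2 v p) := by
    intro w hw
    rw [mem_ball, dist_eq_norm, add_sub_cancel_left]; exact hw
  have hc : ∀ τ : ℝ, cdet d (p + (((τ * t : ℝ)) : ℂ) * (Complex.I * d) - v i) = τ * t * ‖d‖ ^ 2 := by
    intro τ
    have e : p + (((τ * t : ℝ)) : ℂ) * (Complex.I * d) - v i = (p - v i) + (((τ * t : ℝ)) : ℂ) * (Complex.I * d) := by
      ring
    rw [e, cdet_add_smul', hp0, zero_add, ← Complex.normSq_eq_norm_sq, Complex.normSq_apply]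
    simp only [cdet, Complex.mul_re, Complex.mul_im, Complex.I_re, Complex.I_im]
    ring
  have hm2 : 0 < ‖d‖ ^ 2 := by positivity
  refine ⟨(((σ * t : ℝ)) : ℂ) * (Complex.I * d), (((-σ * t : ℝ)) : ℂ) * (Complex.I * d), hn σ hσa,
    hn (-σ) (by rw [abs_neg]; exact hσa), ?_, ?_, ?_⟩
  · refine (hcut _ (hb _ (hn σ hσa))).1 ?_
    rw [hc]
    have : σ * (σ * t * ‖d‖ ^ 2) = t * ‖d‖ ^ 2 := by linear_combination (t * ‖d‖ ^ 2) * hσ2
    rw [this]; positivity
  · refine (hcut _ (hb _ (hn (-σ) (by rw [abs_neg]; exact hσa)))).2.2 ?_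
    rw [hc]
    have : σ * (-σ * t * ‖d‖ ^ 2) = -(t * ‖d‖ ^ 2) := by linear_combination (-t * ‖d‖ ^ 2) * hσ2
    rw [this]
    have := mul_pos ht0 hm2
    linarith
  · intro kap hk
    refine (hcut _ ?_).1 ?_
    · have h1 : mir v kap i p = p := mir_side hk i p hseg
      rw [mem_ball, dist_eq_norm]
      have h2 := norm_mir v kap i (p + (((-σ * t : ℝ)) : ℂ) * (Complex.I * d)) p
      rw [h1, add_sub_cancel_left] at h2
      rw [h2]
      exact hn (-σ) (by rw [abs_neg]; exact hσa)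
    · rw [cdet_mir hk, hc]
      have : σ * -(-σ * t * ‖d‖ ^ 2) = t * ‖d‖ ^ 2 := by linear_combination (t * ‖d‖ ^ 2) * hσ2
      rw [this]; positivity

/-- crossing a side -/
theorem jn_cross0 (hP : IsPolygon P v) (hk : Par v kap) (i : ZMod n) (g : Fr N) (hg : g.2 = false) :
    ∃ (z z' : ℂ) (hz : z ∈ interior P) (hz' : z' ∈ interior P),
      Jn hP hk (ipt hP hz g) (ipt hP hz' (rf kap i g)) := by
  have hp : (1 / 2 : ℝ) • v i + (1 / 2 : ℝ) • v (i + 1) ∈ openSegment ℝ (v i) (v (i + 1)) :=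
    ⟨1 / 2, 1 / 2, by norm_num, by norm_num, by norm_num, rfl⟩
  set p : ℂ := (1 / 2 : ℝ) • v i + (1 / 2 : ℝ) • v (i + 1) with hpd
  obtain ⟨w, w', hw, hw', h1, h2, h3⟩ := side_near (N := N) hP hp
  have hps := side_mem hP (openSegment_subset_segment ℝ _ _ hp)
  let x₀ : SPt P v N := ⟨p, g, hps.1, fun k h => Pool.Agent.H52W.not_vertex_of_open hP i p hp k h.symm, fun _ => hg⟩
  have hu : ‖fri g w‖ < rho2 v x₀.p := by rw [← norm_fr g, fr_fri]; exact hw
  have hu' : ‖fri g w'‖ < rho2 v x₀.p := by rw [← norm_fr g, fr_fri]; exact hw'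
  have e1 : x₀.p + fr x₀.g (fri g w) = p + w := by show p + fr g (fri g w) = _; rw [fr_fri]
  have e2 : x₀.p + fr x₀.g (fri g w') = p + w' := by show p + fr g (fri g w') = _; rw [fr_fri]
  have j1 := jn_add (hP := hP) (hk := hk) x₀ hu
  have j2 := jn_add (hP := hP) (hk := hk) x₀ hu'
  rw [sadd_ipt hP hk x₀ hu (by rw [e1]; exact h1)] at j1
  obtain ⟨h4, h5⟩ := sadd_out hP hk x₀ _ hu' (by rw [e2]; exact h2)
  have hns : ns v x₀.p = i := (ns_open hP hp).1
  rw [hns] at h4 h5
  have h6 : (sadd hP hk x₀ (fri g w')).p ∈ interior P := by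
    rw [h4, ← mir_add, e2]
    exact h3 kap hk
  have h7 : sadd hP hk x₀ (fri g w') = ipt hP h6 (rf kap i g) := SPt.ext rfl h5
  rw [h7] at j2
  exact ⟨_, _, _, _, j1.symm.trans j2⟩

theorem jn_cross (hP : IsPolygon P v) (hk : Par v kap) (i : ZMod n) (g : Fr N) {z z' : ℂ} (hz : z ∈ interior P)
    (hz' : z' ∈ interior P) : Jn hP hk (ipt hP hz g) (ipt hP hz' (rf kap i g)) := by
  cases hg : g.2
  · obtain ⟨a, b, ha, hb, h⟩ := jn_cross0 hP hk i g hg
    exact ((jn_int hP hk g hz ha).trans h).trans (jn_int hP hk _ hb hz')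
  · obtain ⟨a, b, ha, hb, h⟩ := jn_cross0 hP hk i (rf kap i g) (by show (!g.2) = false; rw [hg]; rfl)
    rw [rf_rf] at h
    exact ((jn_int hP hk g hz hb).trans h.symm).trans (jn_int hP hk _ ha hz')

/-- all frames -/
theorem jn_all (hP : IsPolygon P v) (hk : Par v kap) (hN : N.Prime) (hodd : N ≠ 2)
    (hturn : ∃ i, kap (i + 1) ≠ kap i) (g g' : Fr N) {z z' : ℂ} (hz : z ∈ interior P) (hz' : z' ∈ interior P) :
    Jn hP hk (ipt hP hz g) (ipt hP hz' g') := by
  have : Fact N.Prime := ⟨hN⟩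
  obtain ⟨i, hi⟩ := hturn
  set D : ZMod N := 2 * (kap (i + 1) - kap i) with hD
  have h2 : (2 : ZMod N) ≠ 0 := by
    intro h
    have h3 : ((2 : ℕ) : ZMod N) = 0 := by exact_mod_cast h
    rw [ZMod.natCast_eq_zero_iff] at h3
    exact hodd ((Nat.prime_dvd_prime_iff_eq hN Nat.prime_two).1 h3)
  have hD0 : D ≠ 0 := mul_ne_zero h2 (sub_ne_zero.2 hi)
  -- rotation by D
  have hrot : ∀ (a : ZMod N) (b : Bool) (k : ℕ), Jn hP hk (ipt hP hz (a, b)) (ipt hP hz (a + k * D, b)) := by
    intro a b k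
    induction k with
    | zero => simp only [Nat.cast_zero, zero_mul, add_zero]; exact jn_refl _
    | succ k ih =>
      have h3 := (jn_cross hP hk i (a + k * D, b) hz hz).trans (jn_cross hP hk (i + 1) _ hz hz)
      have h4 : rf kap (i + 1) (rf kap i (a + k * D, b)) = (a + ((k + 1 : ℕ) : ZMod N) * D, b) := by
        unfold rf
        ext
        · simp only [hD]; push_cast; ring
        · simp
      rw [h4] at h3
      exact ih.trans h3
  have hsame : ∀ (a a' : ZMod N) (b : Bool), Jn hP hk (ipt hP hz (a, b)) (ipt hP hz (a', b)) := by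
    intro a a' b
    have h3 := hrot a b ((a' - a) * D⁻¹).val
    have h4 : a + ((((a' - a) * D⁻¹).val : ℕ) : ZMod N) * D = a' := by
      rw [ZMod.natCast_zmod_val]
      field_simp
      ring
    rwa [h4] at h3
  obtain ⟨a, b⟩ := g
  obtain ⟨a', b'⟩ := g'
  by_cases hb : b = b'
  · subst hb
    exact (hsame a a' b).trans (jn_int hP hk _ hz hz')
  · have h3 := (hsame a (2 * kap i - a') b).trans (jn_cross hP hk i _ hz hz')
    have h4 : rf kap i (2 * kap i - a', b) = (a', b') := by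
      unfold rf
      ext
      · simp
      · simp only
        cases b <;> cases b' <;> simp at hb ⊢
    rwa [h4] at h3

/-- every state is joined to a state in the interior with the same frame -/
theorem jn_to_int (hP : IsPolygon P v) (hk : Par v kap) (x : SPt P v N) :
    ∃ (z : ℂ) (hz : z ∈ interior P), Jn hP hk x (ipt hP hz x.g) := by
  by_cases hx : x.p ∈ interior P
  · exact ⟨x.p, hx, jn_refl _⟩
  · have h1 : x.p ∈ frontier P := ⟨subset_closure x.mem, hx⟩
    rw [hP.frontier_eq, mem_iUnion] at h1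
    obtain ⟨i, hi⟩ := h1
    have hop : x.p ∈ openSegment ℝ (v i) (v (i + 1)) := by
      rw [← insert_endpoints_openSegment] at hi
      rcases hi with h | h | h
      · exact absurd h (x.nv i)
      · exact absurd h (x.nv (i + 1))
      · exact h
    obtain ⟨w, w', hw, hw', h2, -, -⟩ := side_near (N := N) hP hop
    have hu : ‖fri x.g w‖ < rho2 v x.p := by rw [← norm_fr x.g, fr_fri]; exact hw
    have j1 := jn_add (hP := hP) (hk := hk) x hu
    rw [sadd_ipt hP hk x hu (by rw [fr_fri]; exact h2)] at j1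
    exact ⟨_, _, j1⟩

theorem conn (hP : IsPolygon P v) (hk : Par v kap) (hN : N.Prime) (hodd : N ≠ 2)
    (hturn : ∃ i, kap (i + 1) ≠ kap i) : (PS hP hk : TSurf (SPt P v N)).Conn := by
  intro x y
  obtain ⟨z, hz, h1⟩ := jn_to_int hP hk x
  obtain ⟨z', hz', h2⟩ := jn_to_int hP hk y
  exact (h1.trans (jn_all hP hk hN hodd hturn _ _ hz hz')).trans h2.symm

end Pool.Agent.Lib.H32D
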