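import Pool.Agent.Lib.H32D.CDefs

set_option autoImplicit false
set_option linter.unusedSectionVars false

/-!
# H32D, chunk C1 (M): lifts of simplices

For a face `s` of `K` and `w = (a, p)` with `a ∈ s` the unique lift is `{(b, μ b a p) | b ∈ s}` (with `μ a a` read as the identity: the element over `a` is
`(a, p)`). That it is a face: for `b ≠ c` in `s`, both `≠ a`: `μ b a p = μ b c (μ c a p)`, from `Flat.tri` (`{b, c, a} ⊆ s`, a face by `down`);
for `c = a` it is the definition, and `μ a b (μ b a p) = p` by `Flat.inv`. Uniqueness: an element `(b, q)` of a lift through `(a, p)` has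
`q = μ b a p`.

Auxiliary names start with `c1_`.
-/

open Finset

namespace H32D

variable {V : Type} [Fintype V] [DecidableEq V] {K : Cpx V} {P : Type} [Fintype P] [DecidableEq P] {μ : V → V → Equiv.Perm P}

theorem c1_mem (s : Finset (V × P)) : s ∈ (coverCpx K μ).faces ↔ s.image Prod.fst ∈ K.faces ∧
    ∀ x ∈ s, ∀ y ∈ s, x ≠ y → x.1 ≠ y.1 ∧ x.2 = μ x.1 y.1 y.2 := by
  unfold coverCpx
  simp only [Finset.mem_filter, Finset.mem_univ, true_and]

theorem c1_inv (hμ : Flat K μ) {a b : V} {p q : P} (h : p = μ a b q) : q = μ b a p := by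
  rw [hμ.inv a b, h]
  exact ((μ a b).symm_apply_apply q).symm

theorem cover_adj (hμ : Flat K μ) (x y : V × P) : (coverCpx K μ).graph.Adj x y ↔ K.graph.Adj x.1 y.1 ∧ x.2 = μ x.1 y.1 y.2 := by
  have h1 : ({x, y} : Finset (V × P)).image Prod.fst = {x.1, y.1} := by
    rw [Finset.image_insert, Finset.image_singleton]
  constructor
  · rintro ⟨hxy, hf⟩
    obtain ⟨h2, h3⟩ := (c1_mem _).1 hf
    rw [h1] at h2
    obtain ⟨h4, h5⟩ := h3 x (by simp) y (by simp) hxy
    exact ⟨⟨h4, h2⟩, h5⟩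
  · rintro ⟨⟨h4, h2⟩, h5⟩
    have hxy : x ≠ y := fun h => h4 (by rw [h])
    refine ⟨hxy, (c1_mem _).2 ⟨by rw [h1]; exact h2, ?_⟩⟩
    intro z hz z' hz' hzz
    rw [Finset.mem_insert, Finset.mem_singleton] at hz hz'
    rcases hz with rfl | rfl <;> rcases hz' with rfl | rfl
    · exact absurd rfl hzz
    · exact ⟨h4, h5⟩
    · exact ⟨h4.symm, c1_inv hμ h5⟩
    · exact absurd rfl hzz

/-- The element over `b` of the lift through `(a, p)`. -/
def c1_el (μ : V → V → Equiv.Perm P) (w : V × P) (b : V) : V × P := (b, if b = w.1 then w.2 else μ b w.1 w.2)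

theorem c1_el_self (w : V × P) : c1_el μ w w.1 = w := by
  unfold c1_el
  rw [if_pos rfl]

theorem c1_el_ne {w : V × P} {b : V} (h : b ≠ w.1) : c1_el μ w b = (b, μ b w.1 w.2) := by
  unfold c1_el
  rw [if_neg h]

theorem c1_rel (hμ : Flat K μ) (w : V × P) (s : Finset V) (hs : s ∈ K.faces) (hw : w.1 ∈ s) {b c : V} (hb : b ∈ s) (hc : c ∈ s) (hbc : b ≠ c) :
    (c1_el μ w b).2 = μ b c (c1_el μ w c).2 := by
  by_cases h1 : b = w.1
  · subst h1
    rw [c1_el_self, c1_el_ne (Ne.symm hbc)]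
    exact c1_inv hμ rfl
  · by_cases h2 : c = w.1
    · subst h2
      rw [c1_el_self, c1_el_ne h1]
    · rw [c1_el_ne h1, c1_el_ne h2]
      have h3 : ({b, c, w.1} : Finset V) ∈ K.faces := by
        refine K.down s hs _ ?_ (by simp)
        intro x hx
        simp only [Finset.mem_insert, Finset.mem_singleton] at hx
        rcases hx with rfl | rfl | rfl <;> assumption
      have h4 := hμ.tri b c w.1 hbc h2 h1 h3
      show μ b w.1 w.2 = μ b c (μ c w.1 w.2)
      rw [← h4]
      rfl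

/-- The lift of `s` through `w`. -/
def c1_lift (μ : V → V → Equiv.Perm P) (w : V × P) (s : Finset V) : Finset (V × P) := s.image (c1_el μ w)

theorem c1_lift_image (w : V × P) (s : Finset V) : (c1_lift μ w s).image Prod.fst = s := by
  unfold c1_lift
  rw [Finset.image_image]
  have h : (Prod.fst ∘ c1_el μ w) = id := rfl
  rw [h, Finset.image_id]

theorem c1_lift_mem (w : V × P) (s : Finset V) (hw : w.1 ∈ s) : w ∈ c1_lift μ w s :=
  Finset.mem_image.2 ⟨w.1, hw, c1_el_self w⟩

theorem c1_lift_face (hμ : Flat K μ) (w : V × P) (s : Finset V) (hs : s ∈ K.faces) (hw : w.1 ∈ s) :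
    c1_lift μ w s ∈ (coverCpx K μ).faces := by
  refine (c1_mem _).2 ⟨by rw [c1_lift_image]; exact hs, ?_⟩
  intro x hx y hy hxy
  obtain ⟨b, hb, rfl⟩ := Finset.mem_image.1 hx
  obtain ⟨c, hc, rfl⟩ := Finset.mem_image.1 hy
  have hbc : b ≠ c := fun h => hxy (by rw [h])
  exact ⟨hbc, c1_rel hμ w s hs hw hb hc hbc⟩

/-- The elements of a face through `w`. -/
theorem c1_elem (w : V × P) {t : Finset (V × P)} (ht : t ∈ (coverCpx K μ).faces) (hw : w ∈ t) {x : V × P} (hx : x ∈ t) :
    x = c1_el μ w x.1 := by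
  by_cases h : x = w
  · subst h
    exact (c1_el_self x).symm
  · obtain ⟨h1, h2⟩ := ((c1_mem _).1 ht).2 x hx w hw h
    rw [c1_el_ne h1, ← h2]

theorem c1_unique (w : V × P) {t : Finset (V × P)} (ht : t ∈ (coverCpx K μ).faces) (hw : w ∈ t) :
    t = c1_lift μ w (t.image Prod.fst) := by
  ext x
  constructor
  · intro hx
    exact Finset.mem_image.2 ⟨x.1, Finset.mem_image_of_mem _ hx, (c1_elem w ht hw hx).symm⟩
  · intro hx
    obtain ⟨b, hb, rfl⟩ := Finset.mem_image.1 hx
    obtain ⟨y, hy, rfl⟩ := Finset.mem_image.1 hb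
    rw [← c1_elem w ht hw hy]
    exact hy

theorem cover_lift (hμ : Flat K μ) (w : V × P) (s : Finset V) (hs : s ∈ K.faces) (hw : w.1 ∈ s) :
    ∃! t, t ∈ (coverCpx K μ).faces ∧ w ∈ t ∧ t.image Prod.fst = s := by
  refine ⟨c1_lift μ w s, ⟨c1_lift_face hμ w s hs hw, c1_lift_mem w s hw, c1_lift_image w s⟩, ?_⟩
  rintro t ⟨h1, h2, h3⟩
  rw [c1_unique w h1 h2, h3]

theorem cover_covering (hμ : Flat K μ) [Nonempty P] : IsCovering Prod.fst (coverCpx K μ) K where
  surj := Prod.fst_surjective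
  map := by
    intro s hs
    obtain ⟨h1, h2⟩ := (c1_mem s).1 hs
    refine ⟨h1, ?_⟩
    intro x hx y hy hxy
    by_contra hne
    exact (h2 x hx y hy hne).1 hxy
  lift := fun w s hs hw => cover_lift hμ w s hs hw

end H32D
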