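import Pool.Agent.Lib.H32D.C1

set_option autoImplicit false
set_option linter.unusedSectionVars false

/-!
# H32D, chunk C2 (M): counting simplices

Every face `s` of `K` has exactly `card P` lifts: fix `a ∈ s`; the lifts correspond to the element `(a, p)` over `a` (`cover_lift`); a lift has the same
cardinality as `s` (`Prod.fst` is injective on it). So for every `k` the number of faces of cardinality `k` is multiplied by `card P`, and
the Euler characteristic too.

Auxiliary names start with `c2_`.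
-/

open Finset

namespace H32D

variable {V : Type} [Fintype V] [DecidableEq V] {K : Cpx V} {P : Type} [Fintype P] [DecidableEq P] {μ : V → V → Equiv.Perm P}

theorem cover_card_image (s : Finset (V × P)) (hs : s ∈ (coverCpx K μ).faces) : (s.image Prod.fst).card = s.card := by
  refine Finset.card_image_of_injOn ?_
  intro x hx y hy hxy
  by_contra hne
  exact (((c1_mem s).1 hs).2 x hx y hy hne).1 hxy

/-- Two faces through the same vertex with the same projection are equal. -/
theorem c2_inj {s t : Finset (V × P)} (hs : s ∈ (coverCpx K μ).faces) (ht : t ∈ (coverCpx K μ).faces) {w : V × P} (hws : w ∈ s) (hwt : w ∈ t)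
    (h : s.image Prod.fst = t.image Prod.fst) : s = t := by
  rw [c1_unique w hs hws, c1_unique w ht hwt, h]

/-- The number of lifts of a face. -/
theorem c2_fiber (hμ : Flat K μ) (s : Finset V) (hs : s ∈ K.faces) :
    ((coverCpx K μ).faces.filter (fun t => t.image Prod.fst = s)).card = Fintype.card P := by
  obtain ⟨a, ha⟩ := K.nonempty s hs
  have h : (coverCpx K μ).faces.filter (fun t => t.image Prod.fst = s) = (univ : Finset P).image (fun p => c1_lift μ (a, p) s) := by
    ext t
    rw [Finset.mem_filter, Finset.mem_image]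
    constructor
    · rintro ⟨h1, h2⟩
      have ha' : a ∈ t.image Prod.fst := by rw [h2]; exact ha
      obtain ⟨⟨b, p⟩, hx, hb⟩ := Finset.mem_image.1 ha'
      have hb' : b = a := hb
      subst hb'
      refine ⟨p, Finset.mem_univ _, ?_⟩
      rw [← h2]
      exact (c1_unique (b, p) h1 hx).symm
    · rintro ⟨p, -, rfl⟩
      exact ⟨c1_lift_face hμ (a, p) s hs ha, c1_lift_image (a, p) s⟩
  rw [h, Finset.card_image_of_injective, Finset.card_univ]
  intro p q hpq
  have h1 : (a, p) ∈ c1_lift μ (a, q) s := by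
    have h2 : c1_lift μ (a, p) s = c1_lift μ (a, q) s := hpq
    rw [← h2]
    exact c1_lift_mem (a, p) s ha
  obtain ⟨b, hb, hb2⟩ := Finset.mem_image.1 h1
  have hba : b = a := congrArg Prod.fst hb2
  subst hba
  have h3 : c1_el μ (b, q) b = (b, q) := c1_el_self (b, q)
  rw [h3] at hb2
  exact (congrArg Prod.snd hb2).symm

theorem cover_euler (hμ : Flat K μ) : (coverCpx K μ).euler = Fintype.card P * K.euler := by
  unfold Cpx.euler
  have h1 : ∀ t ∈ (coverCpx K μ).faces, t.image Prod.fst ∈ K.faces := fun t ht => ((c1_mem t).1 ht).1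
  rw [← Finset.sum_fiberwise_of_maps_to h1, Finset.mul_sum]
  refine Finset.sum_congr rfl fun s hs => ?_
  have h2 : ∀ t ∈ (coverCpx K μ).faces.filter (fun t => t.image Prod.fst = s), (-1 : ℤ) ^ (t.card + 1) = (-1 : ℤ) ^ (s.card + 1) := by
    intro t ht
    obtain ⟨h3, h4⟩ := Finset.mem_filter.1 ht
    rw [← cover_card_image t h3, h4]
  rw [Finset.sum_congr rfl h2, Finset.sum_const, c2_fiber hμ s hs, nsmul_eq_mul]

theorem cover_card_le (h : ∀ s ∈ K.faces, s.card ≤ 3) : ∀ s ∈ (coverCpx K μ).faces, s.card ≤ 3 := by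
  intro s hs
  rw [← cover_card_image s hs]
  exact h _ ((c1_mem s).1 hs).1

/-- Faces above a larger face. -/
theorem c2_extend {s : Finset (V × P)} (hs : s ∈ (coverCpx K μ).faces) {t : Finset V} (hst : s.image Prod.fst ⊆ t)
    {w : V × P} (hw : w ∈ s) : s ⊆ c1_lift μ w t := by
  intro x hx
  exact Finset.mem_image.2 ⟨x.1, hst (Finset.mem_image_of_mem _ hx), (c1_elem w hs hw hx).symm⟩

theorem cover_pure (hμ : Flat K μ) (h : ∀ s ∈ K.faces, ∃ t ∈ K.faces, s ⊆ t ∧ t.card = 3) :
    ∀ s ∈ (coverCpx K μ).faces, ∃ t ∈ (coverCpx K μ).faces, s ⊆ t ∧ t.card = 3 := by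
  intro s hs
  obtain ⟨t, ht, hst, hc⟩ := h _ ((c1_mem s).1 hs).1
  obtain ⟨w, hw⟩ := (coverCpx K μ).nonempty s hs
  have hwt : w.1 ∈ t := hst (Finset.mem_image_of_mem _ hw)
  have hf := c1_lift_face hμ w t ht hwt
  refine ⟨c1_lift μ w t, hf, c2_extend hs hst hw, ?_⟩
  rw [← cover_card_image _ hf, c1_lift_image, hc]

theorem cover_edge (hμ : Flat K μ) (h : ∀ e ∈ K.faces, e.card = 2 → (K.faces.filter (fun t => e ⊆ t ∧ t.card = 3)).card = 2) :
    ∀ e ∈ (coverCpx K μ).faces, e.card = 2 → ((coverCpx K μ).faces.filter (fun t => e ⊆ t ∧ t.card = 3)).card = 2 := by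
  intro e he hc
  obtain ⟨w, hw⟩ := (coverCpx K μ).nonempty e he
  have h1 : (e.image Prod.fst).card = 2 := by rw [cover_card_image e he, hc]
  rw [← h _ ((c1_mem e).1 he).1 h1]
  refine Finset.card_bij (fun t _ => t.image Prod.fst) ?_ ?_ ?_
  · intro t ht
    obtain ⟨h2, h3, h4⟩ := Finset.mem_filter.1 ht
    exact Finset.mem_filter.2 ⟨((c1_mem t).1 h2).1, Finset.image_subset_image h3, by rw [cover_card_image t h2, h4]⟩
  · intro t ht t' ht' htt
    obtain ⟨h2, h3, -⟩ := Finset.mem_filter.1 ht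
    obtain ⟨h2', h3', -⟩ := Finset.mem_filter.1 ht'
    exact c2_inj h2 h2' (h3 hw) (h3' hw) htt
  · intro t ht
    obtain ⟨h2, h3, h4⟩ := Finset.mem_filter.1 ht
    have hwt : w.1 ∈ t := h3 (Finset.mem_image_of_mem _ hw)
    have hf := c1_lift_face hμ w t h2 hwt
    refine ⟨c1_lift μ w t, Finset.mem_filter.2 ⟨hf, c2_extend he h3 hw, ?_⟩, c1_lift_image w t⟩
    rw [← cover_card_image _ hf, c1_lift_image, h4]

end H32D
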