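import Pool.Agent.Lib.H32D.C1

set_option autoImplicit false
set_option linter.unusedSectionVars false

/-!
# H32D, chunk C3 (M): links and orientation of the cover

The link of `w = (v, p)` in the cover is isomorphic to the link of `v` in `K` by `x ↦ x.1`: the neighbour of `w` over `a` is `(a, μ a v p)`, and
`{w, (a, μ a v p), (b, μ b v p)}` is a face iff `{v, a, b}` is (`cover_lift`). Connectedness is transported
(`SimpleGraph.Iso.connected_iff`). Orientation: `O' x y z` iff `O x.1 y.1 z.1` and `{x, y, z}` is a face of the cover.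

Auxiliary names start with `c3_`.
-/

open Finset

namespace H32D

variable {V : Type} [Fintype V] [DecidableEq V] {K : Cpx V} {P : Type} [Fintype P] [DecidableEq P] {μ : V → V → Equiv.Perm P}

theorem c3_image (x y z : V × P) : ({x, y, z} : Finset (V × P)).image Prod.fst = {x.1, y.1, z.1} := by
  rw [Finset.image_insert, Finset.image_insert, Finset.image_singleton]

theorem c3_nb (hμ : Flat K μ) {w x : V × P} (h : (coverCpx K μ).graph.Adj w x) : x = c1_el μ w x.1 := by
  obtain ⟨h1, h2⟩ := (cover_adj hμ w x).1 h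
  have h3 : x.1 ≠ w.1 := fun h => h1.1 h.symm
  rw [c1_el_ne h3, ← c1_inv hμ h2]

theorem c3_adj (hμ : Flat K μ) (w : V × P) {a : V} (h : K.graph.Adj w.1 a) : (coverCpx K μ).graph.Adj w (c1_el μ w a) := by
  have h3 : a ≠ w.1 := fun h' => h.1 h'.symm
  refine (cover_adj hμ w _).2 ⟨h, ?_⟩
  rw [c1_el_ne h3]
  exact c1_inv hμ rfl

/-- The isomorphism of the links. -/
def c3_iso (hμ : Flat K μ) (w : V × P) : (coverCpx K μ).link w ≃g K.link w.1 where
  toFun x := ⟨x.1.1, ((cover_adj hμ w x.1).1 x.2).1⟩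
  invFun a := ⟨c1_el μ w a.1, c3_adj hμ w a.2⟩
  left_inv := fun x => Subtype.ext (c3_nb hμ x.2).symm
  right_inv := fun a => Subtype.ext rfl
  map_rel_iff' := by
    rintro ⟨x, hx⟩ ⟨y, hy⟩
    show (_ ≠ _ ∧ ({w.1, x.1, y.1} : Finset V) ∈ K.faces) ↔ (_ ≠ _ ∧ ({w, x, y} : Finset (V × P)) ∈ (coverCpx K μ).faces)
    constructor
    · rintro ⟨h1, h2⟩
      refine ⟨fun h => h1 (Subtype.ext (congrArg (fun z : {z // (coverCpx K μ).graph.Adj w z} => z.1.1) h)), ?_⟩
      have h3 := c1_lift_face hμ w _ h2 (by simp)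
      have h4 : c1_lift μ w {w.1, x.1, y.1} = {w, x, y} := by
        unfold c1_lift
        rw [Finset.image_insert, Finset.image_insert, Finset.image_singleton, c1_el_self, ← c3_nb hμ hx, ← c3_nb hμ hy]
      rwa [h4] at h3
    · rintro ⟨h1, h2⟩
      obtain ⟨h3, h4⟩ := (c1_mem _).1 h2
      rw [c3_image] at h3
      refine ⟨fun h => ?_, h3⟩
      have hne : x ≠ y := fun h' => h1 (Subtype.ext h')
      exact (h4 x (by simp) y (by simp) hne).1 (congrArg Subtype.val h)

theorem cover_link (hμ : Flat K μ) (h : ∀ v, (K.link v).Connected) : ∀ w, ((coverCpx K μ).link w).Connected := by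
  intro w
  exact ((c3_iso hμ w).connected_iff).2 (h w.1)

theorem cover_orient (hμ : Flat K μ) (h : ∃ O, IsOrientation K O) : ∃ O, IsOrientation (coverCpx K μ) O := by
  obtain ⟨O, hO⟩ := h
  refine ⟨fun x y z => O x.1 y.1 z.1 ∧ ({x, y, z} : Finset (V × P)) ∈ (coverCpx K μ).faces, ?_, ?_, ?_, ?_, ?_⟩
  · rintro x y z ⟨h1, h2⟩
    obtain ⟨h3, h4, h5, -⟩ := hO.face _ _ _ h1
    exact ⟨fun h => h3 (by rw [h]), fun h => h4 (by rw [h]), fun h => h5 (by rw [h]), h2⟩
  · rintro x y z ⟨h1, h2⟩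
    refine ⟨hO.rot _ _ _ h1, ?_⟩
    have e : ({y, z, x} : Finset (V × P)) = {x, y, z} := by
      ext u
      simp only [Finset.mem_insert, Finset.mem_singleton]
      tauto
    rw [e]
    exact h2
  · intro x y z hxy hyz hxz hf
    obtain ⟨h3, h4⟩ := (c1_mem _).1 hf
    rw [c3_image] at h3
    have h5 := (h4 x (by simp) y (by simp) hxy).1
    have h6 := (h4 y (by simp) z (by simp) hyz).1
    have h7 := (h4 x (by simp) z (by simp) hxz).1
    rcases hO.total _ _ _ h5 h6 h7 h3 with h8 | h8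
    · exact Or.inl ⟨h8, hf⟩
    · refine Or.inr ⟨h8, ?_⟩
      rw [Finset.insert_comm]
      exact hf
  · rintro x y z ⟨h1, -⟩ ⟨h2, -⟩
    exact hO.anti _ _ _ h1 h2
  · rintro x y z w ⟨h1, h2⟩ ⟨h3, h4⟩
    have h5 := hO.unique _ _ _ _ h1 h3
    rw [c1_elem x h2 (by simp) (x := z) (by simp), c1_elem x h4 (by simp) (x := w) (by simp), h5]

end H32D
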