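import Pool.Agent.Lib.H32D.EDefs

set_option autoImplicit false

/-!
# H32D, chunk E8 (M): from the sheets to the vertices of the cover

`f` = the indicator function of `A` on `V × P`, `D` = the number of pairs `(w, w')` with `w ∈ A`, `w' ∉ A`, adjacent (the number in `Expands`). For every edge
`a b` of `T`: `∑_p (f (a, p) - f (b, p))² ≤ D`, so along walks (length at most `card V`, `T` connected) `∑_p (f (a, p) - f (r, p))² ≤ (card V)² D` for a fixed
vertex `r`. With the edges `(a_i, σ i p) - (b_i, p)`: `∑_p (f (r, σ i p) - f (r, p))² ≤ C1 D`. By `Poinc σ C` and again the first step,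
`∑_w (f w - c)² ≤ C2 D` for a constant `c`, and `∑_w (f w - mean)² = card A * card Aᶜ / card (V × P) ≥ card A / 2` if `2 card A ≤ card (V × P)`.
(Each sum over `p` of squares of differences of the indicator along edges is at most `D` because the map from `p` to the boundary edge, directed
from `A` to its complement, is injective.) `V` is nonempty by `T.Connected`.

Auxiliary names start with `e8_`.
-/

open Finset

namespace H32D

/-- the boundary -/
def e8_B {W : Type} (G : SimpleGraph W) (A : Finset W) : Set (W × W) := {q : W × W | q.1 ∈ A ∧ q.2 ∉ A ∧ G.Adj q.1 q.2}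

open scoped Classical in
/-- the indicator function -/
noncomputable def e8_f {W : Type} (A : Finset W) (w : W) : ℝ := if w ∈ A then 1 else 0

theorem e8_count {P W : Type} [Fintype P] [Fintype W] (G : SimpleGraph W) (A : Finset W) (S : Finset P) (q : P → W × W)
    (hq : Function.Injective q) (hS : ∀ p ∈ S, q p ∈ e8_B G A) : S.card ≤ (e8_B G A).ncard := by
  classical
  rw [← Finset.card_image_of_injective S hq, ← Set.ncard_coe_finset]
  apply Set.ncard_le_ncard _ (Set.toFinite _)
  intro x hx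
  simp only [Finset.coe_image, Set.mem_image, Finset.mem_coe] at hx
  obtain ⟨p, hp, rfl⟩ := hx
  exact hS p hp

theorem e8_edge {P W : Type} [Fintype P] [Fintype W] (G : SimpleGraph W) (A : Finset W) (u v : P → W) (hu : Function.Injective u)
    (hadj : ∀ p, G.Adj (u p) (v p)) : ∑ p, (e8_f A (u p) - e8_f A (v p)) ^ 2 ≤ 2 * ((e8_B G A).ncard : ℝ) := by
  classical
  have h1 : ∀ p, (e8_f A (u p) - e8_f A (v p)) ^ 2 =
      (if u p ∈ A ∧ v p ∉ A then (1 : ℝ) else 0) + (if u p ∉ A ∧ v p ∈ A then (1 : ℝ) else 0) := by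
    intro p
    unfold e8_f
    by_cases h1 : u p ∈ A <;> by_cases h2 : v p ∈ A <;> simp [h1, h2]
  simp_rw [h1]
  rw [Finset.sum_add_distrib, Finset.sum_boole, Finset.sum_boole]
  have a1 := e8_count G A (univ.filter (fun p => u p ∈ A ∧ v p ∉ A)) (fun p => (u p, v p))
    (fun x y h => hu (Prod.ext_iff.1 h).1) (by
      intro p hp
      simp only [Finset.mem_filter, Finset.mem_univ, true_and] at hp
      exact ⟨hp.1, hp.2, hadj p⟩)
  have a2 := e8_count G A (univ.filter (fun p => u p ∉ A ∧ v p ∈ A)) (fun p => (v p, u p))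
    (fun x y h => hu (Prod.ext_iff.1 h).2) (by
      intro p hp
      simp only [Finset.mem_filter, Finset.mem_univ, true_and] at hp
      exact ⟨hp.2, hp.1, (hadj p).symm⟩)
  have b1 : ((univ.filter (fun p => u p ∈ A ∧ v p ∉ A)).card : ℝ) ≤ (e8_B G A).ncard := by exact_mod_cast a1
  have b2 : ((univ.filter (fun p => u p ∉ A ∧ v p ∈ A)).card : ℝ) ≤ (e8_B G A).ncard := by exact_mod_cast a2
  linarith

theorem e8_walk {V : Type} (T : SimpleGraph V) {a b : V} (w : T.Walk a b) {P : Type} [Fintype V] [Fintype P]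
    (G : SimpleGraph (V × P)) (hG : ∀ a b, T.Adj a b → ∀ p, G.Adj (a, p) (b, p)) (A : Finset (V × P)) :
    ∑ p, (e8_f A (a, p) - e8_f A (b, p)) ^ 2 ≤ 4 ^ (w.length + 1) * ((e8_B G A).ncard : ℝ) := by
  induction w with
  | nil => simp
  | @cons a c b h w ih =>
    have h1 := e8_edge G A (fun p : P => (a, p)) (fun p => (c, p)) (fun x y h => (Prod.ext_iff.1 h).2) (fun p => hG _ _ h p)
    have hD : (0 : ℝ) ≤ ((e8_B G A).ncard : ℝ) := by positivity
    have h2 : ∑ p, (e8_f A (a, p) - e8_f A (b, p)) ^ 2 ≤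
        2 * ∑ p, (e8_f A (a, p) - e8_f A (c, p)) ^ 2 + 2 * ∑ p, (e8_f A (c, p) - e8_f A (b, p)) ^ 2 := by
      rw [Finset.mul_sum, Finset.mul_sum, ← Finset.sum_add_distrib]
      apply Finset.sum_le_sum
      intro p _
      nlinarith [sq_nonneg ((e8_f A (a, p) - e8_f A (c, p)) - (e8_f A (c, p) - e8_f A (b, p)))]
    have h3 : (4 : ℝ) ^ ((SimpleGraph.Walk.cons h w).length + 1) = 4 * 4 ^ (w.length + 1) := by
      rw [SimpleGraph.Walk.length_cons]; ring
    have h4 : (4 : ℝ) ≤ 4 ^ (w.length + 1) := by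
      calc (4 : ℝ) = 4 ^ 1 := by norm_num
        _ ≤ 4 ^ (w.length + 1) := pow_le_pow_right₀ (by norm_num) (by omega)
    rw [h3]
    nlinarith

theorem expands_of_poinc (V : Type) [Fintype V] [DecidableEq V] (T : SimpleGraph V) (hT : T.Connected) (C : ℝ) (hC : 0 < C) :
    ∃ h : ℝ, 0 < h ∧ ∀ (P : Type) (_ : Fintype P) (_ : DecidableEq P) (σ : Bool → Equiv.Perm P) (G : SimpleGraph (V × P)),
      Poinc σ C → (∀ a b, T.Adj a b → ∀ p, G.Adj (a, p) (b, p)) → (∀ i, ∃ a b, ∀ p, G.Adj (a, σ i p) (b, p)) → Expands G h := by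
  classical
  obtain ⟨r⟩ := hT.nonempty
  have hw : ∀ a : V, Nonempty (T.Walk a r) := fun a => hT.preconnected a r
  let w := hw
  obtain ⟨K, hK1, hK⟩ : ∃ K : ℝ, 1 ≤ K ∧ ∀ a, (4 : ℝ) ^ (((w a).some).length + 1) ≤ K := by
    refine ⟨1 + ∑ a, (4 : ℝ) ^ (((w a).some).length + 1), ?_, ?_⟩
    · have : 0 ≤ ∑ a, (4 : ℝ) ^ (((w a).some).length + 1) := Finset.sum_nonneg (fun a _ => by positivity)
      linarith
    · intro a
      have := Finset.single_le_sum (f := fun a => (4 : ℝ) ^ (((w a).some).length + 1)) (fun a _ => by positivity) (Finset.mem_univ a)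
      linarith
  have hV : (0 : ℝ) < Fintype.card V := by
    have : 0 < Fintype.card V := Fintype.card_pos_iff.2 ⟨r⟩
    exact_mod_cast this
  set Z : ℝ := Fintype.card V * (2 * K + 24 * C * (K + 1)) with hZ
  have hZ0 : 0 < Z := by positivity
  refine ⟨1 / (2 * Z), by positivity, ?_⟩
  intro P _ _ σ G hP h1 h2 A hA
  set D : ℝ := ((e8_B G A).ncard : ℝ) with hD
  have hD0 : 0 ≤ D := by positivity
  change 1 / (2 * Z) * A.card ≤ D
  -- first step
  have s1 : ∀ a, ∑ p, (e8_f A (a, p) - e8_f A (r, p)) ^ 2 ≤ K * D := fun a =>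
    (e8_walk T ((w a).some) G h1 A).trans (mul_le_mul_of_nonneg_right (hK a) hD0)
  -- second step
  have s2 : ∀ i, ∑ p, (e8_f A (r, σ i p) - e8_f A (r, p)) ^ 2 ≤ 6 * (K + 1) * D := by
    intro i
    obtain ⟨a, b, hab⟩ := h2 i
    have e1 := e8_edge G A (fun p : P => (a, σ i p)) (fun p => (b, p)) (fun x y h => (σ i).injective (Prod.ext_iff.1 h).2) hab
    have e2 : ∑ p, (e8_f A (a, σ i p) - e8_f A (r, σ i p)) ^ 2 = ∑ p, (e8_f A (a, p) - e8_f A (r, p)) ^ 2 :=
      Equiv.sum_comp (σ i) (fun p => (e8_f A (a, p) - e8_f A (r, p)) ^ 2)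
    have e3 : ∑ p, (e8_f A (r, σ i p) - e8_f A (r, p)) ^ 2 ≤ 3 * ∑ p, (e8_f A (a, σ i p) - e8_f A (r, σ i p)) ^ 2 +
        3 * ∑ p, (e8_f A (a, σ i p) - e8_f A (b, p)) ^ 2 + 3 * ∑ p, (e8_f A (b, p) - e8_f A (r, p)) ^ 2 := by
      rw [Finset.mul_sum, Finset.mul_sum, Finset.mul_sum, ← Finset.sum_add_distrib, ← Finset.sum_add_distrib]
      apply Finset.sum_le_sum
      intro p _
      set x := e8_f A (a, σ i p) - e8_f A (r, σ i p) with hx
      set y := e8_f A (a, σ i p) - e8_f A (b, p) with hy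
      set z := e8_f A (b, p) - e8_f A (r, p) with hz
      have : e8_f A (r, σ i p) - e8_f A (r, p) = - x + y + z := by rw [hx, hy, hz]; ring
      rw [this]
      nlinarith [sq_nonneg (x + y), sq_nonneg (x + z), sq_nonneg (y - z)]
    have e4 := s1 a
    have e5 := s1 b
    nlinarith
  -- Poincaré
  set c : ℝ := (∑ q, e8_f A (r, q)) / Fintype.card P with hc
  have s3 : ∑ p, (e8_f A (r, p) - c) ^ 2 ≤ C * (12 * (K + 1) * D) := by
    have h3 := hP (fun p => e8_f A (r, p))
    refine h3.trans (mul_le_mul_of_nonneg_left ?_ hC.le)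
    rw [Fintype.sum_bool]
    have := s2 true
    have := s2 false
    linarith
  have s4 : ∑ x : V × P, (e8_f A x - c) ^ 2 ≤ Z * D := by
    rw [Fintype.sum_prod_type]
    have : ∀ a : V, ∑ p, (e8_f A (a, p) - c) ^ 2 ≤ (2 * K + 24 * C * (K + 1)) * D := by
      intro a
      have e1 : ∑ p, (e8_f A (a, p) - c) ^ 2 ≤ 2 * ∑ p, (e8_f A (a, p) - e8_f A (r, p)) ^ 2 + 2 * ∑ p, (e8_f A (r, p) - c) ^ 2 := by
        rw [Finset.mul_sum, Finset.mul_sum, ← Finset.sum_add_distrib]
        apply Finset.sum_le_sum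
        intro p _
        nlinarith [sq_nonneg ((e8_f A (a, p) - e8_f A (r, p)) - (e8_f A (r, p) - c))]
      have e2 := s1 a
      linarith
    calc ∑ a : V, ∑ p, (e8_f A (a, p) - c) ^ 2 ≤ ∑ a : V, (2 * K + 24 * C * (K + 1)) * D := Finset.sum_le_sum (fun a _ => this a)
      _ = Z * D := by rw [Finset.sum_const, Finset.card_univ, nsmul_eq_mul, hZ]; ring
  -- lower bound
  have s5 : (A.card : ℝ) / 2 ≤ ∑ x : V × P, (e8_f A x - c) ^ 2 := by
    have e1 : ∑ x : V × P, (e8_f A x - c) ^ 2 = A.card * (1 - c) ^ 2 + (Fintype.card (V × P) - A.card) * c ^ 2 := by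
      have e2 : ∀ x : V × P, (e8_f A x - c) ^ 2 = (if x ∈ A then (1 : ℝ) else 0) * ((1 - c) ^ 2 - c ^ 2) + c ^ 2 := by
        intro x
        unfold e8_f
        split_ifs <;> ring
      simp_rw [e2]
      rw [Finset.sum_add_distrib, ← Finset.sum_mul, Finset.sum_boole, Finset.sum_const, Finset.card_univ, nsmul_eq_mul]
      have : (univ.filter (fun x => x ∈ A)) = A := by ext x; simp
      rw [this]; ring
    rw [e1]
    have e3 : (A.card : ℝ) ≤ (Fintype.card (V × P) : ℝ) - A.card := by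
      have : (2 * A.card : ℝ) ≤ Fintype.card (V × P) := by exact_mod_cast hA
      linarith
    have e4 : (A.card : ℝ) * c ^ 2 ≤ ((Fintype.card (V × P) : ℝ) - A.card) * c ^ 2 := mul_le_mul_of_nonneg_right e3 (sq_nonneg c)
    have e5 : (0 : ℝ) ≤ A.card := by positivity
    nlinarith [mul_nonneg e5 (sq_nonneg (2 * c - 1))]
  have s6 : (A.card : ℝ) ≤ 2 * Z * D := by linarith
  rw [one_div, inv_mul_le_iff₀ (by positivity)]
  exact s6

theorem connected_of_expands {W : Type} [Fintype W] [DecidableEq W] [Nonempty W] (G : SimpleGraph W) {h : ℝ} (hh : 0 < h)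
    (hG : Expands G h) : G.Connected := by
  classical
  obtain ⟨w0⟩ := ‹Nonempty W›
  set A : Finset W := univ.filter (fun w => G.Reachable w0 w) with hA
  have hmem : ∀ w, w ∈ A ↔ G.Reachable w0 w := fun w => by simp [hA]
  have h1 : ∀ S : Finset W, 2 * S.card ≤ Fintype.card W → {q : W × W | q.1 ∈ S ∧ q.2 ∉ S ∧ G.Adj q.1 q.2} = ∅ → S = ∅ := by
    intro S hS hB
    have := hG S hS
    rw [hB, Set.ncard_empty] at this
    by_contra hne
    have hpos : 0 < S.card := Finset.card_pos.2 (Finset.nonempty_iff_ne_empty.2 hne)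
    have hpos' : (0 : ℝ) < S.card := by exact_mod_cast hpos
    have := mul_pos hh hpos'
    push_cast at *
    linarith
  have hw0 : w0 ∈ A := (hmem w0).2 (SimpleGraph.Reachable.refl w0)
  by_cases hc : 2 * A.card ≤ Fintype.card W
  · exfalso
    have := h1 A hc (by
      ext q
      simp only [Set.mem_ofPred_eq, Set.mem_empty_iff_false, iff_false, not_and]
      intro a1 a2 a3
      exact a2 ((hmem _).2 (((hmem _).1 a1).trans a3.reachable)))
    rw [this] at hw0
    simp at hw0
  · have h2 := h1 Aᶜ (by rw [Finset.card_compl]; omega) (by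
      ext q
      simp only [Set.mem_ofPred_eq, Set.mem_empty_iff_false, iff_false, not_and, Finset.mem_compl, not_not]
      intro a1 a2 a3
      exact a1 ((hmem _).2 (((hmem _).1 a2).trans a3.symm.reachable)))
    have h3 : ∀ w, G.Reachable w0 w := by
      intro w
      by_contra hne
      have : w ∈ Aᶜ := by rw [Finset.mem_compl, hmem]; exact hne
      rw [h2] at this
      simp at this
    have : Nonempty W := ⟨w0⟩
    exact SimpleGraph.Connected.mk (fun a b => (h3 a).symm.trans (h3 b))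

end H32D
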