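import Pool.Agent.Lib.H32D.C2
import Pool.Agent.Lib.H32D.C3
import Pool.Agent.Lib.H32D.E8

set_option autoImplicit false

/-!
# H32D, chunk C4 (S/M): the cover is a surface with an expanding 1-skeleton

`μ a b = FreeGroup.lift σ (lab a b)` is flat. `cover_adj`: an edge `a b` with trivial label gives `(a, p) - (b, p)`; an edge with
`lab a b = of i` gives `(a, σ i p) - (b, p)`. So `expands_of_poinc` applies with `T = trivGraph`; connectedness is `connected_of_expands`.
`V` is nonempty (`K.graph.Connected`).

Auxiliary names start with `c4_`.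
-/

open Finset

namespace H32D

/-- The labelling by permutations. -/
def permLab {V P : Type} (lab : V → V → F2) (σ : Bool → Equiv.Perm P) (a b : V) : Equiv.Perm P := FreeGroup.lift σ (lab a b)

theorem flat_permLab {V : Type} [Fintype V] [DecidableEq V] {K : Cpx V} {lab : V → V → F2} (h : Flat K lab) {P : Type}
    (σ : Bool → Equiv.Perm P) : Flat K (permLab lab σ) := by
  constructor
  · intro a b
    unfold permLab
    rw [h.inv a b, map_inv]
  · intro a b c h1 h2 h3 h4
    unfold permLab
    rw [← map_mul, h.tri a b c h1 h2 h3 h4]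

theorem cover_expands {V : Type} [Fintype V] [DecidableEq V] {K : Cpx V} {lab : V → V → F2} (h : GoodLabel K lab) (C : ℝ)
    (hC : 0 < C) : ∃ c : ℝ, 0 < c ∧ ∀ (P : Type) (_ : Fintype P) (_ : DecidableEq P) (σ : Bool → Equiv.Perm P), Poinc σ C →
      Expands (coverCpx K (permLab lab σ)).graph c := by
  obtain ⟨c, hc, H⟩ := expands_of_poinc V (trivGraph K lab h.flat) h.conn C hC
  refine ⟨c, hc, fun P i1 i2 σ hσ => H P i1 i2 σ (coverCpx K (permLab lab σ)).graph hσ ?_ ?_⟩
  · rintro a b ⟨h1, h2⟩ p
    refine (cover_adj (flat_permLab h.flat σ) (a, p) (b, p)).2 ⟨h1, ?_⟩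
    show p = permLab lab σ a b p
    unfold permLab
    rw [h2, map_one]
    rfl
  · intro i
    obtain ⟨a, b, h1, h2⟩ := h.gen i
    refine ⟨a, b, fun p => (cover_adj (flat_permLab h.flat σ) (a, σ i p) (b, p)).2 ⟨h1, ?_⟩⟩
    show σ i p = permLab lab σ a b p
    unfold permLab
    rw [h2, FreeGroup.lift_apply_of]

theorem cover_surface {V : Type} [Fintype V] [DecidableEq V] {K : Cpx V} (hK : IsSurface K) {P : Type} [Fintype P] [DecidableEq P]
    [Nonempty P] {μ : V → V → Equiv.Perm P} (hμ : Flat K μ) {c : ℝ} (hc : 0 < c) (hE : Expands (coverCpx K μ).graph c) :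
    IsSurface (coverCpx K μ) where
  card_le := cover_card_le hK.card_le
  pure := cover_pure hμ hK.pure
  edge := cover_edge hμ hK.edge
  link := cover_link hμ hK.link
  conn := by
    have : Nonempty V := hK.conn.nonempty
    exact connected_of_expands _ hc hE
  orient := cover_orient hμ hK.orient

end H32D
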