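import Pool.Agent.Lib.H32D.TDefs

set_option autoImplicit false

/-!
# H32D, chunk T4 (S/M): colours

`q = m * 6 ^ n + 1` works: number the at most `m` elements of `A` at each site by `Fin m` (`Finset.equivFin` of the filter, card `≤ m`), and let
the colour of `u` encode this number and the site modulo `6` (`Fin m × (Fin n → ZMod 6)` has `m * 6 ^ n` elements). If two elements of `A` have the
same colour and sites at distance `≤ 5`, the sites agree, so the numbers agree and the elements are equal. (Elements outside `A` get the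
last colour.)

Auxiliary names start with `t4_`.
-/

open Finset

namespace H32D

theorem t4_num {U : Type} (S : Finset U) (m : ℕ) (h : S.card ≤ m) : ∃ f : U → ℕ, Set.InjOn f (S : Set U) ∧ ∀ u ∈ S, f u < m := by
  classical
  refine ⟨fun u => if h : u ∈ S then (S.equivFin ⟨u, h⟩ : ℕ) else 0, ?_, ?_⟩
  · intro a ha b hb hab
    have ha' : a ∈ S := ha
    have hb' : b ∈ S := hb
    simp only [ha', hb', dif_pos] at hab
    have h1 := S.equivFin.injective (Fin.ext hab)
    exact congrArg Subtype.val h1
  · intro u hu
    simp only [hu, dif_pos]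
    exact lt_of_lt_of_le (S.equivFin ⟨u, hu⟩).2 h

theorem exists_colour (n m : ℕ) : ∃ q : ℕ, ∀ (U : Type) (_ : DecidableEq U) (A : Finset U) (site : U → Fin n → ℤ),
    (∀ z, (A.filter (fun u => site u = z)).card ≤ m) →
    ∃ col : U → Fin q, ∀ u ∈ A, ∀ u' ∈ A, u ≠ u' → (∀ i, |site u i - site u' i| ≤ 5) → col u ≠ col u' := by
  refine ⟨Fintype.card (Fin m × (Fin n → ZMod 6)) + 1, ?_⟩
  intro U _ A site hA
  choose f hf1 hf2 using fun z => t4_num (A.filter (fun u => site u = z)) m (hA z)
  have hmem : ∀ u ∈ A, u ∈ A.filter (fun v => site v = site u) := fun u hu => Finset.mem_filter.2 ⟨hu, rfl⟩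
  refine ⟨fun u => if h : u ∈ A then (Fintype.equivFin (Fin m × (Fin n → ZMod 6))
    (⟨f (site u) u, hf2 (site u) u (hmem u h)⟩, fun i => ((site u i : ℤ) : ZMod 6))).castSucc else Fin.last _, ?_⟩
  intro u hu u' hu' hne hclose heq
  simp only [hu, hu', dif_pos] at heq
  have h1 := (Fintype.equivFin (Fin m × (Fin n → ZMod 6))).injective (Fin.castSucc_injective _ heq)
  rw [Prod.mk.injEq] at h1
  obtain ⟨h2, h3⟩ := h1
  have h4 : site u = site u' := by
    funext i
    have h5 := congrFun h3 i
    have h6 : ((site u i : ℤ) : ZMod 6) = ((site u' i : ℤ) : ZMod 6) := h5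
    rw [ZMod.intCast_eq_intCast_iff_dvd_sub] at h6
    have h7 := hclose i
    rw [abs_le] at h7
    push_cast at h6
    omega
  have h8 : f (site u) u = f (site u') u' := congrArg Fin.val h2
  rw [← h4] at h8
  exact hne (hf1 (site u) (by simpa using hu) (by simpa [h4] using hu') h8)

end H32D
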