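import Pool.Agent.Lib.H32D.TDefs

set_option autoImplicit false

/-!
# H32D, chunk T3 (S/M): uniqueness of weights

The points of `I` are affinely independent by `Generic` (enumerate `I` by `Fin I.card`); two equal affine combinations have equal weights
(`affineIndependent_iff_eq_of_fintype_affineCombination_eq` or `AffineIndependent` unfolded: `∑ (w - w') = 0`, `∑ (w - w') • p = 0`).

Auxiliary names start with `t3_`.
-/

open Finset

namespace H32D

theorem t3_indep {n q : ℕ} {g : Fin q → Fin n → ℝ} (hg : Generic n q g) {ι : Type} [Fintype ι] (hι : Fintype.card ι ≤ 6)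
    (c : ι → Fin q) (d : ι → Fin n → ℤ) (hc : Function.Injective c) (hd : ∀ a i, |d a i| ≤ 10) :
    AffineIndependent ℝ (fun a => pt g (c a) (d a)) := by
  have h := hg.2 (Fintype.card ι) (fun a => c ((Fintype.equivFin ι).symm a)) (fun a => d ((Fintype.equivFin ι).symm a)) hι
    (hc.comp (Fintype.equivFin ι).symm.injective) (fun a i => hd _ i)
  rw [← affineIndependent_equiv (Fintype.equivFin ι).symm]
  exact h

theorem weights_unique {n q : ℕ} {g : Fin q → Fin n → ℝ} (hg : Generic n q g) {U : Type} [DecidableEq U] (I : Finset U)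
    (c : U → Fin q) (d : U → Fin n → ℤ) (w w' : U → ℝ) (hI : I.card ≤ 6) (hc : Set.InjOn c (I : Set U))
    (hd : ∀ u ∈ I, ∀ i, |d u i| ≤ 10) (hw : ∑ u ∈ I, w u = 1) (hw' : ∑ u ∈ I, w' u = 1)
    (h : ∑ u ∈ I, w u • pt g (c u) (d u) = ∑ u ∈ I, w' u • pt g (c u) (d u)) : ∀ u ∈ I, w u = w' u := by
  have hA := t3_indep hg (ι := I) (by simpa using hI) (fun u => c u) (fun u => d u)
    (fun a b hab => Subtype.ext (hc a.2 b.2 hab)) (fun a i => hd _ a.2 i)
  rw [affineIndependent_iff] at hA
  intro u hu
  have h1 := hA Finset.univ (fun u => w u - w' u) (by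
    rw [Finset.sum_coe_sort I (fun u => w u - w' u), Finset.sum_sub_distrib, hw, hw', sub_self]) (by
    rw [Finset.sum_coe_sort I (fun u => (w u - w' u) • pt g (c u) (d u))]
    simp only [sub_smul]
    rw [Finset.sum_sub_distrib, h, sub_self]) ⟨u, hu⟩ (Finset.mem_univ _)
  exact sub_eq_zero.1 h1

end H32D
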