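import Pool.Agent.Lib.H32D.TDefs

/-!
# H32D, chunk T5 (M): far points stay far, and the size of the image

With `F = posMap A φ site col g`: every site of a `u'` with `φ x u' ≠ 0` is within `1` of `site u`, and `0 ≤ g ≤ 1`, so
`site u i - 1 ≤ F x i ≤ site u i + 2` (a convex combination). Hence if `|site u i - site u' i| ≥ 4` for some `i`, then
`|F x i - F y i| ≥ 1`. The same convexity gives the bound of `posMap_bound`.

Auxiliary names start with `t5_`.
-/

set_option autoImplicit false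


open Finset

namespace H32D

theorem t5_conv {U : Type} {A : Finset U} {p : U → ℝ} {v : U → ℝ} (hp : ∀ u, 0 ≤ p u) (hs : ∑ u ∈ A, p u = 1) {a b : ℝ}
    (h : ∀ u ∈ A, p u ≠ 0 → a ≤ v u ∧ v u ≤ b) : a ≤ ∑ u ∈ A, p u * v u ∧ ∑ u ∈ A, p u * v u ≤ b := by
  have h1 : ∀ u ∈ A, p u * a ≤ p u * v u ∧ p u * v u ≤ p u * b := by
    intro u hu
    by_cases h0 : p u = 0
    · simp [h0]
    · exact ⟨mul_le_mul_of_nonneg_left (h u hu h0).1 (hp u), mul_le_mul_of_nonneg_left (h u hu h0).2 (hp u)⟩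
  constructor
  · calc a = ∑ u ∈ A, p u * a := by rw [← Finset.sum_mul, hs, one_mul]
      _ ≤ _ := Finset.sum_le_sum fun u hu => (h1 u hu).1
  · calc ∑ u ∈ A, p u * v u ≤ ∑ u ∈ A, p u * b := Finset.sum_le_sum fun u hu => (h1 u hu).2
      _ = b := by rw [← Finset.sum_mul, hs, one_mul]

theorem t5_apply {W U : Type} {n q : ℕ} (A : Finset U) (φ : (W → ℝ) → U → ℝ) (site : U → Fin n → ℤ)
    (col : U → Fin q) (g : Fin q → Fin n → ℝ) (x : W → ℝ) (i : Fin n) :
    posMap A φ site col g x i = ∑ u ∈ A, φ x u * (g (col u) i + (site u i : ℝ)) := by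
  unfold posMap
  rw [Finset.sum_apply]
  rfl

theorem posMap_near {W : Type} [Fintype W] [DecidableEq W] {K : Cpx W} {n q : ℕ} {U : Type} [DecidableEq U] {A : Finset U}
    {φ : (W → ℝ) → U → ℝ} {loc : U → W → ℝ} {site : U → Fin n → ℤ} (h : HatSystem K n A φ loc site)
    {g : Fin q → Fin n → ℝ} (hg : ∀ c i, 0 ≤ g c i ∧ g c i ≤ 1) (col : U → Fin q) {x : W → ℝ} (hx : x ∈ K.real) {u : U}
    (hu : φ x u ≠ 0) (i : Fin n) :
    (site u i : ℝ) - 1 ≤ posMap A φ site col g x i ∧ posMap A φ site col g x i ≤ (site u i : ℝ) + 2 := by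
  rw [t5_apply]
  refine t5_conv (h.nonneg x hx) (h.sum x hx) fun v _ hv => ?_
  have h1 := h.near x hx u v hu hv i
  rw [abs_le] at h1
  have h2 : ((-1 : ℤ) : ℝ) ≤ ((site u i - site v i : ℤ) : ℝ) := by exact_mod_cast h1.1
  have h3 : ((site u i - site v i : ℤ) : ℝ) ≤ ((1 : ℤ) : ℝ) := by exact_mod_cast h1.2
  push_cast at h2 h3
  have h4 := hg (col v) i
  constructor <;> linarith [h4.1, h4.2]

theorem posMap_far {W : Type} [Fintype W] [DecidableEq W] {K : Cpx W} {n q : ℕ} {U : Type} [DecidableEq U] {A : Finset U}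
    {φ : (W → ℝ) → U → ℝ} {loc : U → W → ℝ} {site : U → Fin n → ℤ} (h : HatSystem K n A φ loc site)
    {g : Fin q → Fin n → ℝ} (hg : ∀ c i, 0 ≤ g c i ∧ g c i ≤ 1) (col : U → Fin q) {x y : W → ℝ} (hx : x ∈ K.real) (hy : y ∈ K.real)
    {u u' : U} (hu : φ x u ≠ 0) (hu' : φ y u' ≠ 0) {i : Fin n} (hi : 4 ≤ |site u i - site u' i|) :
    1 ≤ dist (posMap A φ site col g x) (posMap A φ site col g y) := by
  obtain ⟨a1, a2⟩ := posMap_near h hg col hx hu i
  obtain ⟨b1, b2⟩ := posMap_near h hg col hy hu' i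
  refine le_trans ?_ (dist_le_pi_dist (posMap A φ site col g x) (posMap A φ site col g y) i)
  rw [Real.dist_eq]
  rcases le_abs'.1 hi with h1 | h1
  · have h2 : ((site u i - site u' i : ℤ) : ℝ) ≤ ((-4 : ℤ) : ℝ) := by exact_mod_cast h1
    push_cast at h2
    rw [le_abs']
    left
    linarith
  · have h2 : ((4 : ℤ) : ℝ) ≤ ((site u i - site u' i : ℤ) : ℝ) := by exact_mod_cast h1
    push_cast at h2
    rw [le_abs']
    right
    linarith

theorem posMap_bound {W : Type} [Fintype W] [DecidableEq W] {K : Cpx W} {n q : ℕ} {U : Type} [DecidableEq U] {A : Finset U}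
    {φ : (W → ℝ) → U → ℝ} {loc : U → W → ℝ} {site : U → Fin n → ℤ} (h : HatSystem K n A φ loc site)
    {g : Fin q → Fin n → ℝ} (hg : ∀ c i, 0 ≤ g c i ∧ g c i ≤ 1) (col : U → Fin q) {R : ℝ} (hR : ∀ u ∈ A, ∀ i, |(site u i : ℝ)| ≤ R)
    {x : W → ℝ} (hx : x ∈ K.real) (hR0 : 0 ≤ R) : ‖posMap A φ site col g x‖ ≤ R + 1 := by
  rw [pi_norm_le_iff_of_nonneg (by linarith)]
  intro i
  rw [t5_apply, Real.norm_eq_abs, abs_le]
  refine t5_conv (h.nonneg x hx) (h.sum x hx) fun v hv _ => ?_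
  have h1 := abs_le.1 (hR v hv i)
  have h4 := hg (col v) i
  constructor <;> linarith [h4.1, h4.2]

end H32D
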