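import Pool.Agent.Lib.H32D.T2
import Pool.Agent.Lib.H32D.T3
import Pool.Agent.Lib.H32D.T5

set_option autoImplicit false

/-!
# H32D, chunk T6 (M): near points (injectivity, and the gap for disjoint supports)

Suppose all `u, u'` with `φ x u ≠ 0`, `φ y u' ≠ 0` have `|site u i - site u' i| ≤ 3` for all `i` (otherwise `posMap_far`). Fix `u0` with
`φ x u0 ≠ 0` (exists: the sum is `1`) and subtract `site u0`: `posMap x = ∑_{u ∈ supp} φ x u • pt g (col u) (site u - site u0) + site u0`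
(the weights add up to `1`). All offsets are `≤ 10` and the colours are different on the union of the two supports (sites within `5`).
`near_inj`: `weights_unique` on the union `I` of the supports gives `φ x = φ y` on `I` (and both vanish outside), and `HatSystem.loc` gives
`x = y`. `near_gap`: the property of `δ` from `exists_gap` is passed as the hypothesis `hδ`.

Auxiliary names start with `t6_`.
-/

open Finset

namespace H32D

theorem t6_shift {n q : ℕ} {U : Type} (A : Finset U) (f : U → ℝ) (site : U → Fin n → ℤ) (col : U → Fin q)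
    (g : Fin q → Fin n → ℝ) (d0 : Fin n → ℤ) (hs : ∑ u ∈ A, f u = 1) :
    ∑ u ∈ A, f u • pt g (col u) (site u) =
      ∑ u ∈ A, f u • pt g (col u) (fun i => site u i - d0 i) + (fun i => (d0 i : ℝ)) := by
  have h1 : (fun i => (d0 i : ℝ)) = ∑ u ∈ A, f u • (fun i => (d0 i : ℝ)) := by
    rw [← Finset.sum_smul, hs, one_smul]
  rw [h1, ← Finset.sum_add_distrib]
  refine Finset.sum_congr rfl fun u _ => ?_
  rw [← smul_add]
  congr 1
  funext i
  simp only [pt, Pi.add_apply]
  push_cast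
  ring

theorem t6_exists {U : Type} (A : Finset U) (f : U → ℝ) (hs : ∑ u ∈ A, f u = 1) : ∃ u ∈ A, f u ≠ 0 := by
  by_contra hcon
  push Not at hcon
  rw [Finset.sum_eq_zero hcon] at hs
  exact zero_ne_one hs

theorem t6_inj {W : Type} [Fintype W] [DecidableEq W] {K : Cpx W} {n q : ℕ} {U : Type} [DecidableEq U] {A : Finset U}
    {φ : (W → ℝ) → U → ℝ} {loc : U → W → ℝ} {site : U → Fin n → ℤ} (h : HatSystem K n A φ loc site)
    (col : U → Fin q)
    (hcol : ∀ u ∈ A, ∀ u' ∈ A, u ≠ u' → (∀ i, |site u i - site u' i| ≤ 5) → col u ≠ col u') {x y : W → ℝ} (hx : x ∈ K.real)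
    (hy : y ∈ K.real) (hclose : ∀ u u', φ x u ≠ 0 → φ y u' ≠ 0 → ∀ i, |site u i - site u' i| ≤ 3) :
    Set.InjOn col (↑(A.filter (fun u => φ x u ≠ 0) ∪ A.filter (fun u => φ y u ≠ 0)) : Set U) := by
  intro u hu u' hu' he
  rw [Finset.mem_coe, Finset.mem_union, Finset.mem_filter, Finset.mem_filter] at hu hu'
  by_contra hne
  refine hcol u (by tauto) u' (by tauto) hne (fun i => ?_) he
  rcases hu with hu | hu <;> rcases hu' with hu' | hu'
  · exact (h.near x hx u u' hu.2 hu'.2 i).trans (by norm_num)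
  · exact (hclose u u' hu.2 hu'.2 i).trans (by norm_num)
  · rw [abs_sub_comm]
    exact (hclose u' u hu'.2 hu.2 i).trans (by norm_num)
  · exact (h.near y hy u u' hu.2 hu'.2 i).trans (by norm_num)

theorem t6_off {W : Type} [Fintype W] [DecidableEq W] {K : Cpx W} {n : ℕ} {U : Type} [DecidableEq U] {A : Finset U}
    {φ : (W → ℝ) → U → ℝ} {loc : U → W → ℝ} {site : U → Fin n → ℤ} (h : HatSystem K n A φ loc site)
    {x y : W → ℝ}
    (hx : x ∈ K.real) (hclose : ∀ u u', φ x u ≠ 0 → φ y u' ≠ 0 → ∀ i, |site u i - site u' i| ≤ 3)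
    {u0 : U} (hu0 : φ x u0 ≠ 0) :
    ∀ u ∈ A.filter (fun u => φ x u ≠ 0) ∪ A.filter (fun u => φ y u ≠ 0), ∀ i, |site u i - site u0 i| ≤ 10 := by
  intro u hu i
  rw [Finset.mem_union, Finset.mem_filter, Finset.mem_filter] at hu
  rcases hu with hu | hu
  · exact (h.near x hx u u0 hu.2 hu0 i).trans (by norm_num)
  · rw [abs_sub_comm]
    exact (hclose u0 u hu0 hu.2 i).trans (by norm_num)

theorem t6_sum {U E : Type} [AddCommMonoid E] [Module ℝ E] [DecidableEq U] {A I : Finset U} (hI : I ⊆ A) (f : U → ℝ) (p : U → E)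
    (h0 : ∀ u ∈ A, u ∉ I → f u = 0) : ∑ u ∈ A, f u • p u = ∑ u ∈ I, f u • p u := by
  symm
  refine Finset.sum_subset hI fun u hu hn => ?_
  rw [h0 u hu hn, zero_smul]

theorem t6_sum' {U : Type} [DecidableEq U] {A I : Finset U} (hI : I ⊆ A) (f : U → ℝ)
    (h0 : ∀ u ∈ A, u ∉ I → f u = 0) : ∑ u ∈ A, f u = ∑ u ∈ I, f u := by
  symm
  exact Finset.sum_subset hI fun u hu hn => h0 u hu hn

theorem near_inj {W : Type} [Fintype W] [DecidableEq W] {K : Cpx W} {n q : ℕ} {U : Type} [DecidableEq U] {A : Finset U}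
    {φ : (W → ℝ) → U → ℝ} {loc : U → W → ℝ} {site : U → Fin n → ℤ} (h : HatSystem K n A φ loc site)
    {g : Fin q → Fin n → ℝ} (hg : Generic n q g) (col : U → Fin q)
    (hcol : ∀ u ∈ A, ∀ u' ∈ A, u ≠ u' → (∀ i, |site u i - site u' i| ≤ 5) → col u ≠ col u') {x y : W → ℝ} (hx : x ∈ K.real)
    (hy : y ∈ K.real) (hxy : posMap A φ site col g x = posMap A φ site col g y) : x = y := by
  have hclose : ∀ u u', φ x u ≠ 0 → φ y u' ≠ 0 → ∀ i, |site u i - site u' i| ≤ 3 := by
    intro u u' hu hu' i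
    by_contra hcon
    have h1 := posMap_far h hg.1 col hx hy hu hu' (i := i) (by omega)
    rw [hxy, dist_self] at h1
    exact absurd h1 (by norm_num)
  obtain ⟨u0, hu0A, hu0⟩ := t6_exists A (φ x) (h.sum x hx)
  obtain ⟨I, hI⟩ : ∃ I : Finset U, I = A.filter (fun u => φ x u ≠ 0) ∪ A.filter (fun u => φ y u ≠ 0) := ⟨_, rfl⟩
  have hIA : I ⊆ A := by
    rw [hI]
    exact Finset.union_subset (Finset.filter_subset _ _) (Finset.filter_subset _ _)
  have hx0 : ∀ u ∈ A, u ∉ I → φ x u = 0 := by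
    intro u hu hn
    by_contra hne
    exact hn (hI ▸ Finset.mem_union_left _ (Finset.mem_filter.2 ⟨hu, hne⟩))
  have hy0 : ∀ u ∈ A, u ∉ I → φ y u = 0 := by
    intro u hu hn
    by_contra hne
    exact hn (hI ▸ Finset.mem_union_right _ (Finset.mem_filter.2 ⟨hu, hne⟩))
  have hcard : I.card ≤ 6 := by
    rw [hI]
    refine (Finset.card_union_le _ _).trans ?_
    have := h.card x hx
    have := h.card y hy
    omega
  have hinj : Set.InjOn col (I : Set U) := by
    rw [hI]
    exact t6_inj h col hcol hx hy hclose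
  have hoff : ∀ u ∈ I, ∀ i, |site u i - site u0 i| ≤ 10 := by
    rw [hI]
    exact t6_off h hx hclose hu0
  have e1 : ∑ u ∈ A, φ x u • pt g (col u) (fun i => site u i - site u0 i) =
      ∑ u ∈ A, φ y u • pt g (col u) (fun i => site u i - site u0 i) := by
    unfold posMap at hxy
    rw [t6_shift A (φ x) site col g (site u0) (h.sum x hx), t6_shift A (φ y) site col g (site u0) (h.sum y hy)] at hxy
    exact add_right_cancel hxy
  rw [t6_sum hIA _ _ hx0, t6_sum hIA _ _ hy0] at e1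
  have key := weights_unique hg I col (fun u i => site u i - site u0 i) (φ x) (φ y) hcard hinj hoff
    (by rw [← t6_sum' hIA _ hx0]; exact h.sum x hx) (by rw [← t6_sum' hIA _ hy0]; exact h.sum y hy) e1
  funext v
  rw [← h.loc x hx v, ← h.loc y hy v]
  refine Finset.sum_congr rfl fun u hu => ?_
  by_cases huI : u ∈ I
  · rw [key u huI]
  · rw [hx0 u hu huI, hy0 u hu huI]

theorem near_gap {W : Type} [Fintype W] [DecidableEq W] {K : Cpx W} {n q : ℕ} {U : Type} [hU : DecidableEq U] {A : Finset U}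
    {φ : (W → ℝ) → U → ℝ} {loc : U → W → ℝ} {site : U → Fin n → ℤ} (h : HatSystem K n A φ loc site)
    {g : Fin q → Fin n → ℝ} (hg : Generic n q g) (col : U → Fin q)
    (hcol : ∀ u ∈ A, ∀ u' ∈ A, u ≠ u' → (∀ i, |site u i - site u' i| ≤ 5) → col u ≠ col u') {δ : ℝ} (hδ1 : δ ≤ 1)
    (hδ : ∀ (I J : Finset U) (c : U → Fin q) (d : U → Fin n → ℤ) (w w' : U → ℝ),
      I.card ≤ 3 → J.card ≤ 3 → Disjoint I J → Set.InjOn c (↑(I ∪ J) : Set U) → (∀ u ∈ I ∪ J, ∀ i, |d u i| ≤ 10) →
      (∀ u ∈ I, 0 ≤ w u) → (∀ u ∈ J, 0 ≤ w' u) → ∑ u ∈ I, w u = 1 → ∑ u ∈ J, w' u = 1 →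
      δ ≤ dist (∑ u ∈ I, w u • pt g (c u) (d u)) (∑ u ∈ J, w' u • pt g (c u) (d u)))
    {x y : W → ℝ} (hx : x ∈ K.real) (hy : y ∈ K.real) (hd : ∀ u, φ x u ≠ 0 → φ y u = 0) :
    δ ≤ dist (posMap A φ site col g x) (posMap A φ site col g y) := by
  by_cases hclose : ∀ u u', φ x u ≠ 0 → φ y u' ≠ 0 → ∀ i, |site u i - site u' i| ≤ 3
  · obtain ⟨u0, hu0A, hu0⟩ := t6_exists A (φ x) (h.sum x hx)
    have hx0 : ∀ u ∈ A, u ∉ A.filter (fun u => φ x u ≠ 0) → φ x u = 0 := by
      intro u hu hn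
      by_contra hne
      exact hn (Finset.mem_filter.2 ⟨hu, hne⟩)
    have hy0 : ∀ u ∈ A, u ∉ A.filter (fun u => φ y u ≠ 0) → φ y u = 0 := by
      intro u hu hn
      by_contra hne
      exact hn (Finset.mem_filter.2 ⟨hu, hne⟩)
    have hdisj : Disjoint (A.filter (fun u => φ x u ≠ 0)) (A.filter (fun u => φ y u ≠ 0)) := by
      rw [Finset.disjoint_left]
      intro u hu hu'
      exact (Finset.mem_filter.1 hu').2 (hd u (Finset.mem_filter.1 hu).2)
    have key := hδ (A.filter (fun u => φ x u ≠ 0)) (A.filter (fun u => φ y u ≠ 0)) col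
      (fun u i => site u i - site u0 i) (φ x) (φ y) (h.card x hx) (h.card y hy) hdisj
      (t6_inj h col hcol hx hy hclose) (t6_off h hx hclose hu0) (fun u _ => h.nonneg x hx u)
      (fun u _ => h.nonneg y hy u)
      (by rw [← t6_sum' (Finset.filter_subset _ _) _ hx0]; exact h.sum x hx)
      (by rw [← t6_sum' (Finset.filter_subset _ _) _ hy0]; exact h.sum y hy)
    rw [← t6_sum (Finset.filter_subset _ _) _ _ hx0, ← t6_sum (Finset.filter_subset _ _) _ _ hy0] at key
    unfold posMap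
    rw [t6_shift A (φ x) site col g (site u0) (h.sum x hx), t6_shift A (φ y) site col g (site u0) (h.sum y hy),
      dist_add_right]
    exact key
  · push Not at hclose
    obtain ⟨u, u', hu, hu', i, hi⟩ := hclose
    exact hδ1.trans (posMap_far h hg.1 col hx hy hu hu' (i := i) (by omega))

end H32D
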