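import Pool.Agent.Lib.H32D.T1
import Pool.Agent.Lib.H32D.T4
import Pool.Agent.Lib.H32D.T6

set_option autoImplicit false

/-!
# H32D, chunk T7 (M): the thick embedding from a hat system

Given `n, m` take `q` from `exists_colour`, `g` from `exists_generic`, `δ` from `exists_gap`; `f x = δ⁻¹ • posMap ... x` read in
`EuclideanSpace ℝ (Fin n)` (`WithLp.toLp 2`). The Euclidean distance is at least the sup distance, and the Euclidean norm is at most
`n` times (or `√n` times) the sup norm; so `C = δ⁻¹ * n` works (`‖f x‖ ≤ δ⁻¹ n (R + 1)`). Continuity: `posMap` is a finite sum of continuous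
functions. Then `thickRadius ≤ ofReal (C (R + 1))` by `sInf_le`.

Auxiliary names start with `t7_`.
-/

open Finset

namespace H32D

theorem t7_dist {n : ℕ} (a b : Fin n → ℝ) :
    dist a b ≤ dist (WithLp.toLp 2 a : EuclideanSpace ℝ (Fin n)) (WithLp.toLp 2 b) := by
  refine (dist_pi_le_iff dist_nonneg).2 fun i => ?_
  rw [dist_eq_norm, dist_eq_norm]
  exact PiLp.norm_apply_le (WithLp.toLp 2 a - WithLp.toLp 2 b : EuclideanSpace ℝ (Fin n)) i

theorem t7_norm {n : ℕ} (a : Fin n → ℝ) (hn : 1 ≤ n) :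
    ‖(WithLp.toLp 2 a : EuclideanSpace ℝ (Fin n))‖ ≤ n * ‖a‖ := by
  rw [EuclideanSpace.norm_eq, Real.sqrt_le_left (by positivity)]
  have h1 : (1 : ℝ) ≤ n := by exact_mod_cast hn
  calc ∑ i, ‖(WithLp.toLp 2 a : EuclideanSpace ℝ (Fin n)) i‖ ^ 2 ≤ ∑ _i : Fin n, ‖a‖ ^ 2 := by
        refine Finset.sum_le_sum fun i _ => ?_
        exact pow_le_pow_left₀ (norm_nonneg _) (norm_le_pi_norm a i) 2
    _ = n * ‖a‖ ^ 2 := by simp
    _ ≤ (n * ‖a‖) ^ 2 := by
      rw [mul_pow]
      refine mul_le_mul_of_nonneg_right ?_ (sq_nonneg _)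
      nlinarith

theorem t7_cont {W : Type} [Fintype W] [DecidableEq W] {K : Cpx W} {n q : ℕ} {U : Type} [DecidableEq U] {A : Finset U}
    {φ : (W → ℝ) → U → ℝ} {loc : U → W → ℝ} {site : U → Fin n → ℤ} (h : HatSystem K n A φ loc site)
    (g : Fin q → Fin n → ℝ) (col : U → Fin q) : ContinuousOn (posMap A φ site col g) K.real := by
  unfold posMap
  refine continuousOn_finsetSum _ fun u _ => ?_
  exact (h.cont u).smul continuousOn_const

theorem thickRadius_le_of_hatSystem (n : ℕ) (hn : 5 ≤ n) (m : ℕ) : ∃ C : ℝ, 0 < C ∧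
    ∀ (W : Type) (_ : Fintype W) (_ : DecidableEq W) (K : Cpx W) (U : Type) (_ : DecidableEq U) (A : Finset U)
      (φ : (W → ℝ) → U → ℝ) (loc : U → W → ℝ) (site : U → Fin n → ℤ), HatSystem K n A φ loc site →
      (∀ z, (A.filter (fun u => site u = z)).card ≤ m) → ∀ R : ℝ, 0 ≤ R → (∀ u ∈ A, ∀ i, |(site u i : ℝ)| ≤ R) →
      thickRadius n K ≤ ENNReal.ofReal (C * (R + 1)) := by
  obtain ⟨q, hq⟩ := exists_colour n m
  obtain ⟨g, hg⟩ := exists_generic n hn q
  obtain ⟨δ, hδ0, hδ1, hδ⟩ := exists_gap hg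
  have hn0 : (0 : ℝ) < n := by
    have : 0 < n := by omega
    exact_mod_cast this
  have hδi : 0 < δ⁻¹ := inv_pos.2 hδ0
  refine ⟨δ⁻¹ * n, by positivity, ?_⟩
  intro W _ _ K U hU A φ loc site h hm R hR hRb
  obtain ⟨col, hcol⟩ := hq U hU A site hm
  obtain ⟨f, hf⟩ : ∃ f : (W → ℝ) → EuclideanSpace ℝ (Fin n),
      f = fun x => WithLp.toLp 2 (δ⁻¹ • posMap A φ site col g x) := ⟨_, rfl⟩
  refine sInf_le ⟨f, ⟨?_, ?_, ?_⟩, ?_⟩
  · rw [hf]
    have h1 : ContinuousOn (fun x => δ⁻¹ • posMap A φ site col g x) K.real :=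
      (continuous_const_smul δ⁻¹).comp_continuousOn (t7_cont h g col)
    exact (PiLp.continuous_toLp 2 (fun _ : Fin n => ℝ)).comp_continuousOn h1
  · intro x hx y hy hxy
    rw [hf] at hxy
    have h1 : δ⁻¹ • posMap A φ site col g x = δ⁻¹ • posMap A φ site col g y := by
      have h2 := congrArg WithLp.ofLp hxy
      exact h2
    have h3 := smul_right_injective (Fin n → ℝ) hδi.ne' h1
    exact near_inj h hg col hcol hx hy h3
  · intro s hs t ht hst x hx y hy
    have h1 : δ ≤ dist (posMap A φ site col g x) (posMap A φ site col g y) :=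
      near_gap h hg col hcol hδ1 (hδ U hU) hx.1 hy.1 (h.disj s hs t ht hst x hx y hy)
    rw [hf]
    refine le_trans ?_ (t7_dist _ _)
    rw [dist_smul₀, Real.norm_of_nonneg hδi.le]
    rw [← inv_mul_cancel₀ hδ0.ne']
    exact mul_le_mul_of_nonneg_left h1 hδi.le
  · intro x hx
    rw [hf]
    refine ENNReal.ofReal_le_ofReal ((t7_norm _ (by omega)).trans ?_)
    rw [norm_smul, Real.norm_of_nonneg hδi.le]
    have h1 := posMap_bound h hg.1 col hRb hx hR
    calc (n : ℝ) * (δ⁻¹ * ‖posMap A φ site col g x‖) ≤ n * (δ⁻¹ * (R + 1)) := by gcongr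
      _ = δ⁻¹ * n * (R + 1) := by ring

end H32D
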