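import Pool.Agent.Lib.H32D.P11
import Pool.Agent.Lib.H32D.T7

set_option autoImplicit false

/-!
# H32D, chunk P12 (M): from lists of sites to the embedding radius

`Lst a b` is the list of all sites of the path from `a` to `b` (both ends included). `ℓ a b = (Lst a b).length - 1`, `path a b k = (Lst a b).getD k 0`,
`vs a` = the head. The tripod hypothesis gives `α = A.length`, `β = B.length`, `γ = C.length`, all at least `1`. Multiplicity: an element of
`active` with site `z` is either `(a, a, 0)` with `vs a = z` or `(a, b, k)` with `e a < e b` and the `k`-th entry of `Lst a b` equal to `z`, so the number is at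
most `#{a | vs a = z} + ∑_{a, b adjacent, e a < e b} (Lst a b).count z`. The injection `e` comes from `Fintype.equivFin`. The bound `R` on all entries.

Auxiliary names start with `p12_`.
-/

open Finset

namespace H32D

/-- Lists of sites along the edges of `K`. -/
structure Routed {W : Type} [Fintype W] [DecidableEq W] (K : Cpx W) (n : ℕ) (vs : W → Fin n → ℤ)
    (Lst : W → W → List (Fin n → ℤ)) : Prop where
  card_le : ∀ s ∈ K.faces, s.card ≤ 3
  pure : ∀ s ∈ K.faces, ∃ t ∈ K.faces, s ⊆ t ∧ t.card = 3
  rev : ∀ a b, K.graph.Adj a b → Lst b a = (Lst a b).reverse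
  head : ∀ a b, K.graph.Adj a b → (Lst a b).head? = some (vs a)
  step : ∀ a b, K.graph.Adj a b → (Lst a b).IsChain (fun z z' => ∀ i, |z i - z' i| ≤ 1)
  tri : ∀ a b c, a ≠ b → b ≠ c → a ≠ c → ({a, b, c} : Finset W) ∈ K.faces → ∃ (A B C : List (Fin n → ℤ)) (o : Fin n → ℤ),
    A ≠ [] ∧ B ≠ [] ∧ C ≠ [] ∧ Lst a b = A ++ o :: B.reverse ∧ Lst a c = A ++ o :: C.reverse ∧ Lst b c = B ++ o :: C.reverse

theorem p12_count {α : Type} [DecidableEq α] (d z : α) (L : List α) :
    ((Finset.range L.length).filter (fun k => L.getD k d = z)).card = L.count z := by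
  induction L using List.reverseRecOn with
  | nil => simp
  | append_singleton L x ih =>
    rw [List.length_append, List.length_singleton, Finset.range_add_one, Finset.filter_insert]
    have h1 : (L ++ [x]).getD L.length d = x := by
      rw [List.getD_append_right _ _ _ _ le_rfl, Nat.sub_self]
      rfl
    have h2 : (Finset.range L.length).filter (fun k => (L ++ [x]).getD k d = z) =
        (Finset.range L.length).filter (fun k => L.getD k d = z) := by
      refine Finset.filter_congr fun k hk => ?_
      rw [List.getD_append _ _ _ _ (Finset.mem_range.1 hk)]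
    rw [h1, h2, List.count_append]
    by_cases hx : x = z
    · rw [if_pos hx, Finset.card_insert_of_notMem (by simp), ih, hx, List.count_singleton_self]
    · rw [if_neg hx, ih, List.count_singleton]
      simp [hx]

theorem p12_getD {α : Type} (d : α) (A B C : List α) (o : α) {k : ℕ} (hk : k ≤ A.length) :
    (A ++ o :: B).getD k d = (A ++ o :: C).getD k d := by
  rcases hk.lt_or_eq with h | h
  · rw [List.getD_append _ _ _ _ h, List.getD_append _ _ _ _ h]
  · rw [List.getD_append_right _ _ _ _ h.ge, List.getD_append_right _ _ _ _ h.ge, h, Nat.sub_self]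
    rfl

theorem p12_len {W : Type} [Fintype W] [DecidableEq W] {K : Cpx W} {n : ℕ} {vs : W → Fin n → ℤ}
    {Lst : W → W → List (Fin n → ℤ)} (h : Routed K n vs Lst) {a b : W} (hab : K.graph.Adj a b) : 1 ≤ (Lst a b).length := by
  rcases hL : Lst a b with _ | ⟨x, L⟩
  · have := h.head a b hab
    rw [hL] at this
    cases this
  · simp

theorem p12_paths {W : Type} [Fintype W] [DecidableEq W] {K : Cpx W} {n : ℕ} {vs : W → Fin n → ℤ}
    {Lst : W → W → List (Fin n → ℤ)} (h : Routed K n vs Lst) :
    Paths K n (fun a b => (Lst a b).length - 1) vs (fun a b k => (Lst a b).getD k 0) := by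
  refine ⟨h.card_le, h.pure, ?_, ?_, ?_, ?_, ?_⟩
  · intro a b hab
    show (Lst a b).length - 1 = (Lst b a).length - 1
    rw [h.rev a b hab, List.length_reverse]
  · intro a b hab k hk
    show (Lst b a).getD k 0 = (Lst a b).getD ((Lst a b).length - 1 - k) 0
    have hlen := p12_len h hab
    have hk' : k < (Lst a b).length := by
      have : k ≤ (Lst a b).length - 1 := hk
      omega
    rw [h.rev a b hab, List.getD_eq_getElem _ _ (by rw [List.length_reverse]; exact hk'), List.getElem_reverse,
      List.getD_eq_getElem _ _ (by omega)]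
  · intro a b hab
    show (Lst a b).getD 0 0 = vs a
    have h1 := h.head a b hab
    rcases hL : Lst a b with _ | ⟨x, L⟩
    · rw [hL] at h1
      cases h1
    · rw [hL] at h1
      have h2 : x = vs a := by simpa using h1
      rw [← h2]
      rfl
  · intro a b hab k hk i
    have hk' : k < (Lst a b).length - 1 := hk
    have h1 := List.isChain_iff_getElem.1 (h.step a b hab) k (by omega)
    show |(Lst a b).getD k 0 i - (Lst a b).getD (k + 1) 0 i| ≤ 1
    rw [List.getD_eq_getElem _ _ (by omega), List.getD_eq_getElem _ _ (by omega)]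
    exact h1 i
  · intro a b c hab hbc hac hf
    obtain ⟨A, B, C, o, hA, hB, hC, e1, e2, e3⟩ := h.tri a b c hab hbc hac hf
    have adj : ∀ x y : W, x ≠ y → ({x, y} : Finset W) ⊆ {a, b, c} → K.graph.Adj x y := by
      intro x y hxy hs
      exact ⟨hxy, K.down _ hf _ hs (Finset.insert_nonempty _ _)⟩
    have aab : K.graph.Adj a b := adj a b hab (by intro z; simp only [Finset.mem_insert, Finset.mem_singleton]; tauto)
    have aac : K.graph.Adj a c := adj a c hac (by intro z; simp only [Finset.mem_insert, Finset.mem_singleton]; tauto)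
    have abc : K.graph.Adj b c := adj b c hbc (by intro z; simp only [Finset.mem_insert, Finset.mem_singleton]; tauto)
    have r1 : Lst b a = B ++ o :: A.reverse := by
      rw [h.rev a b aab, e1]
      simp
    have r2 : Lst c a = C ++ o :: A.reverse := by
      rw [h.rev a c aac, e2]
      simp
    have r3 : Lst c b = C ++ o :: B.reverse := by
      rw [h.rev b c abc, e3]
      simp
    refine ⟨A.length, B.length, C.length, List.length_pos_iff.2 hA, List.length_pos_iff.2 hB, List.length_pos_iff.2 hC, ?_, ?_, ?_, ?_, ?_, ?_⟩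
    · show (Lst a b).length - 1 = _
      rw [e1]
      simp
    · show (Lst a c).length - 1 = _
      rw [e2]
      simp
    · show (Lst b c).length - 1 = _
      rw [e3]
      simp
    · intro k hk
      show (Lst a b).getD k 0 = (Lst a c).getD k 0
      rw [e1, e2]
      exact p12_getD _ _ _ _ _ hk
    · intro k hk
      show (Lst b a).getD k 0 = (Lst b c).getD k 0
      rw [r1, e3]
      exact p12_getD _ _ _ _ _ hk
    · intro k hk
      show (Lst c a).getD k 0 = (Lst c b).getD k 0
      rw [r2, r3]
      exact p12_getD _ _ _ _ _ hk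

theorem p12_active {W : Type} [Fintype W] [DecidableEq W] {K : Cpx W} {e : W → ℕ} {ℓ : W → W → ℕ} {u : W × W × ℕ}
    (hu : u ∈ active K e ℓ) : (∃ a, u = (a, a, 0)) ∨ ∃ a b k, K.graph.Adj a b ∧ e a < e b ∧ 0 < k ∧ k < ℓ a b ∧ u = (a, b, k) := by
  classical
  unfold active at hu
  rw [Finset.mem_union] at hu
  rcases hu with hu | hu
  · rw [Finset.mem_biUnion] at hu
    obtain ⟨a, -, ha⟩ := hu
    exact Or.inl ⟨a, Finset.mem_singleton.1 ha⟩
  · rw [Finset.mem_biUnion] at hu
    obtain ⟨a, -, ha⟩ := hu
    rw [Finset.mem_biUnion] at ha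
    obtain ⟨b, -, hb⟩ := ha
    by_cases hc : K.graph.Adj a b ∧ e a < e b
    · rw [if_pos hc, Finset.mem_image] at hb
      obtain ⟨k, hk, rfl⟩ := hb
      rw [Finset.mem_Ioo] at hk
      exact Or.inr ⟨a, b, k, hc.1, hc.2, hk.1, hk.2, rfl⟩
    · rw [if_neg hc] at hb
      exact absurd hb (Finset.notMem_empty _)

theorem thickRadius_le_of_routed (n : ℕ) (hn : 5 ≤ n) (m : ℕ) : ∃ C : ℝ, 0 < C ∧
    ∀ (W : Type) (_ : Fintype W) (_ : DecidableEq W) (K : Cpx W) (vs : W → Fin n → ℤ) (Lst : W → W → List (Fin n → ℤ)),
      Routed K n vs Lst →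
      (∀ z, (univ.filter (fun a => vs a = z)).card + ∑ a, ∑ b, (Lst a b).count z ≤ m) →
      ∀ R : ℝ, 0 ≤ R → (∀ a i, |(vs a i : ℝ)| ≤ R) → (∀ a b, K.graph.Adj a b → ∀ z ∈ Lst a b, ∀ i, |(z i : ℝ)| ≤ R) →
      thickRadius n K ≤ ENNReal.ofReal (C * (R + 1)) := by
  classical
  obtain ⟨C, hC, hmain⟩ := thickRadius_le_of_hatSystem n hn m
  refine ⟨C, hC, ?_⟩
  intro W _ _ K vs Lst hr hm R hR hvs hL
  have hp := p12_paths hr
  let e : W → ℕ := fun a => (Fintype.equivFin W a : ℕ)
  have he : Function.Injective e := fun a b hab => (Fintype.equivFin W).injective (Fin.ext hab)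
  have hsys := hatSystem_of_paths hp he
  refine hmain W inferInstance inferInstance K (W × W × ℕ) inferInstance _ _ _ _ hsys ?_ R hR ?_
  · intro z
    refine le_trans ?_ (hm z)
    have hsub : (active K e (fun a b => (Lst a b).length - 1)).filter
        (fun u => siteOf vs (fun a b k => (Lst a b).getD k 0) u = z) ⊆
        (univ.filter (fun a => vs a = z)).image (fun a => ((a, a, 0) : W × W × ℕ)) ∪
          univ.biUnion (fun a : W => univ.biUnion (fun b : W =>
            ((Finset.range (Lst a b).length).filter (fun k => (Lst a b).getD k 0 = z)).image (fun k => ((a, b, k) : W × W × ℕ)))) := by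
      intro u hu
      rw [Finset.mem_filter] at hu
      obtain ⟨hu1, hu2⟩ := hu
      rcases p12_active hu1 with ⟨a, rfl⟩ | ⟨a, b, k, hab, -, hk0, hk, rfl⟩
      · rw [Finset.mem_union]
        left
        rw [Finset.mem_image]
        refine ⟨a, ?_, rfl⟩
        rw [Finset.mem_filter]
        refine ⟨Finset.mem_univ _, ?_⟩
        rw [siteOf, if_pos rfl] at hu2
        exact hu2
      · rw [Finset.mem_union]
        right
        rw [Finset.mem_biUnion]
        refine ⟨a, Finset.mem_univ _, ?_⟩
        rw [Finset.mem_biUnion]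
        refine ⟨b, Finset.mem_univ _, ?_⟩
        rw [Finset.mem_image]
        refine ⟨k, ?_, rfl⟩
        rw [Finset.mem_filter, Finset.mem_range]
        rw [siteOf, if_neg hab.1] at hu2
        exact ⟨by omega, hu2⟩
    refine (Finset.card_le_card hsub).trans ((Finset.card_union_le _ _).trans (add_le_add Finset.card_image_le ?_))
    refine Finset.card_biUnion_le.trans (Finset.sum_le_sum fun a _ => Finset.card_biUnion_le.trans (Finset.sum_le_sum fun b _ => ?_))
    refine Finset.card_image_le.trans (le_of_eq ?_)
    exact p12_count _ _ _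
  · intro u hu i
    rcases p12_active hu with ⟨a, rfl⟩ | ⟨a, b, k, hab, -, hk0, hk, rfl⟩
    · rw [siteOf, if_pos rfl]
      exact hvs a i
    · rw [siteOf, if_neg hab.1]
      show |(((Lst a b).getD k 0 i : ℤ) : ℝ)| ≤ R
      rw [List.getD_eq_getElem _ _ (by omega)]
      exact hL a b hab _ (List.getElem_mem _) i

end H32D
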