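import Pool.Agent.Lib.H32D.WDefs

set_option autoImplicit false

/-!
# H32D, chunk W1 (S/M): tripods in the free group

The reduced words of `g` and `h` cancel a maximal piece `q` in the product: `g.toWord = p ++ q`, `h.toWord = invRev q ++ r` and
`(g * h).toWord = p ++ r` (reduced because `q` is maximal). Induct on the length of `g.toWord`: if `g.toWord ++ h.toWord` is reduced take `q = []`;
otherwise the last letter of `g.toWord` is the inverse of the first letter of `h.toWord`, remove both. (`FreeGroup.IsReduced`,
`FreeGroup.toWord_mul`, `FreeGroup.reduce`; mathlib: `GroupTheory/FreeGroup/Reduce.lean`.)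

Auxiliary names start with `w1_`.
-/

namespace H32D

theorem w1_key {α : Type} (L : List (α × Bool)) : ∀ L2 : List (α × Bool), FreeGroup.IsReduced L →
    FreeGroup.IsReduced L2 → ∃ p q r : List (α × Bool), L = p ++ q ∧ L2 = FreeGroup.invRev q ++ r ∧
      FreeGroup.IsReduced (p ++ r) := by
  induction L using List.reverseRecOn with
  | nil =>
    intro L2 _ h2
    exact ⟨[], [], L2, rfl, by simp, by simpa using h2⟩
  | append_singleton L' a ih =>
    intro L2 h1 h2
    cases L2 with
    | nil => exact ⟨L' ++ [a], [], [], by simp, by simp, by simpa using h1⟩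
    | cons b L2' =>
      by_cases hc : a.1 = b.1 ∧ a.2 ≠ b.2
      · have h1' : FreeGroup.IsReduced L' := (List.isChain_append.1 h1).1
        have h2' : FreeGroup.IsReduced L2' := List.IsChain.tail (l := b :: L2') h2
        obtain ⟨p, q, r, e1, e2, e3⟩ := ih L2' h1' h2'
        refine ⟨p, q ++ [a], r, ?_, ?_, e3⟩
        · rw [e1, List.append_assoc]
        · rw [FreeGroup.invRev_append, e2]
          have hb : FreeGroup.invRev [a] = [b] := by
            obtain ⟨a1, a2⟩ := a
            obtain ⟨b1, b2⟩ := b
            simp only [FreeGroup.invRev, List.map_cons, List.map_nil, List.reverse_singleton] at *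
            obtain ⟨h3, h4⟩ := hc
            subst h3
            congr 2
            cases a2 <;> cases b2 <;> simp at h4 ⊢
          rw [hb]
          simp
      · refine ⟨L' ++ [a], [], b :: L2', by simp, by simp, ?_⟩
        have hab : a.1 = b.1 → a.2 = b.2 := fun h => by
          by_contra h'
          exact hc ⟨h, h'⟩
        unfold FreeGroup.IsReduced at *
        rw [List.isChain_append]
        refine ⟨h1, h2, ?_⟩
        intro x hx y hy
        simp at hx hy
        subst hx
        subst hy
        exact hab

theorem tripod_words {α : Type} [DecidableEq α] (g h : FreeGroup α) : ∃ p q r : List (α × Bool),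
    g.toWord = p ++ q ∧ h.toWord = FreeGroup.invRev q ++ r ∧ (g * h).toWord = p ++ r := by
  obtain ⟨p, q, r, e1, e2, e3⟩ := w1_key g.toWord h.toWord FreeGroup.isReduced_toWord FreeGroup.isReduced_toWord
  refine ⟨p, q, r, e1, e2, ?_⟩
  have hg : g = FreeGroup.mk (p ++ q) := by rw [← e1, FreeGroup.mk_toWord]
  have hh : h = FreeGroup.mk (FreeGroup.invRev q ++ r) := by rw [← e2, FreeGroup.mk_toWord]
  have hgh : g * h = FreeGroup.mk (p ++ r) := by
    rw [hg, hh, ← FreeGroup.mul_mk, ← FreeGroup.mul_mk, ← FreeGroup.mul_mk, ← FreeGroup.inv_mk]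
    group
  rw [hgh, FreeGroup.toWord_mk, e3.reduce_eq]

end H32D
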