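import Pool.Agent.Lib.H32D.W2

set_option autoImplicit false

/-!
# H32D, chunk W3 (M): chains, tripods, counting

`fullL_chain`: the list along a word is a chain since `segL l p` is a chain from `site p` to `site (stepL l p)` (`Routing`, reversed for
`l.2 = true`), and consecutive equal sites are near. `fullL_reverse` and `fullL_tripod` from `body_reverse` and `preL_append`: with
`m = endL p P1`, `q = endL m Q`, legs `A = site p :: preL p P1`, `B = site q :: preL q (invRev Q)`, `C = site r :: preL r (invRev R)`, centre `site m`.
`fullL_count`: by induction on the word, `∑_p count z (preL p w) ≤ w.length * (1 + κ)`-type bounds; the sum over `p` of a function of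
`stepL l p` is the sum over all sheets (a bijection).

Auxiliary names start with `w3_`.
-/

open Finset

namespace H32D

variable {P : Type} {n : ℕ}

theorem w3_near_refl (z : Fin n → ℤ) : Near z z := fun i => by simp

theorem w3_near_symm {z z' : Fin n → ℤ} (h : Near z z') : Near z' z := fun i => by
  rw [abs_sub_comm]
  exact h i

theorem w3_seg_head {σ : Bool → Equiv.Perm P} {site : P → Fin n → ℤ} {J : Bool → P → List (Fin n → ℤ)} (h : Routing σ site J)
    (l : Bool × Bool) (p : P) : (segL σ J l p).head? = some (site p) := by
  unfold segL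
  split_ifs
  · rw [List.head?_reverse, h.last]
    exact congrArg (fun x => some (site x)) ((σ l.1).apply_symm_apply p)
  · exact h.head _ _

theorem w3_seg_last {σ : Bool → Equiv.Perm P} {site : P → Fin n → ℤ} {J : Bool → P → List (Fin n → ℤ)} (h : Routing σ site J)
    (l : Bool × Bool) (p : P) : (segL σ J l p).getLast? = some (site (stepL σ l p)) := by
  unfold segL stepL
  split_ifs
  · rw [List.getLast?_reverse, h.head]
  · exact h.last _ _

theorem w3_seg_chain {σ : Bool → Equiv.Perm P} {site : P → Fin n → ℤ} {J : Bool → P → List (Fin n → ℤ)} (h : Routing σ site J)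
    (l : Bool × Bool) (p : P) : (segL σ J l p).IsChain Near := by
  unfold segL
  split_ifs
  · rw [List.isChain_reverse]
    exact (h.chain _ _).imp fun a b hab => w3_near_symm hab
  · exact h.chain _ _

theorem fullL_chain {σ : Bool → Equiv.Perm P} {site : P → Fin n → ℤ} {J : Bool → P → List (Fin n → ℤ)} (h : Routing σ site J) (p : P)
    (w : List (Bool × Bool)) : (fullL σ site J p w).IsChain Near := by
  induction w generalizing p with
  | nil =>
    show [site p, site p, site p].IsChain Near
    rw [List.isChain_cons_cons, List.isChain_cons_cons]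
    exact ⟨w3_near_refl _, w3_near_refl _, List.isChain_singleton _⟩
  | cons l w ih =>
    have h1 := ih (stepL σ l p)
    have h2 : fullL σ site J p (l :: w) = site p :: site p :: (segL σ J l p ++ (preL σ site J (stepL σ l p) w ++
        [site (endL σ (stepL σ l p) w), site (endL σ (stepL σ l p) w)])) := by
      show site p :: (site p :: (segL σ J l p ++ preL σ site J (stepL σ l p) w) ++ _) = _
      rw [List.cons_append, List.append_assoc]
      rfl
    obtain ⟨h3, h4⟩ := List.isChain_cons.1 h1
    rw [h2, List.isChain_cons_cons]
    refine ⟨w3_near_refl _, List.isChain_cons.2 ⟨?_, List.isChain_append.2 ⟨w3_seg_chain h l p, h4, ?_⟩⟩⟩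
    · intro y hy
      rw [List.head?_append, w3_seg_head h] at hy
      have hy' : site p = y := by simpa using hy
      rw [← hy']
      exact w3_near_refl _
    · intro x hx y hy
      rw [w3_seg_last h] at hx
      have hx' : site (stepL σ l p) = x := by simpa using hx
      rw [← hx']
      exact h3 y hy

theorem fullL_reverse (σ : Bool → Equiv.Perm P) (site : P → Fin n → ℤ) (J : Bool → P → List (Fin n → ℤ)) (p : P)
    (w : List (Bool × Bool)) : fullL σ site J (endL σ p w) (FreeGroup.invRev w) = (fullL σ site J p w).reverse := by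
  have h1 := body_reverse σ site J p w
  have h2 : (preL σ site J p w ++ [site (endL σ p w)]).reverse = site (endL σ p w) :: (preL σ site J p w).reverse := by
    rw [List.reverse_append]
    rfl
  rw [h2] at h1
  unfold fullL
  rw [endL_invRev]
  have h3 : preL σ site J (endL σ p w) (FreeGroup.invRev w) ++ [site p, site p] =
      (preL σ site J (endL σ p w) (FreeGroup.invRev w) ++ [site p]) ++ [site p] := by
    rw [List.append_assoc]
    rfl
  rw [h3, h1, List.reverse_cons, List.reverse_append]
  rfl

theorem w3_leg (σ : Bool → Equiv.Perm P) (site : P → Fin n → ℤ) (J : Bool → P → List (Fin n → ℤ)) (m : P)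
    (q : List (Bool × Bool)) : site m :: (site (endL σ m q) :: preL σ site J (endL σ m q) (FreeGroup.invRev q)).reverse =
      preL σ site J m q ++ [site (endL σ m q), site (endL σ m q)] := by
  have h1 := body_reverse σ site J m q
  have h2 : site m :: (preL σ site J (endL σ m q) (FreeGroup.invRev q)).reverse = preL σ site J m q ++ [site (endL σ m q)] := by
    have h3 := congrArg List.reverse h1
    rw [List.reverse_reverse, List.reverse_append] at h3
    exact h3
  rw [List.reverse_cons, ← List.cons_append, h2, List.append_assoc]
  rfl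

theorem fullL_tripod (σ : Bool → Equiv.Perm P) (site : P → Fin n → ℤ) (J : Bool → P → List (Fin n → ℤ)) (p : P)
    (w1 q w2 : List (Bool × Bool)) : ∃ (A B C : List (Fin n → ℤ)) (o : Fin n → ℤ), A ≠ [] ∧ B ≠ [] ∧ C ≠ [] ∧
      fullL σ site J p (w1 ++ q) = A ++ o :: B.reverse ∧ fullL σ site J p (w1 ++ w2) = A ++ o :: C.reverse ∧
      fullL σ site J (endL σ p (w1 ++ q)) (FreeGroup.invRev q ++ w2) = B ++ o :: C.reverse := by
  set m := endL σ p w1 with hm
  set e := endL σ m q with he
  set e2 := endL σ m w2 with he2
  have hme : endL σ e (FreeGroup.invRev q) = m := endL_invRev σ m q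
  refine ⟨site p :: preL σ site J p w1, site e :: preL σ site J e (FreeGroup.invRev q), site e2 :: preL σ site J e2 (FreeGroup.invRev w2),
    site m, List.cons_ne_nil _ _, List.cons_ne_nil _ _, List.cons_ne_nil _ _, ?_, ?_, ?_⟩
  · rw [w3_leg σ site J m q]
    unfold fullL
    rw [endL_append, preL_append, List.cons_append, List.append_assoc]
  · rw [w3_leg σ site J m w2]
    unfold fullL
    rw [endL_append, preL_append, List.cons_append, List.append_assoc]
  · rw [w3_leg σ site J m w2]
    unfold fullL
    rw [endL_append, ← hm, ← he, endL_append, preL_append, hme, List.cons_append, List.append_assoc]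

theorem w3_step_sum [Fintype P] (σ : Bool → Equiv.Perm P) (l : Bool × Bool) (f : P → ℕ) : ∑ p, f (stepL σ l p) = ∑ p, f p := by
  unfold stepL
  by_cases h : l.2 = true
  · simp only [h, if_true]
    exact Equiv.sum_comp ((σ l.1)⁻¹) f
  · simp only [h]
    exact Equiv.sum_comp (σ l.1) f

theorem w3_end_sum [Fintype P] (σ : Bool → Equiv.Perm P) (w : List (Bool × Bool)) (f : P → ℕ) : ∑ p, f (endL σ p w) = ∑ p, f p := by
  induction w with
  | nil => rfl
  | cons l w ih =>
    rw [← ih]
    exact w3_step_sum σ l fun p => f (endL σ p w)

theorem w3_site_count [Fintype P] [DecidableEq P] (site : P → Fin n → ℤ) {κ : ℕ} (z : Fin n → ℤ)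
    (h1 : (univ.filter (fun p => site p = z)).card ≤ κ) : ∑ p, [site p].count z ≤ κ := by
  refine le_trans (le_of_eq ?_) h1
  rw [Finset.card_filter]
  refine Finset.sum_congr rfl fun p _ => ?_
  by_cases h : site p = z
  · rw [if_pos h, h, List.count_singleton_self]
  · rw [if_neg h]
    exact List.count_eq_zero_of_not_mem fun hz => h (List.mem_singleton.1 hz).symm

theorem w3_seg_count [Fintype P] [DecidableEq P] (σ : Bool → Equiv.Perm P) (J : Bool → P → List (Fin n → ℤ))
    {κ : ℕ} (z : Fin n → ℤ) (h2 : ∀ i, ∑ p, (J i p).count z ≤ κ) (l : Bool × Bool) : ∑ p, (segL σ J l p).count z ≤ κ := by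
  unfold segL
  by_cases h : l.2 = true
  · simp only [h, if_true, List.count_reverse]
    rw [Equiv.sum_comp ((σ l.1)⁻¹) fun p => (J l.1 p).count z]
    exact h2 _
  · simp only [h]
    exact h2 _

theorem w3_pre_count [Fintype P] [DecidableEq P] (σ : Bool → Equiv.Perm P) (site : P → Fin n → ℤ) (J : Bool → P → List (Fin n → ℤ))
    {κ : ℕ} (z : Fin n → ℤ) (h1 : (univ.filter (fun p => site p = z)).card ≤ κ) (h2 : ∀ i, ∑ p, (J i p).count z ≤ κ)
    (w : List (Bool × Bool)) : ∑ p, (preL σ site J p w).count z ≤ 2 * w.length * κ := by
  induction w with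
  | nil =>
    have h3 : ∀ p : P, (preL σ site J p []).count z = 0 := fun p => rfl
    simp [h3]
  | cons l w ih =>
    have h3 : ∀ p : P, (preL σ site J p (l :: w)).count z =
        [site p].count z + ((segL σ J l p).count z + (preL σ site J (stepL σ l p) w).count z) := by
      intro p
      show (site p :: (segL σ J l p ++ preL σ site J (stepL σ l p) w)).count z = _
      rw [← List.count_append, ← List.count_append]
      rfl
    simp only [h3, Finset.sum_add_distrib]
    rw [w3_step_sum σ l fun p => (preL σ site J p w).count z]
    have h4 := w3_site_count site z h1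
    have h5 := w3_seg_count σ J z h2 l
    rw [List.length_cons]
    nlinarith [h4, h5, ih]

theorem fullL_count [Fintype P] [DecidableEq P] (σ : Bool → Equiv.Perm P) (site : P → Fin n → ℤ) (J : Bool → P → List (Fin n → ℤ))
    {κ : ℕ} (z : Fin n → ℤ) (h1 : (univ.filter (fun p => site p = z)).card ≤ κ) (h2 : ∀ i, ∑ p, (J i p).count z ≤ κ)
    (w : List (Bool × Bool)) : ∑ p, (fullL σ site J p w).count z ≤ (3 + 2 * w.length) * κ := by
  have h3 : ∀ p : P, (fullL σ site J p w).count z =
      [site p].count z + ((preL σ site J p w).count z + ([site (endL σ p w)].count z + [site (endL σ p w)].count z)) := by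
    intro p
    unfold fullL
    rw [← List.count_append, ← List.count_append, ← List.count_append]
    rfl
  simp only [h3, Finset.sum_add_distrib]
  rw [w3_end_sum σ w fun p => [site p].count z]
  have h4 := w3_site_count site z h1
  have h5 := w3_pre_count σ site J z h1 h2 w
  nlinarith [h4, h5]

theorem fullL_mem {σ : Bool → Equiv.Perm P} {site : P → Fin n → ℤ} {J : Bool → P → List (Fin n → ℤ)} {Z : Set (Fin n → ℤ)}
    (h1 : ∀ p, site p ∈ Z) (h2 : ∀ i p, ∀ z ∈ J i p, z ∈ Z) (p : P) (w : List (Bool × Bool)) : ∀ z ∈ fullL σ site J p w, z ∈ Z := by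
  have h3 : ∀ (w : List (Bool × Bool)) (p : P), ∀ z ∈ preL σ site J p w, z ∈ Z := by
    intro w
    induction w with
    | nil =>
      intro p z hz
      exact absurd hz List.not_mem_nil
    | cons l w ih =>
      intro p z hz
      have hz' : z ∈ site p :: (segL σ J l p ++ preL σ site J (stepL σ l p) w) := hz
      rw [List.mem_cons, List.mem_append] at hz'
      rcases hz' with rfl | hz' | hz'
      · exact h1 p
      · unfold segL at hz'
        split_ifs at hz'
        · exact h2 _ _ z (List.mem_reverse.1 hz')
        · exact h2 _ _ z hz'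
      · exact ih _ z hz'
  intro z hz
  unfold fullL at hz
  rw [List.mem_cons, List.mem_append, List.mem_cons, List.mem_singleton] at hz
  rcases hz with rfl | hz | rfl | rfl
  · exact h1 p
  · exact h3 w p z hz
  · exact h1 _
  · exact h1 _

end H32D
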