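import Pool.Agent.Lib.H32D.C4
import Pool.Agent.Lib.H32D.W1
import Pool.Agent.Lib.H32D.W3
import Pool.Agent.Lib.H32D.P12

set_option autoImplicit false

/-!
# H32D, chunk C5 (M): the lists of sites along the edges of the cover

For adjacent `x = (a, p)`, `y = (b, q)` of the cover (`p = lift σ (lab a b) q`) the list is `fullL σ site J p (lab a b).toWord`; it ends at `q` (`endL_toWord`).
`vs x = site x.2`. `rev`: `(lab b a).toWord = invRev (lab a b).toWord` (`FreeGroup.toWord_inv`) and `fullL_reverse`. `tri`: `tripod_words` for `g = lab a b`,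
`h = lab b c`, `g * h = lab a c` and `fullL_tripod`. Counting: for fixed `a, b` the pairs `(p, q)` with `p = μ a b q` are parametrized by `p`.

Auxiliary names start with `c5_`.
-/

open Finset

namespace H32D

/-- The list of sites along an edge of the cover (empty if there is no edge). -/
noncomputable def edgeList {V P : Type} [Fintype V] [DecidableEq V] [Fintype P] [DecidableEq P] {n : ℕ} (K : Cpx V) (lab : V → V → F2)
    (σ : Bool → Equiv.Perm P) (site : P → Fin n → ℤ) (J : Bool → P → List (Fin n → ℤ)) (x y : V × P) : List (Fin n → ℤ) := by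
  classical
  exact if (coverCpx K (permLab lab σ)).graph.Adj x y then fullL σ site J x.2 (lab x.1 y.1).toWord else []


theorem c5_end {V P : Type} (lab : V → V → F2) (σ : Bool → Equiv.Perm P) (a b : V) (p q : P) (h : p = permLab lab σ a b q) :
    endL σ p (lab a b).toWord = q := by
  rw [endL_toWord, h]
  simp [permLab]

theorem c5_adj {V : Type} [Fintype V] [DecidableEq V] {K : Cpx V} {a b c : V} (hab : a ≠ b) (h : ({a, b, c} : Finset V) ∈ K.faces) :
    K.graph.Adj a b := by
  refine ⟨hab, K.down _ h _ ?_ ⟨a, by simp⟩⟩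
  intro x hx
  simp only [Finset.mem_insert, Finset.mem_singleton] at hx ⊢
  tauto

theorem c5_edge_eq {V : Type} [Fintype V] [DecidableEq V] {K : Cpx V} {lab : V → V → F2} {P : Type} [Fintype P] [DecidableEq P] {n : ℕ}
    {σ : Bool → Equiv.Perm P} {site : P → Fin n → ℤ} {J : Bool → P → List (Fin n → ℤ)} {x y : V × P}
    (h : (coverCpx K (permLab lab σ)).graph.Adj x y) :
    edgeList K lab σ site J x y = fullL σ site J x.2 (lab x.1 y.1).toWord := by
  unfold edgeList
  rw [if_pos h]

theorem c5_count_le {V : Type} [Fintype V] [DecidableEq V] {K : Cpx V} {lab : V → V → F2} (h : Flat K lab) {P : Type} [Fintype P]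
    [DecidableEq P] {n : ℕ} (σ : Bool → Equiv.Perm P) (site : P → Fin n → ℤ) (J : Bool → P → List (Fin n → ℤ)) (z : Fin n → ℤ)
    (a b : V) (p : P) : ∑ q, (edgeList K lab σ site J (a, p) (b, q)).count z ≤ (fullL σ site J p (lab a b).toWord).count z := by
  classical
  have hμ := flat_permLab h σ
  have h1 : ∀ q, q ≠ (permLab lab σ a b)⁻¹ p → (edgeList K lab σ site J (a, p) (b, q)).count z = 0 := by
    intro q hq
    unfold edgeList
    rw [if_neg]
    · simp
    · intro hadj
      have h2 := ((cover_adj hμ (a, p) (b, q)).1 hadj).2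
      apply hq
      simp only at h2
      rw [h2]; simp
  rw [Finset.sum_eq_single ((permLab lab σ a b)⁻¹ p) (fun q _ hq => h1 q hq) (fun h => absurd (Finset.mem_univ _) h)]
  unfold edgeList
  split_ifs with hadj
  · exact le_rfl
  · simp

theorem cover_routed {V : Type} [Fintype V] [DecidableEq V] {K : Cpx V} (hK : IsSurface K) {lab : V → V → F2} (h : Flat K lab)
    {P : Type} [Fintype P] [DecidableEq P] {n : ℕ} {σ : Bool → Equiv.Perm P} {site : P → Fin n → ℤ}
    {J : Bool → P → List (Fin n → ℤ)} (hr : Routing σ site J) :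
    Routed (coverCpx K (permLab lab σ)) n (fun x => site x.2) (edgeList K lab σ site J) := by
  have hμ := flat_permLab h σ
  refine ⟨cover_card_le hK.card_le, cover_pure hμ hK.pure, ?_, ?_, ?_, ?_⟩
  · intro x y hadj
    have hadj' := hadj.symm
    rw [c5_edge_eq hadj, c5_edge_eq hadj']
    have h1 := ((cover_adj hμ x y).1 hadj).2
    have h2 := c5_end lab σ x.1 y.1 x.2 y.2 h1
    have h3 := fullL_reverse σ site J x.2 (lab x.1 y.1).toWord
    rw [h2] at h3
    rw [h.inv x.1 y.1, FreeGroup.toWord_inv]
    exact h3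
  · intro x y hadj
    rw [c5_edge_eq hadj]
    rfl
  · intro x y hadj
    rw [c5_edge_eq hadj]
    exact fullL_chain hr x.2 _
  · intro a b c hab hbc hac hf
    have hadj1 := c5_adj hab hf
    have hadj2 : (coverCpx K (permLab lab σ)).graph.Adj a c := by
      apply c5_adj (c := b) hac
      have : ({a, c, b} : Finset (V × P)) = {a, b, c} := by
        ext x; simp only [Finset.mem_insert, Finset.mem_singleton]; tauto
      rw [this]; exact hf
    have hadj3 : (coverCpx K (permLab lab σ)).graph.Adj b c := by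
      apply c5_adj (c := a) hbc
      have : ({b, c, a} : Finset (V × P)) = {a, b, c} := by
        ext x; simp only [Finset.mem_insert, Finset.mem_singleton]; tauto
      rw [this]; exact hf
    have k1 := (cover_adj hμ a b).1 hadj1
    have k2 := (cover_adj hμ a c).1 hadj2
    have k3 := (cover_adj hμ b c).1 hadj3
    have hf1 : ({a.1, b.1, c.1} : Finset V) ∈ K.faces := by
      have h2 := (Finset.mem_filter.1 hf).2.1
      have : ({a, b, c} : Finset (V × P)).image Prod.fst = {a.1, b.1, c.1} := by
        rw [Finset.image_insert, Finset.image_insert, Finset.image_singleton]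
      rw [this] at h2; exact h2
    have ht := h.tri a.1 b.1 c.1 k1.1.ne k3.1.ne k2.1.ne hf1
    obtain ⟨w1, q, w2, e1, e2, e3⟩ := tripod_words (lab a.1 b.1) (lab b.1 c.1)
    rw [ht] at e3
    have hend := c5_end lab σ a.1 b.1 a.2 b.2 k1.2
    obtain ⟨A, B, C, o, hA, hB, hC, f1, f2, f3⟩ := fullL_tripod σ site J a.2 w1 q w2
    refine ⟨A, B, C, o, hA, hB, hC, ?_, ?_, ?_⟩
    · rw [c5_edge_eq hadj1, e1]; exact f1
    · rw [c5_edge_eq hadj2, e3]; exact f2
    · rw [c5_edge_eq hadj3, e2]
      rw [← e1, hend] at f3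
      exact f3

theorem cover_count {V : Type} [Fintype V] [DecidableEq V] {K : Cpx V} {lab : V → V → F2} (h : Flat K lab) (κ : ℕ) :
    ∃ m : ℕ, ∀ (P : Type) (_ : Fintype P) (_ : DecidableEq P) (n : ℕ) (σ : Bool → Equiv.Perm P) (site : P → Fin n → ℤ)
      (J : Bool → P → List (Fin n → ℤ)), (∀ z, (univ.filter (fun p => site p = z)).card ≤ κ) → (∀ z i, ∑ p, (J i p).count z ≤ κ) →
      ∀ z, (univ.filter (fun x : V × P => site x.2 = z)).card + ∑ x, ∑ y, (edgeList K lab σ site J x y).count z ≤ m := by
  classical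
  refine ⟨Fintype.card V * κ + ∑ a : V, ∑ b : V, (3 + 2 * (lab a b).toWord.length) * κ, ?_⟩
  intro P _ _ n σ site J h1 h2 z
  refine Nat.add_le_add ?_ ?_
  · have h3 : (univ.filter (fun x : V × P => site x.2 = z)) = (univ : Finset V) ×ˢ (univ.filter (fun p => site p = z)) := by
      ext x; simp
    rw [h3, Finset.card_product, Finset.card_univ]
    exact Nat.mul_le_mul_left _ (h1 z)
  · have h4 : ∀ a b : V, ∑ p : P, ∑ q : P, (edgeList K lab σ site J (a, p) (b, q)).count z ≤ (3 + 2 * (lab a b).toWord.length) * κ := by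
      intro a b
      refine le_trans (Finset.sum_le_sum (fun p _ => c5_count_le h σ site J z a b p)) ?_
      exact fullL_count σ site J z (h1 z) (h2 z) _
    calc ∑ x : V × P, ∑ y : V × P, (edgeList K lab σ site J x y).count z
        = ∑ a : V, ∑ b : V, ∑ p : P, ∑ q : P, (edgeList K lab σ site J (a, p) (b, q)).count z := by
          rw [Fintype.sum_prod_type]
          refine Finset.sum_congr rfl (fun a _ => ?_)
          rw [Finset.sum_comm]
          rw [Fintype.sum_prod_type]
          refine Finset.sum_congr rfl (fun b _ => ?_)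
          rw [Finset.sum_comm]
      _ ≤ _ := Finset.sum_le_sum (fun a _ => Finset.sum_le_sum (fun b _ => h4 a b))

theorem edgeList_mem {V : Type} [Fintype V] [DecidableEq V] {K : Cpx V} {lab : V → V → F2} {P : Type} [Fintype P] [DecidableEq P]
    {n : ℕ} {σ : Bool → Equiv.Perm P} {site : P → Fin n → ℤ} {J : Bool → P → List (Fin n → ℤ)} {Z : Set (Fin n → ℤ)}
    (h1 : ∀ p, site p ∈ Z) (h2 : ∀ i p, ∀ z ∈ J i p, z ∈ Z) (x y : V × P) : ∀ z ∈ edgeList K lab σ site J x y, z ∈ Z := by
  intro z hz
  unfold edgeList at hz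
  split_ifs at hz with hadj
  · exact fullL_mem h1 h2 _ _ z hz
  · simp at hz

end H32D
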