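import Pool.Agent.Lib.H32D.SDefs

set_option autoImplicit false

/-!
# H32D, definitions of module C (the cover given by a flat labelling by permutations)

`μ : V → V → Perm P` is a flat labelling of `K`. The cover has the vertices `V × P`; `(a, p)` and `(b, q)` are joined iff `a b` is an edge of `K` and
`p = μ a b q`. A set of vertices is a simplex iff its projection is a simplex of `K`, different elements have different projections, and
any two elements `(a, p)`, `(b, q)` satisfy `p = μ a b q`.
-/

open Finset

namespace H32D

/-- The cover of `K` given by the flat labelling `μ`. -/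
def coverCpx {V : Type} [Fintype V] [DecidableEq V] (K : Cpx V) {P : Type} [Fintype P] [DecidableEq P] (μ : V → V → Equiv.Perm P) :
    Cpx (V × P) where
  faces := univ.filter (fun s : Finset (V × P) => s.image Prod.fst ∈ K.faces ∧
    ∀ x ∈ s, ∀ y ∈ s, x ≠ y → x.1 ≠ y.1 ∧ x.2 = μ x.1 y.1 y.2)
  nonempty := fun s hs => by
    have h := K.nonempty _ (Finset.mem_filter.1 hs).2.1
    exact Finset.image_nonempty.1 h
  down := fun s hs t hts ht => by
    obtain ⟨h1, h2⟩ := (Finset.mem_filter.1 hs).2
    refine Finset.mem_filter.2 ⟨Finset.mem_univ _, K.down _ h1 _ (Finset.image_subset_image hts) (ht.image _), ?_⟩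
    exact fun x hx y hy hxy => h2 x (hts hx) y (hts hy) hxy
  vertex := fun v => by
    refine Finset.mem_filter.2 ⟨Finset.mem_univ _, by simpa using K.vertex v.1, ?_⟩
    intro x hx y hy hxy
    exact absurd ((Finset.mem_singleton.1 hx).trans (Finset.mem_singleton.1 hy).symm) hxy

end H32D
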