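import Mathlib

set_option autoImplicit false

/-!
# H32D, definitions (MP_d8119f_gt, thick embeddings of covers of triangulated surfaces)

* `Cpx V`: a finite abstract simplicial complex whose vertices are the elements of the finite type `V`.
* `Cpx.real`: its geometric realization, a compact subset of `V → ℝ` (barycentric coordinates); `Cpx.cell s`: the closed simplex `s`.
* `ThickEmb K n f`: `f` is a topological embedding of the realization into `ℝⁿ` with combinatorial thickness at least `1`.
* `thickRadius n K`: the combinatorially-thick embedding radius `R_n(K)`, in `[0,∞]`.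
* `IsSurface K`: the realization is a closed connected orientable surface (combinatorial form: pure of dimension two, each edge in exactly
  two triangles, connected vertex links, connected, a coherent orientation of the triangles).
* `euler K`: the Euler characteristic (the surface has genus `g` iff it is `2 - 2 g`).
* `IsCovering p L K`: `p` induces a covering of realizations and `L` is the lifted triangulation.
* `Expands G h`: the edge expansion (Cheeger constant) of the graph `G` is at least `h`.
-/

open Finset
open scoped ENNReal

namespace H32D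

/-- A finite abstract simplicial complex; its vertices are exactly the elements of `V`. -/
structure Cpx (V : Type) [Fintype V] [DecidableEq V] where
  faces : Finset (Finset V)
  nonempty : ∀ s ∈ faces, s.Nonempty
  down : ∀ s ∈ faces, ∀ t : Finset V, t ⊆ s → t.Nonempty → t ∈ faces
  vertex : ∀ v : V, {v} ∈ faces

variable {V : Type} [Fintype V] [DecidableEq V]

/-- The geometric realization: barycentric coordinates whose support is a simplex. -/
def Cpx.real (K : Cpx V) : Set (V → ℝ) :=
  {x | (∀ v, 0 ≤ x v) ∧ ∑ v, x v = 1 ∧ univ.filter (fun v => x v ≠ 0) ∈ K.faces}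

/-- The closed simplex spanned by `s`. -/
def Cpx.cell (K : Cpx V) (s : Finset V) : Set (V → ℝ) := {x | x ∈ K.real ∧ ∀ v, v ∉ s → x v = 0}

/-- `f` embeds the realization of `K` into `ℝⁿ` with combinatorial thickness at least `1`: it is continuous and injective on the (compact)
realization, and non-adjacent simplices (simplices without a common vertex) have images at distance at least `1`. -/
def ThickEmb (K : Cpx V) (n : ℕ) (f : (V → ℝ) → EuclideanSpace ℝ (Fin n)) : Prop :=
  ContinuousOn f K.real ∧ Set.InjOn f K.real ∧
    ∀ s ∈ K.faces, ∀ t ∈ K.faces, Disjoint s t → ∀ x ∈ K.cell s, ∀ y ∈ K.cell t, 1 ≤ dist (f x) (f y)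

/-- The combinatorially-thick embedding radius `R_n(K)`: the infimum of the radii of the closed balls (about the origin) into which `K`
embeds with combinatorial thickness at least `1` (`∞` if there is none). -/
noncomputable def thickRadius (n : ℕ) (K : Cpx V) : ℝ≥0∞ :=
  sInf {R | ∃ f, ThickEmb K n f ∧ ∀ x ∈ K.real, ENNReal.ofReal ‖f x‖ ≤ R}

/-- The `1`-skeleton. -/
def Cpx.graph (K : Cpx V) : SimpleGraph V where
  Adj a b := a ≠ b ∧ ({a, b} : Finset V) ∈ K.faces
  symm := ⟨fun a b h => ⟨h.1.symm, by rw [Finset.pair_comm]; exact h.2⟩⟩
  loopless := ⟨fun _ h => h.1 rfl⟩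

/-- The link of the vertex `v` (a graph on the neighbours of `v`). -/
def Cpx.link (K : Cpx V) (v : V) : SimpleGraph {a : V // K.graph.Adj v a} where
  Adj a b := a ≠ b ∧ ({v, a.1, b.1} : Finset V) ∈ K.faces
  symm := ⟨fun a b h => ⟨h.1.symm, by rw [Finset.pair_comm]; exact h.2⟩⟩
  loopless := ⟨fun _ h => h.1 rfl⟩

/-- A coherent orientation of the triangles: `O a b c` says that `(a, b, c)` is a positively ordered triangle. -/
structure IsOrientation (K : Cpx V) (O : V → V → V → Prop) : Prop where
  face : ∀ a b c, O a b c → a ≠ b ∧ b ≠ c ∧ a ≠ c ∧ ({a, b, c} : Finset V) ∈ K.faces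
  rot : ∀ a b c, O a b c → O b c a
  total : ∀ a b c, a ≠ b → b ≠ c → a ≠ c → ({a, b, c} : Finset V) ∈ K.faces → (O a b c ∨ O b a c)
  anti : ∀ a b c, O a b c → ¬ O b a c
  unique : ∀ a b c d, O a b c → O a b d → c = d

/-- The realization of `K` is a closed connected orientable surface. -/
structure IsSurface (K : Cpx V) : Prop where
  card_le : ∀ s ∈ K.faces, s.card ≤ 3
  pure : ∀ s ∈ K.faces, ∃ t ∈ K.faces, s ⊆ t ∧ t.card = 3
  edge : ∀ e ∈ K.faces, e.card = 2 → (K.faces.filter (fun t => e ⊆ t ∧ t.card = 3)).card = 2
  link : ∀ v, (K.link v).Connected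
  conn : K.graph.Connected
  orient : ∃ O, IsOrientation K O

/-- The Euler characteristic. -/
def Cpx.euler (K : Cpx V) : ℤ := ∑ s ∈ K.faces, (-1 : ℤ) ^ (s.card + 1)

variable {W : Type} [Fintype W] [DecidableEq W]

/-- `p` is a simplicial covering map `L → K`: simplices are mapped injectively onto simplices, and a simplex of `K` through `p w` has exactly
one lift through `w`. So the realization of `L` covers the realization of `K` and `L` is the lifted triangulation. -/
structure IsCovering (p : W → V) (L : Cpx W) (K : Cpx V) : Prop where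
  surj : Function.Surjective p
  map : ∀ s ∈ L.faces, s.image p ∈ K.faces ∧ Set.InjOn p s
  lift : ∀ w, ∀ s ∈ K.faces, p w ∈ s → ∃! t, t ∈ L.faces ∧ w ∈ t ∧ t.image p = s

/-- Every set of at most half of the vertices has at least `h` times as many boundary edges as elements. -/
def Expands (G : SimpleGraph W) (h : ℝ) : Prop :=
  ∀ A : Finset W, 2 * A.card ≤ Fintype.card W → h * A.card ≤ (Set.ncard {q : W × W | q.1 ∈ A ∧ q.2 ∉ A ∧ G.Adj q.1 q.2} : ℝ)

end H32D
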