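import Pool.Agent.Lib.H32D.EDefs

set_option autoImplicit false

/-!
# H32D, chunk E1 (M): the bracket inequality of Gabber and Galil

Write `a = sz z.1`, `b = sz z.2`, not both zero.
* `2 (a + b) ≥ m`: `cs z.1 + cs z.2 ≤ √2` (`cos (π a / m) ≤ cos (π / 2 - π b / m) = sin (π b / m)` since `a ≤ m / 2`, and
`sin + cos ≤ √2`), and all `gam ≤ 5/4`, so the bracket is at most `(5/2) √2 < 3.65`.
* `2 (a + b) < m`, `b < a`: the points `(z.1, z.2 ± 2 z.1)` are both larger than `z` (the second coordinate is represented by an integer `v` with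
`b < 2a - b ≤ |v| ≤ 2a + b < m` and `m - |v| > b`). If `b = 0` the points `(z.1 ± 2 z.2, z.2)` are `z` itself; if `b > 0` one of them is larger (`a + 2b`,
`m - (a + 2b) > a`) and the other smaller (`|a - 2b| < a`). Since `cs ≤ 1` the bracket is at most `3 * 4/5 + 5/4 = 3.65`. `a < b` is symmetric.
* `2 (a + b) < m`, `a = b > 0`: in each pair one point is larger (`3a`, `m - 3a > a`), and the other has the same sizes (`|a - 2a| = a`): at most
`2 * 4/5 + 2`.
Useful: `ZMod.valMinAbs_spec`, `ZMod.valMinAbs_mem_Ioc`, `ZMod.valMinAbs_natAbs_eq_min`, or: `sz a ≤ |t|` for every integer `t` with `(t : ZMod m) = a`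
and `sz a = |t|` if `2 |t| ≤ m`.

Auxiliary names start with `e1_`.
-/

open Finset

namespace H32D

theorem gam_mul {m : ℕ} (z z' : ZMod m × ZMod m) : gam z z' * gam z' z = 1 ∧ 0 < gam z z' := by
  unfold gam
  split_ifs <;> first | (exfalso; omega) | norm_num

theorem e1_gam_le {m : ℕ} (z z' : ZMod m × ZMod m) : gam z z' ≤ 5 / 4 := by
  unfold gam
  split_ifs <;> norm_num

theorem e1_gam_big {m : ℕ} (z z' : ZMod m × ZMod m) (h1 : sz z.1 ≤ sz z'.1) (h2 : sz z.2 ≤ sz z'.2)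
    (h3 : sz z.1 < sz z'.1 ∨ sz z.2 < sz z'.2) : gam z z' ≤ 4 / 5 := by
  unfold gam
  rw [if_neg (by omega), if_pos (by omega)]

theorem e1_gam_ge {m : ℕ} (z z' : ZMod m × ZMod m) (h1 : sz z.1 ≤ sz z'.1) (h2 : sz z.2 ≤ sz z'.2) : gam z z' ≤ 1 := by
  unfold gam
  rw [if_neg (by omega)]
  split_ifs <;> norm_num

theorem e1_sz {m : ℕ} [NeZero m] (t : ℤ) (ht : t.natAbs ≤ m) : sz (t : ZMod m) = min t.natAbs (m - t.natAbs) := by
  have hm : 0 < m := NeZero.pos m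
  rw [sz, ZMod.valMinAbs_natAbs_eq_min]
  have h1 : (((t : ZMod m).val : ℕ) : ℤ) = t % (m : ℤ) := ZMod.val_intCast t
  rcases lt_or_ge t 0 with h | h
  · rcases Nat.lt_or_ge t.natAbs m with h' | h'
    · have h2 : t % (m : ℤ) = t + m := by
        rw [← Int.add_emod_right t (m : ℤ)]
        exact Int.emod_eq_of_lt (by omega) (by omega)
      omega
    · have h2 : t = -(m : ℤ) := by omega
      have h3 : t % (m : ℤ) = 0 := by rw [h2]; simp
      omega
  · rcases Nat.lt_or_ge t.natAbs m with h' | h'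
    · have h2 : t % (m : ℤ) = t := Int.emod_eq_of_lt h (by omega)
      omega
    · have h2 : t = (m : ℤ) := by omega
      have h3 : t % (m : ℤ) = 0 := by rw [h2]; simp
      omega

theorem e1_cs_le {m : ℕ} (a : ZMod m) : cs a ≤ 1 := Real.abs_cos_le_one _

theorem e1_cs_nonneg {m : ℕ} (a : ZMod m) : 0 ≤ cs a := abs_nonneg _

theorem e1_two {m : ℕ} [NeZero m] (a : ZMod m) : 2 * sz a ≤ m := by
  have h := e1_sz (m := m) a.valMinAbs
  have h2 := ZMod.valMinAbs_mem_Ioc a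
  rw [Set.mem_Ioc] at h2
  unfold sz
  omega

theorem e1_cs_eq {m : ℕ} [NeZero m] (a : ZMod m) : cs a = Real.cos (Real.pi * (sz a : ℝ) / m) := by
  have hm : (0 : ℝ) < m := Nat.cast_pos.mpr (NeZero.pos m)
  have h1 : ((sz a : ℕ) : ℝ) = |(a.valMinAbs : ℝ)| := by
    rw [sz, Nat.cast_natAbs]; push_cast; rfl
  have h2 : Real.cos (Real.pi * (a.valMinAbs : ℝ) / m) = Real.cos (Real.pi * (sz a : ℝ) / m) := by
    rw [h1, ← Real.cos_abs, abs_div, abs_mul, abs_of_pos Real.pi_pos, abs_of_pos hm]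
  rw [cs, h2, abs_of_nonneg]
  apply Real.cos_nonneg_of_neg_pi_div_two_le_of_le
  · have : 0 ≤ Real.pi * (sz a : ℝ) / m := by positivity
    linarith [Real.pi_pos]
  · have h3 : (2 : ℝ) * sz a ≤ m := by exact_mod_cast e1_two a
    rw [div_le_div_iff₀ hm (by norm_num)]
    nlinarith [Real.pi_pos]

theorem e1_cs_add {m : ℕ} [NeZero m] (a b : ZMod m) (h : m ≤ 2 * (sz a + sz b)) : cs a + cs b ≤ Real.sqrt 2 := by
  have hm : (0 : ℝ) < m := Nat.cast_pos.mpr (NeZero.pos m)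
  rw [e1_cs_eq, e1_cs_eq]
  set α := Real.pi * (sz a : ℝ) / m with hα
  set β := Real.pi * (sz b : ℝ) / m with hβ
  have hb2 : (2 : ℝ) * sz b ≤ m := by exact_mod_cast e1_two b
  have ha2 : (2 : ℝ) * sz a ≤ m := by exact_mod_cast e1_two a
  have hab : (m : ℝ) ≤ 2 * (sz a + sz b) := by exact_mod_cast h
  have h1 : Real.pi / 2 - β ≤ α := by
    have : Real.pi / 2 ≤ α + β := by
      rw [hα, hβ, ← add_div, div_le_div_iff₀ (by norm_num) hm]
      nlinarith [Real.pi_pos]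
    linarith
  have hβ2 : β ≤ Real.pi / 2 := by
    rw [hβ, div_le_div_iff₀ hm (by norm_num)]
    nlinarith [Real.pi_pos]
  have hα2 : α ≤ Real.pi / 2 := by
    rw [hα, div_le_div_iff₀ hm (by norm_num)]
    nlinarith [Real.pi_pos]
  have h2 : Real.cos α ≤ Real.cos (Real.pi / 2 - β) :=
    Real.cos_le_cos_of_nonneg_of_le_pi (by linarith) (by linarith [Real.pi_pos]) h1
  rw [Real.cos_pi_div_two_sub] at h2
  have h3 : (Real.sin β + Real.cos β) ^ 2 ≤ 2 := by
    nlinarith [Real.sin_sq_add_cos_sq β, sq_nonneg (Real.sin β - Real.cos β)]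
  have h4 : Real.sin β + Real.cos β ≤ Real.sqrt 2 := Real.le_sqrt_of_sq_le h3
  linarith

/-- `b < a`: the sheared point is larger -/
theorem e1_intA (x y : ℤ) (m : ℕ) (h : 2 * (x.natAbs + y.natAbs) < m) (hlt : y.natAbs < x.natAbs) :
    y.natAbs < min (y - 2 * x).natAbs (m - (y - 2 * x).natAbs) ∧ y.natAbs < min (y + 2 * x).natAbs (m - (y + 2 * x).natAbs) := by
  constructor <;> rw [lt_min_iff] <;> constructor <;> omega

theorem e1_intB (x y : ℤ) (m : ℕ) (h : 2 * (x.natAbs + y.natAbs) < m) (hs : (0 < x ∧ 0 < y) ∨ (x < 0 ∧ y < 0)) :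
    x.natAbs < min (x + 2 * y).natAbs (m - (x + 2 * y).natAbs) := by
  rw [lt_min_iff]; constructor <;> omega

theorem e1_intB' (x y : ℤ) (m : ℕ) (h : 2 * (x.natAbs + y.natAbs) < m) (hx : x ≠ 0) (hy : y ≠ 0) (hs : ¬ ((0 < x ∧ 0 < y) ∨ (x < 0 ∧ y < 0))) :
    x.natAbs < min (x - 2 * y).natAbs (m - (x - 2 * y).natAbs) := by
  rw [lt_min_iff]; constructor <;> omega

theorem e1_intC (x y : ℤ) (m : ℕ) (h : 2 * (x.natAbs + y.natAbs) < m) (he : x.natAbs = y.natAbs) (hs : (0 < x ∧ 0 < y) ∨ (x < 0 ∧ y < 0)) :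
    x.natAbs ≤ min (x - 2 * y).natAbs (m - (x - 2 * y).natAbs) := by
  rw [le_min_iff]; constructor <;> omega

theorem e1_intC' (x y : ℤ) (m : ℕ) (h : 2 * (x.natAbs + y.natAbs) < m) (he : x.natAbs = y.natAbs) (hs : ¬ ((0 < x ∧ 0 < y) ∨ (x < 0 ∧ y < 0))) :
    x.natAbs ≤ min (x + 2 * y).natAbs (m - (x + 2 * y).natAbs) := by
  rw [le_min_iff]; constructor <;> omega

theorem e1_intD (x : ℤ) (m : ℕ) (h : 2 * (x.natAbs + 0) < m) :
    x.natAbs ≤ min x.natAbs (m - x.natAbs) := by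
  rw [le_min_iff]; constructor <;> omega

/-- sizes of the sheared coordinate -/
theorem e1_sub {m : ℕ} [NeZero m] (a b : ZMod m) (h : 2 * (sz a + sz b) < m) :
    sz (a - 2 * b) = min (a.valMinAbs - 2 * b.valMinAbs).natAbs (m - (a.valMinAbs - 2 * b.valMinAbs).natAbs) := by
  have q : a - 2 * b = ((a.valMinAbs - 2 * b.valMinAbs : ℤ) : ZMod m) := by
    rw [Int.cast_sub, Int.cast_mul, ZMod.coe_valMinAbs, ZMod.coe_valMinAbs]; norm_num
  rw [q]
  apply e1_sz
  unfold sz at h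
  omega

theorem e1_add {m : ℕ} [NeZero m] (a b : ZMod m) (h : 2 * (sz a + sz b) < m) :
    sz (a + 2 * b) = min (a.valMinAbs + 2 * b.valMinAbs).natAbs (m - (a.valMinAbs + 2 * b.valMinAbs).natAbs) := by
  have q : a + 2 * b = ((a.valMinAbs + 2 * b.valMinAbs : ℤ) : ZMod m) := by
    rw [Int.cast_add, Int.cast_mul, ZMod.coe_valMinAbs, ZMod.coe_valMinAbs]; norm_num
  rw [q]
  apply e1_sz
  unfold sz at h
  omega

/-- the sum of the two weights of the pair `a ± 2 b` in the first coordinate, and the four cases -/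
theorem e1_four {m : ℕ} [NeZero m] (a b : ZMod m) (hs : 2 * (sz a + sz b) < m) (hne : ¬ (a = 0 ∧ b = 0)) :
    -- either the pair `b ± 2 a` is larger twice and the pair `a ± 2 b` is fine, or `sz a ≤ sz b` ...
    (sz b < sz a → sz b < sz (b - 2 * a) ∧ sz b < sz (b + 2 * a)) ∧
    (b ≠ 0 → a ≠ 0 → sz a < sz (a - 2 * b) ∨ sz a < sz (a + 2 * b)) ∧
    (sz a = sz b → (sz a < sz (a - 2 * b) ∧ sz a ≤ sz (a + 2 * b)) ∨ (sz a < sz (a + 2 * b) ∧ sz a ≤ sz (a - 2 * b))) := by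
  have h' : 2 * (sz b + sz a) < m := by omega
  have ha0 : a.valMinAbs = 0 ↔ a = 0 := ZMod.valMinAbs_eq_zero a
  have hb0 : b.valMinAbs = 0 ↔ b = 0 := ZMod.valMinAbs_eq_zero b
  refine ⟨fun hlt => ?_, fun hb ha => ?_, fun he => ?_⟩
  · rw [e1_sub b a h', e1_add b a h']
    exact e1_intA a.valMinAbs b.valMinAbs m hs hlt
  · rw [e1_sub a b hs, e1_add a b hs]
    by_cases hsign : (0 < a.valMinAbs ∧ 0 < b.valMinAbs) ∨ (a.valMinAbs < 0 ∧ b.valMinAbs < 0)
    · exact Or.inr (e1_intB _ _ m hs hsign)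
    · exact Or.inl (e1_intB' _ _ m hs (fun h => ha (ha0.mp h)) (fun h => hb (hb0.mp h)) hsign)
  · have hane : a.valMinAbs ≠ 0 := by
      intro h
      have : b.valMinAbs = 0 := by unfold sz at he; omega
      exact hne ⟨ha0.mp h, hb0.mp this⟩
    have hbne : b.valMinAbs ≠ 0 := by
      unfold sz at he; omega
    rw [e1_sub a b hs, e1_add a b hs]
    by_cases hsign : (0 < a.valMinAbs ∧ 0 < b.valMinAbs) ∨ (a.valMinAbs < 0 ∧ b.valMinAbs < 0)
    · exact Or.inr ⟨e1_intB _ _ m hs hsign, e1_intC _ _ m hs he hsign⟩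
    · exact Or.inl ⟨e1_intB' _ _ m hs hane hbne hsign, e1_intC' _ _ m hs he hsign⟩

theorem e1_sz_zero {m : ℕ} : sz (0 : ZMod m) = 0 := by simp [sz]

theorem bracket_le {m : ℕ} [NeZero m] (z : ZMod m × ZMod m) (hz : z ≠ 0) :
    cs z.1 * (gam z (z.1, z.2 - 2 * z.1) + gam z (z.1, z.2 + 2 * z.1)) +
      cs z.2 * (gam z (z.1 - 2 * z.2, z.2) + gam z (z.1 + 2 * z.2, z.2)) ≤ 3.65 := by
  have p1 := (gam_mul z (z.1, z.2 - 2 * z.1)).2
  have p2 := (gam_mul z (z.1, z.2 + 2 * z.1)).2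
  have p3 := (gam_mul z (z.1 - 2 * z.2, z.2)).2
  have p4 := (gam_mul z (z.1 + 2 * z.2, z.2)).2
  have g1 := e1_gam_le z (z.1, z.2 - 2 * z.1)
  have g2 := e1_gam_le z (z.1, z.2 + 2 * z.1)
  have g3 := e1_gam_le z (z.1 - 2 * z.2, z.2)
  have g4 := e1_gam_le z (z.1 + 2 * z.2, z.2)
  have c1 := e1_cs_le z.1
  have c2 := e1_cs_le z.2
  have d1 := e1_cs_nonneg z.1
  have d2 := e1_cs_nonneg z.2
  rcases Nat.lt_or_ge (2 * (sz z.1 + sz z.2)) m with hs | hs
  · have hred : gam z (z.1, z.2 - 2 * z.1) + gam z (z.1, z.2 + 2 * z.1) + (gam z (z.1 - 2 * z.2, z.2) + gam z (z.1 + 2 * z.2, z.2)) ≤ 3.65 →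
        cs z.1 * (gam z (z.1, z.2 - 2 * z.1) + gam z (z.1, z.2 + 2 * z.1)) +
      cs z.2 * (gam z (z.1 - 2 * z.2, z.2) + gam z (z.1 + 2 * z.2, z.2)) ≤ 3.65 := by
      intro h
      have e1 : cs z.1 * (gam z (z.1, z.2 - 2 * z.1) + gam z (z.1, z.2 + 2 * z.1)) ≤ gam z (z.1, z.2 - 2 * z.1) + gam z (z.1, z.2 + 2 * z.1) :=
        mul_le_of_le_one_left (by linarith) c1
      have e2 : cs z.2 * (gam z (z.1 - 2 * z.2, z.2) + gam z (z.1 + 2 * z.2, z.2)) ≤ gam z (z.1 - 2 * z.2, z.2) + gam z (z.1 + 2 * z.2, z.2) :=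
        mul_le_of_le_one_left (by linarith) c2
      linarith
    apply hred
    have hne : ¬ (z.1 = 0 ∧ z.2 = 0) := fun h => hz (Prod.ext h.1 h.2)
    have hne' : ¬ (z.2 = 0 ∧ z.1 = 0) := fun h => hne ⟨h.2, h.1⟩
    obtain ⟨A1, A2, A3⟩ := e1_four z.1 z.2 hs hne
    obtain ⟨B1, B2, B3⟩ := e1_four z.2 z.1 (by omega) hne'
    rcases lt_trichotomy (sz z.2) (sz z.1) with hlt | heq | hgt
    · obtain ⟨u1, u2⟩ := A1 hlt
      have k1 := e1_gam_big z (z.1, z.2 - 2 * z.1) le_rfl u1.le (Or.inr u1)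
      have k2 := e1_gam_big z (z.1, z.2 + 2 * z.1) le_rfl u2.le (Or.inr u2)
      have hz1 : z.1 ≠ 0 := by
        intro h; rw [h, e1_sz_zero] at hlt; omega
      by_cases h0 : z.2 = 0
      · have k3 := e1_gam_ge z (z.1 - 2 * z.2, z.2) (by rw [h0]; simp) le_rfl
        have k4 := e1_gam_ge z (z.1 + 2 * z.2, z.2) (by rw [h0]; simp) le_rfl
        norm_num; linarith
      · rcases A2 h0 hz1 with h | h
        · have k3 := e1_gam_big z (z.1 - 2 * z.2, z.2) h.le le_rfl (Or.inl h)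
          norm_num; linarith
        · have k4 := e1_gam_big z (z.1 + 2 * z.2, z.2) h.le le_rfl (Or.inl h)
          norm_num; linarith
    · have k12 : gam z (z.1, z.2 - 2 * z.1) + gam z (z.1, z.2 + 2 * z.1) ≤ 9 / 5 := by
        rcases B3 heq with ⟨h, h'⟩ | ⟨h, h'⟩
        · have k1 := e1_gam_big z (z.1, z.2 - 2 * z.1) le_rfl h.le (Or.inr h)
          have k2 := e1_gam_ge z (z.1, z.2 + 2 * z.1) le_rfl h'
          linarith
        · have k2 := e1_gam_big z (z.1, z.2 + 2 * z.1) le_rfl h.le (Or.inr h)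
          have k1 := e1_gam_ge z (z.1, z.2 - 2 * z.1) le_rfl h'
          linarith
      have k34 : gam z (z.1 - 2 * z.2, z.2) + gam z (z.1 + 2 * z.2, z.2) ≤ 9 / 5 := by
        rcases A3 heq.symm with ⟨h, h'⟩ | ⟨h, h'⟩
        · have k1 := e1_gam_big z (z.1 - 2 * z.2, z.2) h.le le_rfl (Or.inl h)
          have k2 := e1_gam_ge z (z.1 + 2 * z.2, z.2) h' le_rfl
          linarith
        · have k1 := e1_gam_big z (z.1 + 2 * z.2, z.2) h.le le_rfl (Or.inl h)
          have k2 := e1_gam_ge z (z.1 - 2 * z.2, z.2) h' le_rfl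
          linarith
      norm_num; linarith
    · obtain ⟨u1, u2⟩ := B1 hgt
      have k1 := e1_gam_big z (z.1 - 2 * z.2, z.2) u1.le le_rfl (Or.inl u1)
      have k2 := e1_gam_big z (z.1 + 2 * z.2, z.2) u2.le le_rfl (Or.inl u2)
      have hz1 : z.2 ≠ 0 := by
        intro h; rw [h, e1_sz_zero] at hgt; omega
      by_cases h0 : z.1 = 0
      · have k3 := e1_gam_ge z (z.1, z.2 - 2 * z.1) le_rfl (by rw [h0]; simp)
        have k4 := e1_gam_ge z (z.1, z.2 + 2 * z.1) le_rfl (by rw [h0]; simp)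
        norm_num; linarith
      · rcases B2 h0 hz1 with h | h
        · have k3 := e1_gam_big z (z.1, z.2 - 2 * z.1) le_rfl h.le (Or.inr h)
          norm_num; linarith
        · have k4 := e1_gam_big z (z.1, z.2 + 2 * z.1) le_rfl h.le (Or.inr h)
          norm_num; linarith
  · have h1 := e1_cs_add z.1 z.2 hs
    have h2 : Real.sqrt 2 ≤ 1.42 := by
      rw [Real.sqrt_le_left (by norm_num)]; norm_num
    have e1 : cs z.1 * (gam z (z.1, z.2 - 2 * z.1) + gam z (z.1, z.2 + 2 * z.1)) ≤ cs z.1 * (5 / 2) :=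
      mul_le_mul_of_nonneg_left (by linarith) d1
    have e2 : cs z.2 * (gam z (z.1 - 2 * z.2, z.2) + gam z (z.1 + 2 * z.2, z.2)) ≤ cs z.2 * (5 / 2) :=
      mul_le_mul_of_nonneg_left (by linarith) d2
    norm_num at h2 ⊢
    linarith

end H32D
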