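import Pool.Agent.Lib.H32D.E1

set_option autoImplicit false

/-!
# H32D, chunk E2 (S/M): the weighted inequality

`2 F(z) F(z') ≤ γ(z, z') F(z)² + γ(z', z) F(z')²` (`γ(z', z) = 1 / γ(z, z')`), with `z' = (z.1, z.2 - 2 z.1)`; multiply by `cs z.1 ≥ 0`; in the second term
substitute `z' ↦ z` (a bijection which does not change the first coordinate). The same for the other pair. The sum becomes
`∑ F(z)² * bracket(z)`, and `F 0 = 0`.

Auxiliary names start with `e2_`.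
-/

open Finset

namespace H32D

theorem e2_two {m : ℕ} (z z' : ZMod m × ZMod m) (x y : ℝ) :
    2 * x * y ≤ gam z z' * x ^ 2 + gam z' z * y ^ 2 := by
  obtain ⟨h1, h2⟩ := gam_mul z z'
  set g := gam z z' with hg
  set k := gam z' z with hk
  have h3 : k = 1 / g := by field_simp; linarith
  have h4 : g * x ^ 2 + k * y ^ 2 - 2 * x * y = k * (g * x - y) ^ 2 := by
    rw [h3]; field_simp; ring
  have h5 : 0 ≤ k * (g * x - y) ^ 2 := by rw [h3]; positivity
  linarith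

theorem e2_cs_nonneg {m : ℕ} (a : ZMod m) : 0 ≤ cs a := abs_nonneg _

/-- the first shear -/
def e2_eqA (m : ℕ) : ZMod m × ZMod m ≃ ZMod m × ZMod m where
  toFun z := (z.1, z.2 + 2 * z.1)
  invFun z := (z.1, z.2 - 2 * z.1)
  left_inv z := by simp
  right_inv z := by simp

/-- the second shear -/
def e2_eqB (m : ℕ) : ZMod m × ZMod m ≃ ZMod m × ZMod m where
  toFun z := (z.1 + 2 * z.2, z.2)
  invFun z := (z.1 - 2 * z.2, z.2)
  left_inv z := by simp
  right_inv z := by simp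

theorem weighted_le {m : ℕ} [NeZero m] (F : ZMod m × ZMod m → ℝ) (hF : ∀ z, 0 ≤ F z) (h0 : F 0 = 0) :
    ∑ z, 2 * F z * (cs z.1 * F (z.1, z.2 - 2 * z.1) + cs z.2 * F (z.1 - 2 * z.2, z.2)) ≤ 3.65 * ∑ z, F z ^ 2 := by
  have step1 : ∑ z : ZMod m × ZMod m, 2 * F z * (cs z.1 * F (z.1, z.2 - 2 * z.1) + cs z.2 * F (z.1 - 2 * z.2, z.2)) ≤
      ∑ z : ZMod m × ZMod m, ((cs z.1 * gam z (z.1, z.2 - 2 * z.1) * F z ^ 2 + cs z.1 * gam (z.1, z.2 - 2 * z.1) z * F (z.1, z.2 - 2 * z.1) ^ 2)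
        + (cs z.2 * gam z (z.1 - 2 * z.2, z.2) * F z ^ 2 + cs z.2 * gam (z.1 - 2 * z.2, z.2) z * F (z.1 - 2 * z.2, z.2) ^ 2)) := by
    apply Finset.sum_le_sum
    intro z _
    have hA := mul_le_mul_of_nonneg_left (e2_two z (z.1, z.2 - 2 * z.1) (F z) (F (z.1, z.2 - 2 * z.1))) (e2_cs_nonneg z.1)
    have hB := mul_le_mul_of_nonneg_left (e2_two z (z.1 - 2 * z.2, z.2) (F z) (F (z.1 - 2 * z.2, z.2))) (e2_cs_nonneg z.2)
    nlinarith [hA, hB]
  have stepA : ∑ z : ZMod m × ZMod m, cs z.1 * gam (z.1, z.2 - 2 * z.1) z * F (z.1, z.2 - 2 * z.1) ^ 2 =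
      ∑ z : ZMod m × ZMod m, cs z.1 * gam z (z.1, z.2 + 2 * z.1) * F z ^ 2 := by
    rw [← Equiv.sum_comp (e2_eqA m)]
    apply Finset.sum_congr rfl
    intro z _
    simp [e2_eqA]
  have stepB : ∑ z : ZMod m × ZMod m, cs z.2 * gam (z.1 - 2 * z.2, z.2) z * F (z.1 - 2 * z.2, z.2) ^ 2 =
      ∑ z : ZMod m × ZMod m, cs z.2 * gam z (z.1 + 2 * z.2, z.2) * F z ^ 2 := by
    rw [← Equiv.sum_comp (e2_eqB m)]
    apply Finset.sum_congr rfl
    intro z _
    simp [e2_eqB]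
  refine step1.trans ?_
  rw [Finset.sum_add_distrib, Finset.sum_add_distrib, Finset.sum_add_distrib, stepA, stepB, ← Finset.sum_add_distrib,
    ← Finset.sum_add_distrib, ← Finset.sum_add_distrib, Finset.mul_sum]
  apply Finset.sum_le_sum
  intro z _
  by_cases hz : z = 0
  · subst hz; simp [h0]
  · have hb := mul_le_mul_of_nonneg_right (bracket_le z hz) (sq_nonneg (F z))
    nlinarith [hb]

end H32D
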