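import Pool.Agent.Lib.H32D.EDefs

set_option autoImplicit false

/-!
# H32D, chunk E3 (M): Fourier analysis on `(ℤ/m)²`

Put `χ t = ZMod.stdAddChar t` or `Complex.exp (2 π i t.val / m)` (an additive character of `ZMod m`, `|χ| = 1`), and
`ft f ζ = ∑ z, f z * χ (ζ.1 * z.1 + ζ.2 * z.2)`. Parseval: `∑ ζ, ft f ζ * conj (ft g ζ) = m² ∑ z, f z * g z` for real `f g` (orthogonality:
`∑ ζ, χ (ζ.1 * z.1 + ζ.2 * z.2) = m²` if `z = 0`, else `0`). For `h z = f (z.1 + 2 z.2, z.2)` one has `ft h ζ = ft f (ζ.1, ζ.2 - 2 ζ.1)` and for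
`h z = f (z.1 + 2 z.2 + 1, z.2)` it is `χ (-ζ.1) * ft f (ζ.1, ζ.2 - 2 ζ.1)`; `|1 + χ (-ζ.1)| = 2 cs ζ.1`. Symmetrically for the other two.
With `F ζ = ‖ft f ζ‖`: `m² ∑ z, f z * (the four terms) ≤ ∑ ζ, F ζ * (2 cs ζ.1 F (ζ.1, ζ.2 - 2 ζ.1) + 2 cs ζ.2 F (ζ.1 - 2 ζ.2, ζ.2))`.
The statement packages exactly what chunk E4 needs.

Auxiliary names start with `e3_`.
-/

open Finset

namespace H32D

/-- the Fourier transform -/
noncomputable def e3_ft {m : ℕ} [NeZero m] (f : ZMod m × ZMod m → ℝ) (ζ : ZMod m × ZMod m) : ℂ :=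
  ∑ z, (f z : ℂ) * ZMod.stdAddChar (N := m) (ζ.1 * z.1 + ζ.2 * z.2)

theorem e3_orth {m : ℕ} [NeZero m] (x y : ZMod m) :
    ∑ ζ : ZMod m × ZMod m, ZMod.stdAddChar (N := m) (ζ.1 * x + ζ.2 * y) = if x = 0 ∧ y = 0 then (m : ℂ) ^ 2 else 0 := by
  have h1 : ∀ ζ : ZMod m × ZMod m, ZMod.stdAddChar (N := m) (ζ.1 * x + ζ.2 * y) =
      ZMod.stdAddChar (N := m) (ζ.1 * x) * ZMod.stdAddChar (N := m) (ζ.2 * y) := fun ζ => AddChar.map_add_eq_mul _ _ _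
  rw [Finset.sum_congr rfl (fun ζ _ => h1 ζ), Fintype.sum_prod_type]
  simp only [← Finset.mul_sum, ← Finset.sum_mul]
  rw [AddChar.sum_mulShift x (ZMod.isPrimitive_stdAddChar m), AddChar.sum_mulShift y (ZMod.isPrimitive_stdAddChar m)]
  by_cases hx : x = 0 <;> by_cases hy : y = 0 <;> simp [hx, hy, ZMod.card, sq]

theorem e3_parseval {m : ℕ} [NeZero m] (f g : ZMod m × ZMod m → ℝ) :
    ∑ ζ, e3_ft f ζ * (starRingEnd ℂ) (e3_ft g ζ) = (((m : ℝ) ^ 2 * ∑ z, f z * g z : ℝ) : ℂ) := by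
  have h1 : ∀ ζ : ZMod m × ZMod m, e3_ft f ζ * (starRingEnd ℂ) (e3_ft g ζ) =
      ∑ z : ZMod m × ZMod m, ∑ w : ZMod m × ZMod m, (f z : ℂ) * (g w : ℂ) *
        ZMod.stdAddChar (N := m) (ζ.1 * (z.1 - w.1) + ζ.2 * (z.2 - w.2)) := by
    intro ζ
    rw [e3_ft, e3_ft, map_sum, Finset.sum_mul_sum]
    refine Finset.sum_congr rfl (fun z _ => Finset.sum_congr rfl (fun w _ => ?_))
    rw [map_mul, Complex.conj_ofReal, ← AddChar.map_neg_eq_conj]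
    have : ζ.1 * (z.1 - w.1) + ζ.2 * (z.2 - w.2) = (ζ.1 * z.1 + ζ.2 * z.2) + -(ζ.1 * w.1 + ζ.2 * w.2) := by ring
    rw [this, AddChar.map_add_eq_mul _ (ζ.1 * z.1 + ζ.2 * z.2) (-(ζ.1 * w.1 + ζ.2 * w.2))]
    ring
  rw [Finset.sum_congr rfl (fun ζ _ => h1 ζ), Finset.sum_comm]
  have h2 : ∀ z : ZMod m × ZMod m, ∑ ζ : ZMod m × ZMod m, ∑ w : ZMod m × ZMod m, (f z : ℂ) * (g w : ℂ) *
        ZMod.stdAddChar (N := m) (ζ.1 * (z.1 - w.1) + ζ.2 * (z.2 - w.2)) = (m : ℂ) ^ 2 * ((f z : ℂ) * (g z : ℂ)) := by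
    intro z
    rw [Finset.sum_comm]
    have h3 : ∀ w : ZMod m × ZMod m, ∑ ζ : ZMod m × ZMod m, (f z : ℂ) * (g w : ℂ) *
        ZMod.stdAddChar (N := m) (ζ.1 * (z.1 - w.1) + ζ.2 * (z.2 - w.2)) = if w = z then (m : ℂ) ^ 2 * ((f z : ℂ) * (g z : ℂ)) else 0 := by
      intro w
      rw [← Finset.mul_sum, e3_orth]
      by_cases hw : w = z
      · subst hw; simp; ring
      · rw [if_neg hw, if_neg, mul_zero]
        rintro ⟨ha, hb⟩
        exact hw (Prod.ext (sub_eq_zero.mp ha).symm (sub_eq_zero.mp hb).symm)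
    rw [Finset.sum_congr rfl (fun w _ => h3 w), Finset.sum_ite_eq' Finset.univ z]
    simp
  rw [Finset.sum_congr rfl (fun z _ => h2 z), ← Finset.mul_sum]
  push_cast
  rfl

theorem e3_norm_add {m : ℕ} [NeZero m] (a : ZMod m) : ‖(1 : ℂ) + ZMod.stdAddChar (N := m) (-a)‖ = 2 * cs a := by
  have hm : (m : ℝ) ≠ 0 := Nat.cast_ne_zero.mpr (NeZero.ne m)
  have h1 : (-a : ZMod m) = ((-a.valMinAbs : ℤ) : ZMod m) := by rw [Int.cast_neg, ZMod.coe_valMinAbs]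
  rw [h1, ZMod.stdAddChar_coe]
  set θ : ℝ := Real.pi * (a.valMinAbs : ℝ) / m with hθ
  have h2 : (2 * (Real.pi : ℂ) * Complex.I * ((-a.valMinAbs : ℤ) : ℂ) / (m : ℂ)) = ((-θ : ℝ) : ℂ) * Complex.I + ((-θ : ℝ) : ℂ) * Complex.I := by
    rw [hθ]; push_cast; ring
  rw [h2, Complex.exp_add]
  have h3 : (1 : ℂ) + Complex.exp (((-θ : ℝ) : ℂ) * Complex.I) * Complex.exp (((-θ : ℝ) : ℂ) * Complex.I) =
      Complex.exp (((-θ : ℝ) : ℂ) * Complex.I) * (Complex.exp (((θ : ℝ) : ℂ) * Complex.I) + Complex.exp (((-θ : ℝ) : ℂ) * Complex.I)) := by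
    rw [mul_add]
    congr 1
    rw [← Complex.exp_add, ← Complex.exp_zero]; congr 1; push_cast; ring
  rw [h3, norm_mul, Complex.norm_exp_ofReal_mul_I, one_mul]
  have h4 : Complex.exp (((θ : ℝ) : ℂ) * Complex.I) + Complex.exp (((-θ : ℝ) : ℂ) * Complex.I) = ((2 * Real.cos θ : ℝ) : ℂ) := by
    push_cast
    rw [Complex.two_cos, neg_mul]
  rw [h4, Complex.norm_real, Real.norm_eq_abs, abs_mul, abs_of_pos (by norm_num : (0:ℝ) < 2)]
  rfl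

theorem e3_shiftA {m : ℕ} [NeZero m] (f : ZMod m × ZMod m → ℝ) (d : ZMod m) (ζ : ZMod m × ZMod m) :
    e3_ft (fun z => f (z.1 + 2 * z.2 + d, z.2)) ζ = ZMod.stdAddChar (N := m) (-(ζ.1 * d)) * e3_ft f (ζ.1, ζ.2 - 2 * ζ.1) := by
  let e : ZMod m × ZMod m ≃ ZMod m × ZMod m :=
    { toFun := fun z => (z.1 + 2 * z.2 + d, z.2)
      invFun := fun z => (z.1 - 2 * z.2 - d, z.2)
      left_inv := fun z => by ext <;> simp <;> ring
      right_inv := fun z => by ext <;> simp <;> ring }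
  have h1 := Equiv.sum_comp e (fun w => (f w : ℂ) * ZMod.stdAddChar (N := m) (ζ.1 * (w.1 - 2 * w.2 - d) + ζ.2 * w.2))
  rw [e3_ft, e3_ft, Finset.mul_sum]
  refine Eq.trans ?_ (h1.trans ?_)
  · refine Finset.sum_congr rfl (fun z _ => ?_)
    simp only [e, Equiv.coe_fn_mk]
    congr 2
    ring
  · refine Finset.sum_congr rfl (fun w _ => ?_)
    have : ζ.1 * (w.1 - 2 * w.2 - d) + ζ.2 * w.2 = -(ζ.1 * d) + (ζ.1 * w.1 + (ζ.2 - 2 * ζ.1) * w.2) := by ring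
    rw [this, AddChar.map_add_eq_mul]
    ring

theorem e3_shiftB {m : ℕ} [NeZero m] (f : ZMod m × ZMod m → ℝ) (d : ZMod m) (ζ : ZMod m × ZMod m) :
    e3_ft (fun z => f (z.1, z.2 + 2 * z.1 + d)) ζ = ZMod.stdAddChar (N := m) (-(ζ.2 * d)) * e3_ft f (ζ.1 - 2 * ζ.2, ζ.2) := by
  let e : ZMod m × ZMod m ≃ ZMod m × ZMod m :=
    { toFun := fun z => (z.1, z.2 + 2 * z.1 + d)
      invFun := fun z => (z.1, z.2 - 2 * z.1 - d)
      left_inv := fun z => by ext <;> simp <;> ring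
      right_inv := fun z => by ext <;> simp <;> ring }
  have h1 := Equiv.sum_comp e (fun w => (f w : ℂ) * ZMod.stdAddChar (N := m) (ζ.1 * w.1 + ζ.2 * (w.2 - 2 * w.1 - d)))
  rw [e3_ft, e3_ft, Finset.mul_sum]
  refine Eq.trans ?_ (h1.trans ?_)
  · refine Finset.sum_congr rfl (fun z _ => ?_)
    simp only [e, Equiv.coe_fn_mk]
    congr 2
    ring
  · refine Finset.sum_congr rfl (fun w _ => ?_)
    have : ζ.1 * w.1 + ζ.2 * (w.2 - 2 * w.1 - d) = -(ζ.2 * d) + ((ζ.1 - 2 * ζ.2) * w.1 + ζ.2 * w.2) := by ring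
    rw [this, AddChar.map_add_eq_mul]
    ring

/-- the sum of the two shifted inner products, bounded -/
theorem e3_pair {m : ℕ} [NeZero m] (f g h : ZMod m × ZMod m → ℝ) (c : ZMod m × ZMod m → ZMod m) (t : ZMod m × ZMod m → ZMod m × ZMod m)
    (hg : ∀ ζ, e3_ft g ζ = e3_ft f (t ζ)) (hh : ∀ ζ, e3_ft h ζ = ZMod.stdAddChar (N := m) (-(c ζ)) * e3_ft f (t ζ)) :
    (m : ℝ) ^ 2 * ∑ z, f z * (g z + h z) ≤ ∑ ζ, ‖e3_ft f ζ‖ * (2 * cs (c ζ) * ‖e3_ft f (t ζ)‖) := by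
  have h1 := e3_parseval f g
  have h2 := e3_parseval f h
  have h3 : (((m : ℝ) ^ 2 * ∑ z, f z * (g z + h z) : ℝ) : ℂ) =
      ∑ ζ, e3_ft f ζ * (starRingEnd ℂ) ((1 + ZMod.stdAddChar (N := m) (-(c ζ))) * e3_ft f (t ζ)) := by
    have h4 : (m : ℝ) ^ 2 * ∑ z, f z * (g z + h z) = (m : ℝ) ^ 2 * ∑ z, f z * g z + (m : ℝ) ^ 2 * ∑ z, f z * h z := by
      rw [← mul_add, ← Finset.sum_add_distrib]
      congr 1
      exact Finset.sum_congr rfl (fun z _ => by ring)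
    rw [h4, Complex.ofReal_add, ← h1, ← h2, ← Finset.sum_add_distrib]
    refine Finset.sum_congr rfl (fun ζ _ => ?_)
    rw [hg, hh, ← mul_add, ← map_add]
    congr 2
    ring
  have h5 : (m : ℝ) ^ 2 * ∑ z, f z * (g z + h z) ≤ ‖(((m : ℝ) ^ 2 * ∑ z, f z * (g z + h z) : ℝ) : ℂ)‖ := by
    rw [Complex.norm_real]; exact le_abs_self _
  refine h5.trans ?_
  rw [h3]
  refine (norm_sum_le _ _).trans (Finset.sum_le_sum (fun ζ _ => ?_))
  rw [norm_mul, RCLike.norm_conj, norm_mul, e3_norm_add]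

theorem fourier_package {m : ℕ} [NeZero m] (f : ZMod m × ZMod m → ℝ) (hf : ∑ z, f z = 0) :
    ∃ F : ZMod m × ZMod m → ℝ, (∀ z, 0 ≤ F z) ∧ F 0 = 0 ∧ ∑ z, F z ^ 2 = (m : ℝ) ^ 2 * ∑ z, f z ^ 2 ∧
      (m : ℝ) ^ 2 * ∑ z, f z * (f (z.1 + 2 * z.2, z.2) + f (z.1 + 2 * z.2 + 1, z.2) + f (z.1, z.2 + 2 * z.1) + f (z.1, z.2 + 2 * z.1 + 1)) ≤
        ∑ z, 2 * F z * (cs z.1 * F (z.1, z.2 - 2 * z.1) + cs z.2 * F (z.1 - 2 * z.2, z.2)) := by
  refine ⟨fun ζ => ‖e3_ft f ζ‖, fun z => norm_nonneg _, ?_, ?_, ?_⟩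
  · have : e3_ft f 0 = 0 := by
      rw [e3_ft]
      simp only [Prod.fst_zero, Prod.snd_zero, zero_mul, add_zero, AddChar.map_zero_eq_one, mul_one]
      rw [← Complex.ofReal_sum, hf, Complex.ofReal_zero]
    simp [this]
  · have h1 := e3_parseval f f
    have h2 : ∀ ζ : ZMod m × ZMod m, e3_ft f ζ * (starRingEnd ℂ) (e3_ft f ζ) = ((‖e3_ft f ζ‖ ^ 2 : ℝ) : ℂ) := by
      intro ζ
      rw [Complex.mul_conj, Complex.normSq_eq_norm_sq]
    rw [Finset.sum_congr rfl (fun ζ _ => h2 ζ), ← Complex.ofReal_sum] at h1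
    have h3 := Complex.ofReal_injective h1
    rw [h3]
    congr 1
    exact Finset.sum_congr rfl (fun z _ => by ring)
  · have hA := e3_pair f (fun z => f (z.1 + 2 * z.2, z.2)) (fun z => f (z.1 + 2 * z.2 + 1, z.2)) (fun ζ => ζ.1) (fun ζ => (ζ.1, ζ.2 - 2 * ζ.1))
      (fun ζ => by
        have := e3_shiftA f 0 ζ
        simpa using this)
      (fun ζ => by
        have := e3_shiftA f 1 ζ
        simpa using this)
    have hB := e3_pair f (fun z => f (z.1, z.2 + 2 * z.1)) (fun z => f (z.1, z.2 + 2 * z.1 + 1)) (fun ζ => ζ.2) (fun ζ => (ζ.1 - 2 * ζ.2, ζ.2))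
      (fun ζ => by
        have := e3_shiftB f 0 ζ
        simpa using this)
      (fun ζ => by
        have := e3_shiftB f 1 ζ
        simpa using this)
    have hsum := add_le_add hA hB
    rw [← mul_add, ← Finset.sum_add_distrib, ← Finset.sum_add_distrib] at hsum
    refine (le_of_eq ?_).trans (hsum.trans (le_of_eq ?_))
    · congr 1
      exact Finset.sum_congr rfl (fun z _ => by ring)
    · exact Finset.sum_congr rfl (fun z _ => by ring)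

end H32D
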