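import Pool.Agent.Lib.H32D.E2
import Pool.Agent.Lib.H32D.E3

set_option autoImplicit false

/-!
# H32D, chunk E4 (S/M): the gap of Gabber and Galil

For `∑ f = 0`: `∑ z, f z * (four terms) ≤ 3.65 ∑ f²` by E2, E3 (divide by `m²`), and the sum of the four squares is
`8 ∑ f² - 2 ∑ f (four terms) ≥ 0.7 ∑ f²` (each of the four maps is a bijection).

Auxiliary names start with `e4_`.
-/

open Finset

namespace H32D

/-- the map `z ↦ (z.1 + 2 z.2 + d, z.2)` -/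
def e4_eqA (m : ℕ) (d : ZMod m) : ZMod m × ZMod m ≃ ZMod m × ZMod m where
  toFun z := (z.1 + 2 * z.2 + d, z.2)
  invFun z := (z.1 - 2 * z.2 - d, z.2)
  left_inv z := by ext <;> simp <;> ring
  right_inv z := by ext <;> simp <;> ring

/-- the map `z ↦ (z.1, z.2 + 2 z.1 + d)` -/
def e4_eqB (m : ℕ) (d : ZMod m) : ZMod m × ZMod m ≃ ZMod m × ZMod m where
  toFun z := (z.1, z.2 + 2 * z.1 + d)
  invFun z := (z.1, z.2 - 2 * z.1 - d)
  left_inv z := by ext <;> simp <;> ring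
  right_inv z := by ext <;> simp <;> ring

theorem e4_sq {P : Type} [Fintype P] (e : P ≃ P) (f : P → ℝ) :
    ∑ z, (f (e z) - f z) ^ 2 = 2 * ∑ z, f z ^ 2 - 2 * ∑ z, f z * f (e z) := by
  have h1 : ∑ z, f (e z) ^ 2 = ∑ z, f z ^ 2 := Equiv.sum_comp e (fun z => f z ^ 2)
  have h2 : ∑ z, (f (e z) - f z) ^ 2 = ∑ z, (f (e z) ^ 2 + f z ^ 2 - 2 * (f z * f (e z))) :=
    Finset.sum_congr rfl (fun z _ => by ring)
  have h3 : ∑ z, 2 * (f z * f (e z)) = 2 * ∑ z, f z * f (e z) := by rw [Finset.mul_sum]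
  rw [h2, Finset.sum_sub_distrib, Finset.sum_add_distrib, h1, h3]
  ring

theorem gabber_galil {m : ℕ} [NeZero m] (f : ZMod m × ZMod m → ℝ) (hf : ∑ z, f z = 0) :
    0.7 * ∑ z, f z ^ 2 ≤ ∑ z, ((f (z.1 + 2 * z.2, z.2) - f z) ^ 2 + (f (z.1 + 2 * z.2 + 1, z.2) - f z) ^ 2 +
      (f (z.1, z.2 + 2 * z.1) - f z) ^ 2 + (f (z.1, z.2 + 2 * z.1 + 1) - f z) ^ 2) := by
  obtain ⟨F, hF, hF0, hF2, hFm⟩ := fourier_package f hf
  have hw := weighted_le F hF hF0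
  have hm : (0 : ℝ) < (m : ℝ) ^ 2 := by
    have : (0 : ℝ) < m := Nat.cast_pos.mpr (NeZero.pos m)
    positivity
  have key : ∑ z, f z * (f (z.1 + 2 * z.2, z.2) + f (z.1 + 2 * z.2 + 1, z.2) + f (z.1, z.2 + 2 * z.1) + f (z.1, z.2 + 2 * z.1 + 1)) ≤
      3.65 * ∑ z, f z ^ 2 := by
    have h1 : (m : ℝ) ^ 2 * ∑ z, f z * (f (z.1 + 2 * z.2, z.2) + f (z.1 + 2 * z.2 + 1, z.2) + f (z.1, z.2 + 2 * z.1) + f (z.1, z.2 + 2 * z.1 + 1)) ≤
        (m : ℝ) ^ 2 * (3.65 * ∑ z, f z ^ 2) := by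
      refine (hFm.trans hw).trans (le_of_eq ?_)
      rw [hF2]; ring
    exact le_of_mul_le_mul_left h1 hm
  have a1 := e4_sq (e4_eqA m 0) f
  have a2 := e4_sq (e4_eqA m 1) f
  have a3 := e4_sq (e4_eqB m 0) f
  have a4 := e4_sq (e4_eqB m 1) f
  simp only [e4_eqA, e4_eqB, Equiv.coe_fn_mk, add_zero] at a1 a2 a3 a4
  have hs : ∑ z, f z * (f (z.1 + 2 * z.2, z.2) + f (z.1 + 2 * z.2 + 1, z.2) + f (z.1, z.2 + 2 * z.1) + f (z.1, z.2 + 2 * z.1 + 1)) =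
      ∑ z, f z * f (z.1 + 2 * z.2, z.2) + ∑ z, f z * f (z.1 + 2 * z.2 + 1, z.2) + ∑ z, f z * f (z.1, z.2 + 2 * z.1) +
        ∑ z, f z * f (z.1, z.2 + 2 * z.1 + 1) := by
    rw [← Finset.sum_add_distrib, ← Finset.sum_add_distrib, ← Finset.sum_add_distrib]
    exact Finset.sum_congr rfl (fun z _ => by ring)
  rw [Finset.sum_add_distrib, Finset.sum_add_distrib, Finset.sum_add_distrib, a1, a2, a3, a4]
  rw [hs] at key
  linarith

end H32D
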