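import Pool.Agent.Lib.H32D.E4

set_option autoImplicit false

/-!
# H32D, chunk E5 (M): one coordinate of `(ℤ/m)^d`

Fix the coordinates other than `a ≠ b`; on the remaining square apply `gabber_galil` to `f - mean`. The mean over the square does not depend on
the coordinate `a`, and the average `avg a f` over the coordinate `a` is the best approximation of `f` in the mean square by functions which do not
depend on `s_a`: `∑ (f - avg)² ≤ ∑ (f - mean)²`. Sum over the other coordinates.

Auxiliary names start with `e5_`.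
-/

open Finset

namespace H32D

/-- The average over the coordinate `a`. -/
noncomputable def avg {d m : ℕ} [NeZero m] (a : Fin d) (f : (Fin d → ZMod m) → ℝ) (s : Fin d → ZMod m) : ℝ :=
  (∑ t : ZMod m, f (Function.update s a t)) / m

/-- Exchange of a coordinate with an outside variable. -/
def e5_swap {d m : ℕ} (a : Fin d) : ((Fin d → ZMod m) × ZMod m) ≃ ((Fin d → ZMod m) × ZMod m) where
  toFun p := (Function.update p.1 a p.2, p.1 a)
  invFun p := (Function.update p.1 a p.2, p.1 a)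
  left_inv p := by
    obtain ⟨s, t⟩ := p
    simp
  right_inv p := by
    obtain ⟨s, t⟩ := p
    simp

theorem e5_sum {d m : ℕ} [NeZero m] (a : Fin d) (F : (Fin d → ZMod m) → ℝ) :
    ∑ s, ∑ t : ZMod m, F (Function.update s a t) = (m : ℝ) * ∑ s, F s := by
  have h1 : ∑ s, ∑ t : ZMod m, F (Function.update s a t) =
      ∑ p : (Fin d → ZMod m) × ZMod m, F (Function.update p.1 a p.2) := by
    rw [Fintype.sum_prod_type]
  have h2 : ∑ p : (Fin d → ZMod m) × ZMod m, F (Function.update p.1 a p.2) =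
      ∑ p : (Fin d → ZMod m) × ZMod m, F p.1 :=
    Equiv.sum_comp (e5_swap a) (fun p : (Fin d → ZMod m) × ZMod m => F p.1)
  rw [h1, h2, Fintype.sum_prod_type, Finset.mul_sum]
  refine Finset.sum_congr rfl fun s _ => ?_
  show ∑ _y : ZMod m, F s = (m : ℝ) * F s
  rw [Finset.sum_const, Finset.card_univ, ZMod.card, nsmul_eq_mul]

/-- The square through `s`. -/
def e5_sq {d m : ℕ} (a b : Fin d) (s : Fin d → ZMod m) (z : ZMod m × ZMod m) : Fin d → ZMod m :=
  Function.update (Function.update s a z.1) b z.2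

theorem e5_sum2 {d m : ℕ} [NeZero m] (a b : Fin d) (F : (Fin d → ZMod m) → ℝ) :
    ∑ s, ∑ z, F (e5_sq a b s z) = (m : ℝ) ^ 2 * ∑ s, F s := by
  have h1 : ∀ s, ∑ z, F (e5_sq a b s z) =
      ∑ t : ZMod m, (fun u => ∑ y : ZMod m, F (Function.update u b y)) (Function.update s a t) := by
    intro s
    rw [Fintype.sum_prod_type]
    rfl
  have h2 := e5_sum a (fun u => ∑ y : ZMod m, F (Function.update u b y))
  have h3 := e5_sum b F
  rw [Finset.sum_congr rfl fun s _ => h1 s]
  refine Eq.trans h2 ?_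
  show (m : ℝ) * ∑ s, ∑ y : ZMod m, F (Function.update s b y) = _
  rw [h3]
  ring

theorem e5_shear_a {d m : ℕ} {a b : Fin d} (hab : a ≠ b) (s : Fin d → ZMod m) (z : ZMod m × ZMod m) (δ : Bool) :
    shear a b δ (e5_sq a b s z) = e5_sq a b s (z.1 + 2 * z.2 + (if δ then 1 else 0), z.2) := by
  have hx : (e5_sq a b s z) a = z.1 := by
    rw [e5_sq, Function.update_of_ne hab, Function.update_self]
  have hy : (e5_sq a b s z) b = z.2 := by
    rw [e5_sq, Function.update_self]
  have h : shear a b δ (e5_sq a b s z) =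
      Function.update (e5_sq a b s z) a ((e5_sq a b s z) a + 2 * (e5_sq a b s z) b + (if δ then 1 else 0)) := by
    unfold shear
    rw [dif_neg hab]
    rfl
  rw [h, hx, hy]
  unfold e5_sq
  rw [Function.update_comm hab.symm, Function.update_idem, Function.update_comm hab]

theorem e5_shear_b {d m : ℕ} {a b : Fin d} (hab : a ≠ b) (s : Fin d → ZMod m) (z : ZMod m × ZMod m) (δ : Bool) :
    shear b a δ (e5_sq a b s z) = e5_sq a b s (z.1, z.2 + 2 * z.1 + (if δ then 1 else 0)) := by
  have hx : (e5_sq a b s z) a = z.1 := by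
    rw [e5_sq, Function.update_of_ne hab, Function.update_self]
  have hy : (e5_sq a b s z) b = z.2 := by
    rw [e5_sq, Function.update_self]
  have h : shear b a δ (e5_sq a b s z) =
      Function.update (e5_sq a b s z) b ((e5_sq a b s z) b + 2 * (e5_sq a b s z) a + (if δ then 1 else 0)) := by
    unfold shear
    rw [dif_neg hab.symm]
    rfl
  rw [h, hx, hy]
  unfold e5_sq
  rw [Function.update_idem]

theorem e5_var {m : ℕ} [NeZero m] (u : ZMod m → ℝ) (c : ℝ) :
    ∑ x, (u x - (∑ t, u t) / m) ^ 2 ≤ ∑ x, (u x - c) ^ 2 := by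
  have hm : (m : ℝ) ≠ 0 := Nat.cast_ne_zero.2 (NeZero.ne m)
  have hm0 : (0 : ℝ) ≤ (m : ℝ) := Nat.cast_nonneg m
  set A : ℝ := (∑ t, u t) / m with hA
  have hs : ∑ t, u t = m * A := by rw [hA]; field_simp
  have h1 : ∀ c : ℝ, ∑ x, (u x - c) ^ 2 = ∑ x, u x ^ 2 - 2 * c * (m * A) + m * c ^ 2 := by
    intro c
    have : ∀ x, (u x - c) ^ 2 = u x ^ 2 - 2 * c * u x + c ^ 2 := fun x => by ring
    rw [Finset.sum_congr rfl fun x _ => this x, Finset.sum_add_distrib, Finset.sum_sub_distrib, ← Finset.mul_sum, hs,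
      Finset.sum_const, Finset.card_univ, ZMod.card, nsmul_eq_mul]
  rw [h1 A, h1 c]
  nlinarith [mul_nonneg hm0 (sq_nonneg (A - c))]

theorem e5_avg {d m : ℕ} [NeZero m] {a b : Fin d} (hab : a ≠ b) (f : (Fin d → ZMod m) → ℝ)
    (s : Fin d → ZMod m) (x y : ZMod m) :
    avg a f (e5_sq a b s (x, y)) = (∑ t, f (e5_sq a b s (t, y))) / m := by
  unfold avg
  congr 1
  refine Finset.sum_congr rfl fun t _ => ?_
  congr 1
  unfold e5_sq
  rw [Function.update_comm hab.symm, Function.update_idem, Function.update_comm hab]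

theorem e5_local {d m : ℕ} [NeZero m] {a b : Fin d} (hab : a ≠ b) (f : (Fin d → ZMod m) → ℝ) (s : Fin d → ZMod m) :
    0.7 * ∑ z, (f (e5_sq a b s z) - avg a f (e5_sq a b s z)) ^ 2 ≤
      ∑ z, ((f (shear a b false (e5_sq a b s z)) - f (e5_sq a b s z)) ^ 2 +
        (f (shear a b true (e5_sq a b s z)) - f (e5_sq a b s z)) ^ 2 +
        (f (shear b a false (e5_sq a b s z)) - f (e5_sq a b s z)) ^ 2 +
        (f (shear b a true (e5_sq a b s z)) - f (e5_sq a b s z)) ^ 2) := by
  have hm : (m : ℝ) ≠ 0 := Nat.cast_ne_zero.2 (NeZero.ne m)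
  set c : ℝ := (∑ z, f (e5_sq a b s z)) / (m : ℝ) ^ 2 with hc
  have h0 : ∑ z, (f (e5_sq a b s z) - c) = 0 := by
    rw [Finset.sum_sub_distrib, Finset.sum_const, Finset.card_univ, Fintype.card_prod, ZMod.card, nsmul_eq_mul, hc]
    push_cast
    field_simp
    ring
  have h1 := gabber_galil (fun z => f (e5_sq a b s z) - c) h0
  have h2 : ∑ z, (f (e5_sq a b s z) - avg a f (e5_sq a b s z)) ^ 2 ≤ ∑ z, (f (e5_sq a b s z) - c) ^ 2 := by
    rw [Fintype.sum_prod_type_right, Fintype.sum_prod_type_right]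
    refine Finset.sum_le_sum fun y _ => ?_
    have := e5_var (fun x => f (e5_sq a b s (x, y))) c
    refine le_trans (le_of_eq ?_) this
    refine Finset.sum_congr rfl fun x _ => ?_
    rw [e5_avg hab]
  refine le_trans (mul_le_mul_of_nonneg_left h2 (by norm_num)) (le_trans h1 (le_of_eq ?_))
  refine Finset.sum_congr rfl fun z _ => ?_
  rw [e5_shear_a hab, e5_shear_a hab, e5_shear_b hab, e5_shear_b hab]
  simp

theorem avg_le {d m : ℕ} [NeZero m] {a b : Fin d} (hab : a ≠ b) (f : (Fin d → ZMod m) → ℝ) :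
    0.7 * ∑ s, (f s - avg a f s) ^ 2 ≤ ∑ s, ((f (shear a b false s) - f s) ^ 2 + (f (shear a b true s) - f s) ^ 2 +
      (f (shear b a false s) - f s) ^ 2 + (f (shear b a true s) - f s) ^ 2) := by
  have hm : 0 < (m : ℝ) ^ 2 := pow_pos (Nat.cast_pos.2 (NeZero.pos m)) 2
  have h1 := Finset.sum_le_sum fun s (_ : s ∈ (Finset.univ : Finset (Fin d → ZMod m))) => e5_local hab f s
  rw [← Finset.mul_sum, e5_sum2 a b (fun s => (f s - avg a f s) ^ 2),
    e5_sum2 a b (fun s => ((f (shear a b false s) - f s) ^ 2 + (f (shear a b true s) - f s) ^ 2 +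
      (f (shear b a false s) - f s) ^ 2 + (f (shear b a true s) - f s) ^ 2))] at h1
  have h2 : (m : ℝ) ^ 2 * (0.7 * ∑ s, (f s - avg a f s) ^ 2) ≤ (m : ℝ) ^ 2 * ∑ s, ((f (shear a b false s) - f s) ^ 2 +
      (f (shear a b true s) - f s) ^ 2 + (f (shear b a false s) - f s) ^ 2 + (f (shear b a true s) - f s) ^ 2) := by
    refine le_trans (le_of_eq ?_) h1
    ring
  exact le_of_mul_le_mul_left h2 hm

end H32D
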