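import Pool.Agent.Lib.H32D.E5

set_option autoImplicit false

/-!
# H32D, chunk E6 (M): all coordinates

`f - mean = ∑_a B_a (f - avg a f)` with `B_a` the average over the coordinates `< a` (telescoping: `B_a f - B_{a+1} f = B_a (f - avg a f)`,
averages over different coordinates commute), and averaging does not increase `∑ (·)²` (Cauchy-Schwarz). So
`∑ (f - mean)² ≤ d ∑_a ∑ (f - avg a f)²`. With `avg_le` for `a` and some `b ≠ a` (`2 ≤ d`):
`∑ (f - mean)² ≤ C ∑_t ∑_s (f (shears t s) - f s)²`, `C` depending only on `d` (`C = 4 d / 0.7` is enough, or any other).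

Auxiliary names start with `e6_`.
-/

open Finset

namespace H32D

theorem e6_sum_avg_sq {d m : ℕ} [NeZero m] (a : Fin d) (g : (Fin d → ZMod m) → ℝ) :
    ∑ s, avg a g s ^ 2 ≤ ∑ s, g s ^ 2 := by
  have hm : (0 : ℝ) < (m : ℝ) := Nat.cast_pos.2 (NeZero.pos m)
  have h1 : ∀ s, avg a g s ^ 2 ≤ (∑ t : ZMod m, (fun u => g u ^ 2) (Function.update s a t)) / m := by
    intro s
    have h := sq_sum_le_card_mul_sum_sq (s := (Finset.univ : Finset (ZMod m))) (f := fun t => g (Function.update s a t))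
    rw [Finset.card_univ, ZMod.card] at h
    unfold avg
    rw [div_pow, div_le_div_iff₀ (pow_pos hm 2) hm]
    calc (∑ t, g (Function.update s a t)) ^ 2 * (m : ℝ)
        ≤ ((m : ℝ) * ∑ t, g (Function.update s a t) ^ 2) * m := mul_le_mul_of_nonneg_right h hm.le
      _ = (∑ t : ZMod m, (fun u => g u ^ 2) (Function.update s a t)) * (m : ℝ) ^ 2 := by
        show _ = (∑ t : ZMod m, g (Function.update s a t) ^ 2) * (m : ℝ) ^ 2
        ring
  refine le_trans (Finset.sum_le_sum fun s _ => h1 s) (le_of_eq ?_)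
  rw [← Finset.sum_div]
  have h2 := e5_sum a (fun u => g u ^ 2)
  have h3 : (∑ s, ∑ t : ZMod m, (fun u => g u ^ 2) (Function.update s a t)) = (m : ℝ) * ∑ s, g s ^ 2 := h2
  rw [h3]
  field_simp

theorem e6_avg_sub {d m : ℕ} [NeZero m] (a : Fin d) (f g : (Fin d → ZMod m) → ℝ) (s : Fin d → ZMod m) :
    avg a (fun u => f u - g u) s = avg a f s - avg a g s := by
  unfold avg
  rw [Finset.sum_sub_distrib, sub_div]

/-- Iterated averages. -/
noncomputable def e6_it {d m : ℕ} [NeZero m] (f : (Fin d → ZMod m) → ℝ) : ℕ → (Fin d → ZMod m) → ℝ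
  | 0 => f
  | k + 1 => if h : k < d then avg ⟨k, h⟩ (e6_it f k) else e6_it f k

theorem e6_it_indep {d m : ℕ} [NeZero m] (f : (Fin d → ZMod m) → ℝ) (k : ℕ) (a : Fin d) (ha : (a : ℕ) < k)
    (s : Fin d → ZMod m) (x : ZMod m) : e6_it f k (Function.update s a x) = e6_it f k s := by
  induction k generalizing s x with
  | zero => omega
  | succ k ih =>
    by_cases hk : k < d
    · have he : e6_it f (k + 1) = avg ⟨k, hk⟩ (e6_it f k) := by
        show (if h : k < d then avg ⟨k, h⟩ (e6_it f k) else e6_it f k) = _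
        rw [dif_pos hk]
      rw [he]
      unfold avg
      congr 1
      refine Finset.sum_congr rfl fun t _ => ?_
      by_cases hak : a = ⟨k, hk⟩
      · subst hak
        rw [Function.update_idem]
      · have hlt : (a : ℕ) < k := by
          have : (a : ℕ) ≠ k := fun h => hak (Fin.ext h)
          omega
        rw [Function.update_comm hak, ih hlt]
    · have := a.2
      have he : e6_it f (k + 1) = e6_it f k := by
        show (if h : k < d then avg ⟨k, h⟩ (e6_it f k) else e6_it f k) = _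
        rw [dif_neg hk]
      rw [he]
      exact ih (by omega) s x

theorem e6_const {d m : ℕ} (G : (Fin d → ZMod m) → ℝ)
    (hG : ∀ (a : Fin d) (s : Fin d → ZMod m) (x : ZMod m), G (Function.update s a x) = G s)
    (s s' : Fin d → ZMod m) : G s' = G s := by
  classical
  have h : ∀ S : Finset (Fin d), G (S.piecewise s' s) = G s := by
    intro S
    induction S using Finset.induction_on with
    | empty => rw [Finset.piecewise_empty]
    | insert j S _ ih => rw [Finset.piecewise_insert, hG, ih]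
  have := h Finset.univ
  rwa [Finset.piecewise_univ] at this

theorem e6_it_le {d m : ℕ} [NeZero m] (f : (Fin d → ZMod m) → ℝ) (K : ℝ)
    (hK : ∀ a : Fin d, ∑ s, (f s - avg a f s) ^ 2 ≤ K) (hK0 : 0 ≤ K) (k : ℕ) :
    ∑ s, (f s - e6_it f k s) ^ 2 ≤ 3 ^ k * K := by
  induction k with
  | zero =>
    have : ∑ s, (f s - e6_it f 0 s) ^ 2 = 0 := by
      refine Finset.sum_eq_zero fun s _ => ?_
      show (f s - f s) ^ 2 = 0
      ring
    rw [this]
    simpa using hK0
  | succ k ih =>
    by_cases hk : k < d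
    · have he : e6_it f (k + 1) = avg ⟨k, hk⟩ (e6_it f k) := by
        show (if h : k < d then avg ⟨k, h⟩ (e6_it f k) else e6_it f k) = _
        rw [dif_pos hk]
      have h1 : ∀ s, (f s - e6_it f (k + 1) s) ^ 2 ≤ 2 * (f s - avg ⟨k, hk⟩ f s) ^ 2 +
          2 * avg ⟨k, hk⟩ (fun u => f u - e6_it f k u) s ^ 2 := by
        intro s
        rw [e6_avg_sub, he]
        nlinarith [sq_nonneg ((f s - avg ⟨k, hk⟩ f s) - (avg ⟨k, hk⟩ f s - avg ⟨k, hk⟩ (e6_it f k) s))]
      refine le_trans (Finset.sum_le_sum fun s _ => h1 s) ?_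
      rw [Finset.sum_add_distrib, ← Finset.mul_sum, ← Finset.mul_sum]
      have h2 := e6_sum_avg_sq (⟨k, hk⟩ : Fin d) (fun u => f u - e6_it f k u)
      have h3 := hK ⟨k, hk⟩
      have h4 : (1 : ℝ) ≤ 3 ^ k := one_le_pow₀ (by norm_num)
      have h5 : K ≤ 3 ^ k * K := by nlinarith
      have h6 : (3 : ℝ) ^ (k + 1) = 3 * 3 ^ k := by ring
      have h7 : ∑ s, avg ⟨k, hk⟩ (fun u => f u - e6_it f k u) s ^ 2 ≤ 3 ^ k * K := le_trans h2 ih
      have h8 : K ≤ 3 ^ k * K := h5
      by_cases hk0 : k = 0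
      · subst hk0
        have h9 : ∑ s, (f s - e6_it f 0 s) ^ 2 = 0 := by
          refine Finset.sum_eq_zero fun s _ => ?_
          show (f s - f s) ^ 2 = 0
          ring
        rw [h9] at h2
        norm_num
        linarith
      · have h10 : (3 : ℝ) ≤ 3 ^ k := by
          calc (3 : ℝ) = 3 ^ 1 := by norm_num
            _ ≤ 3 ^ k := pow_le_pow_right₀ (by norm_num) (Nat.one_le_iff_ne_zero.2 hk0)
        have h11 : 3 * K ≤ 3 ^ k * K := mul_le_mul_of_nonneg_right h10 hK0
        rw [h6]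
        nlinarith
    · have he : e6_it f (k + 1) = e6_it f k := by
        show (if h : k < d then avg ⟨k, h⟩ (e6_it f k) else e6_it f k) = _
        rw [dif_neg hk]
      rw [he]
      refine le_trans ih ?_
      have : (3 : ℝ) ^ k ≤ 3 ^ (k + 1) := pow_le_pow_right₀ (by norm_num) (by omega)
      exact mul_le_mul_of_nonneg_right this hK0

theorem e6_mean {P : Type} [Fintype P] (f : P → ℝ) (c : ℝ) :
    ∑ p, (f p - (∑ q, f q) / Fintype.card P) ^ 2 ≤ ∑ p, (f p - c) ^ 2 := by
  rcases Nat.eq_zero_or_pos (Fintype.card P) with h0 | h0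
  · have := Fintype.card_eq_zero_iff.1 h0
    simp
  have hm : (0 : ℝ) < (Fintype.card P : ℝ) := Nat.cast_pos.2 h0
  set A : ℝ := (∑ q, f q) / Fintype.card P with hA
  have hs : ∑ t, f t = Fintype.card P * A := by rw [hA]; field_simp
  have h1 : ∀ c : ℝ, ∑ x, (f x - c) ^ 2 = ∑ x, f x ^ 2 - 2 * c * (Fintype.card P * A) + Fintype.card P * c ^ 2 := by
    intro c
    have : ∀ x, (f x - c) ^ 2 = f x ^ 2 - 2 * c * f x + c ^ 2 := fun x => by ring
    rw [Finset.sum_congr rfl fun x _ => this x, Finset.sum_add_distrib, Finset.sum_sub_distrib, ← Finset.mul_sum, hs,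
      Finset.sum_const, Finset.card_univ, nsmul_eq_mul]
  rw [h1 A, h1 c]
  nlinarith [mul_nonneg hm.le (sq_nonneg (A - c))]

theorem shears_poinc (d : ℕ) (hd : 2 ≤ d) : ∃ C : ℝ, 0 < C ∧ ∀ (m : ℕ) (_ : NeZero m), Poinc (shears d m) C := by
  refine ⟨3 ^ d * (4 / 0.7), by positivity, fun m _ f => ?_⟩
  set T : ℝ := ∑ i, ∑ p, (f (shears d m i p) - f p) ^ 2 with hT
  have hT0 : 0 ≤ T := Finset.sum_nonneg fun i _ => Finset.sum_nonneg fun p _ => sq_nonneg _
  have hti : ∀ i, ∑ p, (f (shears d m i p) - f p) ^ 2 ≤ T := fun i =>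
    Finset.single_le_sum (f := fun i => ∑ p, (f (shears d m i p) - f p) ^ 2)
      (fun i _ => Finset.sum_nonneg fun p _ => sq_nonneg _) (Finset.mem_univ i)
  have hK : ∀ a : Fin d, ∑ s, (f s - avg a f s) ^ 2 ≤ (4 / 0.7) * T := by
    intro a
    obtain ⟨b, hb⟩ : ∃ b : Fin d, a ≠ b := by
      by_cases h : (a : ℕ) = 0
      · exact ⟨⟨1, by omega⟩, fun h' => by rw [h'] at h; exact one_ne_zero h⟩
      · exact ⟨⟨0, by omega⟩, fun h' => by rw [h'] at h; exact h rfl⟩
    have h := avg_le hb f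
    rw [Finset.sum_add_distrib, Finset.sum_add_distrib, Finset.sum_add_distrib] at h
    have h1 := hti (a, b, false)
    have h2 := hti (a, b, true)
    have h3 := hti (b, a, false)
    have h4 := hti (b, a, true)
    simp only [shears] at h1 h2 h3 h4
    have h5 : 0.7 * ∑ s, (f s - avg a f s) ^ 2 ≤ 4 * T := by linarith
    have h6 : ∑ s, (f s - avg a f s) ^ 2 ≤ (4 * T) / 0.7 := by
      rw [le_div_iff₀ (by norm_num)]
      linarith
    refine le_trans h6 (le_of_eq ?_)
    ring
  have h1 := e6_it_le f ((4 / 0.7) * T) hK (by positivity) d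
  have hc : ∀ s s', e6_it f d s' = e6_it f d s := fun s s' =>
    e6_const (e6_it f d) (fun a s x => e6_it_indep f d a a.2 s x) s s'
  have h2 := e6_mean f (e6_it f d (fun _ => 0))
  refine le_trans h2 ?_
  have h3 : ∑ p, (f p - e6_it f d (fun _ => 0)) ^ 2 = ∑ p, (f p - e6_it f d p) ^ 2 :=
    Finset.sum_congr rfl fun p _ => by rw [hc (fun _ => 0) p]
  rw [h3, mul_assoc]
  exact h1

end H32D
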