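import Pool.Agent.Lib.H32D.WDefs

set_option autoImplicit false

/-!
# H32D, definitions of module R (the sheets, the two permutations, the routes)

The sheets are `Sheet k d m = Fin k × (Fin d → ZMod m)`. `g j` (`j : Fin k`) are permutations of `Fin d → ZMod m` changing only the coordinate
`c j`. The first permutation `shiftP` is `(j, s) ↦ (j + 1, s)` (cyclic), the second `actP` is `(j, s) ↦ (j, g j s)`. The site of
`(j, s)` has height `j m` (coordinate `0`) and the other coordinates `(s c).val`.
-/

open Finset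

namespace H32D

abbrev Sheet (k d m : ℕ) : Type := Fin k × (Fin d → ZMod m)

/-- The walk on the integers from `a` to `b`, both included. -/
def walk (a b : ℤ) : List ℤ :=
  if a ≤ b then (List.range ((b - a).toNat + 1)).map (fun t => a + (t : ℤ))
  else (List.range ((a - b).toNat + 1)).map (fun t => a - (t : ℤ))

/-- The lattice point with height `h` over `s`. -/
def pnt {d m : ℕ} (h : ℤ) (s : Fin d → ZMod m) : Fin (d + 1) → ℤ := Fin.cons h (fun c => ((s c).val : ℤ))

/-- The lattice point with height `h` over `s` with coordinate `c` replaced by `t`. -/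
def pntAt {d m : ℕ} (h : ℤ) (s : Fin d → ZMod m) (c : Fin d) (t : ℤ) : Fin (d + 1) → ℤ :=
  Fin.cons h (Function.update (fun c => ((s c).val : ℤ)) c t)

def siteP {k d m : ℕ} (p : Sheet k d m) : Fin (d + 1) → ℤ := pnt ((p.1 : ℕ) * m : ℤ) p.2

def shiftP (k d m : ℕ) : Equiv.Perm (Sheet k d m) := Equiv.prodCongr (finRotate k) (Equiv.refl _)

def actP {k d m : ℕ} (g : Fin k → Equiv.Perm (Fin d → ZMod m)) : Equiv.Perm (Sheet k d m) := Equiv.prodShear (Equiv.refl _) g

/-- The two permutations: `false ↦ shiftP`, `true ↦ actP g`. -/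
def sig {k d m : ℕ} (g : Fin k → Equiv.Perm (Fin d → ZMod m)) : Bool → Equiv.Perm (Sheet k d m)
  | false => shiftP k d m
  | true => actP g

/-- The routes: vertical for the shift; for the action go up from height `j m` to `j m + s_c`, then horizontally in the direction `c = c j`, then down. -/
def routeP {k d m : ℕ} (g : Fin k → Equiv.Perm (Fin d → ZMod m)) (c : Fin k → Fin d) : Bool → Sheet k d m → List (Fin (d + 1) → ℤ)
  | false, p => (walk ((p.1 : ℕ) * m : ℤ) ((finRotate k p.1 : ℕ) * m : ℤ)).map (fun h => pnt h p.2)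
  | true, p => (walk ((p.1 : ℕ) * m : ℤ) ((p.1 : ℕ) * m + (p.2 (c p.1)).val : ℤ)).map (fun h => pnt h p.2) ++
      (walk (p.2 (c p.1)).val (g p.1 p.2 (c p.1)).val).map (fun t => pntAt ((p.1 : ℕ) * m + (p.2 (c p.1)).val : ℤ) p.2 (c p.1) t) ++
      (walk ((p.1 : ℕ) * m + (p.2 (c p.1)).val : ℤ) ((p.1 : ℕ) * m : ℤ)).map (fun h => pnt h (g p.1 p.2))

end H32D
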