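import Pool.Agent.Lib.H32D.EDefs
import Pool.Agent.Lib.H32D.RDefs

set_option autoImplicit false

/-!
# H32D, chunk E7 (M): from `k` permutations to two

Write `f_j s = f (j, s)`, `D = ∑_i ∑_p (f (sig g i p) - f p)²`. For all `i, j`: `∑_s (f_i s - f_j s)² ≤ k D` (walk from `i` to `j` by the cyclic shift,
at most `k` steps, Cauchy-Schwarz). Then `∑_j ∑_s (f_0 (g_j s) - f_0 s)² ≤ ∑_j 3 (∑ (f_0 - f_j)² (g_j s) + ∑ (f_j (g_j s) - f_j s)² + ∑ (f_j - f_0)²)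
≤ (6 k² + 3) D`, so by `Poinc g C` `∑_s (f_0 - c)² ≤ C (6 k² + 3) D` with `c` the mean of `f_0`, hence `∑_p (f p - c)² ≤ C' D`, and the mean of `f`
minimizes the left side. (`g` is read as a family indexed by `Fin k`.)

Auxiliary names start with `e7_`.
-/

open Finset

namespace H32D

theorem e7_mean {P : Type} [Fintype P] (f : P → ℝ) (c : ℝ) :
    ∑ p, (f p - (∑ q, f q) / Fintype.card P) ^ 2 ≤ ∑ p, (f p - c) ^ 2 := by
  rcases Nat.eq_zero_or_pos (Fintype.card P) with h0 | h0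
  · have := Fintype.card_eq_zero_iff.1 h0
    simp
  have hm : (0 : ℝ) < (Fintype.card P : ℝ) := Nat.cast_pos.2 h0
  set A : ℝ := (∑ q, f q) / Fintype.card P with hA
  have hs : ∑ t, f t = Fintype.card P * A := by rw [hA]; field_simp
  have h1 : ∀ c : ℝ, ∑ x, (f x - c) ^ 2 = ∑ x, f x ^ 2 - 2 * c * (Fintype.card P * A) + Fintype.card P * c ^ 2 := by
    intro c
    have : ∀ x, (f x - c) ^ 2 = f x ^ 2 - 2 * c * f x + c ^ 2 := fun x => by ring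
    rw [Finset.sum_congr rfl fun x _ => this x, Finset.sum_add_distrib, Finset.sum_sub_distrib, ← Finset.mul_sum, hs,
      Finset.sum_const, Finset.card_univ, nsmul_eq_mul]
  rw [h1 A, h1 c]
  nlinarith [mul_nonneg hm.le (sq_nonneg (A - c))]

theorem e7_walk {S : Type} [Fintype S] (k : ℕ) (hk : 1 ≤ k) (f : Fin k × S → ℝ) (A : ℝ)
    (hA : ∀ j : Fin k, ∑ s, (f (finRotate k j, s) - f (j, s)) ^ 2 ≤ A) (hA0 : 0 ≤ A) (j : ℕ) (hj : j < k) :
    ∑ s, (f (⟨j, hj⟩, s) - f (⟨0, hk⟩, s)) ^ 2 ≤ 4 ^ j * A := by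
  induction j with
  | zero =>
    have : ∑ s : S, (f (⟨0, hj⟩, s) - f (⟨0, hk⟩, s)) ^ 2 = 0 :=
      Finset.sum_eq_zero fun s _ => by ring
    rw [this]
    simpa using hA0
  | succ j ih =>
    have ih' := ih (by omega)
    have h1 := hA ⟨j, by omega⟩
    have h2 : finRotate k ⟨j, by omega⟩ = ⟨j + 1, hj⟩ := by
      obtain ⟨k', rfl⟩ : ∃ k', k = k' + 1 := ⟨k - 1, by omega⟩
      exact finRotate_of_lt (by omega)
    rw [h2] at h1
    have h3 : ∀ s : S, (f (⟨j + 1, hj⟩, s) - f (⟨0, hk⟩, s)) ^ 2 ≤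
        2 * (f (⟨j + 1, hj⟩, s) - f (⟨j, by omega⟩, s)) ^ 2 + 2 * (f (⟨j, by omega⟩, s) - f (⟨0, hk⟩, s)) ^ 2 := by
      intro s
      nlinarith [sq_nonneg ((f (⟨j + 1, hj⟩, s) - f (⟨j, by omega⟩, s)) - (f (⟨j, by omega⟩, s) - f (⟨0, hk⟩, s)))]
    refine le_trans (Finset.sum_le_sum fun s _ => h3 s) ?_
    rw [Finset.sum_add_distrib, ← Finset.mul_sum, ← Finset.mul_sum]
    have h4 : (1 : ℝ) ≤ 4 ^ j := one_le_pow₀ (by norm_num)
    have h5 : A ≤ 4 ^ j * A := by nlinarith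
    have h6 : (4 : ℝ) ^ (j + 1) = 4 * 4 ^ j := by ring
    rw [h6]
    nlinarith

theorem sig_poinc (k : ℕ) (hk : 1 ≤ k) (C : ℝ) (hC : 0 < C) : ∃ C' : ℝ, 0 < C' ∧ ∀ (d m : ℕ) (_ : NeZero m)
    (g : Fin k → Equiv.Perm (Fin d → ZMod m)), Poinc g C → Poinc (sig g) C' := by
  have hkR : (0 : ℝ) < (k : ℝ) := Nat.cast_pos.2 hk
  refine ⟨k * (2 * 4 ^ k + 2 * (C * (6 * k * 4 ^ k + 3))), by positivity, fun d m _ g hg f => ?_⟩
  set D : ℝ := ∑ i, ∑ p, (f (sig g i p) - f p) ^ 2 with hD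
  have hD' : D = ∑ p, (f (sig g true p) - f p) ^ 2 + ∑ p, (f (sig g false p) - f p) ^ 2 := by
    rw [hD, Fintype.sum_bool]
  have hp1 : 0 ≤ ∑ p, (f (sig g true p) - f p) ^ 2 := Finset.sum_nonneg fun p _ => sq_nonneg _
  have hp2 : 0 ≤ ∑ p, (f (sig g false p) - f p) ^ 2 := Finset.sum_nonneg fun p _ => sq_nonneg _
  have hD0 : 0 ≤ D := by rw [hD']; linarith
  have e1 : ∑ p, (f (sig g true p) - f p) ^ 2 = ∑ j : Fin k, ∑ s : Fin d → ZMod m, (f (j, g j s) - f (j, s)) ^ 2 := by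
    rw [Fintype.sum_prod_type]
    rfl
  have e2 : ∑ p, (f (sig g false p) - f p) ^ 2 =
      ∑ j : Fin k, ∑ s : Fin d → ZMod m, (f (finRotate k j, s) - f (j, s)) ^ 2 := by
    rw [Fintype.sum_prod_type]
    rfl
  have hA : ∀ j : Fin k, ∑ s : Fin d → ZMod m, (f (finRotate k j, s) - f (j, s)) ^ 2 ≤ D := by
    intro j
    have h := Finset.single_le_sum (f := fun j : Fin k => ∑ s : Fin d → ZMod m, (f (finRotate k j, s) - f (j, s)) ^ 2)
      (fun j _ => Finset.sum_nonneg fun s _ => sq_nonneg _) (Finset.mem_univ j)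
    have h' : ∑ s : Fin d → ZMod m, (f (finRotate k j, s) - f (j, s)) ^ 2 ≤ ∑ p, (f (sig g false p) - f p) ^ 2 := by
      rw [e2]; exact h
    rw [hD']
    linarith
  have h0 : ∀ j : Fin k, ∑ s : Fin d → ZMod m, (f (j, s) - f (⟨0, hk⟩, s)) ^ 2 ≤ 4 ^ k * D := by
    intro j
    refine le_trans (e7_walk k hk f D hA hD0 j j.2) ?_
    exact mul_le_mul_of_nonneg_right (pow_le_pow_right₀ (by norm_num) (le_of_lt j.2)) hD0
  have h1 : ∑ j : Fin k, ∑ s : Fin d → ZMod m, (f (⟨0, hk⟩, g j s) - f (⟨0, hk⟩, s)) ^ 2 ≤ (6 * k * 4 ^ k + 3) * D := by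
    have h2 : ∀ j : Fin k, ∑ s : Fin d → ZMod m, (f (⟨0, hk⟩, g j s) - f (⟨0, hk⟩, s)) ^ 2 ≤
        6 * (4 ^ k * D) + 3 * ∑ s : Fin d → ZMod m, (f (j, g j s) - f (j, s)) ^ 2 := by
      intro j
      have h3 : ∀ s : Fin d → ZMod m, (f (⟨0, hk⟩, g j s) - f (⟨0, hk⟩, s)) ^ 2 ≤
          3 * (f (j, g j s) - f (⟨0, hk⟩, g j s)) ^ 2 + 3 * (f (j, g j s) - f (j, s)) ^ 2 +
            3 * (f (j, s) - f (⟨0, hk⟩, s)) ^ 2 := by
        intro s
        set x := f (⟨0, hk⟩, g j s)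
        set y := f (j, g j s)
        set z := f (j, s)
        set w := f (⟨0, hk⟩, s)
        nlinarith [sq_nonneg ((y - x) + (y - z)), sq_nonneg ((y - z) - (z - w)), sq_nonneg ((y - x) + (z - w))]
      refine le_trans (Finset.sum_le_sum fun s _ => h3 s) ?_
      rw [Finset.sum_add_distrib, Finset.sum_add_distrib, ← Finset.mul_sum, ← Finset.mul_sum, ← Finset.mul_sum]
      have h4 : ∑ s : Fin d → ZMod m, (f (j, g j s) - f (⟨0, hk⟩, g j s)) ^ 2 =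
          ∑ s : Fin d → ZMod m, (f (j, s) - f (⟨0, hk⟩, s)) ^ 2 :=
        Equiv.sum_comp (g j) (fun s => (f (j, s) - f (⟨0, hk⟩, s)) ^ 2)
      rw [h4]
      have h5 := h0 j
      linarith
    refine le_trans (Finset.sum_le_sum fun j _ => h2 j) ?_
    rw [Finset.sum_add_distrib, Finset.sum_const, Finset.card_univ, Fintype.card_fin, nsmul_eq_mul, ← Finset.mul_sum, ← e1]
    have h6 : ∑ p, (f (sig g true p) - f p) ^ 2 ≤ D := by rw [hD']; linarith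
    nlinarith
  have h2 := hg (fun s => f (⟨0, hk⟩, s))
  set c : ℝ := (∑ q : Fin d → ZMod m, f (⟨0, hk⟩, q)) / Fintype.card (Fin d → ZMod m) with hc
  have h3 : ∑ s : Fin d → ZMod m, (f (⟨0, hk⟩, s) - c) ^ 2 ≤ C * ((6 * k * 4 ^ k + 3) * D) :=
    le_trans h2 (mul_le_mul_of_nonneg_left h1 hC.le)
  refine le_trans (e7_mean f c) ?_
  rw [Fintype.sum_prod_type]
  have h4 : ∀ j : Fin k, ∑ s : Fin d → ZMod m, (f (j, s) - c) ^ 2 ≤ 2 * (4 ^ k * D) + 2 * (C * ((6 * k * 4 ^ k + 3) * D)) := by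
    intro j
    have h5 : ∀ s : Fin d → ZMod m, (f (j, s) - c) ^ 2 ≤
        2 * (f (j, s) - f (⟨0, hk⟩, s)) ^ 2 + 2 * (f (⟨0, hk⟩, s) - c) ^ 2 := by
      intro s
      nlinarith [sq_nonneg ((f (j, s) - f (⟨0, hk⟩, s)) - (f (⟨0, hk⟩, s) - c))]
    refine le_trans (Finset.sum_le_sum fun s _ => h5 s) ?_
    rw [Finset.sum_add_distrib, ← Finset.mul_sum, ← Finset.mul_sum]
    have h6 := h0 j
    linarith
  refine le_trans (Finset.sum_le_sum fun j _ => h4 j) (le_of_eq ?_)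
  rw [Finset.sum_const, Finset.card_univ, Fintype.card_fin, nsmul_eq_mul]
  ring

end H32D
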