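import Pool.Agent.Lib.H32D.Defs

set_option autoImplicit false

/-!
# H32D, definitions of module E (expansion, after Gabber and Galil)
-/

open Finset

namespace H32D

/-- Poincaré inequality with constant `C` for a family of permutations of the finite set `P`. -/
def Poinc {P ι : Type} [Fintype P] [Fintype ι] (σ : ι → Equiv.Perm P) (C : ℝ) : Prop :=
  ∀ f : P → ℝ, ∑ p, (f p - (∑ q, f q) / Fintype.card P) ^ 2 ≤ C * ∑ i, ∑ p, (f (σ i p) - f p) ^ 2

/-- The size of a residue class: the least absolute value of its elements. -/
def sz {m : ℕ} (a : ZMod m) : ℕ := a.valMinAbs.natAbs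

/-- The weight `γ(z, z')` of the proof of Gabber and Galil: `5/4` if `z > z'`, `4/5` if `z < z'`, `1` otherwise, for the product order of the sizes of the
coordinates. -/
noncomputable def gam {m : ℕ} (z z' : ZMod m × ZMod m) : ℝ :=
  if sz z'.1 ≤ sz z.1 ∧ sz z'.2 ≤ sz z.2 ∧ (sz z'.1 < sz z.1 ∨ sz z'.2 < sz z.2) then 5 / 4
  else if sz z.1 ≤ sz z'.1 ∧ sz z.2 ≤ sz z'.2 ∧ (sz z.1 < sz z'.1 ∨ sz z.2 < sz z'.2) then 4 / 5 else 1

/-- `|cos (π a / m)|`. -/
noncomputable def cs {m : ℕ} (a : ZMod m) : ℝ := |Real.cos (Real.pi * (a.valMinAbs : ℝ) / m)|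

/-- The shear of the coordinates `a`, `b`: `s_a` becomes `s_a + 2 s_b + δ` (`δ = 1` for `true`, `0` for `false`). It is the identity if `a = b`. -/
def shear {d m : ℕ} (a b : Fin d) (δ : Bool) : Equiv.Perm (Fin d → ZMod m) :=
  if h : a = b then Equiv.refl _ else
  { toFun := fun s => Function.update s a (s a + 2 * s b + (if δ then 1 else 0))
    invFun := fun s => Function.update s a (s a - 2 * s b - (if δ then 1 else 0))
    left_inv := fun s => by
      have hb : (Function.update s a (s a + 2 * s b + (if δ then 1 else 0))) b = s b := Function.update_of_ne (Ne.symm h) _ _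
      simp only [Function.update_idem, Function.update_self, hb]
      funext i
      by_cases hi : i = a
      · subst hi; rw [Function.update_self]; ring
      · rw [Function.update_of_ne hi]
    right_inv := fun s => by
      have hb : (Function.update s a (s a - 2 * s b - (if δ then 1 else 0))) b = s b := Function.update_of_ne (Ne.symm h) _ _
      simp only [Function.update_idem, Function.update_self, hb]
      funext i
      by_cases hi : i = a
      · subst hi; rw [Function.update_self]; ring
      · rw [Function.update_of_ne hi] }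

/-- All shears. -/
def shears (d m : ℕ) : Fin d × Fin d × Bool → Equiv.Perm (Fin d → ZMod m) := fun t => shear t.1 t.2.1 t.2.2

end H32D
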