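import Mathlib
import Pool.Agent.Lib.H25R.Kron

/-!
# The arithmetic part of the H-move (library H32D, helper32): Kronecker's theorem gives the shear
-/

open Finset

namespace Pool.Agent.Lib.H32D

theorem shear_arith (m : ℕ) (d L : ℕ → ℝ) (hd : ∑ i ∈ range (m + 1), d i = 1) (hd0 : ∀ i ≤ m, 0 < d i)
    (hL : ∀ i ≤ m, 0 < L i) (V : ℝ) (hV : V ≠ 0) (K : Submodule ℚ ℝ)
    (hK : ∀ i, 0 < i → i ≤ m → V * d i / L i ∈ K) (h0 : 0 < m → V * d 0 / L 0 ∉ K) (α σ : ℝ)
    (hσ : σ = 1 ∨ σ = -1) (T0 η : ℝ) (hη : 0 < η) :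
    ∃ (c : ℝ) (e : ℕ → ℝ) (k : ℕ → ℤ), T0 < σ * c ∧ e 0 = α ∧ (∀ i, 0 < i → i ≤ m → |e i| < η) ∧
      (∀ i < m, e i + c * d i = e (i + 1) + k i * L i) ∧ e m + c * d m = k m * L m := by
  classical
  have hσ2 : σ * σ = 1 := by rcases hσ with rfl | rfl <;> norm_num
  have hσa : |σ| = 1 := by rcases hσ with rfl | rfl <;> simp
  set al : Fin (m + 1) → ℝ := fun i => d i / L i with hal
  set be : Fin (m + 1) → ℝ := fun i => if (i : ℕ) = 0 then -(σ * α) / L 0 else 0 with hbe
  set S : ℝ := ∑ i ∈ range (m + 1), L i with hS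
  have hS0 : 0 < S := Finset.sum_pos (fun i hi => hL i (by simpa [Nat.lt_succ_iff] using hi)) ⟨0, by simp⟩
  set ε : ℝ := min 1 (η / 3) / S with hε
  have hε0 : 0 < ε := by positivity
  obtain ⟨t, ht, hk⟩ := H25R.kronecker al be (by
    intro n hn
    have hn0 : n 0 = 0 := by
      by_contra hne
      have hne' : ((n 0 : ℤ) : ℝ) ≠ 0 := by exact_mod_cast hne
      rw [Fin.sum_univ_succ] at hn
      rcases Nat.eq_zero_or_pos m with hm | hm
      · subst hm
        simp only [univ_eq_empty, sum_empty, add_zero, hal] at hn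
        have := div_pos (hd0 0 le_rfl) (hL 0 le_rfl)
        rcases mul_eq_zero.1 hn with h | h
        · exact hne' h
        · exact this.ne' h
      · apply h0 hm
        have h1 : V * d 0 / L 0 = ((-1 / (n 0 : ℚ) : ℚ) : ℝ) *
            ∑ i : Fin m, ((n i.succ : ℤ) : ℝ) * (V * d (i + 1) / L (i + 1)) := by
          have h2 : ∑ i : Fin m, ((n i.succ : ℤ) : ℝ) * (V * d (i + 1) / L (i + 1)) =
              V * ∑ i : Fin m, ((n i.succ : ℤ) : ℝ) * al i.succ := by
            rw [mul_sum]
            refine sum_congr rfl fun i _ => ?_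
            simp only [hal, Fin.val_succ]
            ring
          have h3 : ∑ i : Fin m, ((n i.succ : ℤ) : ℝ) * al i.succ = -((n 0 : ℤ) : ℝ) * al 0 := by
            linarith
          rw [h2, h3]
          push_cast
          field_simp
          simp [hal]
        rw [h1, ← Rat.smul_def]
        apply K.smul_mem
        apply K.sum_mem
        intro i _
        have h4 : ((n i.succ : ℤ) : ℝ) * (V * d (i + 1) / L (i + 1)) =
            ((n i.succ : ℤ) : ℚ) • (V * d (i + 1) / L (i + 1)) := by
          rw [Rat.smul_def]; push_cast; rfl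
        rw [h4]
        exact K.smul_mem _ (hK (i + 1) (by omega) (by omega))
    refine ⟨0, ?_⟩
    rw [Fin.sum_univ_succ, hn0]
    simp [hbe]) ε hε0 (T0 + 2)
  choose k' hk' using hk
  -- extension to ℕ
  let kk : ℕ → ℤ := fun i => if h : i < m + 1 then k' ⟨i, h⟩ else 0
  let δ : ℕ → ℝ := fun i => t * (d i / L i) - (if i = 0 then -(σ * α) / L 0 else 0) - kk i
  have hδ : ∀ i ≤ m, |δ i| < ε := by
    intro i hi
    have := hk' ⟨i, by omega⟩
    simp only [hal, hbe] at this
    simp only [δ, kk, dif_pos (show i < m + 1 by omega)]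
    exact this
  have hstep : ∀ i ≤ m, t * d i = (if i = 0 then -(σ * α) else 0) + kk i * L i + δ i * L i := by
    intro i hi
    have := hL i hi
    simp only [δ]
    split_ifs with h
    · subst h; field_simp; ring
    · field_simp; ring
  let c : ℝ := ∑ i ∈ range (m + 1), (((σ * kk i : ℝ)) * L i) - α
  let e : ℕ → ℝ := fun j => α + c * ∑ i ∈ range j, d i - ∑ i ∈ range j, ((σ * kk i : ℝ) * L i)
  -- sums
  have hsum : ∀ j, 0 < j → j ≤ m + 1 → t * ∑ i ∈ range j, d i =
      -(σ * α) + ∑ i ∈ range j, (kk i : ℝ) * L i + ∑ i ∈ range j, δ i * L i := by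
    intro j hj0 hj
    induction j with
    | zero => exact absurd hj0 (lt_irrefl 0)
    | succ j ih =>
      rcases Nat.eq_zero_or_pos j with h | h
      · subst h
        have := hstep 0 (by omega)
        simp only [if_true] at this
        simp [this]
      · have h1 := ih h (by omega)
        have h2 := hstep j (by omega)
        rw [if_neg (by omega)] at h2
        rw [sum_range_succ, sum_range_succ, sum_range_succ, mul_add, h1, h2]
        ring
  have hδS : ∀ j ≤ m + 1, |∑ i ∈ range j, δ i * L i| ≤ ε * S := by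
    intro j hj
    calc |∑ i ∈ range j, δ i * L i| ≤ ∑ i ∈ range j, |δ i * L i| := abs_sum_le_sum_abs _ _
      _ ≤ ∑ i ∈ range j, ε * L i := by
          refine sum_le_sum fun i hi => ?_
          have hi' : i ≤ m := by have := mem_range.1 hi; omega
          rw [abs_mul, abs_of_pos (hL i hi')]
          exact mul_le_mul_of_nonneg_right (hδ i hi').le (hL i hi').le
      _ ≤ ∑ i ∈ range (m + 1), ε * L i := by
          refine sum_le_sum_of_subset_of_nonneg (by
            intro i hi; have := mem_range.1 hi; exact mem_range.2 (by omega)) fun i hi _ => ?_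
          have hi' : i ≤ m := by have := mem_range.1 hi; omega
          exact mul_nonneg hε0.le (hL i hi').le
      _ = ε * S := by rw [hS, mul_sum]
  have hεS : ε * S = min 1 (η / 3) := by
    rw [hε]; field_simp
  -- c and t
  have hct : σ * c = t - ∑ i ∈ range (m + 1), δ i * L i := by
    have h1 := hsum (m + 1) (by omega) le_rfl
    rw [hd, mul_one] at h1
    have h2 : ∑ i ∈ range (m + 1), ((σ * kk i : ℝ) * L i) = σ * ∑ i ∈ range (m + 1), (kk i : ℝ) * L i := by
      rw [mul_sum]; exact sum_congr rfl fun i _ => by ring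
    simp only [c]
    rw [h2, h1]
    linear_combination (∑ i ∈ range (m + 1), (kk i : ℝ) * L i) * hσ2
  have hσe : ∀ j, 0 < j → j ≤ m + 1 → σ * e j = (σ * c - t) * ∑ i ∈ range j, d i + ∑ i ∈ range j, δ i * L i := by
    intro j hj0 hj
    have h1 := hsum j hj0 hj
    have h2 : ∑ i ∈ range j, ((σ * kk i : ℝ) * L i) = σ * ∑ i ∈ range j, (kk i : ℝ) * L i := by
      rw [mul_sum]; exact sum_congr rfl fun i _ => by ring
    simp only [e]
    rw [h2]
    linear_combination h1 - (∑ i ∈ range j, (kk i : ℝ) * L i) * hσ2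
  refine ⟨c, e, fun i => if σ = 1 then kk i else - kk i, ?_, ?_, ?_, ?_, ?_⟩
  · rw [hct]
    have := (abs_le.1 (hδS (m + 1) le_rfl)).2
    rw [hεS] at this
    have := min_le_left 1 (η / 3)
    linarith
  · simp [e]
  · intro j hj0 hj
    have h1 := hσe j hj0 (by omega)
    have h2 : |e j| = |σ * e j| := by rw [abs_mul, hσa, one_mul]
    rw [h2, h1]
    have h3 : |σ * c - t| ≤ ε * S := by
      rw [hct, show t - ∑ i ∈ range (m + 1), δ i * L i - t = -∑ i ∈ range (m + 1), δ i * L i by ring, abs_neg]
      exact hδS _ le_rfl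
    have h4 : 0 ≤ ∑ i ∈ range j, d i := sum_nonneg fun i hi => (hd0 i (by have := mem_range.1 hi; omega)).le
    have h5 : ∑ i ∈ range j, d i ≤ 1 := by
      rw [← hd]
      refine sum_le_sum_of_subset_of_nonneg (by
        intro i hi; have := mem_range.1 hi; exact mem_range.2 (by omega)) fun i hi _ => ?_
      exact (hd0 i (by have := mem_range.1 hi; omega)).le
    have h6 := hδS j (by omega)
    have h7 : |(σ * c - t) * ∑ i ∈ range j, d i| ≤ ε * S := by
      rw [abs_mul, abs_of_nonneg h4]
      nlinarith [abs_nonneg (σ * c - t)]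
    have h8 := min_le_right 1 (η / 3)
    calc |(σ * c - t) * ∑ i ∈ range j, d i + ∑ i ∈ range j, δ i * L i|
        ≤ |(σ * c - t) * ∑ i ∈ range j, d i| + |∑ i ∈ range j, δ i * L i| := abs_add_le _ _
      _ ≤ ε * S + ε * S := add_le_add h7 h6
      _ < η := by rw [hεS]; linarith
  · intro i hi
    have h1 : (((if σ = 1 then kk i else - kk i : ℤ)) : ℝ) = σ * kk i := by
      rcases hσ with rfl | rfl
      · simp
      · rw [if_neg (by norm_num)]; push_cast; ring
    rw [h1]
    simp only [e, sum_range_succ]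
    ring
  · have h1 : (((if σ = 1 then kk m else - kk m : ℤ)) : ℝ) = σ * kk m := by
      rcases hσ with rfl | rfl
      · simp
      · rw [if_neg (by norm_num)]; push_cast; ring
    rw [h1]
    have h2 : e (m + 1) = 0 := by
      simp only [e, hd]
      simp only [c]
      ring
    have h3 : e (m + 1) = e m + c * d m - σ * kk m * L m := by
      simp only [e, sum_range_succ]
      ring
    linarith

end Pool.Agent.Lib.H32D
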