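import Mathlib

/-!
# Enumeration of a finite set of break points (library H32D, helper32)
-/

open Set

namespace Pool.Agent.Lib.H32D

theorem exists_enum (S : Set ℝ) (hS : S.Finite) (hS1 : S ⊆ Ioo (0 : ℝ) 1) :
    ∃ (m : ℕ) (s : ℕ → ℝ), s 0 = 0 ∧ s (m + 1) = 1 ∧ (∀ i ≤ m, s i < s (i + 1)) ∧
      (∀ i, 0 < i → i ≤ m → s i ∈ S) ∧ ∀ i ≤ m, ∀ r ∈ Ioo (s i) (s (i + 1)), r ∉ S := by
  classical
  set F : Finset ℝ := insert 0 (insert 1 hS.toFinset) with hF
  have h0 : (0 : ℝ) ∉ insert 1 hS.toFinset := by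
    simp only [Finset.mem_insert, Finite.mem_toFinset, not_or]
    exact ⟨zero_ne_one, fun h => lt_irrefl _ (hS1 h).1⟩
  have h1 : (1 : ℝ) ∉ hS.toFinset := by
    simp only [Finite.mem_toFinset]
    exact fun h => lt_irrefl _ (hS1 h).2
  set m : ℕ := hS.toFinset.card with hm
  have hcard : F.card = m + 2 := by
    rw [hF, Finset.card_insert_of_notMem h0, Finset.card_insert_of_notMem h1]
  set em := F.orderEmbOfFin hcard with hem
  have hne : F.Nonempty := ⟨0, by simp [hF]⟩
  have hbd : ∀ y ∈ F, 0 ≤ y ∧ y ≤ 1 := by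
    intro y hy
    simp only [hF, Finset.mem_insert, Finite.mem_toFinset] at hy
    rcases hy with rfl | rfl | hy
    · exact ⟨le_rfl, zero_le_one⟩
    · exact ⟨zero_le_one, le_rfl⟩
    · exact ⟨(hS1 hy).1.le, (hS1 hy).2.le⟩
  have hmem0 : (0 : ℝ) ∈ F := by simp [hF]
  have hmem1 : (1 : ℝ) ∈ F := by simp [hF]
  have hz : em ⟨0, by omega⟩ = 0 := by
    rw [hem, Finset.orderEmbOfFin_zero hcard (by omega)]
    apply le_antisymm
    · exact Finset.min'_le _ _ hmem0
    · exact (hbd _ (Finset.min'_mem _ _)).1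
  have ho : em ⟨m + 1, by omega⟩ = 1 := by
    have := Finset.orderEmbOfFin_last hcard (by omega)
    have h2 : em ⟨m + 1, by omega⟩ = F.max' hne := by
      rw [hem]; exact this
    rw [h2]
    apply le_antisymm
    · exact (hbd _ (Finset.max'_mem _ _)).2
    · exact Finset.le_max' _ _ hmem1
  let s : ℕ → ℝ := fun i => if h : i < m + 2 then em ⟨i, h⟩ else 1
  have hs : ∀ i (h : i < m + 2), s i = em ⟨i, h⟩ := fun i h => by simp only [s, dif_pos h]
  have hrange : ∀ r ∈ F, ∃ j, ∃ h : j < m + 2, em ⟨j, h⟩ = r := by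
    intro r hr
    have : r ∈ Set.range em := by
      rw [hem, Finset.range_orderEmbOfFin]
      exact hr
    obtain ⟨j, hj⟩ := this
    exact ⟨j.1, j.2, hj⟩
  refine ⟨m, s, ?_, ?_, ?_, ?_, ?_⟩
  · rw [hs 0 (by omega)]; exact hz
  · rw [hs (m + 1) (by omega)]; exact ho
  · intro i hi
    rw [hs i (by omega), hs (i + 1) (by omega)]
    exact em.strictMono (by simp [Fin.lt_def])
  · intro i hi0 hi
    have h2 : s i ∈ F := by
      rw [hs i (by omega), hem]
      exact Finset.orderEmbOfFin_mem _ _ _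
    simp only [hF, Finset.mem_insert, Finite.mem_toFinset] at h2
    rcases h2 with h2 | h2 | h2
    · rw [hs i (by omega), ← hz] at h2
      have := em.injective h2
      simp only [Fin.mk.injEq] at this
      omega
    · rw [hs i (by omega), ← ho] at h2
      have := em.injective h2
      simp only [Fin.mk.injEq] at this
      omega
    · exact h2
  · intro i hi r hr hrS
    have hrF : r ∈ F := by simp [hF, hrS]
    obtain ⟨j, hj, hjr⟩ := hrange r hrF
    rw [hs i (by omega), hs (i + 1) (by omega), ← hjr] at hr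
    have h2 := em.lt_iff_lt.1 hr.1
    have h3 := em.lt_iff_lt.1 hr.2
    simp only [Fin.lt_def] at h2 h3
    omega

end Pool.Agent.Lib.H32D
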