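import Pool.Agent.Lib.H32D.Move
import Pool.Agent.Lib.H25D.Defs

/-!
# From `TSurf` to `TS` (library H32D, helper32)
-/

open Set

namespace Pool.Agent.Lib.H32D

open H25D (TSurf cr)

variable {X : Type} (M : TSurf X)

/-- the local translation structure of a `TSurf` -/
def toTS : TS X where
  rho := M.rad
  add := M.add
  rho_pos := M.rad_pos
  add_zero := M.add_zero
  rho_add := M.rad_add
  add_add := M.add_add

theorem seg_iff {x y : X} {W : ℂ} : M.Seg x W y ↔ ∃ z : ℝ → X, z 0 = x ∧ z 1 = y ∧ (toTS M).Path W (Icc 0 1) z :=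
  Iff.rfl

/-- a path gives segments -/
theorem seg_of_path {W : ℂ} {I : Set ℝ} (hI : I.OrdConnected) {z : ℝ → X} (h : (toTS M).Path W I z) {a b : ℝ}
    (ha : a ∈ I) (hb : b ∈ I) : M.Seg (z a) (((b - a : ℝ) : ℂ) * W) (z b) := by
  refine ⟨fun s => z ((b - a) * s + a), by simp, by simp, ?_⟩
  exact h.comp (toTS M) (b - a) a (fun s hs => by
    apply hI.uIcc_subset ha hb
    rcases le_total a b with h1 | h1
    · rw [uIcc_of_le h1]
      constructor <;> nlinarith [hs.1, hs.2]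
    · rw [uIcc_of_ge h1]
      constructor <;> nlinarith [hs.1, hs.2])

/-- segments are unique -/
theorem seg_uniq {x y y' : X} {W : ℂ} (h : M.Seg x W y) (h' : M.Seg x W y') : y = y' := by
  obtain ⟨z, hz0, hz1, hz⟩ := h
  obtain ⟨z', hz0', hz1', hz'⟩ := h'
  rw [← hz1, ← hz1']
  exact TS.Path.uniq (toTS M) ordConnected_Icc hz hz' (s₀ := 0) ⟨le_rfl, zero_le_one⟩ (by rw [hz0, hz0'])
    ⟨zero_le_one, le_rfl⟩

/-- a short segment is `add` -/
theorem seg_small {x y : X} {u : ℂ} (h : M.Seg x u y) (hu : ‖u‖ < M.rad x) : y = M.add x u := by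
  obtain ⟨z, hz0, hz1, hz⟩ := h
  have := TS.Path.far (toTS M) ordConnected_Icc hz (s := 0) (s' := 1) ⟨le_rfl, zero_le_one⟩ ⟨zero_le_one, le_rfl⟩
    (by rw [hz0, sub_zero, abs_one, one_mul]; exact hu)
  rw [hz1, hz0, sub_zero, Complex.ofReal_one, one_mul] at this
  exact this

/-- parametrization of a segment with displacement `t W` by the time -/
theorem seg_time {x y : X} {W : ℂ} {t : ℝ} (h : M.Seg x ((t : ℂ) * W) y) :
    ∃ z : ℝ → X, z 0 = x ∧ z t = y ∧ (toTS M).Path W (uIcc 0 t) z := by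
  obtain ⟨z, hz0, hz1, hz⟩ := h
  have hz : (toTS M).Path ((t : ℂ) * W) (Icc 0 1) z := hz
  rcases eq_or_ne t 0 with rfl | ht
  · refine ⟨fun _ => x, rfl, ?_, ?_⟩
    · rw [← hz1]
      have h2 : (toTS M).Path (((0 : ℝ) : ℂ) * W) (Icc 0 1) (fun _ => x) := by
        intro s _
        refine ⟨1, one_pos, fun s' _ _ => ?_⟩
        simp only [Complex.ofReal_zero, zero_mul, mul_zero]
        exact (M.add_zero x).symm
      exact (TS.Path.uniq (toTS M) ordConnected_Icc hz h2 (s₀ := 0) ⟨le_rfl, zero_le_one⟩ hz0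
        ⟨zero_le_one, le_rfl⟩).symm
    · intro s hs
      refine ⟨1, one_pos, fun s' hs' _ => ?_⟩
      rw [uIcc_self, mem_singleton_iff] at hs hs'
      rw [hs, hs']
      simp [(toTS M).add_zero]
  · refine ⟨fun s => z (s / t), by simpa using hz0, by simp only [div_self ht]; exact hz1, ?_⟩
    have h2 := hz.comp (toTS M) (1 / t) 0 (J := uIcc 0 t) (fun s hs => by
      rw [add_zero, one_div, mul_comm, ← div_eq_mul_inv]
      rcases lt_or_gt_of_ne ht with h3 | h3
      · rw [uIcc_of_ge h3.le] at hs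
        exact ⟨div_nonneg_of_nonpos hs.2 h3.le, (div_le_one_of_neg h3).2 hs.1⟩
      · rw [uIcc_of_le h3.le] at hs
        exact ⟨div_nonneg hs.1 h3.le, (div_le_one h3).2 hs.2⟩)
    have h3 : (((1 / t : ℝ)) : ℂ) * ((t : ℂ) * W) = W := by
      have : (t : ℂ) ≠ 0 := by exact_mod_cast ht
      push_cast
      field_simp
    rw [h3] at h2
    refine h2.congr (toTS M) fun s _ => ?_
    show z (s / t) = z (1 / t * s + 0)
    rw [add_zero]
    congr 1
    ring

/-- the leaf of a point -/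
noncomputable def leafFun (θ : ℂ) (y : X) : ℝ → X := by
  classical
  exact if h : M.Alive θ y then fun t => (h t).choose else fun _ => y

theorem leafFun_spec {θ : ℂ} {y : X} (h : M.Alive θ y) (t : ℝ) : M.Seg y ((t : ℂ) * θ) (leafFun M θ y t) := by
  simp only [leafFun, dif_pos h]
  exact (h t).choose_spec

theorem leafFun_eq {θ : ℂ} {y y' : X} (h : M.Alive θ y) {t : ℝ} (h' : M.Seg y ((t : ℂ) * θ) y') :
    leafFun M θ y t = y' := seg_uniq M (leafFun_spec M h t) h'

theorem seg_zero (x : X) : M.Seg x 0 x := by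
  refine ⟨fun _ => x, rfl, rfl, fun s _ => ⟨1, one_pos, fun s' _ _ => ?_⟩⟩
  simp [M.add_zero]

theorem leafFun_zero {θ : ℂ} {y : X} (h : M.Alive θ y) : leafFun M θ y 0 = y := by
  apply leafFun_eq M h
  simpa using seg_zero M y

theorem leafFun_path {θ : ℂ} {y : X} (h : M.Alive θ y) : (toTS M).Path θ univ (leafFun M θ y) := by
  intro t _
  set b : ℝ := |t| + 1 with hb
  have hb0 : 0 < b := by positivity
  obtain ⟨z₁, h10, -, h1⟩ := seg_time M (leafFun_spec M h b)
  obtain ⟨z₂, h20, -, h2⟩ := seg_time M (leafFun_spec M h (-b))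
  rw [uIcc_of_le hb0.le] at h1
  rw [uIcc_of_ge (by linarith)] at h2
  have h3 := h2.glue (toTS M) (by linarith) hb0.le h1 (by rw [h10, h20])
  set z : ℝ → X := fun s => if s ≤ 0 then z₂ s else z₁ s with hz
  have hz0 : z 0 = y := by simp only [hz, le_refl, if_true, h20]
  have key : ∀ u ∈ Icc (-b) b, leafFun M θ y u = z u := by
    intro u hu
    apply leafFun_eq M h
    have := seg_of_path M ordConnected_Icc h3 (a := 0) (b := u) ⟨by linarith, hb0.le⟩ hu
    rw [sub_zero] at this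
    change M.Seg (z 0) _ (z u) at this
    rwa [hz0] at this
  have ht : t ∈ Icc (-b) b := by
    constructor
    · have := neg_abs_le t; linarith
    · have := le_abs_self t; linarith
  obtain ⟨ε, hε, h4⟩ := h3 t ht
  refine ⟨min ε 1, lt_min hε one_pos, fun t' _ htt => ?_⟩
  have h5 := abs_lt.1 (htt.trans_le (min_le_right _ _))
  have ht' : t' ∈ Icc (-b) b := by
    constructor
    · have := neg_abs_le t; linarith
    · have := le_abs_self t; linarith
  rw [key t ht, key t' ht']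
  exact h4 t' ht' (htt.trans_le (min_le_left _ _))

theorem leafFun_leaf {θ : ℂ} {y : X} (h : M.Alive θ y) {L : ℝ} (hL : 0 < L) (hp : M.Seg y ((L : ℂ) * θ) y) :
    (toTS M).Leaf θ L (leafFun M θ y) := by
  refine ⟨hL, leafFun_path M h, fun t => ?_⟩
  have h1 := leafFun_path M h
  have h2 := h1.comp (toTS M) (J := univ) 1 L (fun s _ => mem_univ _)
  rw [Complex.ofReal_one, one_mul] at h2
  have h3 := h2.uniq (toTS M) ordConnected_univ h1 (mem_univ 0) (by
    show leafFun M θ y (1 * 0 + L) = _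
    rw [mul_zero, zero_add, leafFun_eq M h hp, leafFun_zero M h]) (mem_univ t)
  change leafFun M θ y (1 * t + L) = _ at h3
  rwa [one_mul] at h3

/-- the germ -/
theorem germ_ts (κ : M.Germ) : (toTS M).Germ κ.k {w | 0 < cr w κ.h ∧ ‖w‖ < κ.e} := by
  intro w hw
  refine ⟨M.rad (κ.k w), M.rad_pos _, fun u hu hwu => ?_⟩
  have h1 := κ.seg w (w + u) hw.1.le hwu.1.le hw.2 hwu.2 (by
    intro h0
    rw [segment_eq_image_lineMap] at h0
    obtain ⟨t, ht, h2⟩ := h0
    have h3 : cr (AffineMap.lineMap w (w + u) t) κ.h = 0 := by rw [h2]; simp [cr]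
    have h4 : cr (AffineMap.lineMap w (w + u) t) κ.h = (1 - t) * cr w κ.h + t * cr (w + u) κ.h := by
      simp only [AffineMap.lineMap_apply, cr]
      simp
      ring
    rw [h4] at h3
    have h5 := hw.1
    have h6 := hwu.1
    rcases eq_or_lt_of_le ht.1 with h7 | h7
    · rw [← h7] at h3; simp at h3; linarith
    · nlinarith [mul_pos h7 h6, mul_nonneg (sub_nonneg.2 ht.2) h5.le])
  rw [add_sub_cancel_left] at h1
  exact seg_small M h1 hu

/-- the base path of `Sees` -/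
theorem sees_path {x : X} {W : ℂ} {κ : M.Germ} (hs : M.Sees x W κ) :
    ∃ z : ℝ → X, z 0 = x ∧ (toTS M).Path W (Ico 0 1) z ∧
      ∃ s₁ < 1, ∀ u, s₁ < u → u < 1 → z u = κ.k (((u - 1 : ℝ) : ℂ) * W) := by
  obtain ⟨hcr, s, hs0, hs1, hse, hseg⟩ := hs
  obtain ⟨z, hz0, hz1, hz⟩ := seg_time M hseg
  rw [uIcc_of_le (by linarith)] at hz
  have hmem : ∀ u, 1 - s ≤ u → u < 1 → ((u - 1 : ℝ) : ℂ) * W ∈ {w | 0 < cr w κ.h ∧ ‖w‖ < κ.e} := by
    intro u hu1 hu2
    constructor
    · have : cr (((u - 1 : ℝ) : ℂ) * W) κ.h = (1 - u) * cr (-W) κ.h := by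
        simp only [cr]; simp; ring
      rw [this]
      exact mul_pos (by linarith) hcr
    · rw [norm_mul_ofReal, abs_of_neg (by linarith)]
      have : -(u - 1) * ‖W‖ ≤ s * ‖W‖ := mul_le_mul_of_nonneg_right (by linarith) (norm_nonneg W)
      linarith
  have h2 : (toTS M).Path W (Ico (1 - s) 1) (fun u => κ.k (((u - 1 : ℝ) : ℂ) * W)) := by
    intro u hu
    obtain ⟨ε, hε, h3⟩ := germ_ts M κ _ (hmem u hu.1 hu.2)
    obtain ⟨δ, hδ, hδ', h4⟩ := exists_small W one_pos hε
    refine ⟨δ, hδ, fun u' hu' huu => ?_⟩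
    have h5 := h3 (((u' - u : ℝ) : ℂ) * W) (by rw [norm_mul_ofReal]; exact h4 _ huu) (by
      have := hmem u' hu'.1 hu'.2
      convert this using 1
      push_cast; ring)
    show κ.k (((u' - 1 : ℝ) : ℂ) * W) = _
    rw [← h5]
    congr 1
    push_cast; ring
  refine ⟨fun u => if u ≤ 1 - s then z u else κ.k (((u - 1 : ℝ) : ℂ) * W), ?_, ?_, 1 - s, by linarith, ?_⟩
  · simp only [show (0 : ℝ) ≤ 1 - s by linarith, if_true]; exact hz0
  · refine hz.glue' (toTS M) (by linarith) (by linarith) h2 ?_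
    rw [hz1]
    congr 1
    push_cast; ring
  · intro u hu1 _
    simp only [not_le.2 hu1, if_false]

theorem sees_of_ts {x : X} {W : ℂ} {κ : M.Germ} (hcr : 0 < cr (-W) κ.h)
    (h : (toTS M).Sees κ.k {w | 0 < cr w κ.h ∧ ‖w‖ < κ.e} x W) : M.Sees x W κ := by
  obtain ⟨z, hz0, hz, s₁, hs₁, h1⟩ := h
  set s : ℝ := 1 - (max s₁ 0 + 1) / 2 with hs
  have hm1 : max s₁ 0 < 1 := max_lt hs₁ one_pos
  have hm0 : 0 ≤ max s₁ 0 := le_max_right _ _
  have hm2 : s₁ ≤ max s₁ 0 := le_max_left _ _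
  obtain ⟨h2, h3⟩ := h1 (1 - s) (by rw [hs]; linarith) (by rw [hs]; linarith)
  refine ⟨hcr, s, by linarith, by linarith, ?_, ?_⟩
  · have := h2.2
    rw [norm_mul_ofReal, show 1 - s - 1 = -s by ring, abs_neg, abs_of_pos (by linarith)] at this
    exact this
  · have h4 := seg_of_path M ordConnected_Ico hz (a := 0) (b := 1 - s) ⟨le_rfl, one_pos⟩ ⟨by linarith, by linarith⟩
    rw [hz0, h3, sub_zero] at h4
    convert h4 using 2
    push_cast; ring

end Pool.Agent.Lib.H32D
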