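import Pool.Agent.Lib.H32D.Defs

set_option autoImplicit false

/-!
# H32D, chunk L1 (M): separated points in a hyperplane section of a ball

Map `q` to the integers `⌊(n + 1) q_i⌋`, `i ≠ 0`. Two different points of `S` have different images: otherwise `|q_i - q'_i| < 1 / (n + 1)` for `i ≠ 0` and
`q_0 = q'_0`, so the distance is less than `1`. Each integer lies in `[-(n + 1) R - 1, (n + 1) R]`, which contains at most `2 (n + 1) R + 2` integers.

Auxiliary names start with `l1_`.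
-/

open Finset

namespace H32D

theorem l1_coord {m : ℕ} (q : EuclideanSpace ℝ (Fin m)) (i : Fin m) : |q i| ≤ ‖q‖ := by
  have h := EuclideanSpace.norm_sq_eq q
  have h1 : ‖q i‖ ^ 2 ≤ ∑ j, ‖q j‖ ^ 2 := Finset.single_le_sum (f := fun j => ‖q j‖ ^ 2) (fun _ _ => sq_nonneg _) (Finset.mem_univ i)
  rw [← h, Real.norm_eq_abs] at h1
  exact le_of_sq_le_sq h1 (norm_nonneg q)

/-- Two points with the same integers are at distance less than one. -/
theorem l1_close {n : ℕ} {q q' : EuclideanSpace ℝ (Fin (n + 1))} (h0 : q 0 = q' 0)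
    (h : ∀ i : Fin n, ⌊((n : ℝ) + 1) * q i.succ⌋ = ⌊((n : ℝ) + 1) * q' i.succ⌋) : dist q q' < 1 := by
  have hn : (0 : ℝ) < (n : ℝ) + 1 := by positivity
  have h1 : ∀ i : Fin n, (q i.succ - q' i.succ) ^ 2 ≤ 1 / ((n : ℝ) + 1) ^ 2 := by
    intro i
    have h2 := Int.abs_sub_lt_one_of_floor_eq_floor (h i)
    rw [← mul_sub, abs_mul, abs_of_pos hn] at h2
    have h3 : |q i.succ - q' i.succ| ≤ 1 / ((n : ℝ) + 1) := by
      rw [le_div_iff₀ hn, mul_comm]
      exact h2.le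
    have h4 : |q i.succ - q' i.succ| ^ 2 ≤ (1 / ((n : ℝ) + 1)) ^ 2 := pow_le_pow_left₀ (abs_nonneg _) h3 2
    rw [sq_abs, div_pow, one_pow] at h4
    exact h4
  have h5 : dist q q' ^ 2 < 1 := by
    rw [EuclideanSpace.dist_sq_eq, Fin.sum_univ_succ]
    have h6 : dist (q 0) (q' 0) ^ 2 = 0 := by rw [h0, dist_self]; norm_num
    rw [h6, zero_add]
    have h7 : ∑ i : Fin n, dist (q i.succ) (q' i.succ) ^ 2 ≤ ∑ _i : Fin n, 1 / ((n : ℝ) + 1) ^ 2 := by
      refine Finset.sum_le_sum fun i _ => ?_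
      rw [Real.dist_eq, sq_abs]
      exact h1 i
    rw [Finset.sum_const, Finset.card_univ, Fintype.card_fin, nsmul_eq_mul] at h7
    refine lt_of_le_of_lt h7 ?_
    rw [mul_one_div, div_lt_one (by positivity)]
    nlinarith [Nat.cast_nonneg (α := ℝ) n]
  nlinarith [dist_nonneg (x := q) (y := q')]

theorem packing (n : ℕ) (S : Finset (EuclideanSpace ℝ (Fin (n + 1)))) (R c : ℝ) (hR : 0 ≤ R)
    (h1 : ∀ q ∈ S, ‖q‖ ≤ R ∧ q 0 = c) (h2 : ∀ q ∈ S, ∀ q' ∈ S, q ≠ q' → 1 ≤ dist q q') :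
    (S.card : ℝ) ≤ (2 * (n + 1) * R + 2) ^ n := by
  classical
  have hn : (0 : ℝ) < (n : ℝ) + 1 := by positivity
  set x : ℝ := ((n : ℝ) + 1) * R with hx
  have hx0 : 0 ≤ x := mul_nonneg hn.le hR
  set T : Finset (Fin n → ℤ) := Fintype.piFinset fun _ => Finset.Icc ⌊-x⌋ ⌊x⌋ with hT
  have h3 : S.card ≤ T.card := by
    refine Finset.card_le_card_of_injOn (fun q i => ⌊((n : ℝ) + 1) * q i.succ⌋) ?_ ?_
    · intro q hq
      rw [Finset.mem_coe, Fintype.mem_piFinset]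
      intro i
      have h4 := (l1_coord q i.succ).trans (h1 q hq).1
      rw [abs_le] at h4
      rw [Finset.mem_Icc]
      refine ⟨Int.floor_le_floor ?_, Int.floor_le_floor ?_⟩
      · rw [hx, ← mul_neg]
        exact mul_le_mul_of_nonneg_left h4.1 hn.le
      · exact mul_le_mul_of_nonneg_left h4.2 hn.le
    · intro q hq q' hq' hqq
      by_contra hne
      have h5 := h2 q hq q' hq' hne
      have h6 := l1_close (q := q) (q' := q') (by rw [(h1 q hq).2, (h1 q' hq').2]) fun i => congrFun hqq i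
      linarith
  have h4 : ((Finset.Icc ⌊-x⌋ ⌊x⌋).card : ℝ) ≤ 2 * (n + 1) * R + 2 := by
    rw [Int.card_Icc]
    have h5 : ((⌊x⌋ + 1 - ⌊-x⌋).toNat : ℤ) = ⌊x⌋ + 1 - ⌊-x⌋ := by
      refine Int.toNat_of_nonneg ?_
      have : ⌊-x⌋ ≤ ⌊x⌋ := Int.floor_le_floor (by linarith)
      linarith
    have h6 : ((⌊x⌋ + 1 - ⌊-x⌋).toNat : ℝ) = (⌊x⌋ : ℝ) + 1 - (⌊-x⌋ : ℝ) := by
      exact_mod_cast congrArg (fun z : ℤ => (z : ℝ)) h5
    rw [h6]
    have h7 := Int.floor_le x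
    have h8 := Int.lt_floor_add_one (-x)
    have h9 : 2 * ((n : ℝ) + 1) * R = 2 * x := by rw [hx]; ring
    rw [h9]
    linarith
  have h5 : (T.card : ℝ) = ((Finset.Icc ⌊-x⌋ ⌊x⌋).card : ℝ) ^ n := by
    rw [hT, Fintype.card_piFinset, Finset.prod_const, Finset.card_univ, Fintype.card_fin]
    push_cast
    rfl
  calc (S.card : ℝ) ≤ T.card := by exact_mod_cast h3
    _ = ((Finset.Icc ⌊-x⌋ ⌊x⌋).card : ℝ) ^ n := h5
    _ ≤ _ := pow_le_pow_left₀ (Nat.cast_nonneg _) h4 n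

end H32D
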