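import Pool.Agent.Lib.H32D.L1

set_option autoImplicit false

/-!
# H32D, chunk L2 (M): the lower bound for expanders (Kolmogorov and Barzdin)

`f` a thick embedding into the ball of radius `R` of `ℝ^(n+1)`. Let `t w` be the coordinate `0` of the image of the vertex `w`. Choose a set `A` of
`⌊N / 2⌋` vertices and a number `c` with `t w ≤ c` for `w ∈ A`, `c ≤ t w` for `w ∉ A` (sort by `t`). By `Expands` there are at least `h ⌊N / 2⌋` pairs
`(a, b)`, `a ∈ A`, `b ∉ A`, adjacent. On the image of each such edge there is a point `q` with coordinate `0` equal to `c` (intermediate value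
theorem on the segment). A maximal set of pairwise disjoint ones among these edges has at least `h ⌊N / 2⌋ / (2 D)` elements (every edge has a vertex in common
with at most `2 D` of them, `D` the maximal degree), and their points `q` are `1`-separated. So `h ⌊N / 2⌋ / (2 D) ≤ (2 (n + 1) R + 2)^n` by `packing`.

Auxiliary names start with `l2_`.
-/

open Finset

namespace H32D

theorem exists_disjoint_family {B : Type} [DecidableEq B] (E : Finset B) (r : B → B → Prop) (hr : ∀ x, r x x) (D : ℕ)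
    (hsymm : ∀ x y, r x y → r y x) (hD : ∀ x ∈ E, ∃ s : Finset B, s.card ≤ D ∧ ∀ y ∈ E, r x y → y ∈ s) :
    ∃ F ⊆ E, E.card ≤ D * F.card ∧ ∀ x ∈ F, ∀ y ∈ F, x ≠ y → ¬ r x y := by
  classical
  set Q : Finset (Finset B) := E.powerset.filter (fun F => ∀ x ∈ F, ∀ y ∈ F, x ≠ y → ¬ r x y) with hQ
  have hne : Q.Nonempty := ⟨∅, by
    rw [hQ, Finset.mem_filter]
    exact ⟨Finset.empty_mem_powerset _, fun x hx => absurd hx (Finset.notMem_empty x)⟩⟩
  obtain ⟨F, hF, hmax⟩ := Finset.exists_max_image Q Finset.card hne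
  obtain ⟨hFE, hFr⟩ := Finset.mem_filter.1 hF
  rw [Finset.mem_powerset] at hFE
  refine ⟨F, hFE, ?_, hFr⟩
  choose! s hs1 hs2 using hD
  have h1 : E ⊆ F.biUnion s := by
    intro y hy
    by_contra hc
    have h2 : ∀ x ∈ F, ¬ r x y := by
      intro x hx hxy
      exact hc (Finset.mem_biUnion.2 ⟨x, hx, hs2 x (hFE hx) y hy hxy⟩)
    have hyF : y ∉ F := fun h => h2 y h (hr y)
    have h3 : insert y F ∈ Q := by
      rw [hQ, Finset.mem_filter, Finset.mem_powerset]
      refine ⟨Finset.insert_subset hy hFE, ?_⟩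
      intro a ha b hb hab
      rw [Finset.mem_insert] at ha hb
      rcases ha with rfl | ha <;> rcases hb with rfl | hb
      · exact absurd rfl hab
      · exact fun h => h2 b hb (hsymm _ _ h)
      · exact h2 a ha
      · exact hFr a ha b hb hab
    have h4 := hmax _ h3
    rw [Finset.card_insert_of_notMem hyF] at h4
    omega
  calc E.card ≤ (F.biUnion s).card := Finset.card_le_card h1
    _ ≤ ∑ x ∈ F, (s x).card := Finset.card_biUnion_le
    _ ≤ ∑ _x ∈ F, D := Finset.sum_le_sum fun x hx => hs1 x (hFE hx)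
    _ = D * F.card := by rw [Finset.sum_const, smul_eq_mul, mul_comm]

/-- The `k` smallest elements. -/
theorem l2_sort {W : Type} [Fintype W] [DecidableEq W] (t : W → ℝ) (k : ℕ) (hk : k ≤ Fintype.card W) :
    ∃ A : Finset W, A.card = k ∧ ∀ a ∈ A, ∀ b, b ∉ A → t a ≤ t b := by
  induction k with
  | zero => exact ⟨∅, rfl, fun a ha => absurd ha (Finset.notMem_empty a)⟩
  | succ k ih =>
    obtain ⟨A, hA, h1⟩ := ih (by omega)
    have hne : (univ \ A).Nonempty := by
      rw [← Finset.card_pos, Finset.card_sdiff_of_subset (Finset.subset_univ A), Finset.card_univ, hA]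
      omega
    obtain ⟨x, hx, hmin⟩ := Finset.exists_min_image (univ \ A) t hne
    have hxA : x ∉ A := (Finset.mem_sdiff.1 hx).2
    refine ⟨insert x A, by rw [Finset.card_insert_of_notMem hxA, hA], ?_⟩
    intro a ha b hb
    rw [Finset.mem_insert, not_or] at hb
    rcases Finset.mem_insert.1 ha with rfl | ha
    · exact hmin b (Finset.mem_sdiff.2 ⟨Finset.mem_univ _, hb.2⟩)
    · exact h1 a ha b hb.2

/-- The point at parameter `s` on the edge `a b`. -/
noncomputable def l2_pt {W : Type} [DecidableEq W] (a b : W) (s : ℝ) : W → ℝ := fun v => (if v = a then 1 - s else 0) + if v = b then s else 0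

theorem l2_cell {W : Type} [Fintype W] [DecidableEq W] (K : Cpx W) {a b : W} (hab : K.graph.Adj a b) {s : ℝ} (h0 : 0 ≤ s) (h1 : s ≤ 1) :
    l2_pt a b s ∈ K.cell {a, b} := by
  have hne : a ≠ b := hab.1
  have hz : ∀ v, v ∉ ({a, b} : Finset W) → l2_pt a b s v = 0 := by
    intro v hv
    rw [Finset.mem_insert, Finset.mem_singleton, not_or] at hv
    unfold l2_pt
    rw [if_neg hv.1, if_neg hv.2, add_zero]
  have hnn : ∀ v, 0 ≤ l2_pt a b s v := by
    intro v
    unfold l2_pt
    split_ifs <;> linarith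
  have hsum : ∑ v, l2_pt a b s v = 1 := by
    unfold l2_pt
    rw [Finset.sum_add_distrib, Finset.sum_ite_eq', Finset.sum_ite_eq']
    simp
  refine ⟨⟨hnn, hsum, ?_⟩, hz⟩
  refine K.down _ hab.2 _ ?_ ?_
  · intro v hv
    by_contra hc
    exact (Finset.mem_filter.1 hv).2 (hz v hc)
  · by_contra hc
    rw [Finset.not_nonempty_iff_eq_empty] at hc
    have h2 : ∀ v, l2_pt a b s v = 0 := by
      intro v
      by_contra hv
      have : v ∈ univ.filter (fun v => l2_pt a b s v ≠ 0) := Finset.mem_filter.2 ⟨Finset.mem_univ _, hv⟩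
      rw [hc] at this
      exact Finset.notMem_empty _ this
    rw [Finset.sum_congr rfl fun v _ => h2 v] at hsum
    simp at hsum

theorem l2_cross {W : Type} [Fintype W] [DecidableEq W] (K : Cpx W) {m : ℕ} {f : (W → ℝ) → EuclideanSpace ℝ (Fin (m + 1))}
    (hf : ContinuousOn f K.real) {a b : W} (hab : K.graph.Adj a b) {c : ℝ} (h0 : f (l2_pt a b 0) 0 ≤ c) (h1 : c ≤ f (l2_pt a b 1) 0) :
    ∃ x ∈ K.cell {a, b}, f x 0 = c := by
  have hc : ContinuousOn (fun s : ℝ => f (l2_pt a b s) 0) (Set.Icc 0 1) := by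
    have h2 : Continuous fun s : ℝ => l2_pt a b s := by
      refine continuous_pi fun v => ?_
      unfold l2_pt
      split_ifs <;> fun_prop
    have h3 : ContinuousOn (fun s : ℝ => f (l2_pt a b s)) (Set.Icc 0 1) :=
      hf.comp h2.continuousOn fun s hs => (l2_cell K hab hs.1 hs.2).1
    have h4 : Continuous fun q : EuclideanSpace ℝ (Fin (m + 1)) => q 0 := by fun_prop
    exact h4.comp_continuousOn h3
  obtain ⟨s, hs, hs2⟩ := intermediate_value_Icc zero_le_one hc ⟨h0, h1⟩
  exact ⟨l2_pt a b s, l2_cell K hab hs.1 hs.2, hs2⟩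

theorem l2_zero {W : Type} [DecidableEq W] (a b : W) : l2_pt a b 0 = Pi.single a 1 := by
  funext v
  unfold l2_pt
  by_cases h : v = a
  · subst h
    simp
  · simp [h]

theorem l2_one {W : Type} [DecidableEq W] (a b : W) : l2_pt a b 1 = Pi.single b 1 := by
  funext v
  unfold l2_pt
  by_cases h : v = b
  · subst h
    simp
  · simp [h]

theorem kolmogorov_barzdin {W : Type} [Fintype W] [DecidableEq W] (K : Cpx W) {h : ℝ} (hE : Expands K.graph h) {D : ℕ}
    (hD : ∀ w, Set.ncard {v | K.graph.Adj w v} ≤ D) (n : ℕ) {f : (W → ℝ) → EuclideanSpace ℝ (Fin (n + 1))} (hf : ThickEmb K (n + 1) f)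
    {R : ℝ} (hR : 0 ≤ R) (hfR : ∀ x ∈ K.real, ‖f x‖ ≤ R) :
    h * ((Fintype.card W / 2 : ℕ) : ℝ) ≤ 2 * D * (2 * (n + 1) * R + 2) ^ n := by
  classical
  have hbase : (0 : ℝ) ≤ 2 * (n + 1) * R + 2 := by positivity
  set t : W → ℝ := fun w => f (Pi.single w 1) 0 with ht
  obtain ⟨A, hA, hA2⟩ := l2_sort t (Fintype.card W / 2) (by omega)
  rcases A.eq_empty_or_nonempty with hemp | hne
  · rw [hemp, Finset.card_empty] at hA
    rw [← hA]
    have : (0 : ℝ) ≤ 2 * D * (2 * (n + 1) * R + 2) ^ n := by positivity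
    simpa using this
  obtain ⟨a0, ha0, hmax⟩ := Finset.exists_max_image A t hne
  set c := t a0 with hc
  -- the boundary edges
  set E : Finset (W × W) := univ.filter (fun q : W × W => q.1 ∈ A ∧ q.2 ∉ A ∧ K.graph.Adj q.1 q.2) with hEdef
  have hcard : h * ((Fintype.card W / 2 : ℕ) : ℝ) ≤ E.card := by
    have h1 := hE A (by omega)
    rw [hA] at h1
    refine h1.trans (le_of_eq ?_)
    congr 1
    rw [← Set.ncard_coe_finset]
    congr 1
    ext q
    simp [hEdef]
  -- neighbours
  have hnb : ∀ w, (univ.filter (fun v => K.graph.Adj w v)).card ≤ D := by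
    intro w
    refine le_trans (le_of_eq ?_) (hD w)
    rw [← Set.ncard_coe_finset]
    congr 1
    ext v
    simp
  obtain ⟨F, hFE, hF1, hF2⟩ := exists_disjoint_family E (fun x y => x.1 = y.1 ∨ x.2 = y.2) (fun x => Or.inl rfl) (2 * D)
    (fun x y hxy => hxy.imp Eq.symm Eq.symm) (by
      intro x hx
      refine ⟨(univ.filter (fun v => K.graph.Adj x.1 v)).image (fun v => (x.1, v)) ∪
        (univ.filter (fun v => K.graph.Adj x.2 v)).image (fun v => (v, x.2)), ?_, ?_⟩
      · refine (Finset.card_union_le _ _).trans ?_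
        have h1 := (Finset.card_image_le (s := univ.filter (fun v => K.graph.Adj x.1 v)) (f := fun v => (x.1, v))).trans (hnb x.1)
        have h2 := (Finset.card_image_le (s := univ.filter (fun v => K.graph.Adj x.2 v)) (f := fun v => (v, x.2))).trans (hnb x.2)
        omega
      · intro y hy hxy
        obtain ⟨-, -, -, hadj⟩ := Finset.mem_filter.1 hy
        rw [Finset.mem_union, Finset.mem_image, Finset.mem_image]
        rcases hxy with h1 | h1
        · left
          exact ⟨y.2, Finset.mem_filter.2 ⟨Finset.mem_univ _, by rw [h1]; exact hadj⟩, by rw [h1]⟩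
        · right
          exact ⟨y.1, Finset.mem_filter.2 ⟨Finset.mem_univ _, by rw [h1]; exact hadj.symm⟩, by rw [h1]⟩)
  -- the points
  have hpt : ∀ q ∈ E, ∃ x ∈ K.cell {q.1, q.2}, f x 0 = c := by
    intro q hq
    obtain ⟨-, h1, h2, h3⟩ := Finset.mem_filter.1 hq
    refine l2_cross K hf.1 h3 ?_ ?_
    · rw [l2_zero]
      exact hmax _ h1
    · rw [l2_one]
      exact hA2 a0 ha0 _ h2
  choose! g hg1 hg2 using hpt
  have hdist : ∀ x ∈ F, ∀ y ∈ F, x ≠ y → 1 ≤ dist (f (g x)) (f (g y)) := by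
    intro x hx y hy hxy
    have h1 := hF2 x hx y hy hxy
    rw [not_or] at h1
    obtain ⟨-, hx1, hx2, hx3⟩ := Finset.mem_filter.1 (hFE hx)
    obtain ⟨-, hy1, hy2, hy3⟩ := Finset.mem_filter.1 (hFE hy)
    refine hf.2.2 _ hx3.2 _ hy3.2 ?_ _ (hg1 x (hFE hx)) _ (hg1 y (hFE hy))
    rw [Finset.disjoint_left]
    intro v hv hv'
    simp only [Finset.mem_insert, Finset.mem_singleton] at hv hv'
    rcases hv with rfl | rfl <;> rcases hv' with h2 | h2
    · exact h1.1 h2
    · exact hy2 (h2 ▸ hx1)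
    · exact hx2 (h2 ▸ hy1)
    · exact h1.2 h2
  have hinj : Set.InjOn (fun x => f (g x)) F := by
    intro x hx y hy hxy
    by_contra hne'
    have h1 := hdist x hx y hy hne'
    have h2 : f (g x) = f (g y) := hxy
    rw [h2, dist_self] at h1
    linarith
  have hpack := packing n (F.image fun x => f (g x)) R c hR (by
      intro q hq
      obtain ⟨x, hx, rfl⟩ := Finset.mem_image.1 hq
      exact ⟨hfR _ (hg1 x (hFE hx)).1, hg2 x (hFE hx)⟩) (by
      intro q hq q' hq' hqq
      obtain ⟨x, hx, rfl⟩ := Finset.mem_image.1 hq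
      obtain ⟨y, hy, rfl⟩ := Finset.mem_image.1 hq'
      exact hdist x hx y hy fun h => hqq (by rw [h]))
  rw [Finset.card_image_of_injOn hinj] at hpack
  calc h * ((Fintype.card W / 2 : ℕ) : ℝ) ≤ E.card := hcard
    _ ≤ ((2 * D * F.card : ℕ) : ℝ) := by exact_mod_cast hF1
    _ = 2 * D * (F.card : ℝ) := by push_cast; ring
    _ ≤ 2 * D * (2 * (n + 1) * R + 2) ^ n := by
        refine mul_le_mul_of_nonneg_left hpack (by positivity)

end H32D
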