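import Pool.Agent.Lib.H32D.L2

set_option autoImplicit false

/-!
# H32D, chunk L3 (S/M): the lower bound for the thick embedding radius

From `kolmogorov_barzdin`: if `Fintype.card W ≥ N0` (depending on `n`, `D`, `h`) then every admissible radius is at least `c (card W)^(1/n)`, `c > 0`
depending only on `n`, `D`, `h`; for the infimum in `[0, ∞]` use `le_sInf` (a radius `∞` is fine; a finite one is `ENNReal.ofReal R`).
(`(2 (n+1) R + 2)^n ≥ h (card W) / (6 D)`, so `2 (n+1) R + 2 ≥ (h card W / (6 D))^(1/n)`, and the `2` is absorbed for large `card W`.)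

Auxiliary names start with `l3_`.
-/

open Finset

namespace H32D

theorem thickRadius_ge (n : ℕ) (hn : 1 ≤ n) (h : ℝ) (hh : 0 < h) (D : ℕ) : ∃ c : ℝ, 0 < c ∧ ∃ N0 : ℕ,
    ∀ (W : Type) (_ : Fintype W) (_ : DecidableEq W) (K : Cpx W), Expands K.graph h → (∀ w, Set.ncard {v | K.graph.Adj w v} ≤ D) →
      N0 ≤ Fintype.card W → ENNReal.ofReal (c * (Fintype.card W : ℝ) ^ (1 / (n : ℝ))) ≤ thickRadius (n + 1) K := by
  have hn0 : (n : ℝ) ≠ 0 := by
    have : (0 : ℝ) < n := by exact_mod_cast hn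
    exact this.ne'
  set κ : ℝ := (h / (6 * (D + 1))) ^ (1 / (n : ℝ)) with hκ
  have hpos : 0 < h / (6 * ((D : ℝ) + 1)) := by positivity
  have hκ0 : 0 < κ := Real.rpow_pos_of_pos hpos _
  refine ⟨κ / (4 * (n + 1)), by positivity, ⌈(4 / κ) ^ n⌉₊ + 2, ?_⟩
  intro W _ _ K hE hD hN
  set N : ℝ := (Fintype.card W : ℝ) with hNdef
  have hN1 : (⌈(4 / κ) ^ n⌉₊ : ℝ) + 2 ≤ N := by
    rw [hNdef]
    exact_mod_cast hN
  have hN2 : (4 / κ) ^ n ≤ N := by
    have := Nat.le_ceil ((4 / κ) ^ n)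
    linarith
  have hN3 : 2 ≤ Fintype.card W := by omega
  have hN4 : 0 ≤ N := Nat.cast_nonneg _
  -- `4 ≤ κ N^(1/n)`
  have h4 : 4 ≤ κ * N ^ (1 / (n : ℝ)) := by
    have h5 : 4 / κ ≤ N ^ (1 / (n : ℝ)) := by
      have h6 : 4 / κ = ((4 / κ) ^ n) ^ (1 / (n : ℝ)) := by
        rw [one_div]
        exact (Real.pow_rpow_inv_natCast (by positivity) (by omega)).symm
      rw [h6]
      exact Real.rpow_le_rpow (by positivity) hN2 (by positivity)
    rw [div_le_iff₀ hκ0] at h5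
    linarith
  unfold thickRadius
  refine le_sInf ?_
  rintro R ⟨f, hf, hfR⟩
  by_cases hRt : R = ⊤
  · rw [hRt]
    exact le_top
  have hR' : ENNReal.ofReal R.toReal = R := ENNReal.ofReal_toReal hRt
  rw [← hR']
  refine ENNReal.ofReal_le_ofReal ?_
  set r := R.toReal with hr
  have hr0 : 0 ≤ r := ENNReal.toReal_nonneg
  have hfr : ∀ x ∈ K.real, ‖f x‖ ≤ r := by
    intro x hx
    have h5 := hfR x hx
    rw [← hR'] at h5
    exact (ENNReal.ofReal_le_ofReal_iff hr0).1 h5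
  have hkb := kolmogorov_barzdin K hE hD n hf hr0 hfr
  have hb0 : (0 : ℝ) ≤ 2 * (n + 1) * r + 2 := by positivity
  -- floor
  have h6 : N ≤ 3 * ((Fintype.card W / 2 : ℕ) : ℝ) := by
    have : Fintype.card W ≤ 3 * (Fintype.card W / 2) := by omega
    rw [hNdef]
    exact_mod_cast this
  have h7 : h * N ≤ 6 * ((D : ℝ) + 1) * (2 * (n + 1) * r + 2) ^ n := by
    have h8 : h * N ≤ 3 * (h * ((Fintype.card W / 2 : ℕ) : ℝ)) := by nlinarith
    have h9 : (0 : ℝ) ≤ (2 * (n + 1) * r + 2) ^ n := pow_nonneg hb0 n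
    nlinarith
  have h8 : h / (6 * ((D : ℝ) + 1)) * N ≤ (2 * (n + 1) * r + 2) ^ n := by
    rw [div_mul_eq_mul_div, div_le_iff₀ (by positivity)]
    linarith
  have h9 : κ * N ^ (1 / (n : ℝ)) ≤ 2 * (n + 1) * r + 2 := by
    have h10 : κ * N ^ (1 / (n : ℝ)) = (h / (6 * ((D : ℝ) + 1)) * N) ^ (1 / (n : ℝ)) :=
      (Real.mul_rpow hpos.le hN4).symm
    have h11 : ((2 * (n + 1) * r + 2) ^ n) ^ (1 / (n : ℝ)) = 2 * (n + 1) * r + 2 := by
      rw [one_div]
      exact Real.pow_rpow_inv_natCast hb0 (by omega)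
    rw [h10, ← h11]
    exact Real.rpow_le_rpow (by positivity) h8 (by positivity)
  have h12 : κ * N ^ (1 / (n : ℝ)) ≤ 4 * (n + 1) * r := by linarith
  rw [div_mul_eq_mul_div, div_le_iff₀ (by positivity)]
  linarith

end H32D
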