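import Mathlib
import Pool.Agent.Lib.H32D.TS

/-!
# Periodic leaves and the flow chart of a straight path (library H32D, helper32)
-/

open Set Filter Topology

namespace Pool.Agent.Lib.H32D

variable {X : Type*} (T : TS X)

/-- `ℓ` is a complete periodic leaf in the direction `θ` with the period `L` -/
structure TS.Leaf (θ : ℂ) (L : ℝ) (ℓ : ℝ → X) : Prop where
  pos : 0 < L
  path : T.Path θ univ ℓ
  per : ∀ t, ℓ (t + L) = ℓ t

/-- the leaf of `x` in the direction `θ` is periodic -/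
def TS.Per (θ : ℂ) (x : X) : Prop := ∃ (L : ℝ) (ℓ : ℝ → X), T.Leaf θ L ℓ ∧ ℓ 0 = x

theorem TS.Leaf.per_nat {θ : ℂ} {L : ℝ} {ℓ : ℝ → X} (h : T.Leaf θ L ℓ) (n : ℕ) (t : ℝ) : ℓ (t + n * L) = ℓ t := by
  induction n with
  | zero => simp
  | succ n ih =>
    rw [show t + ((n + 1 : ℕ) : ℝ) * L = (t + n * L) + L by push_cast; ring, h.per, ih]

theorem TS.Leaf.per_int {θ : ℂ} {L : ℝ} {ℓ : ℝ → X} (h : T.Leaf θ L ℓ) (n : ℤ) (t : ℝ) : ℓ (t + n * L) = ℓ t := by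
  obtain ⟨m, rfl | rfl⟩ := n.eq_nat_or_neg
  · exact_mod_cast h.per_nat T m t
  · have := h.per_nat T m (t + (-(m : ℤ) : ℤ) * L)
    rw [← this]
    congr 1
    push_cast
    ring

/-- the radius is bounded below along a periodic leaf -/
theorem TS.Leaf.rho_bound {θ : ℂ} {L : ℝ} {ℓ : ℝ → X} (h : T.Leaf θ L ℓ) : ∃ r > 0, ∀ t, r ≤ T.rho (ℓ t) := by
  obtain ⟨r, hr, h1⟩ := (h.path.mono T (subset_univ (Icc 0 L))).rho_bound T
  refine ⟨r, hr, fun t => ?_⟩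
  have h2 := h.per_int T (-⌊t / L⌋) t
  rw [← h2]
  apply h1
  have hL := h.pos
  have h3 := Int.floor_le (t / L)
  have h4 := Int.lt_floor_add_one (t / L)
  rw [le_div_iff₀ hL] at h3
  rw [div_lt_iff₀ hL] at h4
  push_cast
  constructor <;> nlinarith

/-- a parallel leaf -/
theorem TS.Leaf.shift {θ : ℂ} {L : ℝ} {ℓ : ℝ → X} (h : T.Leaf θ L ℓ) (u : ℂ) (hu : ∀ t, ‖u‖ < T.rho (ℓ t)) :
    T.Leaf θ L (fun t => T.add (ℓ t) u) :=
  ⟨h.pos, h.path.shift T u (fun t _ => hu t), fun t => by rw [h.per]⟩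

theorem TS.Leaf.translate {θ : ℂ} {L : ℝ} {ℓ : ℝ → X} (h : T.Leaf θ L ℓ) (a : ℝ) :
    T.Leaf θ L (fun t => ℓ (t + a)) := by
  refine ⟨h.pos, ?_, fun t => ?_⟩
  · have := h.path.comp T (J := univ) 1 a (fun s _ => mem_univ _)
    simpa using this
  · show ℓ (t + L + a) = ℓ (t + a)
    rw [show t + L + a = (t + a) + L by ring, h.per]

/-- leaves are unique -/
theorem TS.Leaf.uniq {θ : ℂ} {L L' : ℝ} {ℓ ℓ' : ℝ → X} (h : T.Leaf θ L ℓ) (h' : T.Leaf θ L' ℓ') (h0 : ℓ 0 = ℓ' 0)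
    (t : ℝ) : ℓ t = ℓ' t :=
  h.path.uniq T ordConnected_univ h'.path (mem_univ 0) h0 (mem_univ t)

/-- The data of a flow chart: a straight path all of whose points have periodic leaves. -/
structure TS.Chart (W θ : ℂ) (I : Set ℝ) (z : ℝ → X) (ℓ : ℝ → ℝ → X) : Prop where
  conn : I.OrdConnected
  path : T.Path W I z
  leaf : ∀ s ∈ I, ∃ L, T.Leaf θ L (ℓ s)
  base : ∀ s ∈ I, ℓ s 0 = z s

theorem TS.Chart.local {W θ : ℂ} {I : Set ℝ} {z : ℝ → X} {ℓ : ℝ → ℝ → X} (h : T.Chart W θ I z ℓ) {s₀ : ℝ}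
    (hs₀ : s₀ ∈ I) : ∃ r > 0, (∀ t, r ≤ T.rho (ℓ s₀ t)) ∧ ∃ ε > 0, ∀ s ∈ I, |s - s₀| < ε →
      |s - s₀| * ‖W‖ < r / 2 ∧ ∀ t, ℓ s t = T.add (ℓ s₀ t) (((s - s₀ : ℝ) : ℂ) * W) := by
  obtain ⟨L, hL⟩ := h.leaf s₀ hs₀
  obtain ⟨r, hr, hr'⟩ := hL.rho_bound T
  refine ⟨r, hr, hr', ?_⟩
  obtain ⟨ε, hε, h1⟩ := h.path s₀ hs₀
  obtain ⟨δ, hδ, hδ', h2⟩ := exists_small W hε (half_pos hr)
  refine ⟨δ, hδ, fun s hs hss => ⟨h2 _ hss, fun t => ?_⟩⟩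
  obtain ⟨L', hL'⟩ := h.leaf s hs
  have h3 := h2 _ hss
  have h4 := hL.shift T (((s - s₀ : ℝ) : ℂ) * W) (fun t => by
    rw [norm_mul_ofReal]; linarith [hr' t])
  refine hL'.uniq T h4 ?_ t
  show ℓ s 0 = T.add (ℓ s₀ 0) (((s - s₀ : ℝ) : ℂ) * W)
  rw [h.base s hs, h.base s₀ hs₀]
  exact h1 s hs (hss.trans_le hδ')

/-- straight lines in the flow chart are straight paths -/
theorem TS.Chart.diag {W θ : ℂ} {I : Set ℝ} {z : ℝ → X} {ℓ : ℝ → ℝ → X} (h : T.Chart W θ I z ℓ) (t₀ c : ℝ) :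
    T.Path (W + c * θ) I (fun s => ℓ s (t₀ + c * s)) := by
  intro s₀ hs₀
  obtain ⟨r, hr, hr', ε, hε, h1⟩ := h.local T hs₀
  obtain ⟨L, hL⟩ := h.leaf s₀ hs₀
  obtain ⟨ε₁, hε₁, h2⟩ := hL.path (t₀ + c * s₀) (mem_univ _)
  obtain ⟨δ, hδ, hδ', h3⟩ := exists_small θ hε₁ (half_pos hr)
  refine ⟨min ε (δ / (|c| + 1)), lt_min hε (by positivity), fun s hs hss => ?_⟩
  obtain ⟨h4, h5⟩ := h1 s hs (hss.trans_le (min_le_left _ _))
  have h6 : |t₀ + c * s - (t₀ + c * s₀)| < δ := by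
    rw [show t₀ + c * s - (t₀ + c * s₀) = c * (s - s₀) by ring, abs_mul]
    have := hss.trans_le (min_le_right _ _)
    rw [lt_div_iff₀ (by positivity)] at this
    nlinarith [abs_nonneg c, abs_nonneg (s - s₀)]
  have h7 := h3 _ h6
  show ℓ s (t₀ + c * s) = T.add (ℓ s₀ (t₀ + c * s₀)) _
  rw [h5, h2 _ (mem_univ _) (h6.trans_le hδ'), T.add_add _ _ _ (by
    rw [norm_mul_ofReal, norm_mul_ofReal]; linarith [hr' (t₀ + c * s₀)])]
  congr 1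
  push_cast
  ring

/-- a period at one parameter is a period at all parameters -/
theorem TS.Chart.period {W θ : ℂ} {I : Set ℝ} {z : ℝ → X} {ℓ : ℝ → ℝ → X} (h : T.Chart W θ I z ℓ) {s s' : ℝ}
    (hs : s ∈ I) (hs' : s' ∈ I) {L : ℝ} (hL : T.Leaf θ L (ℓ s)) : T.Leaf θ L (ℓ s') := by
  obtain ⟨L', hL'⟩ := h.leaf s' hs'
  refine ⟨hL.pos, hL'.path, ?_⟩
  refine (prop_const h.conn (fun s => ∀ t, ℓ s (t + L) = ℓ s t) ?_ hs hs').1 hL.per
  intro u hu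
  obtain ⟨r, hr, hr', ε, hε, h1⟩ := h.local T hu
  refine ⟨ε, hε, fun u' hu' huu => ?_⟩
  obtain ⟨h2, h3⟩ := h1 u' hu' huu
  constructor
  · intro hQ t
    rw [h3, h3, hQ]
  · intro hQ t
    have e1 := T.add_neg (by rw [norm_mul_ofReal]; linarith [hr' (t + L)]) (h3 (t + L))
    have e2 := T.add_neg (by rw [norm_mul_ofReal]; linarith [hr' t]) (h3 t)
    rw [e1, e2, hQ]

/-- a path in the chart with given end points -/
theorem TS.Chart.strip {W θ : ℂ} {α β : ℝ} (hαβ : α < β) {z : ℝ → X} {ℓ : ℝ → ℝ → X}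
    (h : T.Chart W θ (Ioo α β) z ℓ) (t₀ c : ℝ) (yα yβ : X)
    (hα : ∃ ε > 0, ∀ s, α < s → s < α + ε → s < β → ℓ s (t₀ + c * s) = T.add yα (((s - α : ℝ) : ℂ) * (W + c * θ)))
    (hβ : ∃ ε > 0, ∀ s, β - ε < s → s < β → α < s → ℓ s (t₀ + c * s) = T.add yβ (((s - β : ℝ) : ℂ) * (W + c * θ))) :
    ∃ y : ℝ → X, y α = yα ∧ y β = yβ ∧ T.Path (W + c * θ) (Icc α β) y ∧ ∀ s ∈ Ioo α β, y s = ℓ s (t₀ + c * s) := by
  classical
  set V : ℂ := W + c * θ with hV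
  let y : ℝ → X := fun s => if s = α then yα else if s = β then yβ else ℓ s (t₀ + c * s)
  have hy1 : y α = yα := by simp [y]
  have hy2 : y β = yβ := by simp [y, hαβ.ne']
  have hy3 : ∀ s ∈ Ioo α β, y s = ℓ s (t₀ + c * s) := by
    intro s hs
    have h1 : s ≠ α := hs.1.ne'
    have h2 : s ≠ β := hs.2.ne
    simp [y, h1, h2]
  refine ⟨y, hy1, hy2, ?_, hy3⟩
  have hd := h.diag T t₀ c
  intro s hs
  rcases eq_or_lt_of_le hs.1 with h1 | h1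
  · obtain ⟨ε, hε, h2⟩ := hα
    refine ⟨min ε (β - α), lt_min hε (by linarith), fun s' hs' hss => ?_⟩
    rw [← h1] at hss ⊢
    have h3 := (abs_lt.1 (hss.trans_le (min_le_left _ _))).2
    have h4 := (abs_lt.1 (hss.trans_le (min_le_right _ _))).2
    rw [hy1]
    rcases eq_or_lt_of_le hs'.1 with h5 | h5
    · rw [← h5, hy1]; simp [T.add_zero]
    · rw [hy3 s' ⟨h5, by linarith⟩, h2 s' h5 (by linarith) (by linarith)]
  rcases eq_or_lt_of_le hs.2 with h1' | h1'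
  · obtain ⟨ε, hε, h2⟩ := hβ
    refine ⟨min ε (β - α), lt_min hε (by linarith), fun s' hs' hss => ?_⟩
    rw [h1'] at hss ⊢
    have h3 := (abs_lt.1 (hss.trans_le (min_le_left _ _))).1
    have h4 := (abs_lt.1 (hss.trans_le (min_le_right _ _))).1
    rw [hy2]
    rcases eq_or_lt_of_le hs'.2 with h5 | h5
    · rw [h5, hy2]; simp [T.add_zero]
    · rw [hy3 s' ⟨by linarith, h5⟩, h2 s' (by linarith) h5 (by linarith)]
  · obtain ⟨ε, hε, h2⟩ := hd s ⟨h1, h1'⟩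
    refine ⟨min ε (min (s - α) (β - s)), lt_min hε (lt_min (by linarith) (by linarith)), fun s' hs' hss => ?_⟩
    have h3 := (abs_lt.1 (hss.trans_le ((min_le_right _ _).trans (min_le_left _ _)))).1
    have h4 := (abs_lt.1 (hss.trans_le ((min_le_right _ _).trans (min_le_right _ _)))).2
    have hs1 : s' ∈ Ioo α β := ⟨by linarith, by linarith⟩
    rw [hy3 s' hs1, hy3 s ⟨h1, h1'⟩]
    exact h2 s' hs1 (hss.trans_le (min_le_left _ _))

end Pool.Agent.Lib.H32D
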