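import Pool.Agent.Lib.H25D.PInputs
import Pool.Agent.Lib.H25D.PPos
import Pool.Agent.Lib.H25D.PRay
import Pool.Agent.Lib.H25D.PGerm
import Pool.Agent.Lib.H25D.AreaForm
import Pool.Agent.Lib.H94D.Null
import Pool.Agent.Lib.H23D.Unf

/-!
# MP_273810_co: polygons of the class are illuminated from almost every point (library H32D, helper32)
-/

open Set MeasureTheory

namespace Pool.Agent.Lib.H32D

open Pool.Agent.Lib.H42I (IsPolygon Ray RayS)
open Pool.Agent.Lib.H45Z hiding PS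
open Pool.Agent.Lib.H25D
open Pool.Agent.H52W (cdet)
open Pool.Agent.Lib.H23D (E Gon)
open Pool.Agent.Lib.H32W (GoodArr)

variable {n N : ℕ} [NeZero n] [NeZero N] {P : Set ℂ} {v : ZMod n → ℂ} {kap : ZMod n → ZMod N}

theorem goodArr_smul {w d : ℂ} {c : ℝ} (hc : 0 < c) (h : GoodArr v w d) : GoodArr v w ((c : ℂ) * d) := by
  rcases h with h | h | ⟨i, hi, h⟩
  · exact Or.inl h
  · exact Or.inr (Or.inl h)
  · refine Or.inr (Or.inr ⟨i, hi, ?_⟩)
    have e : ∀ a : ℂ, Pool.Agent.Lib.H32W.det a ((c : ℂ) * d) = c * Pool.Agent.Lib.H32W.det a d := by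
      intro a
      simp only [Pool.Agent.Lib.H32W.det, Complex.mul_re, Complex.mul_im, Complex.ofReal_re, Complex.ofReal_im]
      ring
    rw [e, e]
    have : c * Pool.Agent.Lib.H32W.det (v i - v (i - 1)) d * (c * Pool.Agent.Lib.H32W.det (v (i + 1) - v i) d) =
        c ^ 2 * (Pool.Agent.Lib.H32W.det (v i - v (i - 1)) d * Pool.Agent.Lib.H32W.det (v (i + 1) - v i) d) := by ring
    rw [this]
    positivity

/-- rotation by `E (-1)` as an `ℝ`-linear map -/
noncomputable def Gm (N : ℕ) [NeZero N] : ℂ →ₗ[ℝ] ℂ where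
  toFun z := E (-1 : ZMod N) * z
  map_add' x y := by ring
  map_smul' c x := by
    simp only [Complex.real_smul, RingHom.id_apply]
    ring

theorem lit_of_indep (hP : IsPolygon P v) (hg : Gon v kap) : ∃ F : Subfield ℝ, (F : Set ℝ).Countable ∧
    ∀ q ∈ interior P, Indep3 F q → ∀ y ∈ P, y = q ∨ ∃ d, Ray P v q y d ∧ GoodArr v y d := by
  classical
  have hN := hg.prime
  have : Fact N.Prime := ⟨hN⟩
  have hN3 : 2 < N := lt_of_le_of_ne hN.two_le (Ne.symm hg.odd)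
  set hk := par_of_gon hg with hkd
  set M := PS hP hk with hM
  let e : Fin 3 → ZMod N := fun k => ((k : ℕ) : ZMod N)
  have he : ∀ k l, k ≠ l → e k ≠ e l := by
    intro k l hkl h
    apply hkl
    have h1 : ((k : ℕ) : ZMod N) = ((l : ℕ) : ZMod N) := h
    rw [ZMod.natCast_eq_natCast_iff', Nat.mod_eq_of_lt (by omega), Nat.mod_eq_of_lt (by omega)] at h1
    exact Fin.ext h1
  let θ : Fin 3 → ℂ := fun k => Complex.I * E (e k)
  have hn : ∀ k, ‖θ k‖ = 1 := fun k => by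
    show ‖Complex.I * E (e k)‖ = 1
    rw [norm_mul, Complex.norm_I, norm_E, one_mul]
  have hcr : ∀ k l, k ≠ l → H25D.cr (θ k) (θ l) ≠ 0 := by
    intro k l hkl
    have h1 := Pool.Agent.Lib.H23D.cr_IE_IE (e k) (e l)
    have h2 : H25D.cr (θ k) (θ l) = Pool.Agent.Lib.H23D.cr (Complex.I * E (e k)) (Complex.I * E (e l)) := rfl
    rw [h2, h1]
    exact Pool.Agent.Lib.H23D.sn_ne_zero hN hg.odd (sub_ne_zero.2 (he l k (Ne.symm hkl)))
  choose L hL using fun k => cyl_PS hP hg (e k)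
  obtain ⟨Q, hQ⟩ := pos_PS hP hk θ (fun k h => by have := hn k; rw [h, norm_zero] at this; exact zero_ne_one this)
  have hG : ∀ c : ℝ, ∃ z, Gm N z ≠ (c : ℂ) * z := by
    intro c
    refine ⟨1, fun h => ?_⟩
    have h1 : E (-1 : ZMod N) * 1 = (c : ℂ) * 1 := h
    rw [mul_one, mul_one] at h1
    have h2 := congrArg Complex.im h1
    rw [Complex.ofReal_im, Pool.Agent.Lib.H23D.E_im] at h2
    exact Pool.Agent.Lib.H23D.sn_ne_zero hN hg.odd (neg_ne_zero.2 one_ne_zero) h2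
  obtain ⟨F, hF, hgen⟩ := TSurf.generic (M := M) (conn_PS hP hg) hn hcr hL hQ (Gm N) hG
  refine ⟨F, hF, fun q hq hind y hy => ?_⟩
  have hnv : ∀ {z : ℂ}, z ∈ interior P → ∀ i, z ≠ v i := by
    rintro z hz i rfl
    exact (side_mem hP (left_mem_segment ℝ (v i) (v (i + 1)))).2 hz
  let x : SPt P v N := ⟨q, ((0 : ZMod N), false), interior_subset hq, hnv hq, fun _ => rfl⟩
  have hx : Dc x = q := by
    show fri ((0 : ZMod N), false) q = q
    simp [fri, Pool.Agent.Lib.H23D.E_zero]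
  obtain ⟨h1, h2⟩ := hgen x (by rw [hx]; exact hind)
  by_cases hyv : ∃ i, y = v i
  · obtain ⟨i, rfl⟩ := hyv
    right
    obtain ⟨κ, σ, hV, hσ, hcrκ, ε, hε, hgerm⟩ := germ_PS hP hg i
    have hθ0 : θ 0 = Complex.I := by
      show Complex.I * E (((0 : Fin 3) : ℕ) : ZMod N) = Complex.I
      simp [Pool.Agent.Lib.H23D.E_zero]
    obtain ⟨W, hW1, hW2⟩ := h2 κ hV 0 σ hσ (by rw [hθ0]; exact hcrκ) ε hε
    rw [hθ0] at hW2
    obtain ⟨z, s, hs0, hs1, hz1, hz2, hz3, hz4, hz5⟩ := hgerm x W hW1 hW2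
    have hW0 : W ≠ 0 := by
      rintro rfl
      have := hW1.1
      simp [H25D.cr] at this
    have hs1' : 0 < 1 - s := by linarith
    have hW0' : ((1 - s : ℝ) : ℂ) * W ≠ 0 := mul_ne_zero (by exact_mod_cast hs1'.ne') hW0
    obtain ⟨g, hg1, hg2⟩ := Pool.Agent.Lib.H42D.seg_ray_fr hP hk x z hq _ hW0' hz1
    rw [hg2 hz3, fr_real] at hg1
    have hray := ray_prolong hP hz3 hg1 (s / (1 - s)) (div_pos hs0 hs1') (w := v i) (by
      rw [hz2]
      have : ((1 - s : ℝ) : ℂ) ≠ 0 := by exact_mod_cast hs1'.ne'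
      push_cast at this ⊢
      field_simp
      ring) hz4
    obtain ⟨c, hc, hr⟩ := hray
    refine ⟨_, hr, ?_⟩
    exact goodArr_smul hc (goodArr_smul hs1' hz5)
  · push Not at hyv
    by_cases hyq : y = q
    · exact Or.inl hyq
    right
    let y₀ : SPt P v N := ⟨y, ((0 : ZMod N), false), hy, hyv, fun _ => rfl⟩
    let y₁ : SPt P v N := ⟨y, ((1 : ZMod N), false), hy, hyv, fun _ => rfl⟩
    have hD : Dc y₁ = Gm N (Dc y₀) := by
      show fri ((1 : ZMod N), false) y = E (-1 : ZMod N) * fri ((0 : ZMod N), false) y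
      simp [fri, Pool.Agent.Lib.H23D.E_zero]
    have key : ∀ y' : SPt P v N, y'.p = y → (∃ W, M.Seg x W y') → ∃ d, Ray P v q y d ∧ GoodArr v y d := by
      rintro y' hy' ⟨W, hW⟩
      have hW0 : W ≠ 0 := by
        rintro rfl
        have h3 := TSurf.seg_unique hW (TSurf.seg_refl (M := M) x)
        apply hyq
        rw [← hy', h3]
      obtain ⟨g, ⟨c, hc, hr⟩, -⟩ := Pool.Agent.Lib.H42D.seg_ray_fr hP hk x y' hq W hW0 hW
      rw [hy'] at hr
      exact ⟨_, hr, Pool.Agent.Lib.H32W.good_of_not_vertex v y _ hyv⟩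
    rcases h1 ∅ (by simp) y₀ y₁ hD with ⟨W, hW, -⟩ | ⟨W, hW, -⟩
    · exact key y₀ rfl ⟨W, hW⟩
    · exact key y₁ rfl ⟨W, hW⟩

theorem classLitAE : ClassLitAE n := by
  intro P v N k hP hc
  have : NeZero N := ⟨hc.prime.ne_zero⟩
  obtain ⟨kap, hg, -⟩ := hc.gon
  obtain ⟨F, hF, h⟩ := lit_of_indep hP hg
  refine ⟨{q | ¬ Indep3 F q}, Pool.Agent.Lib.H94D.Null.volume_not_indep3 F hF, fun q hq hqZ => ?_⟩
  exact h q hq (by_contra fun hcon => hqZ hcon)

end Pool.Agent.Lib.H32D
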