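import Pool.Agent.Lib.H32D.R1

set_option autoImplicit false

/-!
# H32D, chunk R2 (M): few routes through every site, and the size

`siteP` is injective (`m ≥ 1`). For a site `z` and a fixed `j : Fin k`: the vertical part of the route of `(j, s)` contains `z` at most once, and only
if `(s i).val = z i.succ` for all `i`; the last vertical part only if `g j s` is this point; the horizontal part only if `s_c = z 0 - j m` and
the other coordinates of `s` are those of `z`: one `s` at most, once (`Nodup`). So the sum over `s` is at most `3`, and over all `p` at most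
`3 k`. Sizes: all heights are in `[0, k m]`, all other coordinates in `[0, m]`.

Auxiliary names start with `r2_`.
-/

open Finset

namespace H32D

theorem r2_val {d m : ℕ} [NeZero m] (s s' : Fin d → ZMod m) (h : ∀ i, ((s i).val : ℤ) = (s' i).val) : s = s' := by
  funext i
  exact ZMod.val_injective m (by exact_mod_cast h i)

theorem siteP_card {k d m : ℕ} [NeZero m] (z : Fin (d + 1) → ℤ) :
    (univ.filter (fun p : Sheet k d m => siteP p = z)).card ≤ 1 := by
  rw [Finset.card_le_one]
  rintro ⟨j, s⟩ hp ⟨j', s'⟩ hq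
  simp only [Finset.mem_filter, Finset.mem_univ, true_and] at hp hq
  have h := hp.trans hq.symm
  have h0 : ((j : ℕ) * m : ℤ) = (j' : ℕ) * m := by
    have := congrFun h 0
    simpa [siteP, pnt] using this
  have hm : (m : ℤ) ≠ 0 := by exact_mod_cast NeZero.ne m
  have hj : j = j' := by
    have := mul_right_cancel₀ hm h0
    exact Fin.ext (by exact_mod_cast this)
  have hs : s = s' := by
    apply r2_val
    intro i
    have := congrFun h i.succ
    simpa [siteP, pnt] using this
  rw [hj, hs]

theorem r2_sum {S α : Type} [Fintype S] [DecidableEq α] (f : S → List α) (z : α) (hn : ∀ s, (f s).Nodup)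
    (hu : ∀ s s', z ∈ f s → z ∈ f s' → s = s') : ∑ s, (f s).count z ≤ 1 := by
  classical
  have h1 : ∀ s, (f s).count z = if z ∈ f s then 1 else 0 := by
    intro s
    by_cases h : z ∈ f s
    · rw [if_pos h, List.count_eq_one_of_mem (hn s) h]
    · rw [if_neg h, List.count_eq_zero_of_not_mem h]
  simp_rw [h1]
  rw [Finset.sum_boole]
  have : (univ.filter (fun s => z ∈ f s)).card ≤ 1 := by
    rw [Finset.card_le_one]
    intro s hs s' hs'
    simp only [Finset.mem_filter, Finset.mem_univ, true_and] at hs hs'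
    exact hu s s' hs hs'
  exact_mod_cast this

theorem r2_pnt_inj {d m : ℕ} (s : Fin d → ZMod m) : Function.Injective (fun h : ℤ => pnt h s) := by
  intro x y h
  have := congrFun h 0
  simpa [pnt] using this

theorem r2_pntAt_inj {d m : ℕ} (h : ℤ) (s : Fin d → ZMod m) (c : Fin d) : Function.Injective (fun t : ℤ => pntAt h s c t) := by
  intro x y hxy
  have := congrFun hxy c.succ
  simpa [pntAt] using this

theorem r2_mem_pnt {d m : ℕ} {s : Fin d → ZMod m} {a b : ℤ} {z : Fin (d + 1) → ℤ}
    (h : z ∈ (walk a b).map (fun h => pnt h s)) : (min a b ≤ z 0 ∧ z 0 ≤ max a b) ∧ ∀ i : Fin d, z i.succ = (s i).val := by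
  rw [List.mem_map] at h
  obtain ⟨t, ht, rfl⟩ := h
  have := (walk_props a b).2.2.2.1 t ht
  exact ⟨by simpa [pnt] using this, fun i => by simp [pnt]⟩

theorem r2_mem_pntAt {d m : ℕ} {s : Fin d → ZMod m} {c : Fin d} {h a b : ℤ} {z : Fin (d + 1) → ℤ}
    (hz : z ∈ (walk a b).map (fun t => pntAt h s c t)) : z 0 = h ∧ (min a b ≤ z c.succ ∧ z c.succ ≤ max a b) ∧
      ∀ i : Fin d, i ≠ c → z i.succ = (s i).val := by
  rw [List.mem_map] at hz
  obtain ⟨t, ht, rfl⟩ := hz
  have := (walk_props a b).2.2.2.1 t ht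
  exact ⟨by simp [pntAt], by simpa [pntAt] using this, fun i hi => by simp [pntAt, Function.update_of_ne hi]⟩

theorem routeP_count {k d m : ℕ} [NeZero m] (g : Fin k → Equiv.Perm (Fin d → ZMod m)) (c : Fin k → Fin d) (i : Bool)
    (z : Fin (d + 1) → ℤ) : ∑ p : Sheet k d m, (routeP g c i p).count z ≤ 3 * k := by
  rw [Fintype.sum_prod_type]
  have key : ∀ j : Fin k, ∑ s : Fin d → ZMod m, (routeP g c i (j, s)).count z ≤ 3 := by
    intro j
    have hA : ∀ (a : ℤ) (b : (Fin d → ZMod m) → ℤ) (u : (Fin d → ZMod m) → ℤ) (e : Equiv.Perm (Fin d → ZMod m)),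
        ∑ s, ((walk (u s) (b s)).map (fun h => pnt h (e s))).count z ≤ 1 := by
      intro a b u e
      refine r2_sum _ z (fun s => (walk_props _ _).2.2.2.2.map (r2_pnt_inj _)) (fun s s' h h' => ?_)
      apply e.injective
      apply r2_val
      intro i
      rw [← (r2_mem_pnt h).2 i, (r2_mem_pnt h').2 i]
    cases i
    · simp only [routeP]
      refine le_trans (hA 0 (fun _ => _) (fun _ => _) (Equiv.refl _)) (by norm_num)
    · simp only [routeP, List.count_append, Finset.sum_add_distrib]
      have h1 := hA 0 (fun s => ((j : ℕ) * m + (s (c j)).val : ℤ)) (fun _ => ((j : ℕ) * m : ℤ)) (Equiv.refl _)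
      have h3 := hA 0 (fun s => ((j : ℕ) * m : ℤ)) (fun s => ((j : ℕ) * m + (s (c j)).val : ℤ)) (g j)
      have h2 : ∑ s : Fin d → ZMod m, ((walk (s (c j)).val (g j s (c j)).val).map
          (fun t => pntAt ((j : ℕ) * m + (s (c j)).val : ℤ) s (c j) t)).count z ≤ 1 := by
        refine r2_sum _ z (fun s => (walk_props _ _).2.2.2.2.map (r2_pntAt_inj _ _ _)) (fun s s' h h' => ?_)
        obtain ⟨a1, _, a3⟩ := r2_mem_pntAt h
        obtain ⟨b1, _, b3⟩ := r2_mem_pntAt h'
        apply r2_val
        intro i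
        by_cases hi : i = c j
        · subst hi
          have := a1.symm.trans b1
          linarith
        · rw [← a3 i hi, b3 i hi]
      simp only [Equiv.refl_apply] at h1
      omega
  calc ∑ j : Fin k, ∑ s : Fin d → ZMod m, (routeP g c i (j, s)).count z ≤ ∑ j : Fin k, 3 := Finset.sum_le_sum (fun j _ => key j)
    _ = 3 * k := by simp [mul_comm]

theorem r2_bd {k m : ℕ} (j : Fin k) : 0 ≤ ((j : ℕ) * m : ℤ) ∧ ((j : ℕ) * m + m : ℤ) ≤ k * m := by
  have hj := j.2
  refine ⟨by positivity, ?_⟩
  have : ((j : ℕ) + 1 : ℤ) ≤ k := by exact_mod_cast hj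
  nlinarith [Int.natCast_nonneg m]

theorem routeP_size {k d m : ℕ} [NeZero m] (g : Fin k → Equiv.Perm (Fin d → ZMod m)) (c : Fin k → Fin d) (i : Bool)
    (p : Sheet k d m) : (∀ a, |siteP p a| ≤ ((k + 1) * m : ℤ)) ∧ ∀ z ∈ routeP g c i p, ∀ a, |z a| ≤ ((k + 1) * m : ℤ) := by
  obtain ⟨j, s⟩ := p
  have hj := r2_bd (m := m) j
  have hv : ∀ x : ZMod m, 0 ≤ (x.val : ℤ) ∧ (x.val : ℤ) < m := fun x => ⟨by positivity, by exact_mod_cast ZMod.val_lt x⟩
  have hm0 : (0 : ℤ) ≤ m := by positivity
  have hkm : (0 : ℤ) ≤ k * m := by positivity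
  have hk1 : ((k + 1) * m : ℤ) = k * m + m := by ring
  have hS : ∀ x : ZMod m, |(x.val : ℤ)| ≤ ((k + 1) * m : ℤ) := by
    intro x
    rw [abs_le, hk1]
    have := hv x
    constructor <;> linarith
  have hV : ∀ (a b : ℤ) (s' : Fin d → ZMod m), 0 ≤ a → a ≤ (k + 1) * m → 0 ≤ b → b ≤ (k + 1) * m →
      ∀ z ∈ (walk a b).map (fun h => pnt h s'), ∀ q, |z q| ≤ ((k + 1) * m : ℤ) := by
    intro a b s' ha ha' hb hb' z hz q
    obtain ⟨h1, h2⟩ := r2_mem_pnt hz
    refine Fin.cases ?_ (fun q => ?_) q
    · rw [abs_le]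
      have : 0 ≤ min a b := le_min ha hb
      have : max a b ≤ (k + 1) * m := max_le ha' hb'
      constructor <;> linarith [h1.1, h1.2]
    · rw [h2 q]; exact hS _
  constructor
  · intro a
    refine Fin.cases ?_ (fun q => ?_) a
    · simp only [siteP, pnt, Fin.cons_zero]
      rw [abs_le]
      constructor <;> linarith [hj.1, hj.2]
    · simp only [siteP, pnt, Fin.cons_succ]
      exact hS _
  · intro z hz a
    cases i
    · simp only [routeP] at hz
      have hj' := r2_bd (m := m) (finRotate k j)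
      exact hV _ _ _ hj.1 (by linarith [hj.2]) hj'.1 (by linarith [hj'.2]) z hz a
    · simp only [routeP, List.mem_append] at hz
      have hsc := hv (s (c j))
      have hgc := hv (g j s (c j))
      rcases hz with (hz | hz) | hz
      · exact hV _ _ _ hj.1 (by linarith [hj.2]) (by linarith [hj.1]) (by linarith [hj.2]) z hz a
      · obtain ⟨h1, h2, h3⟩ := r2_mem_pntAt hz
        refine Fin.cases ?_ (fun q => ?_) a
        · rw [h1, abs_le]
          constructor <;> linarith [hj.1, hj.2]
        · by_cases hq : q = c j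
          · subst hq
            rw [abs_le]
            have m1 : (0 : ℤ) ≤ min ((s (c j)).val : ℤ) ((g j s (c j)).val : ℤ) := le_min hsc.1 hgc.1
            have m2 : max ((s (c j)).val : ℤ) ((g j s (c j)).val : ℤ) ≤ m := max_le hsc.2.le hgc.2.le
            constructor <;> linarith [h2.1, h2.2]
          · rw [h3 q hq]; exact hS _
      · exact hV _ _ _ (by linarith [hj.1]) (by linarith [hj.2]) hj.1 (by linarith [hj.2]) z hz a

end H32D
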