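import Pool.Agent.Lib.H32D.E6
import Pool.Agent.Lib.H32D.E7
import Pool.Agent.Lib.H32D.R2

set_option autoImplicit false

/-!
# H32D, chunk M1 (S): the sheets with their two permutations, uniformly in `m`

`k = card (Fin d × Fin d × Bool)`, `g j = shears d m (ε j)`, `c j = (ε j).1` with `ε : Fin k ≃ Fin d × Fin d × Bool`. `Poinc` is invariant under
reindexing the family; `shears_poinc` and `sig_poinc`. The shear `shear a b δ` changes only the coordinate `a`.

Auxiliary names start with `m1_`.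
-/

open Finset

namespace H32D

theorem exists_sheets (d : ℕ) (hd : 2 ≤ d) : ∃ (k : ℕ) (C : ℝ), 1 ≤ k ∧ 0 < C ∧ ∀ (m : ℕ) (_ : NeZero m),
    ∃ (g : Fin k → Equiv.Perm (Fin d → ZMod m)) (c : Fin k → Fin d), (∀ j s i, i ≠ c j → g j s i = s i) ∧ Poinc (sig g) C := by
  obtain ⟨C, hC, hP⟩ := shears_poinc d hd
  obtain ⟨k, hk⟩ : ∃ k, k = Fintype.card (Fin d × Fin d × Bool) := ⟨_, rfl⟩
  have hk1 : 1 ≤ k := by
    rw [hk, Nat.succ_le_iff, Fintype.card_pos_iff]
    exact ⟨(⟨0, by omega⟩, ⟨0, by omega⟩, true)⟩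
  obtain ⟨C', hC', hP'⟩ := sig_poinc k hk1 C hC
  subst hk
  refine ⟨_, C', hk1, hC', fun m hm => ⟨fun j => shears d m ((Fintype.equivFin (Fin d × Fin d × Bool)).symm j),
    fun j => ((Fintype.equivFin (Fin d × Fin d × Bool)).symm j).1, ?_, ?_⟩⟩
  · intro j s i hi
    simp only [shears, shear]
    by_cases h : ((Fintype.equivFin (Fin d × Fin d × Bool)).symm j).1 = ((Fintype.equivFin (Fin d × Fin d × Bool)).symm j).2.1
    · rw [dif_pos h]
      rfl
    · rw [dif_neg h]
      exact Function.update_of_ne hi _ _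
  · refine hP' d m hm _ fun f => ?_
    refine (hP m hm f).trans_eq ?_
    congr 1
    exact (Equiv.sum_comp (Fintype.equivFin (Fin d × Fin d × Bool)).symm (fun t => ∑ p, (f (shears d m t p) - f p) ^ 2)).symm

end H32D
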