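import Pool.Agent.Lib.H32D.S3

set_option autoImplicit false

/-!
# H32D, chunk S5 (M): a spanning tree avoiding the glued edges, and three further edges

The graph `G'` of the edges of `K` not in `C` is connected: every vertex is the start of a directed edge of the closed walk `w` (`vert`: every vertex is
in a triangle by `pure`), and the directed edges of `w` are edges of `K` outside `C`. Take a spanning tree (`SimpleGraph.Connected.exists_isTree_le`), with
edge set of `card V - 1` edges (`SimpleGraph.IsTree.card_edgeFinset`). The number of edges of `K` outside `C` and outside the tree is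
`E - (F - 1) - (V - 1) = 2 - euler ≥ 4`. (`euler = V - E + F`: the faces have card `1`, `2` or `3`.) The tree is returned as a set `T0` of edges
`{a, b}` such that the corresponding graph is connected.

Auxiliary names start with `s5_`.
-/

open Finset

namespace H32D

theorem s5_reach {V : Type} {G : SimpleGraph V} : ∀ (l : List (V × V)) (e0 : V × V), (e0 :: l).IsChain (fun e e' => e.2 = e'.1) →
    (∀ e ∈ e0 :: l, G.Adj e.1 e.2) → ∀ e ∈ e0 :: l, G.Reachable e0.1 e.1 := by
  intro l
  induction l with
  | nil =>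
    intro e0 _ _ e he
    rw [List.mem_singleton] at he
    rw [he]
  | cons e1 l ih =>
    intro e0 hc ha e he
    rw [List.isChain_cons_cons] at hc
    rcases List.mem_cons.1 he with rfl | he
    · exact SimpleGraph.Reachable.refl _
    · have h1 := ih e1 hc.2 (fun f hf => ha f (List.mem_cons_of_mem _ hf)) e he
      have h2 : G.Adj e0.1 e1.1 := by
        rw [← hc.1]
        exact ha e0 (by simp)
      exact h2.reachable.trans h1

theorem euler_eq {V : Type} [Fintype V] [DecidableEq V] {K : Cpx V} (hK : IsSurface K) :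
    K.euler = (Fintype.card V : ℤ) - K.edges.card + K.tris.card := by
  have h1 : (K.faces.filter (fun t => t.card = 1)).card = Fintype.card V := by
    have : K.faces.filter (fun t => t.card = 1) = univ.image (fun v : V => ({v} : Finset V)) := by
      ext t
      rw [Finset.mem_filter, Finset.mem_image]
      constructor
      · rintro ⟨-, h⟩
        obtain ⟨v, rfl⟩ := Finset.card_eq_one.1 h
        exact ⟨v, Finset.mem_univ _, rfl⟩
      · rintro ⟨v, -, rfl⟩
        exact ⟨K.vertex v, Finset.card_singleton v⟩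
    rw [this, Finset.card_image_of_injective _ Finset.singleton_injective, Finset.card_univ]
  have h2 : ∀ s ∈ K.faces, (-1 : ℤ) ^ (s.card + 1) = (if s.card = 1 then 1 else 0) - (if s.card = 2 then 1 else 0) +
      (if s.card = 3 then 1 else 0) := by
    intro s hs
    have hp := Finset.card_pos.2 (K.nonempty s hs)
    have hl := hK.card_le s hs
    have : s.card = 1 ∨ s.card = 2 ∨ s.card = 3 := by omega
    rcases this with h | h | h <;> rw [h] <;> norm_num
  rw [Cpx.euler, Finset.sum_congr rfl h2, Finset.sum_add_distrib, Finset.sum_sub_distrib]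
  simp only [Finset.sum_boole]
  rw [h1]
  rfl

theorem exists_three {V : Type} [Fintype V] [DecidableEq V] {K : Cpx V} (hK : IsSurface K) {O : V → V → V → Prop}
    (hO : IsOrientation K O) (hχ : K.euler ≤ -2) {C : Finset (Finset V)} {w : List (V × V)} (h : Built O K.tris C w) :
    ∃ (G : SimpleGraph V), G ≤ K.graph ∧ G.Connected ∧ (∀ a b, G.Adj a b → ({a, b} : Finset V) ∉ C) ∧
      ∃ E : Finset (Finset V), E.card = 3 ∧ E ⊆ K.edges ∧ Disjoint E C ∧ ∀ a b, G.Adj a b → ({a, b} : Finset V) ∉ E := by
  classical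
  have inv := built_inv hO h
  obtain ⟨G', hG'⟩ : ∃ G' : SimpleGraph V, ∀ a b, G'.Adj a b ↔ K.graph.Adj a b ∧ ({a, b} : Finset V) ∉ C :=
    ⟨{ Adj := fun a b => K.graph.Adj a b ∧ ({a, b} : Finset V) ∉ C
       symm := ⟨fun a b h => ⟨h.1.symm, by rw [Finset.pair_comm]; exact h.2⟩⟩
       loopless := ⟨fun _ h => h.1.ne rfl⟩ }, fun _ _ => Iff.rfl⟩
  have hwadj : ∀ e ∈ w, G'.Adj e.1 e.2 := by
    rintro ⟨u, v⟩ he
    obtain ⟨⟨z, hz, -⟩, hC⟩ := (inv.mem u v).1 he
    obtain ⟨huv, -, -, hf⟩ := hO.face _ _ _ hz
    refine (hG' u v).2 ⟨⟨huv, K.down _ hf _ ?_ (by simp)⟩, hC⟩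
    intro x hx
    simp only [Finset.mem_insert, Finset.mem_singleton] at hx ⊢
    tauto
  have hvert : ∀ v, ∃ u, (v, u) ∈ w := by
    intro v
    obtain ⟨t, htf, hvt, ht3⟩ := hK.pure _ (K.vertex v)
    exact inv.vert t (Finset.mem_filter.2 ⟨htf, ht3⟩) v (hvt (Finset.mem_singleton_self v))
  have hconn : G'.Connected := by
    obtain ⟨v0⟩ := hK.conn.nonempty
    haveI : Nonempty V := ⟨v0⟩
    obtain ⟨u0, hu0⟩ := hvert v0
    cases hw : w with
    | nil => rw [hw] at hu0; simp at hu0
    | cons e0 l =>
      have key := s5_reach l e0 (by rw [← hw]; exact inv.chain) (by rw [← hw]; exact hwadj)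
      refine ⟨fun a b => ?_⟩
      obtain ⟨ua, hua⟩ := hvert a
      obtain ⟨ub, hub⟩ := hvert b
      rw [hw] at hua hub
      exact (key _ hua).symm.trans (key _ hub)
  obtain ⟨T, hTG, hT⟩ := hconn.exists_isTree_le
  have hTadj : ∀ a b, T.Adj a b → K.graph.Adj a b ∧ ({a, b} : Finset V) ∉ C := fun a b hab => (hG' a b).1 (hTG hab)
  obtain ⟨ET, hET⟩ : ∃ ET : Finset (Finset V), ET = T.edgeFinset.image Sym2.toFinset := ⟨_, rfl⟩
  have hETcard : ET.card + 1 ≤ Fintype.card V := by
    rw [← hT.card_edgeFinset, hET]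
    exact Nat.succ_le_succ Finset.card_image_le
  have hETmem : ∀ a b, T.Adj a b → ({a, b} : Finset V) ∈ ET := by
    intro a b hab
    rw [hET, Finset.mem_image]
    exact ⟨s(a, b), by rw [SimpleGraph.mem_edgeFinset]; exact hab, Sym2.toFinset_mk_eq⟩
  have heul := euler_eq hK
  have hcC := inv.card
  have hcard : 3 ≤ (K.edges \ (C ∪ ET)).card := by
    have h1 := Finset.le_card_sdiff (C ∪ ET) K.edges
    have h2 := Finset.card_union_le C ET
    have h3 : K.edges.card ≥ Fintype.card V + K.tris.card + 2 := by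
      rw [heul] at hχ
      omega
    omega
  obtain ⟨E, hE, hE3⟩ := Finset.exists_subset_card_eq hcard
  refine ⟨T, fun a b hab => (hTadj a b hab).1, hT.connected, fun a b hab => (hTadj a b hab).2, E, hE3, ?_, ?_, ?_⟩
  · intro x hx
    exact (Finset.mem_sdiff.1 (hE hx)).1
  · rw [Finset.disjoint_left]
    intro x hx hxC
    exact (Finset.mem_sdiff.1 (hE hx)).2 (Finset.mem_union_left _ hxC)
  · intro a b hab hx
    exact (Finset.mem_sdiff.1 (hE hx)).2 (Finset.mem_union_right _ (hETmem a b hab))

end H32D
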