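import Pool.Agent.Lib.H32D.SDefs

set_option autoImplicit false

/-!
# H32D, chunk S6 (M): the word lemma

`w` is a list without repetition containing the six different letters `p 0, q 0, p 1, q 1, p 2, q 2` (and others). Give the letters `p i` the value `g i`, `q i` the
value `(g i)⁻¹`, the other letters the value `1`. Claim: for suitable `g : Fin 3 → F2` the product over `w` is `1` and both generators
`x = FreeGroup.of false`, `y = FreeGroup.of true` occur among the `g i`, `(g i)⁻¹`.
Proof: only the subword of the six letters matters; it is one of the `6!` orders of the six letters, coded by a list of elements of `Fin 6` (`i` for `p i`,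
`i + 3` for `q i`). For each of them one of nine assignments with values in `{1, x, y, y⁻¹}` works, by a finite check with a stack.

Auxiliary names start with `s6_`.
-/

open Finset

namespace H32D

/-- Push a letter on the stack, cancelling it against the top if possible. -/
def s6_push (l : Bool × Bool) : List (Bool × Bool) → List (Bool × Bool)
  | [] => [l]
  | h :: t => if (h.1 == l.1) && (h.2 == !l.2) then t else l :: h :: t

/-- The letter of the value with code `c` (`0` the identity, `1` for `x`, `2` for `y`, `3` for `y⁻¹`), or of its inverse. -/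
def s6_let (c : ℕ) (i : Bool) : Option (Bool × Bool) :=
  match c with
  | 0 => none
  | 1 => some (false, !i)
  | 2 => some (true, !i)
  | _ => some (true, i)

def s6_cod (c0 c1 c2 : ℕ) : ℕ → ℕ
  | 0 => c0
  | 1 => c1
  | _ => c2

def s6_run (c0 c1 c2 : ℕ) : List (Fin 6) → List (Bool × Bool) → List (Bool × Bool)
  | [], st => st
  | j :: l, st =>
    match s6_let (s6_cod c0 c1 c2 (j.1 % 3)) (3 ≤ j.1) with
    | none => s6_run c0 c1 c2 l st
    | some a => s6_run c0 c1 c2 l (s6_push a st)

def s6_cands : List (ℕ × ℕ × ℕ) :=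
  [(1, 2, 0), (1, 0, 2), (0, 1, 2), (1, 2, 2), (1, 2, 3), (2, 1, 2), (2, 1, 3), (2, 2, 1), (2, 3, 1)]

theorem s6_check : ∀ l ∈ List.permutations' ([0, 1, 2, 3, 4, 5] : List (Fin 6)),
    ∃ c ∈ s6_cands, s6_run c.1 c.2.1 c.2.2 l [] = [] := by
  decide +kernel

/-- The value of a stack. -/
def s6_V : List (Bool × Bool) → F2
  | [] => 1
  | l :: t => s6_V t * FreeGroup.mk [l]

theorem s6_push_V (l : Bool × Bool) (st : List (Bool × Bool)) : s6_V (s6_push l st) = s6_V st * FreeGroup.mk [l] := by
  cases st with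
  | nil => rfl
  | cons h t =>
    simp only [s6_push]
    split_ifs with hc
    · obtain ⟨a, b⟩ := h
      obtain ⟨c, d⟩ := l
      simp only [Bool.and_eq_true, beq_iff_eq] at hc
      obtain ⟨h1, h2⟩ := hc
      subst h1 h2
      have e : (FreeGroup.mk [(a, !d)] : F2) * FreeGroup.mk [(a, d)] = 1 := by
        have : (FreeGroup.mk [(a, !d)] : F2) = (FreeGroup.mk [(a, d)])⁻¹ := by
          rw [FreeGroup.inv_mk]
          rfl
        rw [this, inv_mul_cancel]
      simp only [s6_V]
      rw [mul_assoc, e, mul_one]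
    · rfl

/-- The group element with code `c`. -/
def s6_g (c : ℕ) : F2 :=
  match c with
  | 0 => 1
  | 1 => FreeGroup.of false
  | 2 => FreeGroup.of true
  | _ => (FreeGroup.of true)⁻¹

theorem s6_let_g (c : ℕ) (i : Bool) :
    (match s6_let c i with
      | none => (1 : F2)
      | some a => FreeGroup.mk [a]) = if i then (s6_g c)⁻¹ else s6_g c := by
  have hinv : ∀ (a : Bool), (FreeGroup.mk [(a, false)] : F2) = (FreeGroup.of a)⁻¹ := by
    intro a
    rw [FreeGroup.of, FreeGroup.inv_mk]
    rfl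
  match c, i with
  | 0, true => simp [s6_let, s6_g]
  | 0, false => simp [s6_let, s6_g]
  | 1, true => simp [s6_let, s6_g, hinv]
  | 1, false => simp [s6_let, s6_g]; rfl
  | 2, true => simp [s6_let, s6_g, hinv]
  | 2, false => simp [s6_let, s6_g]; rfl
  | (n + 3), true => simp [s6_let, s6_g]; rfl
  | (n + 3), false => simp [s6_let, s6_g, hinv]

def s6_val (c0 c1 c2 : ℕ) (j : Fin 6) : F2 :=
  if (3 ≤ j.1 : Bool) then (s6_g (s6_cod c0 c1 c2 (j.1 % 3)))⁻¹ else s6_g (s6_cod c0 c1 c2 (j.1 % 3))

theorem s6_run_V (c0 c1 c2 : ℕ) (l : List (Fin 6)) : ∀ st : List (Bool × Bool),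
    s6_V (s6_run c0 c1 c2 l st) = s6_V st * (l.map (s6_val c0 c1 c2)).prod := by
  induction l with
  | nil => intro st; simp [s6_run]
  | cons j l ih =>
    intro st
    have h := s6_let_g (s6_cod c0 c1 c2 (j.1 % 3)) (3 ≤ j.1)
    rw [List.map_cons, List.prod_cons, ← mul_assoc]
    rw [show s6_val c0 c1 c2 j = _ from rfl, s6_val]
    rw [← h]
    rw [s6_run]
    cases hq : s6_let (s6_cod c0 c1 c2 (j.1 % 3)) (decide (3 ≤ j.1)) with
    | none => simp only [mul_one]; exact ih st
    | some a => simp only; rw [ih, s6_push_V]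

theorem s6_filterMap_prod {D : Type} (k : D → Option (Fin 6)) (V : Fin 6 → F2) (val : D → F2)
    (h1 : ∀ d, k d = none → val d = 1) (h2 : ∀ d j, k d = some j → val d = V j) (w : List D) :
    (w.map val).prod = ((w.filterMap k).map V).prod := by
  induction w with
  | nil => rfl
  | cons d w ih =>
    rw [List.map_cons, List.prod_cons, ih, List.filterMap_cons]
    cases hk : k d with
    | none => simp only [h1 d hk, one_mul]
    | some j => simp only [h2 d j hk, List.map_cons, List.prod_cons]

theorem word_lemma {D : Type} [DecidableEq D] (w : List D) (hw : w.Nodup) (p q : Fin 3 → D) (hp : ∀ i, p i ∈ w) (hq : ∀ i, q i ∈ w)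
    (hinj : Function.Injective (Sum.elim p q)) : ∃ g : Fin 3 → F2,
      (∀ b : Bool, ∃ i, g i = FreeGroup.of b ∨ g i = (FreeGroup.of b)⁻¹) ∧
      ∀ val : D → F2, (∀ i, val (p i) = g i) → (∀ i, val (q i) = (g i)⁻¹) → (∀ d, (∀ i, d ≠ p i ∧ d ≠ q i) → val d = 1) →
        (w.map val).prod = 1 := by
  classical
  obtain ⟨L, hL⟩ : ∃ L : Fin 6 → D, L = fun j => if h : j.1 < 3 then p ⟨j.1, h⟩ else q ⟨j.1 - 3, by omega⟩ := ⟨_, rfl⟩
  have hLp : ∀ i : Fin 3, L ⟨i.1, by omega⟩ = p i := by
    intro i
    rw [hL]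
    exact dif_pos i.2
  have hLq : ∀ i : Fin 3, L ⟨i.1 + 3, by omega⟩ = q i := by
    intro i
    rw [hL]
    have : ¬ (i.1 + 3 < 3) := by omega
    simp only [this, dif_neg, not_false_eq_true, Nat.add_sub_cancel]
  have hcase : ∀ j : Fin 6, (∃ i : Fin 3, j = ⟨i.1, by omega⟩) ∨ ∃ i : Fin 3, j = ⟨i.1 + 3, by omega⟩ := by
    intro j
    by_cases h : j.1 < 3
    · exact Or.inl ⟨⟨j.1, h⟩, rfl⟩
    · exact Or.inr ⟨⟨j.1 - 3, by omega⟩, Fin.ext (by simp only; omega)⟩
  have hLinj : Function.Injective L := by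
    intro j j' h
    rcases hcase j with ⟨i, rfl⟩ | ⟨i, rfl⟩ <;> rcases hcase j' with ⟨i', rfl⟩ | ⟨i', rfl⟩
    · rw [hLp, hLp] at h
      have := @hinj (Sum.inl i) (Sum.inl i') h
      rw [Sum.inl.inj this]
    · rw [hLp, hLq] at h
      exact absurd (@hinj (Sum.inl i) (Sum.inr i') h) (by simp)
    · rw [hLp, hLq] at h
      exact absurd (@hinj (Sum.inr i) (Sum.inl i') h) (by simp)
    · rw [hLq, hLq] at h
      have := @hinj (Sum.inr i) (Sum.inr i') h
      rw [Sum.inr.inj this]
  have hk := Function.partialInv_of_injective hLinj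
  obtain ⟨k, hkd⟩ : ∃ k, k = Function.partialInv L := ⟨_, rfl⟩
  rw [← hkd] at hk
  obtain ⟨l, hl⟩ : ∃ l, l = w.filterMap k := ⟨_, rfl⟩
  have hmem : ∀ j : Fin 6, j ∈ l := by
    intro j
    rw [hl, List.mem_filterMap]
    refine ⟨L j, ?_, (hk j (L j)).2 rfl⟩
    rcases hcase j with ⟨i, rfl⟩ | ⟨i, rfl⟩
    · rw [hLp]; exact hp i
    · rw [hLq]; exact hq i
  have hnd : l.Nodup := by
    rw [hl]
    refine hw.filterMap ?_
    intro a a' b h h'
    rw [← (hk b a).1 h, ← (hk b a').1 h']
  have hperm : l ∈ List.permutations' ([0, 1, 2, 3, 4, 5] : List (Fin 6)) := by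
    rw [List.mem_permutations']
    refine List.perm_of_nodup_nodup_toFinset_eq hnd (by decide) ?_
    ext j
    simp only [List.mem_toFinset]
    constructor
    · intro _
      fin_cases j <;> simp
    · intro _
      exact hmem j
  obtain ⟨c, hc, hrun⟩ := s6_check l hperm
  have hprod : (l.map (s6_val c.1 c.2.1 c.2.2)).prod = 1 := by
    have := s6_run_V c.1 c.2.1 c.2.2 l []
    rw [hrun] at this
    simpa [s6_V] using this.symm
  refine ⟨fun i => s6_g (s6_cod c.1 c.2.1 c.2.2 i.1), ?_, ?_⟩
  · simp only [s6_cands, List.mem_cons, List.not_mem_nil, or_false] at hc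
    intro b
    rcases hc with rfl | rfl | rfl | rfl | rfl | rfl | rfl | rfl | rfl <;> cases b <;>
      first
        | exact ⟨0, Or.inl rfl⟩
        | exact ⟨1, Or.inl rfl⟩
        | exact ⟨2, Or.inl rfl⟩
  · intro val h1 h2 h3
    rw [s6_filterMap_prod k (s6_val c.1 c.2.1 c.2.2) val ?_ ?_ w, ← hl, hprod]
    · intro d hd
      refine h3 d fun i => ⟨?_, ?_⟩
      · rintro rfl
        have := (hk ⟨i.1, by omega⟩ (p i)).2 (hLp i)
        rw [hd] at this
        exact absurd this (by simp)
      · rintro rfl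
        have := (hk ⟨i.1 + 3, by omega⟩ (q i)).2 (hLq i)
        rw [hd] at this
        exact absurd this (by simp)
    · intro d j hd
      have hdj := (hk j d).1 hd
      rcases hcase j with ⟨i, rfl⟩ | ⟨i, rfl⟩
      · rw [← hdj, hLp, h1]
        have e1 : i.1 % 3 = i.1 := Nat.mod_eq_of_lt i.2
        have e2 : ¬ (3 ≤ i.1) := by omega
        simp [s6_val, e1, e2]
      · rw [← hdj, hLq, h2]
        have e1 : (i.1 + 3) % 3 = i.1 := by omega
        have e2 : 3 ≤ i.1 + 3 := by omega
        simp [s6_val, e1]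

end H32D
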