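import Pool.Agent.Lib.H32D.S4
import Pool.Agent.Lib.H32D.S5
import Pool.Agent.Lib.H32D.S6

set_option autoImplicit false

/-!
# H32D, chunk S7 (M): the labelling of the surface

Take `O`, `Built O K.tris C w`, the graph `G` and the three edges of `exists_three`; write the edges as `{a i, b i}`, `p i = (a i, b i)`, `q i = (b i, a i)`; both
are in `w` by `BuiltInv.mem` (every directed edge of `K` has an oriented triangle: `{a, b}` is in a triangle `{a, b, c}` and by `edge` in two, one for each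
direction, by `total`, `anti`, `unique`). `word_lemma` gives `g`; put `μ (a i) (b i) = g i`, `μ (b i) (a i) = (g i)⁻¹`, `μ = 1` otherwise. `exists_flat`. The labels on
the edges of `G` are `1` (they are not in `C` and not among the three), so `trivGraph` contains `G`. The generators: `lab (a i) (b i) = g i` or
`lab (b i) (a i) = (g i)⁻¹`.

Auxiliary names start with `s7_`.
-/

open Finset

namespace H32D

theorem s7_dir {V : Type} [Fintype V] [DecidableEq V] {K : Cpx V} (hK : IsSurface K) {O : V → V → V → Prop}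
    (hO : IsOrientation K O) {a b : V} (hab : a ≠ b) (hf : ({a, b} : Finset V) ∈ K.faces) :
    ∃ z, O a b z ∧ ({a, b, z} : Finset V) ∈ K.tris := by
  have h2 := hK.edge _ hf (Finset.card_pair hab)
  obtain ⟨t1, t2, h12, ht⟩ := Finset.card_eq_two.1 h2
  have m1 : t1 ∈ K.faces.filter (fun t => ({a, b} : Finset V) ⊆ t ∧ t.card = 3) := by rw [ht]; simp
  have m2 : t2 ∈ K.faces.filter (fun t => ({a, b} : Finset V) ⊆ t ∧ t.card = 3) := by rw [ht]; simp
  obtain ⟨f1, s1, c1⟩ := Finset.mem_filter.1 m1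
  obtain ⟨f2, s2, c2⟩ := Finset.mem_filter.1 m2
  obtain ⟨z1, hz1a, hz1b, e1⟩ := s3_third c1 (s1 (by simp)) (s1 (by simp)) hab
  obtain ⟨z2, hz2a, hz2b, e2⟩ := s3_third c2 (s2 (by simp)) (s2 (by simp)) hab
  have hz12 : z1 ≠ z2 := by
    rintro rfl
    exact h12 (e1.trans e2.symm)
  rcases hO.total a b z1 hab hz1b.symm hz1a.symm (by rw [← e1]; exact f1) with h | h
  · exact ⟨z1, h, by rw [← e1]; exact Finset.mem_filter.2 ⟨f1, c1⟩⟩
  · rcases hO.total a b z2 hab hz2b.symm hz2a.symm (by rw [← e2]; exact f2) with h' | h'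
    · exact ⟨z2, h', by rw [← e2]; exact Finset.mem_filter.2 ⟨f2, c2⟩⟩
    · exact absurd (hO.unique _ _ _ _ h h') hz12

theorem exists_goodLabel {V : Type} [Fintype V] [DecidableEq V] {K : Cpx V} (hK : IsSurface K) (hχ : K.euler ≤ -2) :
    ∃ lab : V → V → F2, GoodLabel K lab := by
  classical
  obtain ⟨O, hO⟩ := hK.orient
  obtain ⟨C, w, hb⟩ := exists_built hK hO
  have inv := built_inv hO hb
  obtain ⟨G, hGK, hG, hGC, E, hE3, hEe, hEC, hGE⟩ := exists_three hK hO hχ hb
  obtain ⟨ε, hε⟩ : ∃ ε : Fin 3 ≃ E, ε = (Finset.equivFinOfCardEq hE3).symm := ⟨_, rfl⟩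
  have hex : ∀ i : Fin 3, ∃ a b : V, a ≠ b ∧ (ε i).1 = {a, b} := by
    intro i
    have := (Finset.mem_filter.1 (hEe (ε i).2)).2
    obtain ⟨a, b, hab, h⟩ := Finset.card_eq_two.1 this
    exact ⟨a, b, hab, h⟩
  choose a b hab hεab using hex
  have hface : ∀ i, ({a i, b i} : Finset V) ∈ K.faces := fun i => by
    rw [← hεab]; exact (Finset.mem_filter.1 (hEe (ε i).2)).1
  have hnC : ∀ i, ({a i, b i} : Finset V) ∉ C := fun i => by
    rw [← hεab]; exact Finset.disjoint_left.1 hEC (ε i).2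
  have hinE : ∀ i, ({a i, b i} : Finset V) ∈ E := fun i => by
    rw [← hεab]; exact (ε i).2
  have hij : ∀ i j, ({a i, b i} : Finset V) = {a j, b j} → i = j := by
    intro i j h
    rw [← hεab, ← hεab] at h
    exact ε.injective (Subtype.ext h)
  have hpw : ∀ i, (a i, b i) ∈ w := fun i =>
    (inv.mem _ _).2 ⟨s7_dir hK hO (hab i) (hface i), hnC i⟩
  have hqw : ∀ i, (b i, a i) ∈ w := fun i =>
    (inv.mem _ _).2 ⟨s7_dir hK hO (hab i).symm (by rw [Finset.pair_comm]; exact hface i), by rw [Finset.pair_comm]; exact hnC i⟩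
  have hpq : ∀ i j, (a i, b i) ≠ (b j, a j) := by
    intro i j h
    obtain ⟨h1, h2⟩ := Prod.mk.inj h
    have : i = j := hij i j (by rw [h1, h2, Finset.pair_comm])
    subst this
    exact hab i h1
  have hinj : Function.Injective (Sum.elim (fun i => (a i, b i)) (fun i => (b i, a i))) := by
    rintro (i | i) (j | j) h
    · simp only [Sum.elim_inl] at h
      obtain ⟨h1, h2⟩ := Prod.mk.inj h
      rw [hij i j (by rw [h1, h2])]
    · exact absurd h (hpq i j)
    · exact absurd h.symm (hpq j i)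
    · simp only [Sum.elim_inr] at h
      obtain ⟨h1, h2⟩ := Prod.mk.inj h
      rw [hij i j (by rw [h1, h2])]
  obtain ⟨g, hgen, hprod⟩ := word_lemma w inv.nodup (fun i => (a i, b i)) (fun i => (b i, a i)) hpw hqw hinj
  have hpinj : ∀ i j, (a i, b i) = (a j, b j) → i = j := fun i j h => by
    have := @hinj (Sum.inl i) (Sum.inl j) h
    exact Sum.inl.inj this
  have hqinj : ∀ i j, (b i, a i) = (b j, a j) → i = j := fun i j h => by
    have := @hinj (Sum.inr i) (Sum.inr j) h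
    exact Sum.inr.inj this
  obtain ⟨val, hv1, hv2, hv3⟩ : ∃ val : V × V → F2, (∀ i, val (a i, b i) = g i) ∧ (∀ i, val (b i, a i) = (g i)⁻¹) ∧
      ∀ d, (∀ i, d ≠ (a i, b i) ∧ d ≠ (b i, a i)) → val d = 1 := by
    refine ⟨fun d => if h : ∃ i, d = (a i, b i) then g h.choose else if h : ∃ i, d = (b i, a i) then (g h.choose)⁻¹ else 1,
      ?_, ?_, ?_⟩
    · intro i
      have h : ∃ j, (a i, b i) = (a j, b j) := ⟨i, rfl⟩
      simp only [h, dif_pos]
      rw [← hpinj _ _ h.choose_spec]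
    · intro i
      have h1 : ¬ ∃ j, (b i, a i) = (a j, b j) := by
        rintro ⟨j, hj⟩
        exact hpq j i hj.symm
      have h : ∃ j, (b i, a i) = (b j, a j) := ⟨i, rfl⟩
      simp only [h1, h, dif_pos, dif_neg, not_false_eq_true]
      rw [← hqinj _ _ h.choose_spec]
    · intro d hd
      have h1 : ¬ ∃ j, d = (a j, b j) := by
        rintro ⟨j, hj⟩
        exact (hd j).1 hj
      have h2 : ¬ ∃ j, d = (b j, a j) := by
        rintro ⟨j, hj⟩
        exact (hd j).2 hj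
      simp only [h1, h2, dif_neg, not_false_eq_true]
  have hinv : ∀ x y, val (y, x) = (val (x, y))⁻¹ := by
    intro x y
    by_cases h1 : ∃ i, (x, y) = (a i, b i)
    · obtain ⟨i, hi⟩ := h1
      obtain ⟨rfl, rfl⟩ := Prod.mk.inj hi
      rw [hv1, hv2]
    · by_cases h2 : ∃ i, (x, y) = (b i, a i)
      · obtain ⟨i, hi⟩ := h2
        obtain ⟨rfl, rfl⟩ := Prod.mk.inj hi
        rw [hv1, hv2, inv_inv]
      · rw [hv3 (x, y) (fun i => ⟨fun h => h1 ⟨i, h⟩, fun h => h2 ⟨i, h⟩⟩),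
          hv3 (y, x) (fun i => ⟨fun h => h2 ⟨i, by rw [Prod.mk.injEq] at h ⊢; exact ⟨h.2, h.1⟩⟩,
            fun h => h1 ⟨i, by rw [Prod.mk.injEq] at h ⊢; exact ⟨h.2, h.1⟩⟩⟩), inv_one]
  obtain ⟨lab, hl1, hl2, hl3⟩ := exists_flat hO hb (fun x y => val (x, y)) hinv (hprod val hv1 hv2 hv3)
  have hflat : Flat K lab := by
    refine ⟨hl1, ?_⟩
    intro x y z hxy hyz hxz hf
    exact hl3 x y z hxy hyz hxz (Finset.mem_filter.2 ⟨hf, Finset.card_eq_three.2 ⟨x, y, z, hxy, hxz, hyz, rfl⟩⟩)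
  refine ⟨lab, hflat, hG.mono ?_, ?_⟩
  · intro x y hxy
    refine ⟨hGK hxy, ?_⟩
    rw [hl2 x y (hGC x y hxy)]
    refine hv3 _ fun i => ⟨?_, ?_⟩
    · intro h
      obtain ⟨h1, h2⟩ := Prod.mk.inj h
      refine hGE x y hxy ?_
      rw [h1, h2]
      exact hinE i
    · intro h
      obtain ⟨h1, h2⟩ := Prod.mk.inj h
      refine hGE x y hxy ?_
      rw [h1, h2, Finset.pair_comm]
      exact hinE i
  · intro c
    obtain ⟨i, hi | hi⟩ := hgen c
    · refine ⟨a i, b i, ⟨hab i, hface i⟩, ?_⟩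
      rw [hl2 _ _ (hnC i), hv1, hi]
    · refine ⟨b i, a i, ⟨(hab i).symm, by rw [Finset.pair_comm]; exact hface i⟩, ?_⟩
      rw [hl1, hl2 _ _ (hnC i), hv1, hi, inv_inv]

end H32D
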