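import Mathlib
import Pool.Agent.Lib.H32D.Leaf

/-!
# The geometric part of the H-move (library H32D, helper32)
-/

open Set Filter Topology

namespace Pool.Agent.Lib.H32D

variable {X : Type*} (T : TS X)

/-- a germ: a map `κ` on a set `H` of vectors, compatible with the structure -/
def TS.Germ (κ : ℂ → X) (H : Set ℂ) : Prop :=
  ∀ w ∈ H, ∃ ε > 0, ∀ u : ℂ, ‖u‖ < ε → w + u ∈ H → κ (w + u) = T.add (κ w) u

/-- `x` sees the centre of the germ `κ` with the displacement `W`, arriving through `H` -/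
def TS.Sees (κ : ℂ → X) (H : Set ℂ) (x : X) (W : ℂ) : Prop :=
  ∃ z : ℝ → X, z 0 = x ∧ T.Path W (Ico 0 1) z ∧
    ∃ s₁ < 1, ∀ s, s₁ < s → s < 1 → ((s - 1 : ℝ) : ℂ) * W ∈ H ∧ z s = κ (((s - 1 : ℝ) : ℂ) * W)

theorem TS.Path.glue' {W : ℂ} {a b c : ℝ} (hab : a ≤ b) (hbc : b < c) {y y' : ℝ → X} (h : T.Path W (Icc a b) y)
    (h' : T.Path W (Ico b c) y') (hb : y b = y' b) :
    T.Path W (Ico a c) (fun s => if s ≤ b then y s else y' s) := by
  intro s hs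
  have hsc : s < (max s b + c) / 2 := by
    rcases le_total s b with h1 | h1
    · rw [max_eq_right h1]; linarith [hs.2]
    · rw [max_eq_left h1]; linarith [hs.2]
  have hbc' : b ≤ (max s b + c) / 2 := by
    have := le_max_right s b
    linarith
  have hc' : (max s b + c) / 2 < c := by
    rcases le_total s b with h1 | h1
    · rw [max_eq_right h1]; linarith
    · rw [max_eq_left h1]; linarith [hs.2]
  have h1 : T.Path W (Icc b ((max s b + c) / 2)) y' := h'.mono T fun u hu => ⟨hu.1, hu.2.trans_lt hc'⟩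
  obtain ⟨ε, hε, h2⟩ := (h.glue T hab hbc' h1 hb) s ⟨hs.1, hsc.le⟩
  refine ⟨min ε ((max s b + c) / 2 - s), lt_min hε (by linarith), fun s' hs' hss => ?_⟩
  apply h2 s' ⟨hs'.1, ?_⟩ (hss.trans_le (min_le_left _ _))
  have := (abs_lt.1 (hss.trans_le (min_le_right _ _))).2
  linarith

/-- near a parameter `s₀` of the base path the chart is the disc of `z s₀` -/
theorem TS.Chart.near {W θ : ℂ} {I : Set ℝ} {z : ℝ → X} {ℓ : ℝ → ℝ → X} (h : T.Chart W θ I z ℓ) {s₀ : ℝ}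
    (hz : ∃ ε > 0, ∀ s ∈ I, |s - s₀| < ε → z s = T.add (z s₀) (((s - s₀ : ℝ) : ℂ) * W)) (e c : ℝ)
    (he : |e| * ‖θ‖ < T.rho (z s₀)) :
    ∃ ε > 0, ∀ s ∈ I, |s - s₀| < ε →
      ℓ s (e + c * (s - s₀)) = T.add (T.add (z s₀) ((e : ℂ) * θ)) (((s - s₀ : ℝ) : ℂ) * (W + c * θ)) := by
  obtain ⟨ε₀, hε₀, hz⟩ := hz
  set g : ℝ := T.rho (z s₀) - |e| * ‖θ‖ with hg
  have hg0 : 0 < g := sub_pos.2 he
  set M : ℝ := 2 * ‖W‖ + 2 * |c| * ‖θ‖ + 1 with hM
  have hM0 : 0 < M := by positivity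
  refine ⟨min ε₀ (g / M), lt_min hε₀ (by positivity), fun s hs hss => ?_⟩
  have h1 := hss.trans_le (min_le_left _ _)
  have h2 := hss.trans_le (min_le_right _ _)
  rw [lt_div_iff₀ hM0] at h2
  have hz1 := hz s hs h1
  have ha := abs_nonneg (s - s₀)
  have hW := norm_nonneg W
  have hθ := norm_nonneg θ
  have hc := abs_nonneg c
  have hcθ : 0 ≤ |c| * ‖θ‖ := mul_nonneg hc hθ
  have b1 : |s - s₀| * ‖W‖ * 2 + |s - s₀| * (|c| * ‖θ‖) * 2 < g := by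
    have : |s - s₀| * M = |s - s₀| * ‖W‖ * 2 + |s - s₀| * (|c| * ‖θ‖) * 2 + |s - s₀| := by rw [hM]; ring
    linarith
  have n1 : 0 ≤ |s - s₀| * ‖W‖ := mul_nonneg ha hW
  have n2 : 0 ≤ |s - s₀| * (|c| * ‖θ‖) := mul_nonneg ha hcθ
  have hrho : T.rho (z s₀) - |s - s₀| * ‖W‖ ≤ T.rho (z s) := by
    rw [hz1]
    have := T.rho_add (z s₀) (((s - s₀ : ℝ) : ℂ) * W) (by rw [norm_mul_ofReal]; linarith [mul_nonneg (abs_nonneg e) hθ])
    rwa [norm_mul_ofReal] at this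
  have b2 : |e + c * (s - s₀)| * ‖θ‖ ≤ |e| * ‖θ‖ + |s - s₀| * (|c| * ‖θ‖) := by
    have : |e + c * (s - s₀)| ≤ |e| + |c| * |s - s₀| := by
      rw [← abs_mul]; exact abs_add_le _ _
    nlinarith
  obtain ⟨L, hL⟩ := h.leaf s hs
  have h3 := hL.path.far T ordConnected_univ (mem_univ (0 : ℝ)) (mem_univ (e + c * (s - s₀)))
    (by rw [h.base s hs, sub_zero]; linarith)
  rw [h3, h.base s hs, hz1, T.add_add _ _ _ (by
    rw [norm_mul_ofReal, norm_mul_ofReal, sub_zero]; linarith), T.add_add _ _ _ (by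
    have b3 : ‖((s - s₀ : ℝ) : ℂ) * (W + c * θ)‖ ≤ |s - s₀| * ‖W‖ + |s - s₀| * (|c| * ‖θ‖) := by
      rw [norm_mul_ofReal]
      have : ‖W + c * θ‖ ≤ ‖W‖ + |c| * ‖θ‖ := by
        refine (norm_add_le _ _).trans ?_
        rw [norm_mul_ofReal]
      nlinarith
    rw [norm_mul_ofReal]
    linarith)]
  congr 1
  push_cast
  ring

/-- The end of the move in a germ. -/
theorem TS.Chart.germ_end {W θ : ℂ} {I : Set ℝ} {z : ℝ → X} {ℓ : ℝ → ℝ → X} (h : T.Chart W θ I z ℓ)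
    {κ : ℂ → X} {H : Set ℂ} (hκ : T.Germ κ H) (c : ℝ) {s : ℝ} (hs : s ∈ I)
    (hz : z s = κ (((s - 1 : ℝ) : ℂ) * W))
    (hH : ∀ τ ∈ uIcc 0 (c * (s - 1)), ((s - 1 : ℝ) : ℂ) * W + (τ : ℂ) * θ ∈ H) :
    ℓ s (c * (s - 1)) = κ (((s - 1 : ℝ) : ℂ) * (W + c * θ)) := by
  obtain ⟨L, hL⟩ := h.leaf s hs
  have h1 : T.Path θ (uIcc 0 (c * (s - 1))) (fun τ => κ (((s - 1 : ℝ) : ℂ) * W + (τ : ℂ) * θ)) := by
    intro τ hτ
    obtain ⟨ε, hε, h2⟩ := hκ _ (hH τ hτ)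
    obtain ⟨δ, hδ, hδ', h3⟩ := exists_small θ one_pos hε
    refine ⟨δ, hδ, fun τ' hτ' hττ => ?_⟩
    have h4 := h2 (((τ' - τ : ℝ) : ℂ) * θ) (by rw [norm_mul_ofReal]; exact h3 _ hττ) (by
      have := hH τ' hτ'
      convert this using 1
      push_cast; ring)
    rw [← h4]
    congr 1
    push_cast; ring
  have h2 := (hL.path.mono T (subset_univ (uIcc 0 (c * (s - 1))))).uniq T ordConnected_uIcc h1 left_mem_uIcc
    (by show ℓ s 0 = κ (((s - 1 : ℝ) : ℂ) * W + ((0 : ℝ) : ℂ) * θ)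
        rw [h.base s hs, hz]; simp) (right_mem_uIcc)
  rw [h2]
  show κ (((s - 1 : ℝ) : ℂ) * W + ((c * (s - 1) : ℝ) : ℂ) * θ) = κ (((s - 1 : ℝ) : ℂ) * (W + c * θ))
  have h3 : ((s - 1 : ℝ) : ℂ) * W + ((c * (s - 1) : ℝ) : ℂ) * θ = ((s - 1 : ℝ) : ℂ) * (W + c * θ) := by
    push_cast
    ring
  rw [h3]

/-- The combinatorial data of the move: break points `s 0 = 0 < s 1 < … < s (m+1) = 1`, all leaves between two break
points periodic with the period `L i`. -/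
structure TS.Breaks (W θ : ℂ) (z : ℝ → X) (ℓ : ℝ → ℝ → X) (m : ℕ) (s : ℕ → ℝ) (L : ℕ → ℝ) : Prop where
  zero : s 0 = 0
  one : s (m + 1) = 1
  lt : ∀ i ≤ m, s i < s (i + 1)
  path : T.Path W (Ico 0 1) z
  chart : ∀ i ≤ m, T.Chart W θ (Ioo (s i) (s (i + 1))) z ℓ
  per : ∀ i ≤ m, ∀ u ∈ Ioo (s i) (s (i + 1)), T.Leaf θ (L i) (ℓ u)
  first : T.Chart W θ (Ico 0 (s 1)) z ℓ

theorem TS.Breaks.nonneg {W θ : ℂ} {z : ℝ → X} {ℓ : ℝ → ℝ → X} {m : ℕ} {s L : ℕ → ℝ}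
    (h : T.Breaks W θ z ℓ m s L) {i : ℕ} (hi : i ≤ m + 1) : 0 ≤ s i := by
  induction i with
  | zero => rw [h.zero]
  | succ i ih => exact (ih (by omega)).trans (h.lt i (by omega)).le

theorem TS.Breaks.lt_one {W θ : ℂ} {z : ℝ → X} {ℓ : ℝ → ℝ → X} {m : ℕ} {s L : ℕ → ℝ}
    (h : T.Breaks W θ z ℓ m s L) {i : ℕ} (hi : i ≤ m) : s i < 1 := by
  have key : ∀ k i, i + k = m + 1 → 0 < k → s i < s (m + 1) := by
    intro k
    induction k with
    | zero => intro i _ h0; exact absurd h0 (lt_irrefl 0)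
    | succ k ih =>
      intro i hik _
      have h1 := h.lt i (by omega)
      rcases Nat.eq_zero_or_pos k with h2 | h2
      · have h3 : i + 1 = m + 1 := by omega
        rwa [h3] at h1
      · exact h1.trans (ih (i + 1) (by omega) h2)
  rw [← h.one]
  exact key (m + 1 - i) i (by omega) (by omega)

/-- the base path near a break point -/
theorem TS.Breaks.base_near {W θ : ℂ} {z : ℝ → X} {ℓ : ℝ → ℝ → X} {m : ℕ} {s L : ℕ → ℝ}
    (h : T.Breaks W θ z ℓ m s L) {i : ℕ} (hi : i ≤ m) :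
    ∃ ε > 0, ∀ u ∈ Ico (0 : ℝ) 1, |u - s i| < ε → z u = T.add (z (s i)) (((u - s i : ℝ) : ℂ) * W) :=
  h.path (s i) ⟨h.nonneg T (by omega), h.lt_one T hi⟩

/-- the point at the break point `i` of the sheared path -/
def pt (T : TS X) (θ : ℂ) (z : ℝ → X) (ℓ : ℝ → ℝ → X) (s : ℕ → ℝ) (e : ℕ → ℝ) (i : ℕ) : X :=
  if i = 0 then ℓ 0 (e 0) else T.add (z (s i)) ((e i : ℂ) * θ)

theorem TS.Breaks.start_near {W θ : ℂ} {z : ℝ → X} {ℓ : ℝ → ℝ → X} {m : ℕ} {s L : ℕ → ℝ}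
    (h : T.Breaks W θ z ℓ m s L) (c : ℝ) (e : ℕ → ℝ) {i : ℕ} (hi : i ≤ m)
    (he : 0 < i → |e i| * ‖θ‖ < T.rho (z (s i))) :
    ∃ ε > 0, ∀ u, s i < u → u < s i + ε → u < s (i + 1) →
      ℓ u ((e i - c * s i) + c * u) = T.add (pt T θ z ℓ s e i) (((u - s i : ℝ) : ℂ) * (W + c * θ)) := by
  rcases Nat.eq_zero_or_pos i with h0 | h0
  · subst h0
    have h1 := (h.first).diag T (e 0) c
    have hs0 : (0 : ℝ) ∈ Ico (0 : ℝ) (s 1) := ⟨le_rfl, by have := h.lt 0 (by omega); rwa [h.zero] at this⟩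
    obtain ⟨ε, hε, h2⟩ := h1 0 hs0
    refine ⟨ε, hε, fun u hu1 hu2 hu3 => ?_⟩
    rw [h.zero] at hu1 hu2 ⊢
    rw [zero_add] at hu2 hu3
    have h3 : ℓ u (e 0 + c * u) = T.add (ℓ 0 (e 0 + c * 0)) (((u - 0 : ℝ) : ℂ) * (W + c * θ)) :=
      h2 u ⟨hu1.le, hu3⟩ (by rw [sub_zero, abs_of_pos hu1]; exact hu2)
    rw [mul_zero, _root_.add_zero] at h3
    simp only [pt, if_true, mul_zero, sub_zero] at h3 ⊢
    exact h3
  · obtain ⟨ε, hε, h1⟩ := (h.chart i hi).near T (s₀ := s i) (by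
      obtain ⟨ε, hε, h2⟩ := h.base_near T hi
      refine ⟨ε, hε, fun u hu => h2 u ⟨(h.nonneg T (by omega)).trans hu.1.le, ?_⟩⟩
      rcases Nat.lt_or_ge i m with h3 | h3
      · exact hu.2.trans (h.lt_one T (by omega))
      · have : i = m := le_antisymm hi h3
        subst this
        rw [h.one] at hu; exact hu.2) (e i) c (he h0)
    refine ⟨ε, hε, fun u hu1 hu2 hu3 => ?_⟩
    have h2 := h1 u ⟨hu1, hu3⟩ (by rw [abs_of_pos (by linarith)]; linarith)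
    rw [show e i - c * s i + c * u = e i + c * (u - s i) by ring, h2]
    simp only [pt, if_neg (Nat.pos_iff_ne_zero.1 h0)]

theorem TS.Breaks.end_near {W θ : ℂ} {z : ℝ → X} {ℓ : ℝ → ℝ → X} {m : ℕ} {s L : ℕ → ℝ}
    (h : T.Breaks W θ z ℓ m s L) (c : ℝ) (e : ℕ → ℝ) (K : ℤ) {i : ℕ} (hi : i < m)
    (he : |e (i + 1)| * ‖θ‖ < T.rho (z (s (i + 1))))
    (hstep : e i + c * (s (i + 1) - s i) = e (i + 1) + K * L i) :
    ∃ ε > 0, ∀ u, s (i + 1) - ε < u → u < s (i + 1) → s i < u →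
      ℓ u ((e i - c * s i) + c * u) =
        T.add (pt T θ z ℓ s e (i + 1)) (((u - s (i + 1) : ℝ) : ℂ) * (W + c * θ)) := by
  obtain ⟨ε, hε, h1⟩ := (h.chart i hi.le).near T (s₀ := s (i + 1)) (by
    obtain ⟨ε, hε, h2⟩ := h.base_near T (i := i + 1) (by omega)
    refine ⟨ε, hε, fun u hu => h2 u ⟨(h.nonneg T (by omega)).trans hu.1.le, ?_⟩⟩
    exact hu.2.trans (h.lt_one T (by omega))) (e (i + 1)) c he
  refine ⟨ε, hε, fun u hu1 hu2 hu3 => ?_⟩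
  have h2 := h1 u ⟨hu3, hu2⟩ (by rw [abs_of_neg (by linarith)]; linarith)
  have h3 := (h.per i hi.le u ⟨hu3, hu2⟩).per_int T K (e (i + 1) + c * (u - s (i + 1)))
  simp only [pt, if_neg (Nat.succ_ne_zero i)]
  rw [← h2, ← h3]
  congr 1
  linear_combination hstep

/-- THE SHEARED PATH. -/
theorem TS.Breaks.sheared {W θ : ℂ} {z : ℝ → X} {ℓ : ℝ → ℝ → X} {m : ℕ} {s L : ℕ → ℝ}
    (h : T.Breaks W θ z ℓ m s L) (c : ℝ) (e : ℕ → ℝ) (K : ℕ → ℤ)
    (he : ∀ i, 0 < i → i ≤ m → |e i| * ‖θ‖ < T.rho (z (s i)))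
    (hstep : ∀ i < m, e i + c * (s (i + 1) - s i) = e (i + 1) + K i * L i) :
    ∀ i ≤ m, ∃ y : ℝ → X, y 0 = ℓ 0 (e 0) ∧ y (s i) = pt T θ z ℓ s e i ∧ T.Path (W + c * θ) (Icc 0 (s i)) y := by
  intro i
  induction i with
  | zero =>
    intro _
    refine ⟨fun _ => ℓ 0 (e 0), rfl, by simp [pt], ?_⟩
    intro u hu
    rw [h.zero] at hu
    have hu0 : u = 0 := le_antisymm hu.2 hu.1
    refine ⟨1, one_pos, fun u' hu' _ => ?_⟩
    rw [h.zero] at hu'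
    have hu0' : u' = 0 := le_antisymm hu'.2 hu'.1
    rw [hu0, hu0']
    simp [T.add_zero]
  | succ i ih =>
    intro hi
    obtain ⟨y, hy0, hy1, hy2⟩ := ih (by omega)
    obtain ⟨y', hy0', hy1', hy2', _⟩ := (h.chart i (by omega)).strip T (h.lt i (by omega)) (e i - c * s i) c
      (pt T θ z ℓ s e i) (pt T θ z ℓ s e (i + 1)) (h.start_near T c e (by omega) (fun h0 => he i h0 (by omega)))
      (h.end_near T c e (K i) (by omega) (he (i + 1) (by omega) hi) (hstep i (by omega)))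
    have hs0 : 0 ≤ s i := h.nonneg T (by omega)
    have hs1 : s i < s (i + 1) := h.lt i (by omega)
    refine ⟨fun u => if u ≤ s i then y u else y' u, ?_, ?_, ?_⟩
    · simp only [hs0, if_true]; exact hy0
    · simp only [not_le.2 hs1, if_false]; exact hy1'
    · exact hy2.glue T hs0 hs1.le hy2' (by rw [hy1, hy0'])

/-- the last strip, up to the germ -/
theorem TS.Breaks.sees {W θ : ℂ} {z : ℝ → X} {ℓ : ℝ → ℝ → X} {m : ℕ} {s L : ℕ → ℝ}
    (h : T.Breaks W θ z ℓ m s L) (c : ℝ) (e : ℕ → ℝ) (K : ℕ → ℤ)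
    (he : ∀ i, 0 < i → i ≤ m → |e i| * ‖θ‖ < T.rho (z (s i)))
    (hstep : ∀ i < m, e i + c * (s (i + 1) - s i) = e (i + 1) + K i * L i)
    (hlast : e m + c * (1 - s m) = K m * L m)
    {κ : ℂ → X} {H : Set ℂ} (hκ : T.Germ κ H)
    (hz : ∃ s₁ < 1, ∀ u, s₁ < u → u < 1 → z u = κ (((u - 1 : ℝ) : ℂ) * W))
    (hH : ∃ s₁ < 1, ∀ u, s₁ < u → u < 1 → ∀ τ ∈ uIcc 0 (c * (u - 1)), ((u - 1 : ℝ) : ℂ) * W + (τ : ℂ) * θ ∈ H) :
    T.Sees κ H (ℓ 0 (e 0)) (W + c * θ) := by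
  classical
  obtain ⟨y, hy0, hy1, hy2⟩ := h.sheared T c e K he hstep m le_rfl
  have hsm : s m < 1 := h.lt_one T le_rfl
  have hs0 : 0 ≤ s m := h.nonneg T (by omega)
  have hch := h.chart m le_rfl
  rw [h.one] at hch
  obtain ⟨ε, hε, hst⟩ := h.start_near T c e le_rfl (fun h0 => he m h0 le_rfl)
  rw [h.one] at hst
  -- the last strip, open at 1
  let y' : ℝ → X := fun u => if u = s m then pt T θ z ℓ s e m else ℓ u ((e m - c * s m) + c * u)
  have hy'0 : y' (s m) = pt T θ z ℓ s e m := by simp [y']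
  have hy'1 : ∀ u, s m < u → y' u = ℓ u ((e m - c * s m) + c * u) := by
    intro u hu
    simp [y', hu.ne']
  have hy'2 : T.Path (W + c * θ) (Ico (s m) 1) y' := by
    intro u hu
    rcases eq_or_lt_of_le hu.1 with h1 | h1
    · refine ⟨min ε 1, lt_min hε one_pos, fun u' hu' huu => ?_⟩
      rw [← h1] at huu ⊢
      have h3 := (abs_lt.1 (huu.trans_le (min_le_left _ _))).2
      rw [hy'0]
      rcases eq_or_lt_of_le hu'.1 with h5 | h5
      · rw [← h5, hy'0]; simp [T.add_zero]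
      · rw [hy'1 u' h5, hst u' h5 (by linarith) hu'.2]
    · obtain ⟨δ, hδ, h2⟩ := hch.diag T (e m - c * s m) c u ⟨h1, hu.2⟩
      refine ⟨min δ (u - s m), lt_min hδ (by linarith), fun u' hu' huu => ?_⟩
      have h3 := (abs_lt.1 (huu.trans_le (min_le_right _ _))).1
      have h4 : s m < u' := by linarith
      rw [hy'1 u' h4, hy'1 u h1]
      exact h2 u' ⟨h4, hu'.2⟩ (huu.trans_le (min_le_left _ _))
  refine ⟨fun u => if u ≤ s m then y u else y' u, ?_, ?_, ?_⟩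
  · simp only [hs0, if_true]; exact hy0
  · exact hy2.glue' T hs0 hsm hy'2 (by rw [hy1, hy'0])
  · obtain ⟨s₁, hs₁, hz⟩ := hz
    obtain ⟨s₂, hs₂, hH⟩ := hH
    refine ⟨max (s m) (max s₁ s₂), max_lt hsm (max_lt hs₁ hs₂), fun u hu1 hu2 => ?_⟩
    have g1 : s m < u := (le_max_left _ _).trans_lt hu1
    have g2 : s₁ < u := ((le_max_left _ _).trans (le_max_right _ _)).trans_lt hu1
    have g3 : s₂ < u := ((le_max_right _ _).trans (le_max_right _ _)).trans_lt hu1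
    constructor
    · have := hH u g3 hu2 _ right_mem_uIcc
      convert this using 1
      push_cast; ring
    · simp only [not_le.2 g1, if_false]
      rw [hy'1 u g1]
      have h5 := hch.germ_end T hκ c ⟨g1, hu2⟩ (hz u g2 hu2) (hH u g3 hu2)
      have hper := h.per m le_rfl u (by rw [h.one]; exact ⟨g1, hu2⟩)
      have h6 := hper.per_int T (K m) (c * (u - 1))
      rw [← h5, ← h6]
      congr 1
      linear_combination hlast

end Pool.Agent.Lib.H32D
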