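import Pool.Agent.Lib.H32D.PDefs

set_option autoImplicit false

/-!
# H32D, chunk P1 (M): the fan functions in one strip

Real inequalities: for `j - 1 ≤ s ≤ j`, `s = u + v`, compare the three terms of the minima:
`u / k - (s - k + 1 - v / k) = (k - 1) (k - s) / k` and `(k + 1 - s - u / k) - v / k = (k + 1) (k - s) / k` for every `k ≥ 1`.
`fan_nonneg` is `le_max_left`; `fan_three`: if `fanQ (j-1) ≠ 0` and `fanP j ≠ 0` then `u / (j-1) < j - s` and `v / j < s - j + 1`, so
`u + v < (j-1)(j-s) + j(s-j+1) = s`.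

Auxiliary names start with `p1_`.
-/

open Finset

namespace H32D

theorem fan_nonneg (k : ℕ) (u v : ℝ) : 0 ≤ fan0 u v ∧ 0 ≤ fanP k u v ∧ 0 ≤ fanQ k u v := by
  exact ⟨le_max_left _ _, le_max_left _ _, le_max_left _ _⟩

theorem fan_out {j k : ℕ} (hk : 1 ≤ k) (hj : 1 ≤ j) {u v : ℝ} (hu : 0 ≤ u) (hv : 0 ≤ v) (h1 : (j : ℝ) - 1 ≤ u + v) (h2 : u + v ≤ j)
    (hkj : k ≠ j) (hkj' : k + 1 ≠ j) : fanP k u v = 0 ∧ fanQ k u v = 0 := by
  have hk0 : (1 : ℝ) ≤ k := by exact_mod_cast hk
  have hvk : 0 ≤ v / k := by positivity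
  have huk : 0 ≤ u / k := by positivity
  rcases lt_or_gt_of_ne hkj with h | h
  · have h3 : k + 2 ≤ j := by omega
    have h4 : (k : ℝ) + 2 ≤ j := by exact_mod_cast h3
    constructor
    · exact max_eq_left ((min_le_right _ _).trans (by linarith))
    · exact max_eq_left ((min_le_right _ _).trans (by linarith))
  · have h4 : (j : ℝ) + 1 ≤ k := by exact_mod_cast h
    constructor
    · exact max_eq_left (((min_le_left _ _).trans (min_le_left _ _)).trans (by linarith))
    · exact max_eq_left (((min_le_left _ _).trans (min_le_left _ _)).trans (by linarith))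

theorem fan_upper {j : ℕ} (hj : 1 ≤ j) {u v : ℝ} (hu : 0 ≤ u) (hv : 0 ≤ v) (h1 : (j : ℝ) - 1 ≤ u + v) (h2 : u + v ≤ j) :
    fanP j u v = max 0 (u + v - j + 1 - v / j) ∧ fanQ j u v = min (u + v - j + 1) (v / j) := by
  have hj0 : (1 : ℝ) ≤ j := by exact_mod_cast hj
  have hjp : (0 : ℝ) < j := by linarith
  have hvk : 0 ≤ v / j := by positivity
  have huk : 0 ≤ u / j := by positivity
  have e1 : u / j - (u + v - j + 1 - v / j) = ((j : ℝ) - 1) * (j - (u + v)) / j := by
    field_simp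
    ring
  have e2 : ((j : ℝ) + 1 - (u + v) - u / j) - v / j = ((j : ℝ) + 1) * (j - (u + v)) / j := by
    field_simp
    ring
  have p1 : 0 ≤ ((j : ℝ) - 1) * (j - (u + v)) / j :=
    div_nonneg (mul_nonneg (by linarith) (by linarith)) hjp.le
  have p2 : 0 ≤ ((j : ℝ) + 1) * (j - (u + v)) / j :=
    div_nonneg (mul_nonneg (by linarith) (by linarith)) hjp.le
  constructor
  · rw [fanP, min_eq_left (a := u + v - j + 1 - v / j) (b := u / j) (by linarith), min_eq_left]
    linarith
  · rw [fanQ, min_eq_left, max_eq_right]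
    · exact le_min (by linarith) hvk
    · exact (min_le_right _ _).trans (by linarith)

theorem fan_lower {j : ℕ} (hj : 1 ≤ j) {u v : ℝ} (hu : 0 ≤ u) (hv : 0 ≤ v) (h1 : (j : ℝ) ≤ u + v) (h2 : u + v ≤ j + 1) :
    fanP j u v = min (j + 1 - (u + v)) (u / j) ∧ fanQ j u v = max 0 (j + 1 - (u + v) - u / j) := by
  have hj0 : (1 : ℝ) ≤ j := by exact_mod_cast hj
  have hjp : (0 : ℝ) < j := by linarith
  have hvk : 0 ≤ v / j := by positivity
  have huk : 0 ≤ u / j := by positivity
  have e1 : (u + v - j + 1 - v / j) - u / j = ((j : ℝ) - 1) * ((u + v) - j) / j := by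
    field_simp
    ring
  have e2 : v / j - ((j : ℝ) + 1 - (u + v) - u / j) = ((j : ℝ) + 1) * ((u + v) - j) / j := by
    field_simp
    ring
  have p1 : 0 ≤ ((j : ℝ) - 1) * ((u + v) - j) / j :=
    div_nonneg (mul_nonneg (by linarith) (by linarith)) hjp.le
  have p2 : 0 ≤ ((j : ℝ) + 1) * ((u + v) - j) / j :=
    div_nonneg (mul_nonneg (by linarith) (by linarith)) hjp.le
  constructor
  · rw [fanP, min_eq_right (a := u + v - j + 1 - v / j) (b := u / j) (by linarith), min_comm, max_eq_right]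
    exact le_min (by linarith) huk
  · rw [fanQ, min_eq_right]
    exact le_min (by linarith) (by linarith)

theorem fan_zero {u v : ℝ} (h : 1 ≤ u + v) : fan0 u v = 0 := by
  exact max_eq_left (by linarith)

theorem fan_three {j : ℕ} (hj : 1 ≤ j) {u v : ℝ} (hu : 0 ≤ u) (hv : 0 ≤ v) (h1 : (j : ℝ) ≤ u + v) (h2 : u + v ≤ j + 1)
    (hq : fanQ j u v ≠ 0) : fanP (j + 1) u v = 0 := by
  have hj0 : (1 : ℝ) ≤ j := by exact_mod_cast hj
  have hjp : (0 : ℝ) < j := by linarith
  have hlow := (fan_lower hj hu hv h1 h2).2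
  have hup := (fan_upper (j := j + 1) (by omega) hu hv (by push_cast; linarith) (by push_cast; linarith)).1
  rw [hup]
  apply max_eq_left
  have h3 : 0 < (j : ℝ) + 1 - (u + v) - u / j := by
    by_contra hcon
    exact hq (by rw [hlow]; exact max_eq_left (not_lt.mp hcon))
  have h4 : u / j < (j : ℝ) + 1 - (u + v) := by linarith
  rw [div_lt_iff₀ hjp] at h4
  have h5 : (u + v - j) ≤ v / ((j : ℝ) + 1) := by
    rw [le_div_iff₀ (by linarith)]
    nlinarith
  push_cast
  linarith

theorem fan_edge (k : ℕ) (hk : 1 ≤ k) {t : ℝ} (ht : 0 ≤ t) :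
    fanP k t 0 = hat k t ∧ fanQ k t 0 = 0 ∧ fanP k 0 t = 0 ∧ fanQ k 0 t = hat k t ∧ fan0 t 0 = hat 0 t ∧ fan0 0 t = hat 0 t := by
  have hk0 : (1 : ℝ) ≤ k := by exact_mod_cast hk
  have hkp : (0 : ℝ) < k := by linarith
  have htk : 0 ≤ t / k := by positivity
  have key : max 0 (min (min (t - k + 1) (t / k)) ((k : ℝ) + 1 - t)) = hat k t := by
    rw [hat]
    rcases le_total t k with h | h
    · have e1 : t / k - (t - k + 1) = ((k : ℝ) - 1) * (k - t) / k := by
        field_simp
        ring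
      have p1 : 0 ≤ ((k : ℝ) - 1) * (k - t) / k :=
        div_nonneg (mul_nonneg (by linarith) (by linarith)) hkp.le
      rw [abs_of_nonpos (by linarith), min_eq_left (a := t - (k : ℝ) + 1) (by linarith), min_eq_left (by linarith)]
      congr 1
      ring
    · have e1 : 1 ≤ t / k := by
        rw [le_div_iff₀ hkp]
        linarith
      rw [abs_of_nonneg (by linarith), min_eq_right]
      · congr 1
        ring
      · exact le_min (by linarith) (by linarith)
  refine ⟨?_, ?_, ?_, ?_, ?_, ?_⟩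
  · rw [fanP, ← key]
    simp
  · rw [fanQ]
    apply max_eq_left
    refine ((min_le_left _ _).trans (min_le_right _ _)).trans ?_
    simp
  · rw [fanP]
    apply max_eq_left
    refine ((min_le_left _ _).trans (min_le_right _ _)).trans ?_
    simp
  · rw [fanQ, ← key]
    simp
  · rw [fan0, hat]
    simp [abs_of_nonneg ht]
  · rw [fan0, hat]
    simp [abs_of_nonneg ht]

theorem fan_continuous (k : ℕ) : Continuous (fun p : ℝ × ℝ => fan0 p.1 p.2) ∧ Continuous (fun p : ℝ × ℝ => fanP k p.1 p.2) ∧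
    Continuous (fun p : ℝ × ℝ => fanQ k p.1 p.2) := by
  refine ⟨?_, ?_, ?_⟩
  · unfold fan0
    fun_prop
  · unfold fanP
    fun_prop
  · unfold fanQ
    fun_prop

end H32D
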