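import Pool.Agent.Lib.H32D.PDefs

set_option autoImplicit false

/-!
# H32D, chunk P3 (S/M): the points `mk`

Case distinctions. `siteOf_mk` uses `path a b (ℓ a b) = path b a 0 = vs b`.

Auxiliary names start with `p3_`.
-/

open Finset

namespace H32D

theorem mk_symm {W : Type} {e : W → ℕ} {a b : W} (hab : e a ≠ e b) {N k : ℕ} (hN : 1 ≤ N) (hk : k ≤ N) :
    mk e b a N k = mk e a b N (N - k) := by
  unfold mk
  by_cases h0 : k = 0
  · subst h0
    have h1 : ¬ (N = 0) := by omega
    simp [h1]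
  · by_cases h1 : k = N
    · subst h1
      simp [h0]
    · have h2 : ¬ (N - k = 0) := by omega
      have h3 : ¬ (N - k = N) := by omega
      have h4 : N - (N - k) = k := by omega
      rw [if_neg h0, if_neg h1, if_neg h2, if_neg h3, h4]
      rcases lt_or_gt_of_ne hab with h | h
      · rw [if_neg (by omega), if_pos h]
      · rw [if_pos h, if_neg (by omega)]

theorem mk_carrier {W : Type} (e : W → ℕ) (a b : W) (N k : ℕ) :
    ((mk e a b N k).1 = a ∨ (mk e a b N k).1 = b) ∧ ((mk e a b N k).2.1 = a ∨ (mk e a b N k).2.1 = b) := by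
  unfold mk
  split_ifs <;> simp

theorem siteOf_mk {W : Type} [Fintype W] [DecidableEq W] {K : Cpx W} {n : ℕ} {ℓ : W → W → ℕ} {vs : W → Fin n → ℤ}
    {path : W → W → ℕ → Fin n → ℤ} (hp : Paths K n ℓ vs path) {e : W → ℕ} (he : Function.Injective e) {a b : W}
    (hab : K.graph.Adj a b) {k : ℕ} (hk : k ≤ ℓ a b) : siteOf vs path (mk e a b (ℓ a b) k) = path a b k := by
  have hne : a ≠ b := hab.1
  have hne' : e a ≠ e b := fun h => hne (he h)
  unfold mk
  by_cases h0 : k = 0
  · subst h0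
    rw [if_pos rfl, hp.start a b hab]
    simp [siteOf]
  · rw [if_neg h0]
    by_cases h1 : k = ℓ a b
    · rw [if_pos h1, h1]
      have h2 := hp.rev a b hab 0 (Nat.zero_le _)
      rw [Nat.sub_zero] at h2
      rw [← h2, hp.start b a hab.symm]
      simp [siteOf]
    · rw [if_neg h1]
      rcases lt_or_gt_of_ne hne' with h | h
      · rw [if_pos h, siteOf, if_neg hne]
      · rw [if_neg (by omega), siteOf, if_neg hne.symm]
        have h2 := hp.rev a b hab (ℓ a b - k) (Nat.sub_le _ _)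
        rw [h2]
        congr 1
        omega

theorem locOf_mk {W : Type} [Fintype W] [DecidableEq W] {K : Cpx W} {n : ℕ} {ℓ : W → W → ℕ} {vs : W → Fin n → ℤ}
    {path : W → W → ℕ → Fin n → ℤ} (hp : Paths K n ℓ vs path) {e : W → ℕ} (he : Function.Injective e) {a b : W}
    (hab : K.graph.Adj a b) (hl : 1 ≤ ℓ a b) {k : ℕ} (hk : k ≤ ℓ a b) (v : W) : locOf ℓ (mk e a b (ℓ a b) k) v =
      (1 - (k : ℝ) / ℓ a b) * (if v = a then 1 else 0) + (k : ℝ) / ℓ a b * (if v = b then 1 else 0) := by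
  have hne : a ≠ b := hab.1
  have hne' : e a ≠ e b := fun h => hne (he h)
  have hl0 : (ℓ a b : ℝ) ≠ 0 := by
    have : (1 : ℝ) ≤ ℓ a b := by exact_mod_cast hl
    linarith
  unfold mk
  by_cases h0 : k = 0
  · subst h0
    rw [if_pos rfl]
    simp [locOf]
  · rw [if_neg h0]
    by_cases h1 : k = ℓ a b
    · rw [if_pos h1, h1, div_self hl0]
      simp [locOf]
    · rw [if_neg h1]
      rcases lt_or_gt_of_ne hne' with h | h
      · rw [if_pos h, locOf, if_neg hne]
      · rw [if_neg (by omega), locOf, if_neg hne.symm]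
        have h2 : ((ℓ a b - k : ℕ) : ℝ) = (ℓ a b : ℝ) - k := by
          rw [Nat.cast_sub hk]
        have h3 : ℓ b a = ℓ a b := (hp.symm a b hab).symm
        simp only [h3, h2]
        rw [sub_div, div_self hl0]
        ring

theorem mk_mem_active {W : Type} [Fintype W] [DecidableEq W] {K : Cpx W} {n : ℕ} {ℓ : W → W → ℕ} {vs : W → Fin n → ℤ}
    {path : W → W → ℕ → Fin n → ℤ} (hp : Paths K n ℓ vs path) {e : W → ℕ} (he : Function.Injective e) {a b : W}
    (hab : K.graph.Adj a b) {k : ℕ} (hk : k ≤ ℓ a b) : mk e a b (ℓ a b) k ∈ active K e ℓ := by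
  have hne : a ≠ b := hab.1
  have hne' : e a ≠ e b := fun h => hne (he h)
  unfold active
  simp only [Finset.mem_union, Finset.mem_biUnion, Finset.mem_univ, true_and, Finset.mem_singleton]
  unfold mk
  by_cases h0 : k = 0
  · rw [if_pos h0]
    exact Or.inl ⟨a, rfl⟩
  · rw [if_neg h0]
    by_cases h1 : k = ℓ a b
    · rw [if_pos h1]
      exact Or.inl ⟨b, rfl⟩
    · rw [if_neg h1]
      right
      rcases lt_or_gt_of_ne hne' with h | h
      · rw [if_pos h]
        refine ⟨a, b, ?_⟩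
        rw [if_pos ⟨hab, h⟩, Finset.mem_image]
        exact ⟨k, Finset.mem_Ioo.mpr ⟨by omega, by omega⟩, rfl⟩
      · rw [if_neg (by omega)]
        refine ⟨b, a, ?_⟩
        have h3 : ℓ b a = ℓ a b := (hp.symm a b hab).symm
        rw [if_pos ⟨hab.symm, h⟩, Finset.mem_image]
        exact ⟨ℓ a b - k, Finset.mem_Ioo.mpr ⟨by omega, by omega⟩, rfl⟩

theorem diag_mem_active {W : Type} [Fintype W] [DecidableEq W] (K : Cpx W) (e : W → ℕ) (ℓ : W → W → ℕ) (a : W) :
    (a, a, 0) ∈ active K e ℓ := by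
  unfold active
  simp only [Finset.mem_union, Finset.mem_biUnion, Finset.mem_univ, true_and, Finset.mem_singleton]
  exact Or.inl ⟨a, rfl⟩

end H32D
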