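import Pool.Agent.Lib.H32D.P2
import Pool.Agent.Lib.H32D.P3

set_option autoImplicit false

/-!
# H32D, chunk P7 (M): the corner map

`x` in the triangle `a b c` with `lev_a ≤ α`; here `N = ℓ a b = α + β`, `M = ℓ a c = α + γ`. `fan_sum` with `u = x_b N`, `v = x_c M`. `A` is any finite
set containing the points. Location: `∑_w corner w * locOf w v = (total) [v = a] + (∑ k fanP k / N) ([v = b] - [v = a]) + (∑ k fanQ k / M)
([v = c] - [v = a]) = x v` (`locOf_mk`, `x_a = 1 - x_b - x_c`, and `x v = 0` for the other `v`).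
Support and nearness: choose `j` with `j - 1 ≤ u + v ≤ j`, `1 ≤ j ≤ α`; only the points `k = j - 1, j` of both edges carry weight, and
not all four (`fan_three`; for `j = 1` the two lower points are both `(a, a, 0)`). Their sites are `path a b k = path a c k`, `k ≤ α`
(hypothesis `hleg`), with steps at most `1`.

Auxiliary names start with `p7_`.
-/

open Finset

namespace H32D

variable {W : Type} [Fintype W] [DecidableEq W] {K : Cpx W} {n : ℕ} {ℓ : W → W → ℕ} {vs : W → Fin n → ℤ}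
  {path : W → W → ℕ → Fin n → ℤ}

theorem p7_dl_nonneg {U : Type} (u w : U) : 0 ≤ dl u w := by
  unfold dl
  split_ifs <;> norm_num

theorem p7_dl_self {U : Type} (u : U) : dl u u = 1 := by
  unfold dl
  rw [if_pos rfl]

theorem p7_dl_ne {U : Type} {u w : U} (h : w ≠ u) : dl u w = 0 := by
  unfold dl
  rw [if_neg h]

theorem p7_sum_dl {U : Type} (A : Finset U) {u : U} (hu : u ∈ A) (r : ℝ) (f : U → ℝ) :
    ∑ w ∈ A, r * dl u w * f w = r * f u := by
  classical
  rw [Finset.sum_eq_single u (fun w _ hw => by rw [p7_dl_ne hw]; ring) (fun h => absurd hu h), p7_dl_self]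
  ring

theorem p7_tot {W : Type} [Fintype W] [DecidableEq W] {a b c : W} (hab : a ≠ b) (hbc : b ≠ c) (hac : a ≠ c) {x : W → ℝ}
    (hx : x ∈ stdCell ({a, b, c} : Finset W)) : x a + x b + x c = 1 := by
  obtain ⟨_, h2, h3⟩ := hx
  rw [← Finset.sum_subset (Finset.subset_univ ({a, b, c} : Finset W)) (fun v _ hv => h3 v hv)] at h2
  rw [Finset.sum_insert (by simp [hab, hac]), Finset.sum_insert (by simp [hbc]), Finset.sum_singleton] at h2
  linarith

/-- the corner map integrated against any function -/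
theorem p7_int {W : Type} (e : W → ℕ) {a b c : W} {N M α : ℕ} {x : W → ℝ}
    (A : Finset (W × W × ℕ)) (hA : (a, a, 0) ∈ A) (hA1 : ∀ k ∈ Icc 1 α, mk e a b N k ∈ A)
    (hA2 : ∀ k ∈ Icc 1 α, mk e a c M k ∈ A) (f : W × W × ℕ → ℝ) :
    ∑ w ∈ A, corner e a b c N M α x w * f w = fan0 (x b * N) (x c * M) * f (a, a, 0) +
      ∑ k ∈ Icc 1 α, (fanP k (x b * N) (x c * M) * f (mk e a b N k) + fanQ k (x b * N) (x c * M) * f (mk e a c M k)) := by
  have e0 : ∀ w, corner e a b c N M α x w * f w = fan0 (x b * N) (x c * M) * dl (a, a, 0) w * f w +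
      ∑ k ∈ Icc 1 α, (fanP k (x b * N) (x c * M) * dl (mk e a b N k) w * f w + fanQ k (x b * N) (x c * M) * dl (mk e a c M k) w * f w) := by
    intro w
    unfold corner
    rw [add_mul, Finset.sum_mul]
    congr 1
    exact Finset.sum_congr rfl fun k _ => by ring
  simp only [e0]
  rw [Finset.sum_add_distrib, p7_sum_dl A hA, Finset.sum_comm]
  congr 1
  refine Finset.sum_congr rfl fun k hk => ?_
  rw [Finset.sum_add_distrib, p7_sum_dl A (hA1 k hk), p7_sum_dl A (hA2 k hk)]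

theorem p7_mem {W : Type} {e : W → ℕ} {a b c : W} {N M α : ℕ} {x : W → ℝ} {w : W × W × ℕ} (h : corner e a b c N M α x w ≠ 0) :
    (w = (a, a, 0) ∧ fan0 (x b * N) (x c * M) ≠ 0) ∨ (∃ k ∈ Icc 1 α, w = mk e a b N k ∧ fanP k (x b * N) (x c * M) ≠ 0) ∨
      ∃ k ∈ Icc 1 α, w = mk e a c M k ∧ fanQ k (x b * N) (x c * M) ≠ 0 := by
  by_contra hcon
  push Not at hcon
  obtain ⟨h1, h2, h3⟩ := hcon
  refine h ?_
  unfold corner
  have g1 : fan0 (x b * N) (x c * M) * dl (a, a, 0) w = 0 := by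
    by_cases hw : w = (a, a, 0)
    · rw [h1 hw, zero_mul]
    · rw [p7_dl_ne hw, mul_zero]
  rw [g1, zero_add]
  refine Finset.sum_eq_zero fun k hk => ?_
  have g2 : fanP k (x b * N) (x c * M) * dl (mk e a b N k) w = 0 := by
    by_cases hw : w = mk e a b N k
    · rw [h2 k hk hw, zero_mul]
    · rw [p7_dl_ne hw, mul_zero]
  have g3 : fanQ k (x b * N) (x c * M) * dl (mk e a c M k) w = 0 := by
    by_cases hw : w = mk e a c M k
    · rw [h3 k hk hw, zero_mul]
    · rw [p7_dl_ne hw, mul_zero]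
  rw [g2, g3, add_zero]

theorem corner_nonneg (e : W → ℕ) (a b c : W) (N M α : ℕ) (x : W → ℝ) (w : W × W × ℕ) : 0 ≤ corner e a b c N M α x w := by
  unfold corner
  refine add_nonneg (mul_nonneg (fan_nonneg 0 _ _).1 (p7_dl_nonneg _ _)) (Finset.sum_nonneg fun k _ => ?_)
  exact add_nonneg (mul_nonneg (fan_nonneg k _ _).2.1 (p7_dl_nonneg _ _)) (mul_nonneg (fan_nonneg k _ _).2.2 (p7_dl_nonneg _ _))

theorem corner_sum (e : W → ℕ) {a b c : W} {N M α : ℕ} (hα : 1 ≤ α) {x : W → ℝ} (hx : ∀ v, 0 ≤ x v)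
    (h : x b * N + x c * M ≤ α) (A : Finset (W × W × ℕ)) (hA : (a, a, 0) ∈ A) (hA1 : ∀ k ∈ Icc 1 α, mk e a b N k ∈ A)
    (hA2 : ∀ k ∈ Icc 1 α, mk e a c M k ∈ A) : ∑ w ∈ A, corner e a b c N M α x w = 1 := by
  have h1 := p7_int (x := x) e A hA hA1 hA2 (fun _ => 1)
  simp only [mul_one] at h1
  rw [h1]
  exact (fan_sum hα (mul_nonneg (hx b) (Nat.cast_nonneg N)) (mul_nonneg (hx c) (Nat.cast_nonneg M)) h).1

theorem corner_loc (hp : Paths K n ℓ vs path) {e : W → ℕ} (he : Function.Injective e) {a b c : W} (hab : K.graph.Adj a b)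
    (hac : K.graph.Adj a c) (hbc : b ≠ c) {α : ℕ} (hα : 1 ≤ α) (hN : α ≤ ℓ a b) (hM : α ≤ ℓ a c) {x : W → ℝ}
    (hx : x ∈ stdCell ({a, b, c} : Finset W)) (h : x b * ℓ a b + x c * ℓ a c ≤ α) (A : Finset (W × W × ℕ)) (hA : (a, a, 0) ∈ A)
    (hA1 : ∀ k ∈ Icc 1 α, mk e a b (ℓ a b) k ∈ A) (hA2 : ∀ k ∈ Icc 1 α, mk e a c (ℓ a c) k ∈ A) (v : W) :
    ∑ w ∈ A, corner e a b c (ℓ a b) (ℓ a c) α x w * locOf ℓ w v = x v := by
  rw [p7_int e A hA hA1 hA2 (fun w => locOf ℓ w v)]
  obtain ⟨s1, s2, s3⟩ := fan_sum hα (mul_nonneg (hx.1 b) (Nat.cast_nonneg (ℓ a b))) (mul_nonneg (hx.1 c) (Nat.cast_nonneg (ℓ a c))) h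
  have hN0 : (0 : ℝ) < ℓ a b := by exact_mod_cast (by omega : 0 < ℓ a b)
  have hM0 : (0 : ℝ) < ℓ a c := by exact_mod_cast (by omega : 0 < ℓ a c)
  have nab : a ≠ b := hab.1
  have nac : a ≠ c := hac.1
  have ht := p7_tot nab hbc nac hx
  obtain ⟨da, hda⟩ : ∃ r : ℝ, r = (if v = a then 1 else 0) := ⟨_, rfl⟩
  obtain ⟨db, hdb⟩ : ∃ r : ℝ, r = (if v = b then 1 else 0) := ⟨_, rfl⟩
  obtain ⟨dc, hdc⟩ : ∃ r : ℝ, r = (if v = c then 1 else 0) := ⟨_, rfl⟩
  have l0 : locOf ℓ (a, a, 0) v = da := by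
    unfold locOf
    rw [if_pos rfl, hda]
  have key : ∀ k ∈ Icc 1 α, (fanP k (x b * ℓ a b) (x c * ℓ a c) * locOf ℓ (mk e a b (ℓ a b) k) v +
      fanQ k (x b * ℓ a b) (x c * ℓ a c) * locOf ℓ (mk e a c (ℓ a c) k) v) =
      (fanP k (x b * ℓ a b) (x c * ℓ a c) + fanQ k (x b * ℓ a b) (x c * ℓ a c)) * da +
      ((k : ℝ) * fanP k (x b * ℓ a b) (x c * ℓ a c)) * ((db - da) / ℓ a b) +
      ((k : ℝ) * fanQ k (x b * ℓ a b) (x c * ℓ a c)) * ((dc - da) / ℓ a c) := by
    intro k hk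
    rw [Finset.mem_Icc] at hk
    rw [locOf_mk hp he hab (by omega) (by omega) v, locOf_mk hp he hac (by omega) (by omega) v, ← hda, ← hdb, ← hdc]
    field_simp
    ring
  rw [Finset.sum_congr rfl key, Finset.sum_add_distrib, Finset.sum_add_distrib, ← Finset.sum_mul, ← Finset.sum_mul, ← Finset.sum_mul,
    s2, s3, l0]
  have h5 : fan0 (x b * ℓ a b) (x c * ℓ a c) * da + ((∑ k ∈ Icc 1 α, (fanP k (x b * ℓ a b) (x c * ℓ a c) + fanQ k (x b * ℓ a b) (x c * ℓ a c))) * da +
      x b * ℓ a b * ((db - da) / ℓ a b) + x c * ℓ a c * ((dc - da) / ℓ a c)) =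
      (fan0 (x b * ℓ a b) (x c * ℓ a c) + ∑ k ∈ Icc 1 α, (fanP k (x b * ℓ a b) (x c * ℓ a c) + fanQ k (x b * ℓ a b) (x c * ℓ a c))) * da +
      x b * (db - da) + x c * (dc - da) := by
    field_simp
    ring
  rw [h5, s1, hda, hdb, hdc]
  by_cases hva : v = a
  · subst hva
    rw [if_neg nab, if_neg nac, if_pos rfl]
    linarith
  · by_cases hvb : v = b
    · subst hvb
      rw [if_neg nab.symm, if_neg hbc, if_pos rfl]
      ring
    · by_cases hvc : v = c
      · subst hvc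
        rw [if_neg nac.symm, if_neg hbc.symm, if_pos rfl]
        ring
      · rw [if_neg hva, if_neg hvb, if_neg hvc, hx.2.2 v (by simp [hva, hvb, hvc])]
        ring

theorem corner_support (hp : Paths K n ℓ vs path) {e : W → ℕ} (he : Function.Injective e) {a b c : W} (hab : K.graph.Adj a b)
    (hac : K.graph.Adj a c) {α : ℕ} (hα : 1 ≤ α) (hN : α ≤ ℓ a b) (hM : α ≤ ℓ a c) (hleg : ∀ k ≤ α, path a b k = path a c k)
    {x : W → ℝ} (hx : ∀ v, 0 ≤ x v) (h : x b * ℓ a b + x c * ℓ a c ≤ α) :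
    ∃ S : Finset (W × W × ℕ), S.card ≤ 3 ∧ (∀ w, corner e a b c (ℓ a b) (ℓ a c) α x w ≠ 0 → w ∈ S) ∧
      (∀ w ∈ S, ∀ w' ∈ S, ∀ i, |siteOf vs path w i - siteOf vs path w' i| ≤ 1) := by
  obtain ⟨u, hu⟩ : ∃ u : ℝ, u = x b * ℓ a b := ⟨_, rfl⟩
  obtain ⟨t, ht⟩ : ∃ t : ℝ, t = x c * ℓ a c := ⟨_, rfl⟩
  have hu0 : 0 ≤ u := by rw [hu]; exact mul_nonneg (hx b) (Nat.cast_nonneg _)
  have ht0 : 0 ≤ t := by rw [ht]; exact mul_nonneg (hx c) (Nat.cast_nonneg _)
  have hut : u + t ≤ α := by rw [hu, ht]; exact h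
  have s0 : siteOf vs path (a, a, 0) = path a b 0 := by
    rw [hp.start a b hab]
    unfold siteOf
    rw [if_pos rfl]
  have s1 : ∀ k ≤ α, siteOf vs path (mk e a b (ℓ a b) k) = path a b k := fun k hk => siteOf_mk hp he hab (hk.trans hN)
  have s2 : ∀ k ≤ α, siteOf vs path (mk e a c (ℓ a c) k) = path a b k := fun k hk => by
    rw [siteOf_mk hp he hac (hk.trans hM), hleg k hk]
  -- a set whose sites are `path a b (j-1)` or `path a b j`
  have fin : ∀ j, 1 ≤ j → j ≤ α → ∀ S : Finset (W × W × ℕ), (∀ w ∈ S, siteOf vs path w = path a b (j - 1) ∨ siteOf vs path w = path a b j) →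
      (∀ w ∈ S, ∀ w' ∈ S, ∀ i, |siteOf vs path w i - siteOf vs path w' i| ≤ 1) := by
    intro j hj1 hj2 S hS w hw w' hw' i
    have hst := hp.step a b hab (j - 1) (by omega) i
    have hjj : j - 1 + 1 = j := by omega
    rw [hjj] at hst
    rcases hS w hw with g1 | g1 <;> rcases hS w' hw' with g2 | g2 <;> rw [g1, g2]
    · simp
    · exact hst
    · rw [abs_sub_comm]
      exact hst
    · simp
  obtain ⟨j, hj1, hj2, hj3, hj4⟩ : ∃ j : ℕ, 1 ≤ j ∧ j ≤ α ∧ (j : ℝ) - 1 ≤ u + t ∧ u + t ≤ j := by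
    by_cases h0 : u + t ≤ 1
    · exact ⟨1, le_rfl, hα, by push_cast; linarith, by push_cast; exact h0⟩
    · push Not at h0
      refine ⟨⌈u + t⌉₊, ?_, Nat.ceil_le.2 hut, ?_, Nat.le_ceil _⟩
      · exact Nat.one_le_iff_ne_zero.2 (Nat.ceil_pos.2 (by linarith)).ne'
      · have := Nat.ceil_lt_add_one (show 0 ≤ u + t by linarith)
        linarith
  by_cases hj : j = 1
  · subst hj
    refine ⟨{(a, a, 0), mk e a b (ℓ a b) 1, mk e a c (ℓ a c) 1}, Finset.card_le_three, ?_, ?_⟩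
    · intro w hw
      have hout : ∀ k ∈ Icc 1 α, k ≠ 1 → fanP k u t = 0 ∧ fanQ k u t = 0 := by
        intro k hk hk1
        rw [Finset.mem_Icc] at hk
        exact fan_out hk.1 le_rfl hu0 ht0 hj3 hj4 hk1 (by omega)
      rcases p7_mem hw with ⟨h1, _⟩ | ⟨k, hk, h1, h2⟩ | ⟨k, hk, h1, h2⟩
      · simp [h1]
      · by_cases hk1 : k = 1
        · subst hk1
          simp [h1]
        · rw [← hu, ← ht] at h2
          exact absurd (hout k hk hk1).1 h2
      · by_cases hk1 : k = 1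
        · subst hk1
          simp [h1]
        · rw [← hu, ← ht] at h2
          exact absurd (hout k hk hk1).2 h2
    · refine fin 1 le_rfl hj2 _ ?_
      intro w hw
      simp only [Finset.mem_insert, Finset.mem_singleton] at hw
      rcases hw with rfl | rfl | rfl
      · exact Or.inl s0
      · exact Or.inr (s1 1 hj2)
      · exact Or.inr (s2 1 hj2)
  · obtain ⟨i, rfl⟩ : ∃ i, j = i + 1 := ⟨j - 1, by omega⟩
    have hi : 1 ≤ i := by omega
    have hi' : (1 : ℝ) ≤ i := by exact_mod_cast hi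
    push_cast at hj3 hj4
    have h0 : fan0 u t = 0 := fan_zero (by linarith)
    have hout : ∀ k ∈ Icc 1 α, k ≠ i + 1 → k ≠ i → fanP k u t = 0 ∧ fanQ k u t = 0 := by
      intro k hk hk1 hk2
      rw [Finset.mem_Icc] at hk
      exact fan_out hk.1 hj1 hu0 ht0 (by push_cast; linarith) (by push_cast; linarith) hk1 (by omega)
    by_cases hq : fanQ i u t = 0
    · refine ⟨{mk e a b (ℓ a b) i, mk e a b (ℓ a b) (i + 1), mk e a c (ℓ a c) (i + 1)}, Finset.card_le_three, ?_, ?_⟩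
      · intro w hw
        rcases p7_mem hw with ⟨_, h2⟩ | ⟨k, hk, h1, h2⟩ | ⟨k, hk, h1, h2⟩
        · rw [← hu, ← ht] at h2
          exact absurd h0 h2
        · rw [← hu, ← ht] at h2
          by_cases hk1 : k = i + 1
          · subst hk1
            simp [h1]
          · by_cases hk2 : k = i
            · subst hk2
              simp [h1]
            · exact absurd (hout k hk hk1 hk2).1 h2
        · rw [← hu, ← ht] at h2
          by_cases hk1 : k = i + 1
          · subst hk1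
            simp [h1]
          · by_cases hk2 : k = i
            · subst hk2
              exact absurd hq h2
            · exact absurd (hout k hk hk1 hk2).2 h2
      · refine fin (i + 1) (by omega) hj2 _ ?_
        intro w hw
        simp only [Finset.mem_insert, Finset.mem_singleton] at hw
        rcases hw with rfl | rfl | rfl
        · exact Or.inl (s1 i (by omega))
        · exact Or.inr (s1 _ hj2)
        · exact Or.inr (s2 _ hj2)
    · have hpz : fanP (i + 1) u t = 0 := fan_three hi hu0 ht0 (by linarith) (by linarith) hq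
      refine ⟨{mk e a b (ℓ a b) i, mk e a c (ℓ a c) i, mk e a c (ℓ a c) (i + 1)}, Finset.card_le_three, ?_, ?_⟩
      · intro w hw
        rcases p7_mem hw with ⟨_, h2⟩ | ⟨k, hk, h1, h2⟩ | ⟨k, hk, h1, h2⟩
        · rw [← hu, ← ht] at h2
          exact absurd h0 h2
        · rw [← hu, ← ht] at h2
          by_cases hk1 : k = i + 1
          · subst hk1
            exact absurd hpz h2
          · by_cases hk2 : k = i
            · subst hk2
              simp [h1]
            · exact absurd (hout k hk hk1 hk2).1 h2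
        · rw [← hu, ← ht] at h2
          by_cases hk1 : k = i + 1
          · subst hk1
            simp [h1]
          · by_cases hk2 : k = i
            · subst hk2
              simp [h1]
            · exact absurd (hout k hk hk1 hk2).2 h2
      · refine fin (i + 1) (by omega) hj2 _ ?_
        intro w hw
        simp only [Finset.mem_insert, Finset.mem_singleton] at hw
        rcases hw with rfl | rfl | rfl
        · exact Or.inl (s1 i (by omega))
        · exact Or.inl (s2 i (by omega))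
        · exact Or.inr (s2 _ hj2)

theorem corner_carrier (e : W → ℕ) (a b c : W) (N M α : ℕ) (x : W → ℝ) (w : W × W × ℕ) (h : corner e a b c N M α x w ≠ 0) :
    (w.1 = a ∨ w.1 = b ∨ w.1 = c) ∧ (w.2.1 = a ∨ w.2.1 = b ∨ w.2.1 = c) ∧ (w = (a, a, 0) ∨ (∃ k ∈ Icc 1 α, w = mk e a b N k) ∨
      ∃ k ∈ Icc 1 α, w = mk e a c M k) := by
  rcases p7_mem h with ⟨h1, _⟩ | ⟨k, hk, h1, _⟩ | ⟨k, hk, h1, _⟩
  · refine ⟨Or.inl ?_, Or.inl ?_, Or.inl h1⟩ <;> rw [h1]
  · have h3 := mk_carrier e a b N k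
    rw [← h1] at h3
    exact ⟨by tauto, by tauto, Or.inr (Or.inl ⟨k, hk, h1⟩)⟩
  · have h3 := mk_carrier e a c M k
    rw [← h1] at h3
    exact ⟨by tauto, by tauto, Or.inr (Or.inr ⟨k, hk, h1⟩)⟩

end H32D
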