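import Pool.Agent.Lib.H32D.P3

set_option autoImplicit false

/-!
# H32D, chunk P8 (S/M): the central map

`x` in the triangle with all levels at least `α`, `β`, `γ`; the three weights are nonnegative, add up to `1` and reproduce `x`
(`field_simp`, `ring` after `x_a = 1 - x_b - x_c`). The three sites agree: `path a b α = path a c α` and
`path a b α = path b a β = path b c β` (`Paths.rev`: `path b a β = path a b (α + β - β)`).

Auxiliary names start with `p8_`.
-/

open Finset

namespace H32D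

variable {W : Type} [Fintype W] [DecidableEq W] {K : Cpx W} {n : ℕ} {ℓ : W → W → ℕ} {vs : W → Fin n → ℤ}
  {path : W → W → ℕ → Fin n → ℤ}

theorem p8_dl_nonneg {U : Type} (u w : U) : 0 ≤ dl u w := by
  unfold dl
  split_ifs <;> norm_num

theorem p8_dl_self {U : Type} (u : U) : dl u u = 1 := by
  unfold dl
  rw [if_pos rfl]

theorem p8_dl_ne {U : Type} {u w : U} (h : w ≠ u) : dl u w = 0 := by
  unfold dl
  rw [if_neg h]

theorem p8_sum_dl {U : Type} (A : Finset U) {u : U} (hu : u ∈ A) (r : ℝ) (f : U → ℝ) :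
    ∑ w ∈ A, r * dl u w * f w = r * f u := by
  classical
  rw [Finset.sum_eq_single u (fun w _ hw => by rw [p8_dl_ne hw]; ring) (fun h => absurd hu h), p8_dl_self]
  ring

theorem p8_tot {W : Type} [Fintype W] [DecidableEq W] {a b c : W} (hab : a ≠ b) (hbc : b ≠ c) (hac : a ≠ c) {x : W → ℝ}
    (hx : x ∈ stdCell ({a, b, c} : Finset W)) : x a + x b + x c = 1 := by
  obtain ⟨_, h2, h3⟩ := hx
  rw [← Finset.sum_subset (Finset.subset_univ ({a, b, c} : Finset W)) (fun v _ hv => h3 v hv)] at h2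
  rw [Finset.sum_insert (by simp [hab, hac]), Finset.sum_insert (by simp [hbc]), Finset.sum_singleton] at h2
  linarith

theorem p8_mem {W : Type} {e : W → ℕ} {a b c : W} {α β γ : ℕ} {x : W → ℝ} {w : W × W × ℕ} (h : center e a b c α β γ x w ≠ 0) :
    w = mk e a b (α + β) α ∨ w = mk e a c (α + γ) α ∨ w = mk e b c (β + γ) β := by
  by_contra hcon
  push Not at hcon
  obtain ⟨h1, h2, h3⟩ := hcon
  refine h ?_
  unfold center
  rw [p8_dl_ne h1, p8_dl_ne h2, p8_dl_ne h3]
  ring

theorem center_nonneg (e : W → ℕ) (a b c : W) (α β γ : ℕ) {x : W → ℝ} (h1 : (α : ℝ) ≤ lev b c α β γ x)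
    (h2 : (β : ℝ) ≤ lev a c β α γ x) (h3 : (γ : ℝ) ≤ lev a b γ α β x) (w : W × W × ℕ) : 0 ≤ center e a b c α β γ x w := by
  unfold center
  have g1 := sub_nonneg.2 h1
  have g2 := sub_nonneg.2 h2
  have g3 := sub_nonneg.2 h3
  have d1 := p8_dl_nonneg (mk e b c (β + γ) β) w
  have d2 := p8_dl_nonneg (mk e a c (α + γ) α) w
  have d3 := p8_dl_nonneg (mk e a b (α + β) α) w
  positivity

theorem center_sum {e : W → ℕ} {a b c : W} (hab : a ≠ b) (hbc : b ≠ c) (hac : a ≠ c) {α β γ : ℕ} (hα : 1 ≤ α) (hβ : 1 ≤ β)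
    (hγ : 1 ≤ γ) {x : W → ℝ} (hx : x ∈ stdCell ({a, b, c} : Finset W)) (A : Finset (W × W × ℕ))
    (hA1 : mk e a b (α + β) α ∈ A) (hA2 : mk e a c (α + γ) α ∈ A) (hA3 : mk e b c (β + γ) β ∈ A) :
    ∑ w ∈ A, center e a b c α β γ x w = 1 := by
  have hα' : (0 : ℝ) < α := by exact_mod_cast hα
  have hβ' : (0 : ℝ) < β := by exact_mod_cast hβ
  have hγ' : (0 : ℝ) < γ := by exact_mod_cast hγ
  have ht := p8_tot hab hbc hac hx
  have e1 := p8_sum_dl A hA3 ((lev b c α β γ x - α) * (β + γ) / (2 * β * γ)) (fun _ => 1)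
  have e2 := p8_sum_dl A hA2 ((lev a c β α γ x - β) * (α + γ) / (2 * α * γ)) (fun _ => 1)
  have e3 := p8_sum_dl A hA1 ((lev a b γ α β x - γ) * (α + β) / (2 * α * β)) (fun _ => 1)
  simp only [mul_one] at e1 e2 e3
  unfold center
  rw [Finset.sum_add_distrib, Finset.sum_add_distrib, e1, e2, e3]
  unfold lev
  have hxa : x a = 1 - x b - x c := by linarith
  rw [hxa]
  field_simp
  ring

theorem center_loc (hp : Paths K n ℓ vs path) {e : W → ℕ} (he : Function.Injective e) {a b c : W} (hab : K.graph.Adj a b)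
    (hac : K.graph.Adj a c) (hbc : K.graph.Adj b c) {α β γ : ℕ} (hα : 1 ≤ α) (hβ : 1 ≤ β)
    (hγ : 1 ≤ γ) (h1 : ℓ a b = α + β) (h2 : ℓ a c = α + γ) (h3 : ℓ b c = β + γ) {x : W → ℝ}
    (hx : x ∈ stdCell ({a, b, c} : Finset W)) (A : Finset (W × W × ℕ))
    (hA1 : mk e a b (α + β) α ∈ A) (hA2 : mk e a c (α + γ) α ∈ A) (hA3 : mk e b c (β + γ) β ∈ A) (v : W) :
    ∑ w ∈ A, center e a b c α β γ x w * locOf ℓ w v = x v := by
  have hα' : (0 : ℝ) < α := by exact_mod_cast hα
  have hβ' : (0 : ℝ) < β := by exact_mod_cast hβ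
  have hγ' : (0 : ℝ) < γ := by exact_mod_cast hγ
  have nab : a ≠ b := hab.1
  have nac : a ≠ c := hac.1
  have nbc : b ≠ c := hbc.1
  have ht := p8_tot nab nbc nac hx
  have e1 := p8_sum_dl A hA3 ((lev b c α β γ x - α) * (β + γ) / (2 * β * γ)) (fun w => locOf ℓ w v)
  have e2 := p8_sum_dl A hA2 ((lev a c β α γ x - β) * (α + γ) / (2 * α * γ)) (fun w => locOf ℓ w v)
  have e3 := p8_sum_dl A hA1 ((lev a b γ α β x - γ) * (α + β) / (2 * α * β)) (fun w => locOf ℓ w v)
  have l1 := locOf_mk hp he hbc (by omega) (k := β) (by omega) v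
  have l2 := locOf_mk hp he hac (by omega) (k := α) (by omega) v
  have l3 := locOf_mk hp he hab (by omega) (k := α) (by omega) v
  rw [h3] at l1
  rw [h2] at l2
  rw [h1] at l3
  have e0 : ∀ w, center e a b c α β γ x w * locOf ℓ w v =
      (lev b c α β γ x - α) * (β + γ) / (2 * β * γ) * dl (mk e b c (β + γ) β) w * locOf ℓ w v +
      (lev a c β α γ x - β) * (α + γ) / (2 * α * γ) * dl (mk e a c (α + γ) α) w * locOf ℓ w v +
      (lev a b γ α β x - γ) * (α + β) / (2 * α * β) * dl (mk e a b (α + β) α) w * locOf ℓ w v := by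
    intro w
    unfold center
    ring
  simp only [e0]
  rw [Finset.sum_add_distrib, Finset.sum_add_distrib, e1, e2, e3, l1, l2, l3]
  unfold lev
  push_cast
  by_cases hva : v = a
  · subst hva
    rw [if_neg nab, if_neg nac, if_pos rfl]
    have hxa : x b = 1 - x v - x c := by linarith
    rw [hxa]
    field_simp
    ring
  · by_cases hvb : v = b
    · subst hvb
      rw [if_neg nab.symm, if_neg nbc, if_pos rfl]
      have hxa : x a = 1 - x v - x c := by linarith
      rw [hxa]
      field_simp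
      ring
    · by_cases hvc : v = c
      · subst hvc
        rw [if_neg nac.symm, if_neg nbc.symm, if_pos rfl]
        have hxa : x a = 1 - x b - x v := by linarith
        rw [hxa]
        field_simp
        ring
      · rw [if_neg hva, if_neg hvb, if_neg hvc, hx.2.2 v (by simp [hva, hvb, hvc])]
        ring

theorem center_support (hp : Paths K n ℓ vs path) {e : W → ℕ} (he : Function.Injective e) {a b c : W} (hab : K.graph.Adj a b)
    (hac : K.graph.Adj a c) (hbc : K.graph.Adj b c) {α β γ : ℕ} (h1 : ℓ a b = α + β) (h2 : ℓ a c = α + γ) (h3 : ℓ b c = β + γ)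
    (l1 : ∀ k ≤ α, path a b k = path a c k) (l2 : ∀ k ≤ β, path b a k = path b c k) (x : W → ℝ) :
    ∃ S : Finset (W × W × ℕ), S.card ≤ 3 ∧ (∀ w, center e a b c α β γ x w ≠ 0 → w ∈ S) ∧
      (∀ w ∈ S, ∀ w' ∈ S, ∀ i, |siteOf vs path w i - siteOf vs path w' i| ≤ 1) := by
  have s1 := siteOf_mk hp he hab (k := α) (by omega)
  have s2 := siteOf_mk hp he hac (k := α) (by omega)
  have s3 := siteOf_mk hp he hbc (k := β) (by omega)
  have r := hp.rev a b hab β (by omega)
  have h4 : ℓ a b - β = α := by omega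
  rw [h4] at r
  rw [h1] at s1
  rw [h2] at s2
  rw [h3] at s3
  rw [← l1 α le_rfl] at s2
  rw [← l2 β le_rfl, r] at s3
  refine ⟨{mk e a b (α + β) α, mk e a c (α + γ) α, mk e b c (β + γ) β}, Finset.card_le_three, ?_, ?_⟩
  · intro w hw
    have := p8_mem hw
    simpa using this
  · have key : ∀ w ∈ ({mk e a b (α + β) α, mk e a c (α + γ) α, mk e b c (β + γ) β} : Finset (W × W × ℕ)),
        siteOf vs path w = path a b α := by
      intro w hw
      simp only [Finset.mem_insert, Finset.mem_singleton] at hw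
      rcases hw with rfl | rfl | rfl
      · exact s1
      · exact s2
      · exact s3
    intro w hw w' hw' i
    rw [key w hw, key w' hw', sub_self, abs_zero]
    norm_num

theorem center_carrier (e : W → ℕ) (a b c : W) (α β γ : ℕ) (x : W → ℝ) (w : W × W × ℕ) (h : center e a b c α β γ x w ≠ 0) :
    (w.1 = a ∨ w.1 = b ∨ w.1 = c) ∧ (w.2.1 = a ∨ w.2.1 = b ∨ w.2.1 = c) ∧
      (w = mk e a b (α + β) α ∨ w = mk e a c (α + γ) α ∨ w = mk e b c (β + γ) β) := by
  have h1 := p8_mem h
  refine ⟨?_, ?_, h1⟩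
  · rcases h1 with h2 | h2 | h2
    · have h3 := (mk_carrier e a b (α + β) α).1
      rw [← h2] at h3
      tauto
    · have h3 := (mk_carrier e a c (α + γ) α).1
      rw [← h2] at h3
      tauto
    · have h3 := (mk_carrier e b c (β + γ) β).1
      rw [← h2] at h3
      tauto
  · rcases h1 with h2 | h2 | h2
    · have h3 := (mk_carrier e a b (α + β) α).2
      rw [← h2] at h3
      tauto
    · have h3 := (mk_carrier e a c (α + γ) α).2
      rw [← h2] at h3
      tauto
    · have h3 := (mk_carrier e b c (β + γ) β).2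
      rw [← h2] at h3
      tauto

end H32D
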