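import Pool.Agent.Lib.H32D.P5
import Pool.Agent.Lib.H32D.P7
import Pool.Agent.Lib.H32D.P8

set_option autoImplicit false

/-!
# H32D, chunk P9 (M): properties of `triMap`

Four cases (`lev_a ≤ α`, `lev_b ≤ β`, `lev_c ≤ γ`, all levels at least): use `triMap_b`, `triMap_c`, `triMap_center` and the lemmas on `corner`
and `center`. For the corner at `b` the edges are `b a`, `b c`: `ℓ b a = ℓ a b` (`Paths.symm`) and the finset `{a, b, c}` is permuted; membership
of `mk e b a (α + β) k` in `active` is `mk_mem_active` for the edge `b a`. The legs of the corner at `c` are `path c a = path c b`.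

Auxiliary names start with `p9_`.
-/

open Finset

namespace H32D

variable {W : Type} [Fintype W] [DecidableEq W] {K : Cpx W} {n : ℕ} {ℓ : W → W → ℕ} {vs : W → Fin n → ℤ}
  {path : W → W → ℕ → Fin n → ℤ}

theorem p9_corner1 {W : Type} [Fintype W] [DecidableEq W] {K : Cpx W} {n : ℕ} {ℓ : W → W → ℕ} {vs : W → Fin n → ℤ}
    {path : W → W → ℕ → Fin n → ℤ} (hp : Paths K n ℓ vs path) {e : W → ℕ} (he : Function.Injective e) {a b c : W} (hab : K.graph.Adj a b)
    (hac : K.graph.Adj a c) (hbc : b ≠ c) {α N M : ℕ} (hα : 1 ≤ α) (hN : ℓ a b = N) (hM : ℓ a c = M) (hN' : α ≤ N) (hM' : α ≤ M) {x : W → ℝ}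
    (hx : x ∈ stdCell ({a, b, c} : Finset W)) (h : x b * N + x c * M ≤ α) :
    (∀ w, 0 ≤ corner e a b c N M α x w) ∧ (∀ w, w ∉ active K e ℓ → corner e a b c N M α x w = 0) ∧
      ∑ w ∈ active K e ℓ, corner e a b c N M α x w = 1 ∧
      ∀ v, ∑ w ∈ active K e ℓ, corner e a b c N M α x w * locOf ℓ w v = x v := by
  subst hN hM
  have m0 := diag_mem_active K e ℓ a
  have m1 : ∀ k ∈ Icc 1 α, mk e a b (ℓ a b) k ∈ active K e ℓ := fun k hk => by
    rw [Finset.mem_Icc] at hk
    exact mk_mem_active hp he hab (hk.2.trans hN')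
  have m2 : ∀ k ∈ Icc 1 α, mk e a c (ℓ a c) k ∈ active K e ℓ := fun k hk => by
    rw [Finset.mem_Icc] at hk
    exact mk_mem_active hp he hac (hk.2.trans hM')
  refine ⟨fun w => corner_nonneg e a b c _ _ α x w, fun w hw => ?_, corner_sum e hα hx.1 h _ m0 m1 m2,
    fun v => corner_loc hp he hab hac hbc hα hN' hM' hx h _ m0 m1 m2 v⟩
  by_contra hne
  rcases (corner_carrier e a b c _ _ α x w hne).2.2 with h1 | ⟨k, hk, h1⟩ | ⟨k, hk, h1⟩
  · exact hw (by rw [h1]; exact m0)
  · exact hw (by rw [h1]; exact m1 k hk)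
  · exact hw (by rw [h1]; exact m2 k hk)

theorem p9_corner2 {W : Type} [Fintype W] [DecidableEq W] {K : Cpx W} {n : ℕ} {ℓ : W → W → ℕ} {vs : W → Fin n → ℤ}
    {path : W → W → ℕ → Fin n → ℤ} (hp : Paths K n ℓ vs path) {e : W → ℕ} (he : Function.Injective e) {a b c : W} (hab : K.graph.Adj a b)
    (hac : K.graph.Adj a c) {α N M : ℕ} (hα : 1 ≤ α) (hN : ℓ a b = N) (hM : ℓ a c = M) (hN' : α ≤ N) (hM' : α ≤ M)
    (hleg : ∀ k ≤ α, path a b k = path a c k) {x : W → ℝ} (hx : ∀ v, 0 ≤ x v) (h : x b * N + x c * M ≤ α) (s : Finset W)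
    (ha : a ∈ s) (hb : b ∈ s) (hc : c ∈ s) :
    (∃ S : Finset (W × W × ℕ), S.card ≤ 3 ∧ (∀ w, corner e a b c N M α x w ≠ 0 → w ∈ S) ∧
      (∀ w ∈ S, ∀ w' ∈ S, ∀ i, |siteOf vs path w i - siteOf vs path w' i| ≤ 1)) ∧
      ∀ w, corner e a b c N M α x w ≠ 0 → w.1 ∈ s ∧ w.2.1 ∈ s := by
  subst hN hM
  refine ⟨corner_support hp he hab hac hα hN' hM' hleg hx h, fun w hw => ?_⟩
  obtain ⟨h1, h2, _⟩ := corner_carrier e a b c _ _ α x w hw
  constructor
  · rcases h1 with h | h | h <;> rw [h] <;> assumption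
  · rcases h2 with h | h | h <;> rw [h] <;> assumption

theorem p9_perm {W : Type} [Fintype W] {s t : Finset W} (hst : ∀ v, v ∈ s ↔ v ∈ t) {x : W → ℝ}
    (hx : x ∈ stdCell s) : x ∈ stdCell t :=
  ⟨hx.1, hx.2.1, fun v hv => hx.2.2 v (fun h => hv ((hst v).1 h))⟩

/-- the four cases, for the first group of properties -/
theorem p9_all {W : Type} [Fintype W] [DecidableEq W] {K : Cpx W} {n : ℕ} {ℓ : W → W → ℕ} {vs : W → Fin n → ℤ}
    {path : W → W → ℕ → Fin n → ℤ} (hp : Paths K n ℓ vs path) {e : W → ℕ} (he : Function.Injective e) {a b c : W} (hab : K.graph.Adj a b)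
    (hac : K.graph.Adj a c) (hbc : K.graph.Adj b c) {α β γ : ℕ} (hα : 1 ≤ α) (hβ : 1 ≤ β) (hγ : 1 ≤ γ) (h1 : ℓ a b = α + β)
    (h2 : ℓ a c = α + γ) (h3 : ℓ b c = β + γ) {x : W → ℝ} (hx : x ∈ stdCell ({a, b, c} : Finset W)) :
    (∀ w, 0 ≤ triMap e a b c α β γ x w) ∧ (∀ w, w ∉ active K e ℓ → triMap e a b c α β γ x w = 0) ∧
      ∑ w ∈ active K e ℓ, triMap e a b c α β γ x w = 1 ∧
      ∀ v, ∑ w ∈ active K e ℓ, triMap e a b c α β γ x w * locOf ℓ w v = x v := by
  have nab : a ≠ b := hab.1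
  have nac : a ≠ c := hac.1
  have nbc : b ≠ c := hbc.1
  have h1' : ℓ b a = α + β := by rw [← hp.symm a b hab, h1]
  have h2' : ℓ c a = α + γ := by rw [← hp.symm a c hac, h2]
  have h3' : ℓ c b = β + γ := by rw [← hp.symm b c hbc, h3]
  by_cases c1 : lev b c α β γ x ≤ α
  · have key : ∀ w, triMap e a b c α β γ x w = corner e a b c (α + β) (α + γ) α x w := fun w => by
      unfold triMap
      rw [if_pos c1]
    simp only [key]
    refine p9_corner1 hp he hab hac nbc hα h1 h2 (by omega) (by omega) hx ?_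
    unfold lev at c1
    push_cast
    linarith
  · by_cases c2 : lev a c β α γ x ≤ β
    · have key : ∀ w, triMap e a b c α β γ x w = corner e b a c (α + β) (β + γ) β x w :=
        triMap_b he nab nbc nac hα hβ hγ hx c2
      simp only [key]
      refine p9_corner1 hp he hab.symm hbc nac hβ h1' h3 (by omega) (by omega) (p9_perm (by intro v; simp; tauto) hx) ?_
      unfold lev at c2
      push_cast
      linarith
    · by_cases c3 : lev a b γ α β x ≤ γ
      · have key : ∀ w, triMap e a b c α β γ x w = corner e c a b (α + γ) (β + γ) γ x w :=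
          triMap_c he nab nbc nac hα hβ hγ hx c3
        simp only [key]
        refine p9_corner1 hp he hac.symm hbc.symm nab hγ h2' h3' (by omega) (by omega) (p9_perm (by intro v; simp; tauto) hx) ?_
        unfold lev at c3
        push_cast
        linarith
      · push Not at c1 c2 c3
        have key : ∀ w, triMap e a b c α β γ x w = center e a b c α β γ x w :=
          triMap_center he nab nbc nac hα hβ hγ hx c1.le c2.le c3.le
        simp only [key]
        have m1 : mk e a b (α + β) α ∈ active K e ℓ := by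
          rw [← h1]
          exact mk_mem_active hp he hab (by omega)
        have m2 : mk e a c (α + γ) α ∈ active K e ℓ := by
          rw [← h2]
          exact mk_mem_active hp he hac (by omega)
        have m3 : mk e b c (β + γ) β ∈ active K e ℓ := by
          rw [← h3]
          exact mk_mem_active hp he hbc (by omega)
        refine ⟨fun w => center_nonneg e a b c α β γ c1.le c2.le c3.le w, fun w hw => ?_,
          center_sum nab nbc nac hα hβ hγ hx _ m1 m2 m3, fun v => center_loc hp he hab hac hbc hα hβ hγ h1 h2 h3 hx _ m1 m2 m3 v⟩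
        by_contra hne
        rcases (center_carrier e a b c α β γ x w hne).2.2 with h | h | h
        · exact hw (by rw [h]; exact m1)
        · exact hw (by rw [h]; exact m2)
        · exact hw (by rw [h]; exact m3)

theorem triMap_sum (hp : Paths K n ℓ vs path) {e : W → ℕ} (he : Function.Injective e) {a b c : W} (hab : K.graph.Adj a b)
    (hac : K.graph.Adj a c) (hbc : K.graph.Adj b c) {α β γ : ℕ} (hα : 1 ≤ α) (hβ : 1 ≤ β) (hγ : 1 ≤ γ) (h1 : ℓ a b = α + β)
    (h2 : ℓ a c = α + γ) (h3 : ℓ b c = β + γ) {x : W → ℝ} (hx : x ∈ stdCell ({a, b, c} : Finset W)) :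
    (∀ w, 0 ≤ triMap e a b c α β γ x w) ∧ (∀ w, w ∉ active K e ℓ → triMap e a b c α β γ x w = 0) ∧
      ∑ w ∈ active K e ℓ, triMap e a b c α β γ x w = 1 := by
  obtain ⟨g1, g2, g3, _⟩ := p9_all hp he hab hac hbc hα hβ hγ h1 h2 h3 hx
  exact ⟨g1, g2, g3⟩

theorem triMap_loc (hp : Paths K n ℓ vs path) {e : W → ℕ} (he : Function.Injective e) {a b c : W} (hab : K.graph.Adj a b)
    (hac : K.graph.Adj a c) (hbc : K.graph.Adj b c) {α β γ : ℕ} (hα : 1 ≤ α) (hβ : 1 ≤ β) (hγ : 1 ≤ γ) (h1 : ℓ a b = α + β)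
    (h2 : ℓ a c = α + γ) (h3 : ℓ b c = β + γ) {x : W → ℝ} (hx : x ∈ stdCell ({a, b, c} : Finset W)) (v : W) :
    ∑ w ∈ active K e ℓ, triMap e a b c α β γ x w * locOf ℓ w v = x v := by
  exact (p9_all hp he hab hac hbc hα hβ hγ h1 h2 h3 hx).2.2.2 v

theorem triMap_support (hp : Paths K n ℓ vs path) {e : W → ℕ} (he : Function.Injective e) {a b c : W} (hab : K.graph.Adj a b)
    (hac : K.graph.Adj a c) (hbc : K.graph.Adj b c) {α β γ : ℕ} (hα : 1 ≤ α) (hβ : 1 ≤ β) (hγ : 1 ≤ γ) (h1 : ℓ a b = α + β)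
    (h2 : ℓ a c = α + γ) (h3 : ℓ b c = β + γ) (l1 : ∀ k ≤ α, path a b k = path a c k) (l2 : ∀ k ≤ β, path b a k = path b c k)
    (l3 : ∀ k ≤ γ, path c a k = path c b k) {x : W → ℝ} (hx : x ∈ stdCell ({a, b, c} : Finset W)) :
    (∃ S : Finset (W × W × ℕ), S.card ≤ 3 ∧ (∀ w, triMap e a b c α β γ x w ≠ 0 → w ∈ S) ∧
      (∀ w ∈ S, ∀ w' ∈ S, ∀ i, |siteOf vs path w i - siteOf vs path w' i| ≤ 1)) ∧
      ∀ w, triMap e a b c α β γ x w ≠ 0 → w.1 ∈ ({a, b, c} : Finset W) ∧ w.2.1 ∈ ({a, b, c} : Finset W) := by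
  have nab : a ≠ b := hab.1
  have nac : a ≠ c := hac.1
  have nbc : b ≠ c := hbc.1
  have h1' : ℓ b a = α + β := by rw [← hp.symm a b hab, h1]
  have h2' : ℓ c a = α + γ := by rw [← hp.symm a c hac, h2]
  have h3' : ℓ c b = β + γ := by rw [← hp.symm b c hbc, h3]
  have ma : a ∈ ({a, b, c} : Finset W) := by simp
  have mb : b ∈ ({a, b, c} : Finset W) := by simp
  have mc : c ∈ ({a, b, c} : Finset W) := by simp
  by_cases c1 : lev b c α β γ x ≤ α
  · have key : ∀ w, triMap e a b c α β γ x w = corner e a b c (α + β) (α + γ) α x w := fun w => by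
      unfold triMap
      rw [if_pos c1]
    simp only [key]
    refine p9_corner2 hp he hab hac hα h1 h2 (by omega) (by omega) l1 hx.1 ?_ _ ma mb mc
    unfold lev at c1
    push_cast
    linarith
  · by_cases c2 : lev a c β α γ x ≤ β
    · have key : ∀ w, triMap e a b c α β γ x w = corner e b a c (α + β) (β + γ) β x w :=
        triMap_b he nab nbc nac hα hβ hγ hx c2
      simp only [key]
      refine p9_corner2 hp he hab.symm hbc hβ h1' h3 (by omega) (by omega) l2 hx.1 ?_ _ mb ma mc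
      unfold lev at c2
      push_cast
      linarith
    · by_cases c3 : lev a b γ α β x ≤ γ
      · have key : ∀ w, triMap e a b c α β γ x w = corner e c a b (α + γ) (β + γ) γ x w :=
          triMap_c he nab nbc nac hα hβ hγ hx c3
        simp only [key]
        refine p9_corner2 hp he hac.symm hbc.symm hγ h2' h3' (by omega) (by omega) l3 hx.1 ?_ _ mc ma mb
        unfold lev at c3
        push_cast
        linarith
      · push Not at c1 c2 c3
        have key : ∀ w, triMap e a b c α β γ x w = center e a b c α β γ x w :=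
          triMap_center he nab nbc nac hα hβ hγ hx c1.le c2.le c3.le
        simp only [key]
        refine ⟨center_support hp he hab hac hbc h1 h2 h3 l1 l2 x, fun w hw => ?_⟩
        obtain ⟨g1, g2, _⟩ := center_carrier e a b c α β γ x w hw
        constructor
        · rcases g1 with h | h | h <;> rw [h] <;> assumption
        · rcases g2 with h | h | h <;> rw [h] <;> assumption

end H32D
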