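import Pool.Agent.Lib.H32D.P6
import Pool.Agent.Lib.H32D.P9

set_option autoImplicit false

/-!
# H32D, chunk P10 (M): the global map is well defined

`globMap` uses some sorted triangle containing the point; if `x` lies in two different sorted triangles of `K`, it lies in the cell of the
intersection, which has one or two elements, so both values are the same `edgeVec` (`triMap_ab`, `triMap_ac`, `triMap_bc`; the leg lengths of the
two triangles are different but `α + β = ℓ a b` etc.), or both are `dl (a, a, 0)` (`edgeVec_vertex`, `edgeVec_symm`). The leg lengths are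
determined: `α = (ℓ a b + ℓ a c - ℓ b c) / 2`.

Auxiliary names start with `p10_`.
-/

open Finset

namespace H32D

/-- `(a, b, c)` is a sorted triangle of `K` containing `x`. -/
def SortedIn {W : Type} [Fintype W] [DecidableEq W] (K : Cpx W) (e : W → ℕ) (x : W → ℝ) (a b c : W) : Prop :=
  e a < e b ∧ e b < e c ∧ ({a, b, c} : Finset W) ∈ K.faces ∧ x ∈ stdCell ({a, b, c} : Finset W)

noncomputable def globMap {W : Type} [Fintype W] [DecidableEq W] (K : Cpx W) (e : W → ℕ) (ℓ : W → W → ℕ) (x : W → ℝ)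
    (w : W × W × ℕ) : ℝ := by
  classical
  exact if h : ∃ T : W × W × W, SortedIn K e x T.1 T.2.1 T.2.2 then
    triMap e h.choose.1 h.choose.2.1 h.choose.2.2 ((ℓ h.choose.1 h.choose.2.1 + ℓ h.choose.1 h.choose.2.2 - ℓ h.choose.2.1 h.choose.2.2) / 2)
      ((ℓ h.choose.1 h.choose.2.1 + ℓ h.choose.2.1 h.choose.2.2 - ℓ h.choose.1 h.choose.2.2) / 2)
      ((ℓ h.choose.1 h.choose.2.2 + ℓ h.choose.2.1 h.choose.2.2 - ℓ h.choose.1 h.choose.2.1) / 2) x w
  else 0

variable {W : Type} [Fintype W] [DecidableEq W] {K : Cpx W} {n : ℕ} {ℓ : W → W → ℕ} {vs : W → Fin n → ℤ}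
  {path : W → W → ℕ → Fin n → ℤ}

theorem p10_mono {s t : Finset W} (h : s ⊆ t) {x : W → ℝ} (hx : x ∈ stdCell s) : x ∈ stdCell t :=
  ⟨hx.1, hx.2.1, fun v hv => hx.2.2 v (fun h' => hv (h h'))⟩

theorem p10_vertex {e : W → ℕ} (he : Function.Injective e) {a b c : W} (hab : a ≠ b) (hbc : b ≠ c) (hac : a ≠ c)
    {α β γ : ℕ} (hα : 1 ≤ α) (hβ : 1 ≤ β) (hγ : 1 ≤ γ) {x : W → ℝ} {u : W} (hu : u ∈ ({a, b, c} : Finset W))
    (hx : x ∈ stdCell ({u} : Finset W)) (w : W × W × ℕ) : triMap e a b c α β γ x w = dl (u, u, 0) w := by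
  simp only [Finset.mem_insert, Finset.mem_singleton] at hu
  rcases hu with rfl | rfl | rfl
  · rw [triMap_ab he hab hbc hac hα hβ hγ (p10_mono (by simp) hx), edgeVec_vertex e _ _ hab (by omega) hx]
  · have h1 : x ∈ stdCell ({a, u} : Finset W) := p10_mono (by simp) hx
    rw [triMap_ab he hab hbc hac hα hβ hγ h1, ← edgeVec_symm he hab (by omega) h1 w,
      edgeVec_vertex e _ _ hab.symm (by omega) hx]
  · have h1 : x ∈ stdCell ({a, u} : Finset W) := p10_mono (by simp) hx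
    rw [triMap_ac he hab hbc hac hα hβ hγ h1, ← edgeVec_symm he hac (by omega) h1 w,
      edgeVec_vertex e _ _ hac.symm (by omega) hx]

theorem p10_edge {e : W → ℕ} (he : Function.Injective e) {a b c : W} (hab : e a < e b) (hbc : e b < e c)
    {α β γ : ℕ} (hα : 1 ≤ α) (hβ : 1 ≤ β) (hγ : 1 ≤ γ) {ℓ : W → W → ℕ} (h1 : ℓ a b = α + β)
    (h2 : ℓ a c = α + γ) (h3 : ℓ b c = β + γ) {x : W → ℝ} {u v : W} (hu : u ∈ ({a, b, c} : Finset W))
    (hv : v ∈ ({a, b, c} : Finset W)) (huv : e u < e v) (hx : x ∈ stdCell ({u, v} : Finset W)) (w : W × W × ℕ) :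
    triMap e a b c α β γ x w = edgeVec e u v (ℓ u v) x w := by
  have n1 : a ≠ b := fun h => by rw [h] at hab; omega
  have n2 : b ≠ c := fun h => by rw [h] at hbc; omega
  have n3 : a ≠ c := fun h => by rw [h] at hab; omega
  simp only [Finset.mem_insert, Finset.mem_singleton] at hu hv
  rcases hu with rfl | rfl | rfl <;> rcases hv with rfl | rfl | rfl
  · omega
  · rw [triMap_ab he n1 n2 n3 hα hβ hγ hx, h1]
  · rw [triMap_ac he n1 n2 n3 hα hβ hγ hx, h2]
  · omega
  · omega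
  · rw [triMap_bc he n1 n2 n3 hα hβ hγ hx, h3]
  · omega
  · omega
  · omega

theorem p10_sort {e : W → ℕ} (he : Function.Injective e) {t : Finset W} (ht : t.card = 3) :
    ∃ a b c, e a < e b ∧ e b < e c ∧ t = {a, b, c} := by
  obtain ⟨x, y, z, hxy, hxz, hyz, rfl⟩ := Finset.card_eq_three.1 ht
  have h1 : e x ≠ e y := fun h => hxy (he h)
  have h2 : e x ≠ e z := fun h => hxz (he h)
  have h3 : e y ≠ e z := fun h => hyz (he h)
  rcases lt_or_gt_of_ne h1 with h1 | h1 <;> rcases lt_or_gt_of_ne h2 with h2 | h2 <;>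
    rcases lt_or_gt_of_ne h3 with h3 | h3
  · exact ⟨x, y, z, h1, h3, rfl⟩
  · exact ⟨x, z, y, h2, h3, by ext u; simp only [Finset.mem_insert, Finset.mem_singleton]; tauto⟩
  · omega
  · exact ⟨z, x, y, h2, h1, by ext u; simp only [Finset.mem_insert, Finset.mem_singleton]; tauto⟩
  · exact ⟨y, x, z, h1, h2, by ext u; simp only [Finset.mem_insert, Finset.mem_singleton]; tauto⟩
  · omega
  · exact ⟨y, z, x, h3, h2, by ext u; simp only [Finset.mem_insert, Finset.mem_singleton]; tauto⟩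
  · exact ⟨z, y, x, h3, h1, by ext u; simp only [Finset.mem_insert, Finset.mem_singleton]; tauto⟩

theorem p10_same {e : W → ℕ} {a b c a' b' c' : W} (hab : e a < e b) (hbc : e b < e c) (hab' : e a' < e b')
    (hbc' : e b' < e c') (h : ({a, b, c} : Finset W) = {a', b', c'}) : a' = a ∧ b' = b ∧ c' = c := by
  have h1 : a' ∈ ({a, b, c} : Finset W) := by rw [h]; simp
  have h2 : b' ∈ ({a, b, c} : Finset W) := by rw [h]; simp
  have h3 : c' ∈ ({a, b, c} : Finset W) := by rw [h]; simp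
  simp only [Finset.mem_insert, Finset.mem_singleton] at h1 h2 h3
  rcases h1 with h1 | h1 | h1 <;> rcases h2 with h2 | h2 | h2 <;> rcases h3 with h3 | h3 | h3 <;>
    first
      | exact ⟨h1, h2, h3⟩
      | (exfalso; rw [h1, h2] at hab'; rw [h2, h3] at hbc'; omega)

theorem p10_card {e : W → ℕ} {a b c : W} (hab : e a < e b) (hbc : e b < e c) : ({a, b, c} : Finset W).card = 3 := by
  have n1 : a ≠ b := fun h => by rw [h] at hab; omega
  have n2 : b ≠ c := fun h => by rw [h] at hbc; omega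
  have n3 : a ≠ c := fun h => by rw [h] at hab; omega
  exact Finset.card_eq_three.2 ⟨a, b, c, n1, n3, n2, rfl⟩

theorem globMap_eq (hp : Paths K n ℓ vs path) {e : W → ℕ} (he : Function.Injective e) {a b c : W} {x : W → ℝ}
    (h : SortedIn K e x a b c) {α β γ : ℕ} (hα : 1 ≤ α) (hβ : 1 ≤ β) (hγ : 1 ≤ γ) (h1 : ℓ a b = α + β)
    (h2 : ℓ a c = α + γ) (h3 : ℓ b c = β + γ) (w : W × W × ℕ) : globMap K e ℓ x w = triMap e a b c α β γ x w := by
  classical
  have hex : ∃ T : W × W × W, SortedIn K e x T.1 T.2.1 T.2.2 := ⟨(a, b, c), h⟩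
  unfold globMap
  rw [dif_pos hex]
  have hT := hex.choose_spec
  generalize hex.choose = T at hT
  obtain ⟨a', b', c'⟩ := T
  simp only at hT ⊢
  obtain ⟨s1, s2, s3, s4⟩ := h
  obtain ⟨t1, t2, t3, t4⟩ := hT
  have n1 : a' ≠ b' := fun h => by rw [h] at t1; omega
  have n2 : b' ≠ c' := fun h => by rw [h] at t2; omega
  have n3 : a' ≠ c' := fun h => by rw [h] at t1; omega
  have m1 : a ≠ b := fun h => by rw [h] at s1; omega
  have m2 : b ≠ c := fun h => by rw [h] at s2; omega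
  have m3 : a ≠ c := fun h => by rw [h] at s1; omega
  obtain ⟨α', β', γ', g1, g2, g3, g4, g5, g6, -, -, -⟩ := hp.tri a' b' c' n1 n2 n3 t3
  have e1 : (ℓ a' b' + ℓ a' c' - ℓ b' c') / 2 = α' := by omega
  have e2 : (ℓ a' b' + ℓ b' c' - ℓ a' c') / 2 = β' := by omega
  have e3 : (ℓ a' c' + ℓ b' c' - ℓ a' b') / 2 = γ' := by omega
  rw [e1, e2, e3]
  by_cases hS : ({a, b, c} : Finset W) = {a', b', c'}
  · obtain ⟨rfl, rfl, rfl⟩ := p10_same s1 s2 t1 t2 hS
    have f1 : α' = α := by omega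
    have f2 : β' = β := by omega
    have f3 : γ' = γ := by omega
    rw [f1, f2, f3]
  · have hI : x ∈ stdCell (({a, b, c} : Finset W) ∩ {a', b', c'}) := by
      refine ⟨s4.1, s4.2.1, fun v hv => ?_⟩
      by_cases hv1 : v ∈ ({a, b, c} : Finset W)
      · refine t4.2.2 v fun hv2 => hv (Finset.mem_inter.2 ⟨hv1, hv2⟩)
      · exact s4.2.2 v hv1
    have hne : (({a, b, c} : Finset W) ∩ {a', b', c'}).Nonempty := by
      rw [Finset.nonempty_iff_ne_empty]
      intro h0
      rw [h0] at hI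
      have h5 : ∑ v, x v = 0 := Finset.sum_eq_zero fun v _ => hI.2.2 v (Finset.notMem_empty v)
      rw [hI.2.1] at h5
      exact one_ne_zero h5
    have hlt : (({a, b, c} : Finset W) ∩ {a', b', c'}).card < 3 := by
      rw [← p10_card s1 s2]
      refine Finset.card_lt_card (Finset.ssubset_iff_subset_ne.2 ⟨Finset.inter_subset_left, fun h0 => hS ?_⟩)
      refine Finset.eq_of_subset_of_card_le (Finset.inter_eq_left.1 h0) ?_
      rw [p10_card s1 s2, p10_card t1 t2]
    have hpos := Finset.card_pos.2 hne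
    generalize hIdef : ({a, b, c} : Finset W) ∩ {a', b', c'} = I at *
    have hI1 : ∀ u ∈ I, u ∈ ({a, b, c} : Finset W) ∧ u ∈ ({a', b', c'} : Finset W) := by
      intro u hu
      rw [← hIdef] at hu
      exact Finset.mem_inter.1 hu
    have hcase : I.card = 1 ∨ I.card = 2 := by omega
    rcases hcase with hc | hc
    · obtain ⟨u, hu⟩ := Finset.card_eq_one.1 hc
      rw [hu] at hI hI1
      obtain ⟨i1, i2⟩ := hI1 u (Finset.mem_singleton_self u)
      rw [p10_vertex he n1 n2 n3 g1 g2 g3 i2 hI, p10_vertex he m1 m2 m3 hα hβ hγ i1 hI]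
    · obtain ⟨u, v, huv, hu⟩ := Finset.card_eq_two.1 hc
      rw [hu] at hI hI1
      obtain ⟨i1, i2⟩ := hI1 u (by simp)
      obtain ⟨j1, j2⟩ := hI1 v (by simp)
      rcases lt_or_gt_of_ne (fun h => huv (he h) : e u ≠ e v) with hl | hl
      · rw [p10_edge he t1 t2 g1 g2 g3 g4 g5 g6 i2 j2 hl hI, p10_edge he s1 s2 hα hβ hγ h1 h2 h3 i1 j1 hl hI]
      · rw [Finset.pair_comm] at hI
        rw [p10_edge he t1 t2 g1 g2 g3 g4 g5 g6 j2 i2 hl hI, p10_edge he s1 s2 hα hβ hγ h1 h2 h3 j1 i1 hl hI]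

theorem exists_sorted (hp : Paths K n ℓ vs path) {e : W → ℕ} (he : Function.Injective e) {x : W → ℝ} (hx : x ∈ K.real) :
    ∃ a b c, SortedIn K e x a b c := by
  obtain ⟨h1, h2, h3⟩ := hx
  obtain ⟨t, ht, hst, hc⟩ := hp.pure _ h3
  obtain ⟨a, b, c, hab, hbc, rfl⟩ := p10_sort he hc
  refine ⟨a, b, c, hab, hbc, ht, h1, h2, fun v hv => ?_⟩
  by_contra h0
  exact hv (hst (Finset.mem_filter.2 ⟨Finset.mem_univ v, h0⟩))

end H32D
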