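import Pool.Agent.Lib.H32D.P4

set_option autoImplicit false

/-!
# H32D, chunk P5 (S/M): continuity of `triMap` on the triangle

The triangle is the union of the four closed sets `lev_a ≤ α`, `lev_b ≤ β`, `lev_c ≤ γ`, `all levels ≥`; on each of them `triMap` is `corner` or
`center` (definition, `triMap_b`, `triMap_c`, `triMap_center`), which are continuous functions of `x` (`fan_continuous`). Glue with
`ContinuousOn.union_of_isClosed` or `IsClosed`/`continuousOn` lemmas.

Auxiliary names start with `p5_`.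
-/

open Finset

namespace H32D

theorem p5_corner {W : Type} [Fintype W] (e : W → ℕ) (a b c : W) (N M α : ℕ) (w : W × W × ℕ) :
    Continuous (fun x : W → ℝ => corner e a b c N M α x w) := by
  have hpair : Continuous (fun x : W → ℝ => ((x b * N, x c * M) : ℝ × ℝ)) := by fun_prop
  have h0 : Continuous (fun x : W → ℝ => fan0 (x b * N) (x c * M)) := (fan_continuous 0).1.comp hpair
  have h1 : ∀ k, Continuous (fun x : W → ℝ => fanP k (x b * N) (x c * M)) := fun k =>
    (fan_continuous k).2.1.comp hpair
  have h2 : ∀ k, Continuous (fun x : W → ℝ => fanQ k (x b * N) (x c * M)) := fun k =>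
    (fan_continuous k).2.2.comp hpair
  unfold corner
  refine (h0.mul continuous_const).add (continuous_finset_sum _ fun k _ => ?_)
  exact ((h1 k).mul continuous_const).add ((h2 k).mul continuous_const)

theorem p5_lev {W : Type} [Fintype W] (b c : W) (α β γ : ℕ) : Continuous (fun x : W → ℝ => lev b c α β γ x) := by
  unfold lev
  fun_prop

theorem p5_center {W : Type} [Fintype W] (e : W → ℕ) (a b c : W) (α β γ : ℕ) (w : W × W × ℕ) :
    Continuous (fun x : W → ℝ => center e a b c α β γ x w) := by
  unfold center lev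
  fun_prop

theorem p5_closed {W : Type} [Fintype W] (s : Finset W) : IsClosed (stdCell s) := by
  have h1 : IsClosed {x : W → ℝ | ∀ v, 0 ≤ x v} := by
    simp only [Set.setOf_forall]
    exact isClosed_iInter fun v => isClosed_le continuous_const (continuous_apply v)
  have h2 : IsClosed {x : W → ℝ | ∑ v, x v = 1} :=
    isClosed_eq (continuous_finset_sum _ fun v _ => continuous_apply v) continuous_const
  have h3 : IsClosed {x : W → ℝ | ∀ v, v ∉ s → x v = 0} := by
    simp only [Set.setOf_forall]
    exact isClosed_iInter fun v => isClosed_iInter fun _ => isClosed_eq (continuous_apply v) continuous_const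
  exact h1.inter (h2.inter h3)

theorem triMap_continuousOn {W : Type} [Fintype W] [DecidableEq W] {e : W → ℕ} (he : Function.Injective e) {a b c : W} (hab : a ≠ b)
    (hbc : b ≠ c) (hac : a ≠ c) {α β γ : ℕ} (hα : 1 ≤ α) (hβ : 1 ≤ β) (hγ : 1 ≤ γ) (w : W × W × ℕ) :
    ContinuousOn (fun x => triMap e a b c α β γ x w) (stdCell ({a, b, c} : Finset W)) := by
  set S : Set (W → ℝ) := stdCell ({a, b, c} : Finset W) with hS
  have hSc : IsClosed S := p5_closed _
  set S1 : Set (W → ℝ) := S ∩ {x | lev b c α β γ x ≤ α} with hS1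
  set S2 : Set (W → ℝ) := S ∩ {x | lev a c β α γ x ≤ β} with hS2
  set S3 : Set (W → ℝ) := S ∩ {x | lev a b γ α β x ≤ γ} with hS3
  set S4 : Set (W → ℝ) := S ∩ {x | (α : ℝ) ≤ lev b c α β γ x ∧ (β : ℝ) ≤ lev a c β α γ x ∧ (γ : ℝ) ≤ lev a b γ α β x} with hS4
  have c1 : IsClosed S1 := hSc.inter (isClosed_le (p5_lev _ _ _ _ _) continuous_const)
  have c2 : IsClosed S2 := hSc.inter (isClosed_le (p5_lev _ _ _ _ _) continuous_const)
  have c3 : IsClosed S3 := hSc.inter (isClosed_le (p5_lev _ _ _ _ _) continuous_const)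
  have c4 : IsClosed S4 := hSc.inter ((isClosed_le continuous_const (p5_lev _ _ _ _ _)).inter
    ((isClosed_le continuous_const (p5_lev _ _ _ _ _)).inter (isClosed_le continuous_const (p5_lev _ _ _ _ _))))
  have f1 : ContinuousOn (fun x => triMap e a b c α β γ x w) S1 := by
    refine (p5_corner e a b c (α + β) (α + γ) α w).continuousOn.congr ?_
    rintro x ⟨-, h⟩
    exact if_pos h
  have f2 : ContinuousOn (fun x => triMap e a b c α β γ x w) S2 := by
    refine (p5_corner e b a c (α + β) (β + γ) β w).continuousOn.congr ?_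
    rintro x ⟨hx, h⟩
    exact triMap_b he hab hbc hac hα hβ hγ hx h w
  have f3 : ContinuousOn (fun x => triMap e a b c α β γ x w) S3 := by
    refine (p5_corner e c a b (α + γ) (β + γ) γ w).continuousOn.congr ?_
    rintro x ⟨hx, h⟩
    exact triMap_c he hab hbc hac hα hβ hγ hx h w
  have f4 : ContinuousOn (fun x => triMap e a b c α β γ x w) S4 := by
    refine (p5_center e a b c α β γ w).continuousOn.congr ?_
    rintro x ⟨hx, h1, h2, h3⟩
    exact triMap_center he hab hbc hac hα hβ hγ hx h1 h2 h3 w
  have hU : ContinuousOn (fun x => triMap e a b c α β γ x w) (S1 ∪ (S2 ∪ (S3 ∪ S4))) :=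
    f1.union_of_isClosed (f2.union_of_isClosed (f3.union_of_isClosed f4 c3 c4) c2 (c3.union c4)) c1
      (c2.union (c3.union c4))
  refine hU.mono ?_
  intro x hx
  by_cases h1 : lev b c α β γ x ≤ α
  · exact Or.inl ⟨hx, h1⟩
  by_cases h2 : lev a c β α γ x ≤ β
  · exact Or.inr (Or.inl ⟨hx, h2⟩)
  by_cases h3 : lev a b γ α β x ≤ γ
  · exact Or.inr (Or.inr (Or.inl ⟨hx, h3⟩))
  · exact Or.inr (Or.inr (Or.inr ⟨hx, (not_le.mp h1).le, (not_le.mp h2).le, (not_le.mp h3).le⟩))

end H32D
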