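import Pool.Agent.Lib.H32D.P10
import Pool.Agent.Lib.H32D.P5

set_option autoImplicit false

/-!
# H32D, chunk P11 (M): the hat system of a system of paths

* `cont`: `K.real` is the finite union of the closed sets `stdCell {a, b, c}` over the sorted triangles of `K` (`exists_sorted`; a point of
`stdCell t`, `t ∈ K.faces`, is in `K.real` by `down`), and `globMap = triMap` is continuous on each (`globMap_eq`, `triMap_continuousOn`).
* `nonneg`, `off`, `sum`, `card`, `loc`, `near`: `globMap_eq` and chunk P9.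
* `disj`: if `x ∈ K.cell s` and `globMap x w ≠ 0` then `w.1 ∈ s`: let `s'` be the support of `x` (a face inside `s`, of card `1`, `2` or `3`). If the card
is `3` it is the sorted triangle and P9 gives `w.1 ∈ s'`; if it is `2` use `triMap_ab/ac/bc` and `mk_carrier`; if it is `1` the value is `dl (a, a, 0)`.
So for disjoint `s`, `t` no `w` is in both supports.

Auxiliary names start with `p11_`.
-/

open Finset

namespace H32D

variable {W : Type} [Fintype W] [DecidableEq W] {K : Cpx W} {n : ℕ} {ℓ : W → W → ℕ} {vs : W → Fin n → ℤ}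
  {path : W → W → ℕ → Fin n → ℤ}

theorem p11_adj {a b c : W} (hf : ({a, b, c} : Finset W) ∈ K.faces) (hab : a ≠ b) (hbc : b ≠ c) (hac : a ≠ c) :
    K.graph.Adj a b ∧ K.graph.Adj a c ∧ K.graph.Adj b c := by
  have adj : ∀ x y : W, x ≠ y → ({x, y} : Finset W) ⊆ {a, b, c} → K.graph.Adj x y := by
    intro x y hxy hs
    exact ⟨hxy, K.down _ hf _ hs (Finset.insert_nonempty _ _)⟩
  refine ⟨adj a b hab ?_, adj a c hac ?_, adj b c hbc ?_⟩ <;>
  · intro z
    simp only [Finset.mem_insert, Finset.mem_singleton]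
    tauto

/-- The data of a sorted triangle. -/
theorem p11_data (hp : Paths K n ℓ vs path) {e : W → ℕ} (he : Function.Injective e) {a b c : W}
    (h1 : e a < e b) (h2 : e b < e c) (hf : ({a, b, c} : Finset W) ∈ K.faces) :
    ∃ α β γ : ℕ, a ≠ b ∧ b ≠ c ∧ a ≠ c ∧ K.graph.Adj a b ∧ K.graph.Adj a c ∧ K.graph.Adj b c ∧ 1 ≤ α ∧ 1 ≤ β ∧ 1 ≤ γ ∧
      ℓ a b = α + β ∧ ℓ a c = α + γ ∧ ℓ b c = β + γ ∧ (∀ k ≤ α, path a b k = path a c k) ∧ (∀ k ≤ β, path b a k = path b c k) ∧
      (∀ k ≤ γ, path c a k = path c b k) ∧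
      ∀ x ∈ stdCell ({a, b, c} : Finset W), ∀ w, globMap K e ℓ x w = triMap e a b c α β γ x w := by
  have hab : a ≠ b := fun h => by rw [h] at h1; exact lt_irrefl _ h1
  have hbc : b ≠ c := fun h => by rw [h] at h2; exact lt_irrefl _ h2
  have hac : a ≠ c := fun h => by rw [h] at h1; exact lt_asymm h1 h2
  obtain ⟨α, β, γ, hα, hβ, hγ, l1, l2, l3, p1, p2, p3⟩ := hp.tri a b c hab hbc hac hf
  obtain ⟨q1, q2, q3⟩ := p11_adj hf hab hbc hac
  exact ⟨α, β, γ, hab, hbc, hac, q1, q2, q3, hα, hβ, hγ, l1, l2, l3, p1, p2, p3,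
    fun x hx w => globMap_eq hp he ⟨h1, h2, hf, hx⟩ hα hβ hγ l1 l2 l3 w⟩

theorem p11_closed (s : Finset W) : IsClosed (stdCell s : Set (W → ℝ)) := by
  have h1 : IsClosed {x : W → ℝ | ∀ v, 0 ≤ x v} := by
    rw [Set.setOf_forall]
    exact isClosed_iInter fun v => isClosed_le continuous_const (continuous_apply v)
  have h2 : IsClosed {x : W → ℝ | ∑ v, x v = 1} :=
    isClosed_eq (continuous_finsetSum _ fun v _ => continuous_apply v) continuous_const
  have h3 : IsClosed {x : W → ℝ | ∀ v, v ∉ s → x v = 0} := by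
    simp only [Set.setOf_forall]
    exact isClosed_iInter fun v => isClosed_iInter fun _ => isClosed_eq (continuous_apply v) continuous_const
  exact h1.inter (h2.inter h3)

theorem globMap_continuousOn (hp : Paths K n ℓ vs path) {e : W → ℕ} (he : Function.Injective e) (w : W × W × ℕ) :
    ContinuousOn (fun x => globMap K e ℓ x w) K.real := by
  classical
  let T : Type := {t : W × W × W // e t.1 < e t.2.1 ∧ e t.2.1 < e t.2.2 ∧ ({t.1, t.2.1, t.2.2} : Finset W) ∈ K.faces}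
  let f : T → Set (W → ℝ) := fun t => stdCell ({t.1.1, t.1.2.1, t.1.2.2} : Finset W)
  have hfin : Finite T := Subtype.finite
  have h1 : ContinuousOn (fun x => globMap K e ℓ x w) (⋃ t, f t) := by
    refine (locallyFinite_of_finite f).continuousOn_iUnion (fun t => p11_closed _) fun t => ?_
    obtain ⟨⟨a, b, c⟩, h1, h2, h3⟩ := t
    obtain ⟨α, β, γ, hab, hbc, hac, q1, q2, q3, hα, hβ, hγ, l1, l2, l3, p1, p2, p3, hg⟩ := p11_data hp he h1 h2 h3
    refine ContinuousOn.congr (f := fun x => triMap e a b c α β γ x w) ?_ fun x hx => hg x hx w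
    exact triMap_continuousOn he hab hbc hac hα hβ hγ w
  refine h1.mono fun x hx => ?_
  obtain ⟨a, b, c, hs⟩ := exists_sorted hp he hx
  exact Set.mem_iUnion.2 ⟨⟨(a, b, c), hs.1, hs.2.1, hs.2.2.1⟩, hs.2.2.2⟩

theorem p11_mk {e : W → ℕ} (a b : W) (N k : ℕ) : (mk e a b N k).1 = a ∨ (mk e a b N k).1 = b := by
  unfold mk
  split_ifs <;> simp

theorem p11_dl {U : Type} {u w : U} (h : dl u w ≠ 0) : w = u := by
  classical
  by_contra hc
  exact h (by unfold dl; rw [if_neg hc])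

theorem p11_edge {e : W → ℕ} (he : Function.Injective e) {a b : W} (hab : a ≠ b) {N : ℕ} (hN : 1 ≤ N) {x : W → ℝ}
    (hx : x ∈ stdCell ({a, b} : Finset W)) {w : W × W × ℕ} (hw : edgeVec e a b N x w ≠ 0) : x w.1 ≠ 0 := by
  have hsum : x a + x b = 1 := by
    have h1 := hx.2.1
    rw [← Finset.sum_subset (Finset.subset_univ ({a, b} : Finset W)) fun v _ hv => hx.2.2 v hv, Finset.sum_pair hab] at h1
    exact h1
  by_cases hb : x b = 0
  · have hx' : x ∈ stdCell ({a} : Finset W) := by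
      refine ⟨hx.1, hx.2.1, fun v hv => ?_⟩
      by_cases hvb : v = b
      · rw [hvb, hb]
      · refine hx.2.2 v ?_
        simp only [Finset.mem_insert, Finset.mem_singleton, not_or] at hv ⊢
        exact ⟨hv, hvb⟩
    rw [edgeVec_vertex e a b hab hN hx'] at hw
    rw [p11_dl hw]
    show x a ≠ 0
    rw [hb, add_zero] at hsum
    rw [hsum]
    exact one_ne_zero
  by_cases ha : x a = 0
  · have hx' : x ∈ stdCell ({b} : Finset W) := by
      refine ⟨hx.1, hx.2.1, fun v hv => ?_⟩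
      by_cases hva : v = a
      · rw [hva, ha]
      · refine hx.2.2 v ?_
        simp only [Finset.mem_insert, Finset.mem_singleton, not_or] at hv ⊢
        exact ⟨hva, hv⟩
    rw [← edgeVec_symm he hab hN hx, edgeVec_vertex e b a hab.symm hN hx'] at hw
    rw [p11_dl hw]
    exact hb
  unfold edgeVec at hw
  obtain ⟨k, -, hk⟩ := Finset.exists_ne_zero_of_sum_ne_zero hw
  have h2 : w = mk e a b N k := p11_dl (right_ne_zero_of_mul hk)
  rcases p11_mk (e := e) a b N k with h3 | h3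
  · rw [h2, h3]
    exact ha
  · rw [h2, h3]
    exact hb

theorem p11_supp (hp : Paths K n ℓ vs path) {e : W → ℕ} (he : Function.Injective e) {x : W → ℝ} (hx : x ∈ K.real)
    {w : W × W × ℕ} (hw : globMap K e ℓ x w ≠ 0) : x w.1 ≠ 0 := by
  obtain ⟨a, b, c, h1, h2, h3, hxs⟩ := exists_sorted hp he hx
  obtain ⟨α, β, γ, hab, hbc, hac, q1, q2, q3, hα, hβ, hγ, l1, l2, l3, p1, p2, p3, hg⟩ := p11_data hp he h1 h2 h3
  rw [hg x hxs w] at hw
  by_cases hc : x c = 0
  · have hx' : x ∈ stdCell ({a, b} : Finset W) := by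
      refine ⟨hxs.1, hxs.2.1, fun v hv => ?_⟩
      by_cases hvc : v = c
      · rw [hvc, hc]
      · refine hxs.2.2 v ?_
        simp only [Finset.mem_insert, Finset.mem_singleton, not_or] at hv ⊢
        exact ⟨hv.1, hv.2, hvc⟩
    rw [triMap_ab he hab hbc hac hα hβ hγ hx'] at hw
    exact p11_edge he hab (by omega) hx' hw
  by_cases hb : x b = 0
  · have hx' : x ∈ stdCell ({a, c} : Finset W) := by
      refine ⟨hxs.1, hxs.2.1, fun v hv => ?_⟩
      by_cases hvb : v = b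
      · rw [hvb, hb]
      · refine hxs.2.2 v ?_
        simp only [Finset.mem_insert, Finset.mem_singleton, not_or] at hv ⊢
        exact ⟨hv.1, hvb, hv.2⟩
    rw [triMap_ac he hab hbc hac hα hβ hγ hx'] at hw
    exact p11_edge he hac (by omega) hx' hw
  by_cases ha : x a = 0
  · have hx' : x ∈ stdCell ({b, c} : Finset W) := by
      refine ⟨hxs.1, hxs.2.1, fun v hv => ?_⟩
      by_cases hva : v = a
      · rw [hva, ha]
      · refine hxs.2.2 v ?_
        simp only [Finset.mem_insert, Finset.mem_singleton, not_or] at hv ⊢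
        exact ⟨hva, hv.1, hv.2⟩
    rw [triMap_bc he hab hbc hac hα hβ hγ hx'] at hw
    exact p11_edge he hbc (by omega) hx' hw
  have h4 := ((triMap_support hp he q1 q2 q3 hα hβ hγ l1 l2 l3 p1 p2 p3 hxs).2 w hw).1
  simp only [Finset.mem_insert, Finset.mem_singleton] at h4
  rcases h4 with h4 | h4 | h4 <;> rw [h4] <;> assumption

theorem globMap_carrier (hp : Paths K n ℓ vs path) {e : W → ℕ} (he : Function.Injective e) {s : Finset W} (hs : s ∈ K.faces)
    {x : W → ℝ} (hx : x ∈ K.cell s) {w : W × W × ℕ} (hw : globMap K e ℓ x w ≠ 0) : w.1 ∈ s := by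
  by_contra hc
  exact p11_supp hp he hx.1 hw (hx.2 _ hc)

theorem hatSystem_of_paths (hp : Paths K n ℓ vs path) {e : W → ℕ} (he : Function.Injective e) :
    HatSystem K n (active K e ℓ) (globMap K e ℓ) (locOf ℓ) (siteOf vs path) := by
  have key : ∀ x ∈ K.real, ∃ a b c α β γ, K.graph.Adj a b ∧ K.graph.Adj a c ∧ K.graph.Adj b c ∧ 1 ≤ α ∧ 1 ≤ β ∧ 1 ≤ γ ∧
      ℓ a b = α + β ∧ ℓ a c = α + γ ∧ ℓ b c = β + γ ∧ (∀ k ≤ α, path a b k = path a c k) ∧ (∀ k ≤ β, path b a k = path b c k) ∧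
      (∀ k ≤ γ, path c a k = path c b k) ∧ x ∈ stdCell ({a, b, c} : Finset W) ∧
      ∀ w, globMap K e ℓ x w = triMap e a b c α β γ x w := by
    intro x hx
    obtain ⟨a, b, c, h1, h2, h3, hxs⟩ := exists_sorted hp he hx
    obtain ⟨α, β, γ, hab, hbc, hac, q1, q2, q3, hα, hβ, hγ, l1, l2, l3, p1, p2, p3, hg⟩ := p11_data hp he h1 h2 h3
    exact ⟨a, b, c, α, β, γ, q1, q2, q3, hα, hβ, hγ, l1, l2, l3, p1, p2, p3, hxs, hg x hxs⟩
  refine ⟨fun u => globMap_continuousOn hp he u, ?_, ?_, ?_, ?_, ?_, ?_, ?_⟩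
  · intro x hx u
    obtain ⟨a, b, c, α, β, γ, q1, q2, q3, hα, hβ, hγ, l1, l2, l3, p1, p2, p3, hxs, hg⟩ := key x hx
    rw [hg u]
    exact (triMap_sum hp he q1 q2 q3 hα hβ hγ l1 l2 l3 hxs).1 u
  · intro x hx u hu
    obtain ⟨a, b, c, α, β, γ, q1, q2, q3, hα, hβ, hγ, l1, l2, l3, p1, p2, p3, hxs, hg⟩ := key x hx
    rw [hg u]
    exact (triMap_sum hp he q1 q2 q3 hα hβ hγ l1 l2 l3 hxs).2.1 u hu
  · intro x hx
    obtain ⟨a, b, c, α, β, γ, q1, q2, q3, hα, hβ, hγ, l1, l2, l3, p1, p2, p3, hxs, hg⟩ := key x hx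
    rw [Finset.sum_congr rfl fun u _ => hg u]
    exact (triMap_sum hp he q1 q2 q3 hα hβ hγ l1 l2 l3 hxs).2.2
  · intro x hx
    obtain ⟨a, b, c, α, β, γ, q1, q2, q3, hα, hβ, hγ, l1, l2, l3, p1, p2, p3, hxs, hg⟩ := key x hx
    obtain ⟨⟨S, hS, hS1, hS2⟩, -⟩ := triMap_support hp he q1 q2 q3 hα hβ hγ l1 l2 l3 p1 p2 p3 hxs
    refine (Finset.card_le_card fun u hu => ?_).trans hS
    refine hS1 u ?_
    rw [← hg u]
    exact (Finset.mem_filter.1 hu).2
  · intro x hx v
    obtain ⟨a, b, c, α, β, γ, q1, q2, q3, hα, hβ, hγ, l1, l2, l3, p1, p2, p3, hxs, hg⟩ := key x hx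
    rw [Finset.sum_congr rfl fun u _ => by rw [hg u]]
    exact triMap_loc hp he q1 q2 q3 hα hβ hγ l1 l2 l3 hxs v
  · intro x hx u u' hu hu' i
    obtain ⟨a, b, c, α, β, γ, q1, q2, q3, hα, hβ, hγ, l1, l2, l3, p1, p2, p3, hxs, hg⟩ := key x hx
    obtain ⟨⟨S, hS, hS1, hS2⟩, -⟩ := triMap_support hp he q1 q2 q3 hα hβ hγ l1 l2 l3 p1 p2 p3 hxs
    rw [hg] at hu hu'
    exact hS2 u (hS1 u hu) u' (hS1 u' hu') i
  · intro s hs t ht hst x hx y hy u hu
    by_contra hc
    exact Finset.disjoint_left.1 hst (globMap_carrier hp he hs hx hu) (globMap_carrier hp he ht hy hc)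

end H32D
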