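import Pool.Agent.Lib.H32D.P1

set_option autoImplicit false

/-!
# H32D, chunk P2 (M): the fan functions are barycentric coordinates

For `0 ≤ u, v`, `u + v ≤ α` choose `j` with `j - 1 ≤ u + v ≤ j`, `1 ≤ j ≤ α` (`j = ⌈u + v⌉`, or `1` if `u + v = 0`). Only the terms `k = j` and
`k = j - 1` of the sums are nonzero (`fan_out`); insert `fan_upper` (for `j`) and `fan_lower` (for `j - 1`, if `j ≥ 2`; if `j = 1` use
`fan0 = 1 - (u + v)`). In both cases of the minimum (`v / j ≤ s - j + 1` or not; equivalent to `u / (j-1) ≥ j - s` or not) the three sums are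
`1`, `u`, `v`. `fan_top`: `u + v = α`.

Auxiliary names start with `p2_`.
-/

open Finset

namespace H32D

theorem p2_choose {α : ℕ} (hα : 1 ≤ α) {s : ℝ} (h0 : 0 ≤ s) (h : s ≤ α) :
    ∃ j : ℕ, 1 ≤ j ∧ j ≤ α ∧ (j : ℝ) - 1 ≤ s ∧ s ≤ j := by
  rcases eq_or_lt_of_le h0 with h1 | h1
  · exact ⟨1, le_rfl, hα, by rw [← h1]; norm_num, by rw [← h1]; norm_num⟩
  · refine ⟨⌈s⌉₊, Nat.ceil_pos.mpr h1, Nat.ceil_le.mpr h, ?_, Nat.le_ceil s⟩
    have := Nat.ceil_lt_add_one h0
    linarith

theorem p2_sum {α j : ℕ} (f : ℕ → ℝ) (hj : 2 ≤ j) (hjα : j ≤ α)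
    (h : ∀ k, 1 ≤ k → k ≠ j → k + 1 ≠ j → f k = 0) : ∑ k ∈ Icc 1 α, f k = f (j - 1) + f j := by
  rw [← Finset.sum_pair (a := j - 1) (b := j) (by omega)]
  symm
  apply Finset.sum_subset
  · intro k hk
    simp only [Finset.mem_insert, Finset.mem_singleton] at hk
    rw [Finset.mem_Icc]
    omega
  · intro k hk hk'
    simp only [Finset.mem_insert, Finset.mem_singleton, not_or] at hk'
    rw [Finset.mem_Icc] at hk
    exact h k hk.1 hk'.2 (by omega)

theorem p2_sum_one {α : ℕ} (f : ℕ → ℝ) (hα : 1 ≤ α) (h : ∀ k, 1 ≤ k → k ≠ 1 → f k = 0) :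
    ∑ k ∈ Icc 1 α, f k = f 1 := by
  apply Finset.sum_eq_single_of_mem
  · rw [Finset.mem_Icc]
    omega
  · intro k hk hk'
    rw [Finset.mem_Icc] at hk
    exact h k hk.1 hk'

theorem fan_sum {α : ℕ} (hα : 1 ≤ α) {u v : ℝ} (hu : 0 ≤ u) (hv : 0 ≤ v) (h : u + v ≤ α) :
    fan0 u v + ∑ k ∈ Icc 1 α, (fanP k u v + fanQ k u v) = 1 ∧ ∑ k ∈ Icc 1 α, (k : ℝ) * fanP k u v = u ∧
      ∑ k ∈ Icc 1 α, (k : ℝ) * fanQ k u v = v := by
  obtain ⟨j, hj1, hjα, hjl, hju⟩ := p2_choose hα (add_nonneg hu hv) h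
  have hout : ∀ k, 1 ≤ k → k ≠ j → k + 1 ≠ j → fanP k u v = 0 ∧ fanQ k u v = 0 := fun k hk h1 h2 =>
    fan_out hk hj1 hu hv hjl hju h1 h2
  obtain ⟨hPj, hQj⟩ := fan_upper hj1 hu hv hjl hju
  rcases eq_or_lt_of_le hj1 with h1 | h1
  · subst h1
    have hout' : ∀ k, 1 ≤ k → k ≠ 1 → fanP k u v = 0 ∧ fanQ k u v = 0 := fun k hk h1 =>
      hout k hk h1 (by omega)
    push_cast at hPj hQj hju
    have e1 : fanP 1 u v = u := by
      rw [hPj, max_eq_right (by linarith)]
      ring
    have e2 : fanQ 1 u v = v := by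
      rw [hQj, min_eq_right (by linarith)]
      ring
    refine ⟨?_, ?_, ?_⟩
    · rw [p2_sum_one _ hα (fun k hk h1 => by rw [(hout' k hk h1).1, (hout' k hk h1).2]; ring), e1, e2, fan0,
        max_eq_right (by linarith)]
      ring
    · rw [p2_sum_one _ hα (fun k hk h1 => by rw [(hout' k hk h1).1]; ring), e1]
      push_cast
      ring
    · rw [p2_sum_one _ hα (fun k hk h1 => by rw [(hout' k hk h1).2]; ring), e2]
      push_cast
      ring
  · obtain ⟨i, rfl⟩ : ∃ i, j = i + 1 := ⟨j - 1, by omega⟩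
    have hi : 1 ≤ i := by omega
    have hi0 : (1 : ℝ) ≤ i := by exact_mod_cast hi
    have hip : (0 : ℝ) < i := by linarith
    push_cast at hPj hQj hju hjl
    obtain ⟨hPi, hQi⟩ := fan_lower hi hu hv (by linarith) hju
    have h0 : fan0 u v = 0 := fan_zero (by linarith)
    have hi1 : i + 1 - 1 = i := by omega
    rcases le_total (v / ((i : ℝ) + 1)) (u + v - (i + 1) + 1) with hc | hc
    · have hc' : v ≤ (u + v - (i + 1) + 1) * ((i : ℝ) + 1) := by rwa [div_le_iff₀ (by linarith)] at hc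
      have hd : (i : ℝ) + 1 - (u + v) ≤ u / i := by
        rw [le_div_iff₀ hip]
        nlinarith
      have eP : fanP (i + 1) u v = u + v - (i + 1) + 1 - v / (i + 1) := by
        rw [hPj, max_eq_right (by linarith)]
      have eQ : fanQ (i + 1) u v = v / (i + 1) := by
        rw [hQj, min_eq_right hc]
      have fP : fanP i u v = i + 1 - (u + v) := by
        rw [hPi, min_eq_left hd]
      have fQ : fanQ i u v = 0 := by
        rw [hQi, max_eq_left (by linarith)]
      refine ⟨?_, ?_, ?_⟩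
      · rw [p2_sum (j := i + 1) _ (by omega) hjα (fun k hk h1 h2 => by rw [(hout k hk h1 h2).1, (hout k hk h1 h2).2]; ring),
          h0, hi1, eP, eQ, fP, fQ]
        ring
      · rw [p2_sum (j := i + 1) _ (by omega) hjα (fun k hk h1 h2 => by rw [(hout k hk h1 h2).1]; ring), hi1, eP, fP]
        push_cast
        field_simp
        ring
      · rw [p2_sum (j := i + 1) _ (by omega) hjα (fun k hk h1 h2 => by rw [(hout k hk h1 h2).2]; ring), hi1, eQ, fQ]
        push_cast
        field_simp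
        ring
    · have hc' : (u + v - (i + 1) + 1) * ((i : ℝ) + 1) ≤ v := by rwa [le_div_iff₀ (by linarith)] at hc
      have hd : u / i ≤ (i : ℝ) + 1 - (u + v) := by
        rw [div_le_iff₀ hip]
        nlinarith
      have eP : fanP (i + 1) u v = 0 := by
        rw [hPj, max_eq_left (by linarith)]
      have eQ : fanQ (i + 1) u v = u + v - (i + 1) + 1 := by
        rw [hQj, min_eq_left hc]
      have fP : fanP i u v = u / i := by
        rw [hPi, min_eq_right hd]
      have fQ : fanQ i u v = i + 1 - (u + v) - u / i := by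
        rw [hQi, max_eq_right (by linarith)]
      refine ⟨?_, ?_, ?_⟩
      · rw [p2_sum (j := i + 1) _ (by omega) hjα (fun k hk h1 h2 => by rw [(hout k hk h1 h2).1, (hout k hk h1 h2).2]; ring),
          h0, hi1, eP, eQ, fP, fQ]
        ring
      · rw [p2_sum (j := i + 1) _ (by omega) hjα (fun k hk h1 h2 => by rw [(hout k hk h1 h2).1]; ring), hi1, eP, fP]
        field_simp
        ring
      · rw [p2_sum (j := i + 1) _ (by omega) hjα (fun k hk h1 h2 => by rw [(hout k hk h1 h2).2]; ring), hi1, eQ, fQ]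
        push_cast
        field_simp
        ring

theorem fan_top {α : ℕ} (hα : 1 ≤ α) {u v : ℝ} (hu : 0 ≤ u) (hv : 0 ≤ v) (h : u + v = α) :
    fan0 u v = 0 ∧ fanP α u v = u / α ∧ fanQ α u v = v / α ∧ ∀ k, 1 ≤ k → k ≠ α → k ≤ α → fanP k u v = 0 ∧ fanQ k u v = 0 := by
  have hα0 : (1 : ℝ) ≤ α := by exact_mod_cast hα
  have hαp : (0 : ℝ) < α := by linarith
  obtain ⟨hP, hQ⟩ := fan_upper hα hu hv (by linarith) (by linarith)
  have e1 : u / α + v / α = 1 := by
    rw [← add_div, h]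
    exact div_self hαp.ne'
  have huα : 0 ≤ u / α := by positivity
  refine ⟨fan_zero (by linarith), ?_, ?_, ?_⟩
  · rw [hP, max_eq_right (by linarith)]
    linarith
  · rw [hQ, min_eq_right (by linarith)]
  · intro k hk hkα hkle
    by_cases hk1 : k + 1 = α
    · have hk2 : (k : ℝ) + 1 = α := by exact_mod_cast hk1
      obtain ⟨h1, h2⟩ := fan_lower hk hu hv (by linarith) (by linarith)
      have huk : 0 ≤ u / k := by positivity
      constructor
      · rw [h1, min_eq_left (by linarith)]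
        linarith
      · rw [h2, max_eq_left (by linarith)]
    · exact fan_out hk hα hu hv (by linarith) (by linarith) hkα hk1

end H32D
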