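import Pool.Agent.Lib.H32D.P2
import Pool.Agent.Lib.H32D.P3

set_option autoImplicit false

/-!
# H32D, chunk P4 (M): the pieces of `triMap` agree where they meet

`x` in the closed triangle `a b c`, legs `α, β, γ ≥ 1`. The sum of two levels is
`lev_a + lev_b = α + β + 2 γ x_c`, so if both are at most `α`, `β` then `x_c = 0`, `lev_a = α`, `lev_b = β`, `x_b = α / (α + β)`, and both corner
maps are the indicator of the point `mk e a b (α+β) α = mk e b a (α+β) β` (`fan_top` with `u = α`, `v = 0`). If `lev_a = α` and the other levels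
are at least `β`, `γ`, then `lev_c - γ = 2 β x_b`, `lev_b - β = 2 γ x_c` and `corner` is (by `fan_top`)
`x_b (α+β) / α` at `mk e a b (α+β) α` plus `x_c (α+γ) / α` at `mk e a c (α+γ) α`, equal to `center`. The other two corners are symmetric
(careful with the order of the arguments; `mk_symm`).

Auxiliary names start with `p4_`.
-/

open Finset

namespace H32D

theorem p4_sum {W : Type} [Fintype W] [DecidableEq W] {a b c : W} (hab : a ≠ b) (hbc : b ≠ c) (hac : a ≠ c) {x : W → ℝ}
    (hx : x ∈ stdCell ({a, b, c} : Finset W)) : x a + x b + x c = 1 := by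
  obtain ⟨-, h1, h2⟩ := hx
  rw [← h1, ← Finset.sum_subset (Finset.subset_univ ({a, b, c} : Finset W)) (fun v _ hv => h2 v hv)]
  rw [Finset.sum_insert (by simp [hab, hac]), Finset.sum_pair hbc]
  ring

theorem p4_top {W : Type} (e : W → ℕ) (a b c : W) {N M α : ℕ} (hα : 1 ≤ α) {x : W → ℝ} (hb : 0 ≤ x b) (hc : 0 ≤ x c)
    (h : x b * N + x c * M = α) (w : W × W × ℕ) : corner e a b c N M α x w =
      x b * N / α * dl (mk e a b N α) w + x c * M / α * dl (mk e a c M α) w := by
  have hu : 0 ≤ x b * (N : ℝ) := by positivity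
  have hv : 0 ≤ x c * (M : ℝ) := by positivity
  obtain ⟨h0, h1, h2, h3⟩ := fan_top hα hu hv h
  rw [corner, h0, Finset.sum_eq_single_of_mem α (Finset.mem_Icc.mpr ⟨hα, le_rfl⟩), h1, h2]
  · ring
  · intro k hk hkα
    rw [Finset.mem_Icc] at hk
    obtain ⟨h4, h5⟩ := h3 k hk.1 hkα hk.2
    rw [h4, h5]
    ring

theorem triMap_b {W : Type} [Fintype W] [DecidableEq W] {e : W → ℕ} (he : Function.Injective e) {a b c : W} (hab : a ≠ b)
    (hbc : b ≠ c) (hac : a ≠ c) {α β γ : ℕ} (hα : 1 ≤ α) (hβ : 1 ≤ β) (hγ : 1 ≤ γ) {x : W → ℝ} (hx : x ∈ stdCell ({a, b, c} : Finset W))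
    (h : lev a c β α γ x ≤ β) (w : W × W × ℕ) : triMap e a b c α β γ x w = corner e b a c (α + β) (β + γ) β x w := by
  have hs := p4_sum hab hbc hac hx
  have ha0 := hx.1 a
  have hb0 := hx.1 b
  have hc0 := hx.1 c
  have hα0 : (1 : ℝ) ≤ α := by exact_mod_cast hα
  have hβ0 : (1 : ℝ) ≤ β := by exact_mod_cast hβ
  have hγ0 : (1 : ℝ) ≤ γ := by exact_mod_cast hγ
  have hαp : (0 : ℝ) < α := by linarith
  have hβp : (0 : ℝ) < β := by linarith
  have hγp : (0 : ℝ) < γ := by linarith
  have heab : e a ≠ e b := fun h => hab (he h)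
  have heac : e a ≠ e c := fun h => hac (he h)
  have hebc : e b ≠ e c := fun h => hbc (he h)
  have m1 : mk e b a (α + β) β = mk e a b (α + β) α := by
    rw [mk_symm heab (by omega) (by omega)]
    congr 1
    omega
  have m2 : mk e c a (α + γ) γ = mk e a c (α + γ) α := by
    rw [mk_symm heac (by omega) (by omega)]
    congr 1
    omega
  have m3 : mk e c b (β + γ) γ = mk e b c (β + γ) β := by
    rw [mk_symm hebc (by omega) (by omega)]
    congr 1
    omega
  have sab : lev b c α β γ x + lev a c β α γ x = α + β + 2 * γ * x c := by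
    unfold lev
    have h1 : x a = 1 - x b - x c := by linarith
    rw [h1]
    ring
  have sac : lev b c α β γ x + lev a b γ α β x = α + γ + 2 * β * x b := by
    unfold lev
    have h1 : x a = 1 - x b - x c := by linarith
    rw [h1]
    ring
  have sbc : lev a c β α γ x + lev a b γ α β x = β + γ + 2 * α * x a := by
    unfold lev
    have h1 : x a = 1 - x b - x c := by linarith
    rw [h1]
    ring
  have ea : lev b c α β γ x = x b * ((α + β : ℕ) : ℝ) + x c * ((α + γ : ℕ) : ℝ) := by
    unfold lev
    push_cast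
    ring
  have eb : lev a c β α γ x = x a * ((α + β : ℕ) : ℝ) + x c * ((β + γ : ℕ) : ℝ) := by
    unfold lev
    push_cast
    ring
  have ec : lev a b γ α β x = x a * ((α + γ : ℕ) : ℝ) + x b * ((β + γ : ℕ) : ℝ) := by
    unfold lev
    push_cast
    ring
  by_cases h1 : lev b c α β γ x ≤ α
  · have hc1 : x c = 0 := by
      have : γ * x c ≤ 0 := by linarith
      nlinarith
    have hl1 : lev b c α β γ x = α := by rw [hc1] at sab; linarith
    have hl2 : lev a c β α γ x = β := by rw [hc1] at sab; linarith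
    rw [triMap, if_pos h1, p4_top e a b c hα hb0 hc0 (by rw [← ea, hl1]) w,
      p4_top e b a c hβ ha0 hc0 (by rw [← eb, hl2]) w, m1]
    rw [ea, hc1] at hl1
    rw [eb, hc1] at hl2
    have h3 : x b * ((α + β : ℕ) : ℝ) = α := by linarith
    have h4 : x a * ((α + β : ℕ) : ℝ) = β := by linarith
    rw [h3, h4, hc1, div_self hαp.ne', div_self hβp.ne']
    ring
  · rw [triMap, if_neg h1, if_pos h]

theorem triMap_c {W : Type} [Fintype W] [DecidableEq W] {e : W → ℕ} (he : Function.Injective e) {a b c : W} (hab : a ≠ b)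
    (hbc : b ≠ c) (hac : a ≠ c) {α β γ : ℕ} (hα : 1 ≤ α) (hβ : 1 ≤ β) (hγ : 1 ≤ γ) {x : W → ℝ} (hx : x ∈ stdCell ({a, b, c} : Finset W))
    (h : lev a b γ α β x ≤ γ) (w : W × W × ℕ) : triMap e a b c α β γ x w = corner e c a b (α + γ) (β + γ) γ x w := by
  have hs := p4_sum hab hbc hac hx
  have ha0 := hx.1 a
  have hb0 := hx.1 b
  have hc0 := hx.1 c
  have hα0 : (1 : ℝ) ≤ α := by exact_mod_cast hα
  have hβ0 : (1 : ℝ) ≤ β := by exact_mod_cast hβ
  have hγ0 : (1 : ℝ) ≤ γ := by exact_mod_cast hγ
  have hαp : (0 : ℝ) < α := by linarith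
  have hβp : (0 : ℝ) < β := by linarith
  have hγp : (0 : ℝ) < γ := by linarith
  have heab : e a ≠ e b := fun h => hab (he h)
  have heac : e a ≠ e c := fun h => hac (he h)
  have hebc : e b ≠ e c := fun h => hbc (he h)
  have m1 : mk e b a (α + β) β = mk e a b (α + β) α := by
    rw [mk_symm heab (by omega) (by omega)]
    congr 1
    omega
  have m2 : mk e c a (α + γ) γ = mk e a c (α + γ) α := by
    rw [mk_symm heac (by omega) (by omega)]
    congr 1
    omega
  have m3 : mk e c b (β + γ) γ = mk e b c (β + γ) β := by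
    rw [mk_symm hebc (by omega) (by omega)]
    congr 1
    omega
  have sab : lev b c α β γ x + lev a c β α γ x = α + β + 2 * γ * x c := by
    unfold lev
    have h1 : x a = 1 - x b - x c := by linarith
    rw [h1]
    ring
  have sac : lev b c α β γ x + lev a b γ α β x = α + γ + 2 * β * x b := by
    unfold lev
    have h1 : x a = 1 - x b - x c := by linarith
    rw [h1]
    ring
  have sbc : lev a c β α γ x + lev a b γ α β x = β + γ + 2 * α * x a := by
    unfold lev
    have h1 : x a = 1 - x b - x c := by linarith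
    rw [h1]
    ring
  have ea : lev b c α β γ x = x b * ((α + β : ℕ) : ℝ) + x c * ((α + γ : ℕ) : ℝ) := by
    unfold lev
    push_cast
    ring
  have eb : lev a c β α γ x = x a * ((α + β : ℕ) : ℝ) + x c * ((β + γ : ℕ) : ℝ) := by
    unfold lev
    push_cast
    ring
  have ec : lev a b γ α β x = x a * ((α + γ : ℕ) : ℝ) + x b * ((β + γ : ℕ) : ℝ) := by
    unfold lev
    push_cast
    ring
  by_cases h1 : lev b c α β γ x ≤ α
  · have hb1 : x b = 0 := by
      have : β * x b ≤ 0 := by linarith
      nlinarith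
    have hl1 : lev b c α β γ x = α := by rw [hb1] at sac; linarith
    have hl2 : lev a b γ α β x = γ := by rw [hb1] at sac; linarith
    rw [triMap, if_pos h1, p4_top e a b c hα hb0 hc0 (by rw [← ea, hl1]) w,
      p4_top e c a b hγ ha0 hb0 (by rw [← ec, hl2]) w, m2]
    rw [ea, hb1] at hl1
    rw [ec, hb1] at hl2
    have h3 : x c * ((α + γ : ℕ) : ℝ) = α := by linarith
    have h4 : x a * ((α + γ : ℕ) : ℝ) = γ := by linarith
    rw [h3, h4, hb1, div_self hαp.ne', div_self hγp.ne']
    ring
  · by_cases h2 : lev a c β α γ x ≤ β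
    · have ha1 : x a = 0 := by
        have : α * x a ≤ 0 := by linarith
        nlinarith
      have hl1 : lev a c β α γ x = β := by rw [ha1] at sbc; linarith
      have hl2 : lev a b γ α β x = γ := by rw [ha1] at sbc; linarith
      rw [triMap, if_neg h1, if_pos h2, p4_top e b a c hβ ha0 hc0 (by rw [← eb, hl1]) w,
        p4_top e c a b hγ ha0 hb0 (by rw [← ec, hl2]) w, m3]
      rw [eb, ha1] at hl1
      rw [ec, ha1] at hl2
      have h3 : x c * ((β + γ : ℕ) : ℝ) = β := by linarith
      have h4 : x b * ((β + γ : ℕ) : ℝ) = γ := by linarith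
      rw [h3, h4, ha1, div_self hβp.ne', div_self hγp.ne']
      ring
    · rw [triMap, if_neg h1, if_neg h2, if_pos h]

theorem triMap_center {W : Type} [Fintype W] [DecidableEq W] {e : W → ℕ} (he : Function.Injective e) {a b c : W} (hab : a ≠ b)
    (hbc : b ≠ c) (hac : a ≠ c) {α β γ : ℕ} (hα : 1 ≤ α) (hβ : 1 ≤ β) (hγ : 1 ≤ γ) {x : W → ℝ} (hx : x ∈ stdCell ({a, b, c} : Finset W))
    (h1 : (α : ℝ) ≤ lev b c α β γ x) (h2 : (β : ℝ) ≤ lev a c β α γ x) (h3 : (γ : ℝ) ≤ lev a b γ α β x) (w : W × W × ℕ) :
    triMap e a b c α β γ x w = center e a b c α β γ x w := by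
  have hs := p4_sum hab hbc hac hx
  have ha0 := hx.1 a
  have hb0 := hx.1 b
  have hc0 := hx.1 c
  have hα0 : (1 : ℝ) ≤ α := by exact_mod_cast hα
  have hβ0 : (1 : ℝ) ≤ β := by exact_mod_cast hβ
  have hγ0 : (1 : ℝ) ≤ γ := by exact_mod_cast hγ
  have hαp : (0 : ℝ) < α := by linarith
  have hβp : (0 : ℝ) < β := by linarith
  have hγp : (0 : ℝ) < γ := by linarith
  have heab : e a ≠ e b := fun h => hab (he h)
  have heac : e a ≠ e c := fun h => hac (he h)
  have hebc : e b ≠ e c := fun h => hbc (he h)
  have m1 : mk e b a (α + β) β = mk e a b (α + β) α := by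
    rw [mk_symm heab (by omega) (by omega)]
    congr 1
    omega
  have m2 : mk e c a (α + γ) γ = mk e a c (α + γ) α := by
    rw [mk_symm heac (by omega) (by omega)]
    congr 1
    omega
  have m3 : mk e c b (β + γ) γ = mk e b c (β + γ) β := by
    rw [mk_symm hebc (by omega) (by omega)]
    congr 1
    omega
  have sab : lev b c α β γ x + lev a c β α γ x = α + β + 2 * γ * x c := by
    unfold lev
    have h1 : x a = 1 - x b - x c := by linarith
    rw [h1]
    ring
  have sac : lev b c α β γ x + lev a b γ α β x = α + γ + 2 * β * x b := by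
    unfold lev
    have h1 : x a = 1 - x b - x c := by linarith
    rw [h1]
    ring
  have sbc : lev a c β α γ x + lev a b γ α β x = β + γ + 2 * α * x a := by
    unfold lev
    have h1 : x a = 1 - x b - x c := by linarith
    rw [h1]
    ring
  have ea : lev b c α β γ x = x b * ((α + β : ℕ) : ℝ) + x c * ((α + γ : ℕ) : ℝ) := by
    unfold lev
    push_cast
    ring
  have eb : lev a c β α γ x = x a * ((α + β : ℕ) : ℝ) + x c * ((β + γ : ℕ) : ℝ) := by
    unfold lev
    push_cast
    ring
  have ec : lev a b γ α β x = x a * ((α + γ : ℕ) : ℝ) + x b * ((β + γ : ℕ) : ℝ) := by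
    unfold lev
    push_cast
    ring
  by_cases h4 : lev b c α β γ x ≤ α
  · have hl : lev b c α β γ x = α := le_antisymm h4 h1
    have e1 : lev a c β α γ x - β = 2 * γ * x c := by linarith
    have e2 : lev a b γ α β x - γ = 2 * β * x b := by linarith
    rw [triMap, if_pos h4, p4_top e a b c hα hb0 hc0 (by rw [← ea, hl]) w, center, e1, e2, hl]
    push_cast
    field_simp
    ring
  · by_cases h5 : lev a c β α γ x ≤ β
    · have hl : lev a c β α γ x = β := le_antisymm h5 h2
      have e1 : lev b c α β γ x - α = 2 * γ * x c := by linarith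
      have e2 : lev a b γ α β x - γ = 2 * α * x a := by linarith
      rw [triMap, if_neg h4, if_pos h5, p4_top e b a c hβ ha0 hc0 (by rw [← eb, hl]) w, center, e1, e2, hl, m1]
      push_cast
      field_simp
      ring
    · by_cases h6 : lev a b γ α β x ≤ γ
      · have hl : lev a b γ α β x = γ := le_antisymm h6 h3
        have e1 : lev b c α β γ x - α = 2 * β * x b := by linarith
        have e2 : lev a c β α γ x - β = 2 * α * x a := by linarith
        rw [triMap, if_neg h4, if_neg h5, if_pos h6, p4_top e c a b hγ ha0 hb0 (by rw [← ec, hl]) w, center, e1, e2, hl,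
          m2, m3]
        push_cast
        field_simp
        ring
      · rw [triMap, if_neg h4, if_neg h5, if_neg h6]

end H32D
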