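import Pool.Agent.Lib.H32D.P4

set_option autoImplicit false

/-!
# H32D, chunk P6 (M): `triMap` on the edges and at the vertices

On the edge `a b` (`x_c = 0`) one has `lev_a = x_b (α + β)`, `lev_b = x_a (α + β)`, `lev_c = γ + α x_a + β x_b > γ`. If `lev_a ≤ α`: the corner map at
`a` with `v = 0`: `fan_edge`, and the terms `k > α` of `edgeVec` vanish (`hat k t = 0` for `t ≤ α < k` unless `k - t < 1`; note `k ≥ α + 1`, so
`k - t ≥ 1`). Otherwise `lev_b ≤ β` (the sum of the two is `α + β`): corner map at `b`, `hat k (N - t) = hat (N - k) t`, `mk_symm` and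
`Finset.sum_range_reflect`. The other edges are analogous (corners `a`, `c` for `x_b = 0`, where `corner a` has `u = 0`; `b`, `c` for
`x_a = 0`). `edgeVec_vertex`: `x_b = 0`, `hat k 0 = 0` for `k ≥ 1`.

Auxiliary names start with `p6_`.
-/

open Finset

namespace H32D

theorem p6_pair {W : Type} [Fintype W] [DecidableEq W] {a b : W} (hab : a ≠ b) {x : W → ℝ}
    (hx : x ∈ stdCell ({a, b} : Finset W)) : x a + x b = 1 ∧ ∀ v, v ≠ a → v ≠ b → x v = 0 := by
  obtain ⟨_, h2, h3⟩ := hx
  rw [← Finset.sum_subset (Finset.subset_univ ({a, b} : Finset W)) (fun v _ hv => h3 v hv)] at h2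
  rw [Finset.sum_insert (by simp [hab]), Finset.sum_singleton] at h2
  exact ⟨h2, fun v h4 h5 => h3 v (by simp [h4, h5])⟩

theorem p6_mono {W : Type} [Fintype W] [DecidableEq W] {s t : Finset W} (hst : s ⊆ t) {x : W → ℝ}
    (hx : x ∈ stdCell s) : x ∈ stdCell t :=
  ⟨hx.1, hx.2.1, fun v hv => hx.2.2 v (fun h => hv (hst h))⟩

theorem p6_hat {k : ℕ} {t : ℝ} (h : t + 1 ≤ k) : hat k t = 0 := by
  unfold hat
  rw [max_eq_left]
  have h1 : (k : ℝ) - t ≤ |t - k| := by
    rw [abs_sub_comm]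
    exact le_abs_self _
  linarith

theorem p6_sum {N α : ℕ} (hN : α ≤ N) (F : ℕ → ℝ) (hF : ∀ k, α < k → F k = 0) :
    ∑ k ∈ range (N + 1), F k = F 0 + ∑ k ∈ Icc 1 α, F k := by
  rw [← Finset.sum_insert (s := Icc 1 α) (a := 0) (by simp)]
  symm
  apply Finset.sum_subset
  · intro k hk
    simp only [Finset.mem_insert, Finset.mem_Icc, Finset.mem_range] at hk ⊢
    omega
  · intro k _ hk
    apply hF
    simp only [Finset.mem_insert, Finset.mem_Icc] at hk
    omega

theorem p6_corner1 {W : Type} (e : W → ℕ) (a b c : W) {N M α : ℕ} (hN : α ≤ N) {x : W → ℝ} (hb : 0 ≤ x b) (hc : x c = 0)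
    (h : x b * N ≤ α) (w : W × W × ℕ) : corner e a b c N M α x w = edgeVec e a b N x w := by
  unfold corner edgeVec
  rw [p6_sum hN (fun k => hat k (x b * N) * dl (mk e a b N k) w) (fun k hk => by
    have h1 : ((α : ℝ) + 1) ≤ k := by exact_mod_cast hk
    rw [p6_hat (by linarith), zero_mul])]
  have h0 : 0 ≤ x b * N := mul_nonneg hb (Nat.cast_nonneg N)
  rw [hc, zero_mul]
  have hmk : mk e a b N 0 = (a, a, 0) := by
    unfold mk
    rw [if_pos rfl]
  rw [(fan_edge 1 le_rfl h0).2.2.2.2.1, hmk]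
  congr 1
  refine Finset.sum_congr rfl fun k hk => ?_
  rw [Finset.mem_Icc] at hk
  rw [(fan_edge k hk.1 h0).1, (fan_edge k hk.1 h0).2.1]
  ring

theorem p6_corner2 {W : Type} (e : W → ℕ) (a b c : W) {N M α : ℕ} (hM : α ≤ M) {x : W → ℝ} (hc : 0 ≤ x c) (hb : x b = 0)
    (h : x c * M ≤ α) (w : W × W × ℕ) : corner e a b c N M α x w = edgeVec e a c M x w := by
  unfold corner edgeVec
  rw [p6_sum hM (fun k => hat k (x c * M) * dl (mk e a c M k) w) (fun k hk => by
    have h1 : ((α : ℝ) + 1) ≤ k := by exact_mod_cast hk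
    rw [p6_hat (by linarith), zero_mul])]
  have h0 : 0 ≤ x c * M := mul_nonneg hc (Nat.cast_nonneg M)
  rw [hb, zero_mul]
  have hmk : mk e a c M 0 = (a, a, 0) := by
    unfold mk
    rw [if_pos rfl]
  rw [(fan_edge 1 le_rfl h0).2.2.2.2.2, hmk]
  congr 1
  refine Finset.sum_congr rfl fun k hk => ?_
  rw [Finset.mem_Icc] at hk
  rw [(fan_edge k hk.1 h0).2.2.1, (fan_edge k hk.1 h0).2.2.2.1]
  ring

theorem edgeVec_symm {W : Type} [Fintype W] [DecidableEq W] {e : W → ℕ} (he : Function.Injective e) {a b : W} (hab : a ≠ b) {N : ℕ}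
    (hN : 1 ≤ N) {x : W → ℝ} (hx : x ∈ stdCell ({a, b} : Finset W)) (w : W × W × ℕ) : edgeVec e b a N x w = edgeVec e a b N x w := by
  obtain ⟨hs, _⟩ := p6_pair hab hx
  unfold edgeVec
  rw [← Finset.sum_range_reflect (fun k => hat k (x b * N) * dl (mk e a b N k) w) (N + 1)]
  refine Finset.sum_congr rfl fun k hk => ?_
  rw [Finset.mem_range] at hk
  have h1 : N + 1 - 1 - k = N - k := by omega
  rw [h1, mk_symm (fun h => hab (he h)) hN (by omega)]
  congr 1
  unfold hat
  rw [Nat.cast_sub (by omega)]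
  have h2 : x a * N - k = -(x b * N - (N - k)) := by
    have h3 : x a = 1 - x b := by linarith
    rw [h3]
    ring
  rw [h2, abs_neg]

theorem edgeVec_vertex {W : Type} [Fintype W] [DecidableEq W] (e : W → ℕ) (a b : W) (hab : a ≠ b) {N : ℕ} (hN : 1 ≤ N) {x : W → ℝ}
    (hx : x ∈ stdCell ({a} : Finset W)) (w : W × W × ℕ) : edgeVec e a b N x w = dl (a, a, 0) w := by
  have hb : x b = 0 := hx.2.2 b (by simp [hab.symm])
  unfold edgeVec
  rw [p6_sum (Nat.zero_le N) (fun k => hat k (x b * N) * dl (mk e a b N k) w) (fun k hk => by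
    have h1 : ((0 : ℝ) + 1) ≤ k := by exact_mod_cast hk
    rw [p6_hat (by rw [hb]; linarith), zero_mul])]
  have hmk : mk e a b N 0 = (a, a, 0) := by
    unfold mk
    rw [if_pos rfl]
  rw [hmk, hb]
  simp [hat]

theorem triMap_ab {W : Type} [Fintype W] [DecidableEq W] {e : W → ℕ} (he : Function.Injective e) {a b c : W} (hab : a ≠ b)
    (hbc : b ≠ c) (hac : a ≠ c) {α β γ : ℕ} (hα : 1 ≤ α) (hβ : 1 ≤ β) (hγ : 1 ≤ γ) {x : W → ℝ} (hx : x ∈ stdCell ({a, b} : Finset W))
    (w : W × W × ℕ) : triMap e a b c α β γ x w = edgeVec e a b (α + β) x w := by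
  obtain ⟨hs, hz⟩ := p6_pair hab hx
  have hc : x c = 0 := hz c hac.symm hbc.symm
  have hx3 : x ∈ stdCell ({a, b, c} : Finset W) := p6_mono (by intro v; simp; tauto) hx
  by_cases h : lev b c α β γ x ≤ α
  · unfold triMap
    rw [if_pos h]
    refine p6_corner1 e a b c (by omega) (hx.1 b) hc ?_ w
    unfold lev at h
    rw [hc] at h
    push_cast
    linarith
  · push Not at h
    have h2 : lev a c β α γ x ≤ β := by
      unfold lev at h ⊢
      rw [hc] at h ⊢
      have h3 : x a = 1 - x b := by linarith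
      rw [h3]
      nlinarith
    rw [triMap_b he hab hbc hac hα hβ hγ hx3 h2 w, ← edgeVec_symm he hab (by omega) hx]
    refine p6_corner1 e b a c (by omega) (hx.1 a) hc ?_ w
    unfold lev at h2
    rw [hc] at h2
    push_cast
    linarith

theorem triMap_ac {W : Type} [Fintype W] [DecidableEq W] {e : W → ℕ} (he : Function.Injective e) {a b c : W} (hab : a ≠ b)
    (hbc : b ≠ c) (hac : a ≠ c) {α β γ : ℕ} (hα : 1 ≤ α) (hβ : 1 ≤ β) (hγ : 1 ≤ γ) {x : W → ℝ} (hx : x ∈ stdCell ({a, c} : Finset W))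
    (w : W × W × ℕ) : triMap e a b c α β γ x w = edgeVec e a c (α + γ) x w := by
  obtain ⟨hs, hz⟩ := p6_pair hac hx
  have hb : x b = 0 := hz b hab.symm hbc
  have hx3 : x ∈ stdCell ({a, b, c} : Finset W) := p6_mono (by intro v; simp; tauto) hx
  by_cases h : lev b c α β γ x ≤ α
  · unfold triMap
    rw [if_pos h]
    refine p6_corner2 e a b c (by omega) (hx.1 c) hb ?_ w
    unfold lev at h
    rw [hb] at h
    push_cast
    linarith
  · push Not at h
    have h2 : lev a b γ α β x ≤ γ := by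
      unfold lev at h ⊢
      rw [hb] at h ⊢
      have h3 : x a = 1 - x c := by linarith
      rw [h3]
      nlinarith
    rw [triMap_c he hab hbc hac hα hβ hγ hx3 h2 w, ← edgeVec_symm he hac (by omega) hx]
    refine p6_corner1 e c a b (by omega) (hx.1 a) hb ?_ w
    unfold lev at h2
    rw [hb] at h2
    push_cast
    linarith

theorem triMap_bc {W : Type} [Fintype W] [DecidableEq W] {e : W → ℕ} (he : Function.Injective e) {a b c : W} (hab : a ≠ b)
    (hbc : b ≠ c) (hac : a ≠ c) {α β γ : ℕ} (hα : 1 ≤ α) (hβ : 1 ≤ β) (hγ : 1 ≤ γ) {x : W → ℝ} (hx : x ∈ stdCell ({b, c} : Finset W))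
    (w : W × W × ℕ) : triMap e a b c α β γ x w = edgeVec e b c (β + γ) x w := by
  obtain ⟨hs, hz⟩ := p6_pair hbc hx
  have ha : x a = 0 := hz a hab hac
  have hx3 : x ∈ stdCell ({a, b, c} : Finset W) := p6_mono (by intro v; simp; tauto) hx
  by_cases h : lev a c β α γ x ≤ β
  · rw [triMap_b he hab hbc hac hα hβ hγ hx3 h w]
    refine p6_corner2 e b a c (by omega) (hx.1 c) ha ?_ w
    unfold lev at h
    rw [ha] at h
    push_cast
    linarith
  · push Not at h
    have h2 : lev a b γ α β x ≤ γ := by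
      unfold lev at h ⊢
      rw [ha] at h ⊢
      have h3 : x b = 1 - x c := by linarith
      rw [h3]
      nlinarith
    rw [triMap_c he hab hbc hac hα hβ hγ hx3 h2 w, ← edgeVec_symm he hbc (by omega) hx]
    refine p6_corner2 e c a b (by omega) (hx.1 b) ha ?_ w
    unfold lev at h2
    rw [ha] at h2
    push_cast
    linarith

end H32D
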