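import Pool.Agent.Lib.H32D.TDefs

set_option autoImplicit false

/-!
# H32D, definitions of module P (the subdivision with strips, and its hat functions)

The vertices of the subdivision are triples: `(a, a, 0)` is the vertex `a`, and `(a, b, k)` with `e a < e b`, `0 < k < N` is the point at
distance `k` from `a` on the edge `a b`, which is divided into `N` equal parts (`e` is an injection of the vertices into `ℕ`, used to
orient the edges). `mk e a b N k` is the point at distance `k` from `a` for either order of `a`, `b`.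

The corner of the triangle `a b c` at `a` (coordinates `u = x_b N_ab`, `v = x_c N_ac`, `u + v ≤ α`) is divided into the strips
`k - 1 ≤ u + v ≤ k`, `1 ≤ k ≤ α`, and each strip by the diagonal from `(k - 1, 0)` to `(0, k)`; `fan0`, `fanP k`, `fanQ k` are the hat
functions of `(0, 0)`, `(k, 0)`, `(0, k)`.
-/

open Finset

namespace H32D

noncomputable def fan0 (u v : ℝ) : ℝ := max 0 (1 - (u + v))

noncomputable def fanP (k : ℕ) (u v : ℝ) : ℝ := max 0 (min (min (u + v - k + 1 - v / k) (u / k)) (k + 1 - (u + v)))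

noncomputable def fanQ (k : ℕ) (u v : ℝ) : ℝ := max 0 (min (min (u + v - k + 1) (v / k)) (k + 1 - (u + v) - u / k))

/-- The hat function of the point `k` on the line. -/
noncomputable def hat (k : ℕ) (t : ℝ) : ℝ := max 0 (1 - |t - k|)

/-- The indicator of `u`. -/
noncomputable def dl {U : Type} (u w : U) : ℝ := by
  classical
  exact if w = u then 1 else 0

/-- The point at distance `k` from `a` on the edge `a b` of length `N`. -/
def mk {W : Type} (e : W → ℕ) (a b : W) (N k : ℕ) : W × W × ℕ :=
  if k = 0 then (a, a, 0) else if k = N then (b, b, 0) else if e a < e b then (a, b, k) else (b, a, N - k)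

/-- The map on an edge `a b` of length `N`. -/
noncomputable def edgeVec {W : Type} (e : W → ℕ) (a b : W) (N : ℕ) (x : W → ℝ) (w : W × W × ℕ) : ℝ :=
  ∑ k ∈ range (N + 1), hat k (x b * N) * dl (mk e a b N k) w

/-- The map on the corner at `a` (edges `a b` of length `N`, `a c` of length `M`, corner size `α`). -/
noncomputable def corner {W : Type} (e : W → ℕ) (a b c : W) (N M α : ℕ) (x : W → ℝ) (w : W × W × ℕ) : ℝ :=
  fan0 (x b * N) (x c * M) * dl (a, a, 0) w +
    ∑ k ∈ Icc 1 α, (fanP k (x b * N) (x c * M) * dl (mk e a b N k) w + fanQ k (x b * N) (x c * M) * dl (mk e a c M k) w)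

/-- The distance from `a` in the triangle `a b c` with leg lengths `α`, `β`, `γ`. -/
noncomputable def lev {W : Type} (b c : W) (α β γ : ℕ) (x : W → ℝ) : ℝ := x b * (α + β) + x c * (α + γ)

/-- The map on the central triangle. -/
noncomputable def center {W : Type} (e : W → ℕ) (a b c : W) (α β γ : ℕ) (x : W → ℝ) (w : W × W × ℕ) : ℝ :=
  (lev b c α β γ x - α) * (β + γ) / (2 * β * γ) * dl (mk e b c (β + γ) β) w +
    (lev a c β α γ x - β) * (α + γ) / (2 * α * γ) * dl (mk e a c (α + γ) α) w +
    (lev a b γ α β x - γ) * (α + β) / (2 * α * β) * dl (mk e a b (α + β) α) w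

/-- The map on the triangle `a b c` with leg lengths `α`, `β`, `γ` (used for `e a < e b < e c`). -/
noncomputable def triMap {W : Type} (e : W → ℕ) (a b c : W) (α β γ : ℕ) (x : W → ℝ) (w : W × W × ℕ) : ℝ :=
  if lev b c α β γ x ≤ α then corner e a b c (α + β) (α + γ) α x w
  else if lev a c β α γ x ≤ β then corner e b a c (α + β) (β + γ) β x w
  else if lev a b γ α β x ≤ γ then corner e c a b (α + γ) (β + γ) γ x w
  else center e a b c α β γ x w

/-- The closed triangle (or edge, or vertex): the points of the standard simplex supported on `s`. -/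
def stdCell {W : Type} [Fintype W] (s : Finset W) : Set (W → ℝ) := {x | (∀ v, 0 ≤ x v) ∧ ∑ v, x v = 1 ∧ ∀ v, v ∉ s → x v = 0}

/-- Lattice paths along the edges of `K` (length `ℓ a b`, `path a b k` is the site of the point at distance `k` from `a`), compatible with
tripods in the triangles. -/
structure Paths {W : Type} [Fintype W] [DecidableEq W] (K : Cpx W) (n : ℕ) (ℓ : W → W → ℕ) (vs : W → Fin n → ℤ)
    (path : W → W → ℕ → Fin n → ℤ) : Prop where
  card_le : ∀ s ∈ K.faces, s.card ≤ 3
  pure : ∀ s ∈ K.faces, ∃ t ∈ K.faces, s ⊆ t ∧ t.card = 3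
  symm : ∀ a b, K.graph.Adj a b → ℓ a b = ℓ b a
  rev : ∀ a b, K.graph.Adj a b → ∀ k ≤ ℓ a b, path b a k = path a b (ℓ a b - k)
  start : ∀ a b, K.graph.Adj a b → path a b 0 = vs a
  step : ∀ a b, K.graph.Adj a b → ∀ k < ℓ a b, ∀ i, |path a b k i - path a b (k + 1) i| ≤ 1
  tri : ∀ a b c, a ≠ b → b ≠ c → a ≠ c → ({a, b, c} : Finset W) ∈ K.faces → ∃ α β γ : ℕ, 1 ≤ α ∧ 1 ≤ β ∧ 1 ≤ γ ∧
    ℓ a b = α + β ∧ ℓ a c = α + γ ∧ ℓ b c = β + γ ∧ (∀ k ≤ α, path a b k = path a c k) ∧ (∀ k ≤ β, path b a k = path b c k) ∧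
    (∀ k ≤ γ, path c a k = path c b k)

/-- The location of a vertex of the subdivision. -/
noncomputable def locOf {W : Type} [DecidableEq W] (ℓ : W → W → ℕ) (u : W × W × ℕ) (v : W) : ℝ :=
  if u.1 = u.2.1 then (if v = u.1 then 1 else 0)
  else (1 - (u.2.2 : ℝ) / ℓ u.1 u.2.1) * (if v = u.1 then 1 else 0) + (u.2.2 : ℝ) / ℓ u.1 u.2.1 * (if v = u.2.1 then 1 else 0)

/-- The site of a vertex of the subdivision. -/
def siteOf {W : Type} [DecidableEq W] {n : ℕ} (vs : W → Fin n → ℤ) (path : W → W → ℕ → Fin n → ℤ) (u : W × W × ℕ) : Fin n → ℤ :=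
  if u.1 = u.2.1 then vs u.1 else path u.1 u.2.1 u.2.2

/-- The vertices of the subdivision of `K`. -/
noncomputable def active {W : Type} [Fintype W] [DecidableEq W] (K : Cpx W) (e : W → ℕ) (ℓ : W → W → ℕ) : Finset (W × W × ℕ) := by
  classical
  exact univ.biUnion (fun a => {(a, a, 0)}) ∪
    univ.biUnion (fun a => univ.biUnion (fun b => if K.graph.Adj a b ∧ e a < e b then (Ioo 0 (ℓ a b)).image (fun k => (a, b, k)) else ∅))

end H32D
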