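import Pool.Agent.Lib.H32D.RDefs

set_option autoImplicit false

/-!
# H32D, chunk R1 (M): the routes are a routing

`walk a b` starts at `a`, ends at `b`, has steps `±1` and all its elements are between `a` and `b`. Since `g j` changes only the coordinate
`c j`, the point reached by the horizontal part is `pnt (j m + s_c) (g j s)`.

Auxiliary names start with `r1_`.
-/

open Finset

namespace H32D

theorem r1_range (f : ℕ → ℤ) (n : ℕ) (hf : ∀ t, |f t - f (t + 1)| ≤ 1) (hinj : Function.Injective f) :
    ((List.range (n + 1)).map f).head? = some (f 0) ∧ ((List.range (n + 1)).map f).getLast? = some (f n) ∧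
    ((List.range (n + 1)).map f).IsChain (fun x y => |x - y| ≤ 1) ∧ ((List.range (n + 1)).map f).Nodup := by
  refine ⟨?_, ?_, ?_, ?_⟩
  · rw [List.range_succ_eq_map]; simp
  · rw [List.range_succ]; simp
  · rw [List.isChain_map, List.isChain_range_succ]
    intro t _
    exact hf t
  · exact List.Nodup.map hinj List.nodup_range

theorem r1_walk (a b : ℤ) : walk a b = if a ≤ b then (List.range ((b - a).toNat + 1)).map (fun t : ℕ => a + (t : ℤ))
    else (List.range ((a - b).toNat + 1)).map (fun t : ℕ => a - (t : ℤ)) := by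
  unfold walk
  split_ifs with h
  · rw [bind_pure_comp, List.map_eq_map, List.map_map]; rfl
  · rw [bind_pure_comp, List.map_eq_map, List.map_map]; rfl

theorem walk_props (a b : ℤ) : (walk a b).head? = some a ∧ (walk a b).getLast? = some b ∧
    (walk a b).IsChain (fun x y => |x - y| ≤ 1) ∧ (∀ x ∈ walk a b, min a b ≤ x ∧ x ≤ max a b) ∧ (walk a b).Nodup := by
  rw [r1_walk]
  split_ifs with h
  · obtain ⟨h1, h2, h3, h4⟩ := r1_range (fun t => a + (t : ℤ)) (b - a).toNat
      (by intro t; push_cast; ring_nf; simp) (by intro x y hxy; simpa using hxy)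
    refine ⟨by rw [h1]; simp, ?_, h3, ?_, h4⟩
    · rw [h2]; congr 1; omega
    · intro x hx
      simp only [List.mem_map, List.mem_range] at hx
      obtain ⟨t, ht, rfl⟩ := hx
      rw [min_eq_left h, max_eq_right h]
      omega
  · obtain ⟨h1, h2, h3, h4⟩ := r1_range (fun t => a - (t : ℤ)) (a - b).toNat
      (by intro t; push_cast; ring_nf; simp) (by intro x y hxy; simpa using hxy)
    have h' : b ≤ a := by omega
    refine ⟨by rw [h1]; simp, ?_, h3, ?_, h4⟩
    · rw [h2]; congr 1; omega
    · intro x hx
      simp only [List.mem_map, List.mem_range] at hx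
      obtain ⟨t, ht, rfl⟩ := hx
      rw [min_eq_right h', max_eq_left h']
      omega

theorem r1_near_pnt {d m : ℕ} (s : Fin d → ZMod m) (x y : ℤ) (h : |x - y| ≤ 1) : Near (pnt x s) (pnt y s) := by
  intro i
  refine Fin.cases ?_ (fun j => ?_) i
  · simpa [pnt] using h
  · simp [pnt]

theorem r1_near_pntAt {d m : ℕ} (h : ℤ) (s : Fin d → ZMod m) (c : Fin d) (x y : ℤ) (hxy : |x - y| ≤ 1) :
    Near (pntAt h s c x) (pntAt h s c y) := by
  intro i
  refine Fin.cases ?_ (fun j => ?_) i
  · simp [pntAt]
  · by_cases hj : j = c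
    · subst hj; simpa [pntAt] using hxy
    · simp [pntAt, Function.update_of_ne hj]

theorem r1_pntAt_self {d m : ℕ} (h : ℤ) (s s' : Fin d → ZMod m) (c : Fin d) (hs : ∀ i, i ≠ c → s' i = s i) :
    pntAt h s c ((s' c).val : ℤ) = pnt h s' := by
  unfold pntAt pnt
  congr 1
  funext i
  by_cases hi : i = c
  · subst hi; rw [Function.update_self]
  · rw [Function.update_of_ne hi, hs i hi]

theorem r1_near_refl {n : ℕ} (z : Fin n → ℤ) : Near z z := by intro i; simp

theorem r1_chain_pnt {d m : ℕ} (s : Fin d → ZMod m) (a b : ℤ) : ((walk a b).map (fun h => pnt h s)).IsChain Near := by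
  rw [List.isChain_map]
  exact (walk_props a b).2.2.1.imp (fun x y h => r1_near_pnt s x y h)

theorem r1_chain_pntAt {d m : ℕ} (h : ℤ) (s : Fin d → ZMod m) (c : Fin d) (a b : ℤ) :
    ((walk a b).map (fun t => pntAt h s c t)).IsChain Near := by
  rw [List.isChain_map]
  exact (walk_props a b).2.2.1.imp (fun x y hxy => r1_near_pntAt h s c x y hxy)

theorem r1_head_map {α : Type} (f : ℤ → α) (a b : ℤ) : ((walk a b).map f).head? = some (f a) := by
  rw [List.head?_map, (walk_props a b).1]; rfl

theorem r1_last_map {α : Type} (f : ℤ → α) (a b : ℤ) : ((walk a b).map f).getLast? = some (f b) := by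
  rw [List.getLast?_map, (walk_props a b).2.1]; rfl

theorem routing_routeP {k d m : ℕ} [NeZero m] (g : Fin k → Equiv.Perm (Fin d → ZMod m)) (c : Fin k → Fin d)
    (hg : ∀ j s i, i ≠ c j → g j s i = s i) : Routing (sig g) siteP (routeP g c) := by
  constructor
  · intro i p
    cases i
    · simp only [routeP]
      rw [r1_head_map]; rfl
    · simp only [routeP]
      rw [List.append_assoc, List.head?_append, r1_head_map]; rfl
  · intro i p
    cases i
    · simp only [routeP]
      rw [r1_last_map]; rfl
    · simp only [routeP]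
      rw [List.getLast?_append, r1_last_map]; rfl
  · intro i p
    cases i
    · simp only [routeP]
      exact r1_chain_pnt _ _ _
    · simp only [routeP]
      rw [List.append_assoc, List.isChain_append, List.isChain_append]
      refine ⟨r1_chain_pnt _ _ _, ⟨r1_chain_pntAt _ _ _ _ _, r1_chain_pnt _ _ _, ?_⟩, ?_⟩
      · intro x hx y hy
        rw [r1_last_map] at hx
        rw [r1_head_map] at hy
        simp only [Option.mem_def, Option.some.injEq] at hx hy
        rw [← hx, ← hy, r1_pntAt_self _ _ (g p.1 p.2) _ (fun i hi => hg _ _ i hi)]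
        exact r1_near_refl _
      · intro x hx y hy
        rw [r1_last_map] at hx
        rw [List.head?_append, r1_head_map] at hy
        simp only [Option.mem_def, Option.some.injEq, Option.some_or] at hx hy
        rw [← hx, ← hy, r1_pntAt_self _ _ p.2 _ (fun i hi => rfl)]
        exact r1_near_refl _

end H32D
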