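import Pool.Agent.Lib.H32D.SDefs

set_option autoImplicit false

/-!
# H32D, chunk S1 (M): invariants of the boundary word

By induction on `Built` (`O` an orientation of `K`): 
* all triangles in `T` are faces of `K`; `C.card + 1 = T.card`; every edge in `C` is `{u, v}` with both triangles `O u v _`, `O v u _` in `T`.
* `w` has no repetition, and `(u, v) ∈ w` iff there is `z` with `O u v z`, `{u, v, z} ∈ T` and `{u, v} ∉ C`.
* `w` is a closed walk: the end of each directed edge is the start of the next, and the end of the last is the start of the first.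
* every vertex of a triangle in `T` is the start of some directed edge in `w`.
In a step the new triangle `{u, v, z}` is positively ordered as `(v, u, z)`, so its directed edges are `(v, u)`, `(u, z)`, `(z, v)`; `(v, u)` is not in `w`
before (its triangle is new) and `{u, v}` is in the new `C`. The new edges `(u, z)`, `(z, v)` were not in `w` (their triangle is new), and
`{u, z} ∉ C`, `{z, v} ∉ C` (an edge in `C` has both its triangles in `T`). `O` determines the triangle of a directed edge (`unique`).

Auxiliary names start with `s1_`.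
-/

open Finset

namespace H32D

structure BuiltInv {V : Type} [Fintype V] [DecidableEq V] (K : Cpx V) (O : V → V → V → Prop) (T C : Finset (Finset V))
    (w : List (V × V)) : Prop where
  sub : T ⊆ K.tris
  card : C.card + 1 = T.card
  inC : ∀ u v, u ≠ v → ({u, v} : Finset V) ∈ C → ∃ z, O u v z ∧ ({u, v, z} : Finset V) ∈ T
  edgesC : C ⊆ K.edges
  nodup : w.Nodup
  mem : ∀ u v, (u, v) ∈ w ↔ (∃ z, O u v z ∧ ({u, v, z} : Finset V) ∈ T) ∧ ({u, v} : Finset V) ∉ C
  chain : w.IsChain (fun e e' => e.2 = e'.1)
  closed : ∀ e e', w.head? = some e → w.getLast? = some e' → e'.2 = e.1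
  vert : ∀ t ∈ T, ∀ v ∈ t, ∃ u, (v, u) ∈ w

theorem s1_third {V : Type} [DecidableEq V] {u v z c : V} (h1 : z ≠ u) (h2 : z ≠ v)
    (h : z ∈ ({u, v, c} : Finset V)) : z = c := by
  simp only [Finset.mem_insert, Finset.mem_singleton] at h
  rcases h with h | h | h
  · exact absurd h h1
  · exact absurd h h2
  · exact h

theorem s1_cyc {V : Type} [Fintype V] [DecidableEq V] {K : Cpx V} {O : V → V → V → Prop} (hO : IsOrientation K O) {a b c u v z : V}
    (h : O a b c) (h' : O u v z) (he : ({u, v, z} : Finset V) = {a, b, c}) :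
    (u = a ∧ v = b) ∨ (u = b ∧ v = c) ∨ (u = c ∧ v = a) := by
  obtain ⟨hab, hbc, hac, -⟩ := hO.face _ _ _ h
  obtain ⟨huv, hvz, huz, -⟩ := hO.face _ _ _ h'
  have hu : u ∈ ({a, b, c} : Finset V) := by rw [← he]; simp
  have hv : v ∈ ({a, b, c} : Finset V) := by rw [← he]; simp
  have hz : z ∈ ({a, b, c} : Finset V) := by rw [← he]; simp
  have r1 := hO.rot _ _ _ h
  have r2 := hO.rot _ _ _ r1
  have n1 := hO.anti _ _ _ h
  have n2 := hO.anti _ _ _ r1
  have n3 := hO.anti _ _ _ r2
  simp only [Finset.mem_insert, Finset.mem_singleton] at hu hv hz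
  rcases hu with rfl | rfl | rfl <;> rcases hv with rfl | rfl | rfl <;> rcases hz with rfl | rfl | rfl <;>
    first
      | exact absurd rfl huv
      | exact absurd rfl hvz
      | exact absurd rfl huz
      | exact absurd h' n1
      | exact absurd h' n2
      | exact absurd h' n3
      | simp

theorem s1_chain {V : Type} {w1 w2 : List (V × V)} {u v z : V}
    (h : (w1 ++ (u, v) :: w2).IsChain (fun e e' => e.2 = e'.1)) :
    (w1 ++ (u, z) :: (z, v) :: w2).IsChain (fun e e' => e.2 = e'.1) := by
  rw [List.isChain_append] at h ⊢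
  obtain ⟨h1, h2, h3⟩ := h
  refine ⟨h1, ?_, ?_⟩
  · rw [List.isChain_cons] at h2
    rw [List.isChain_cons_cons, List.isChain_cons]
    exact ⟨rfl, h2.1, h2.2⟩
  · intro x hx y hy
    have := h3 x hx (u, v) (by simp)
    simp only [List.head?_cons, Option.mem_def, Option.some.injEq] at hy
    rw [← hy]
    exact this

theorem s1_closed {V : Type} {w1 w2 : List (V × V)} {u v z : V}
    (h : ∀ e e', (w1 ++ (u, v) :: w2).head? = some e → (w1 ++ (u, v) :: w2).getLast? = some e' → e'.2 = e.1) :
    ∀ e e', (w1 ++ (u, z) :: (z, v) :: w2).head? = some e → (w1 ++ (u, z) :: (z, v) :: w2).getLast? = some e' → e'.2 = e.1 := by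
  intro e e' he he'
  have h1 : ∃ f, (w1 ++ (u, v) :: w2).head? = some f ∧ f.1 = e.1 := by
    cases w1 with
    | nil =>
      simp only [List.nil_append, List.head?_cons, Option.some.injEq] at he
      exact ⟨(u, v), rfl, by rw [← he]⟩
    | cons a t =>
      simp only [List.cons_append, List.head?_cons, Option.some.injEq] at he
      exact ⟨a, rfl, by rw [he]⟩
  have h2 : ∃ f, (w1 ++ (u, v) :: w2).getLast? = some f ∧ f.2 = e'.2 := by
    rcases List.eq_nil_or_concat w2 with rfl | ⟨t, a, rfl⟩
    · refine ⟨(u, v), by simp, ?_⟩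
      rw [show w1 ++ (u, z) :: (z, v) :: [] = (w1 ++ [(u, z)]) ++ [(z, v)] by simp] at he'
      rw [List.getLast?_concat] at he'
      rw [← Option.some.inj he']
    · refine ⟨a, ?_, ?_⟩
      · rw [show w1 ++ (u, v) :: (t.concat a) = (w1 ++ (u, v) :: t) ++ [a] by simp]
        exact List.getLast?_concat
      · rw [show w1 ++ (u, z) :: (z, v) :: (t.concat a) = (w1 ++ (u, z) :: (z, v) :: t) ++ [a] by simp] at he'
        rw [List.getLast?_concat] at he'
        rw [← Option.some.inj he']
  obtain ⟨f, hf, hf'⟩ := h1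
  obtain ⟨f2, hf2, hf2'⟩ := h2
  rw [← hf', ← hf2']
  exact h f f2 hf hf2

theorem built_inv {V : Type} [Fintype V] [DecidableEq V] {K : Cpx V} {O : V → V → V → Prop} (hO : IsOrientation K O)
    {T C : Finset (Finset V)} {w : List (V × V)} (h : Built O T C w) : BuiltInv K O T C w := by
  induction h with
  | base a b c h =>
    obtain ⟨hab, hbc, hac, hf⟩ := hO.face _ _ _ h
    have r1 := hO.rot _ _ _ h
    have r2 := hO.rot _ _ _ r1
    refine ⟨?_, by simp, by simp, by simp, ?_, ?_, ?_, ?_, ?_⟩
    · intro t ht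
      rw [Finset.mem_singleton] at ht
      rw [ht]
      exact Finset.mem_filter.2 ⟨hf, Finset.card_eq_three.2 ⟨a, b, c, hab, hac, hbc, rfl⟩⟩
    · simp only [List.nodup_cons, List.mem_cons, Prod.mk.injEq, List.not_mem_nil, or_false, not_false_eq_true, List.nodup_nil, and_true,
        not_or, not_and]
      exact ⟨⟨fun h => absurd h hab, fun h => absurd h hac⟩, fun h => absurd h hbc⟩
    · intro u v
      constructor
      · intro hm
        simp only [List.mem_cons, Prod.mk.injEq, List.not_mem_nil, or_false] at hm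
        refine ⟨?_, by simp⟩
        rcases hm with ⟨rfl, rfl⟩ | ⟨rfl, rfl⟩ | ⟨rfl, rfl⟩
        · exact ⟨c, h, by simp⟩
        · refine ⟨a, r1, ?_⟩
          rw [Finset.mem_singleton]
          ext x; simp only [Finset.mem_insert, Finset.mem_singleton]; tauto
        · refine ⟨b, r2, ?_⟩
          rw [Finset.mem_singleton]
          ext x; simp only [Finset.mem_insert, Finset.mem_singleton]; tauto
      · rintro ⟨⟨z, hz, hz'⟩, -⟩
        rcases s1_cyc hO h hz (Finset.mem_singleton.1 hz') with ⟨rfl, rfl⟩ | ⟨rfl, rfl⟩ | ⟨rfl, rfl⟩ <;> simp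
    · simp
    · intro e e' he he'
      simp only [List.head?_cons, Option.some.injEq] at he
      simp only [List.getLast?_cons_cons, List.getLast?_singleton, Option.some.injEq] at he'
      rw [← he, ← he']
    · intro t ht v hv
      rw [Finset.mem_singleton] at ht
      rw [ht] at hv
      simp only [Finset.mem_insert, Finset.mem_singleton] at hv
      rcases hv with rfl | rfl | rfl
      · exact ⟨b, by simp⟩
      · exact ⟨c, by simp⟩
      · exact ⟨a, by simp⟩
  | step T C w1 w2 u v z hb hO' hT ih =>
    obtain ⟨hvu, huz, hvz, hf⟩ := hO.face _ _ _ hO'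
    have q1 := hO.rot _ _ _ hO'
    have q2 := hO.rot _ _ _ q1
    have hset : ({v, u, z} : Finset V) = {u, v, z} := Finset.insert_comm _ _ _
    have hset1 : ({u, z, v} : Finset V) = {u, v, z} := by rw [Finset.pair_comm]
    have hset2 : ({z, v, u} : Finset V) = {u, v, z} := by
      ext x; simp only [Finset.mem_insert, Finset.mem_singleton]; tauto
    rw [hset] at hf
    obtain ⟨⟨z0, hz0, hz0T⟩, huvC⟩ := (ih.mem u v).1 (by simp)
    have huzC : ({u, z} : Finset V) ∉ C := by
      intro hc
      obtain ⟨z1, h1, h2⟩ := ih.inC u z huz hc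
      rw [hO.unique _ _ _ _ h1 q1, hset1] at h2
      exact hT h2
    have hzvC : ({z, v} : Finset V) ∉ C := by
      intro hc
      obtain ⟨z1, h1, h2⟩ := ih.inC z v hvz.symm hc
      rw [hO.unique _ _ _ _ h1 q2, hset2] at h2
      exact hT h2
    have huzw : (u, z) ∉ w1 ++ (u, v) :: w2 := by
      intro hm
      obtain ⟨⟨z1, h1, h2⟩, -⟩ := (ih.mem u z).1 hm
      rw [hO.unique _ _ _ _ h1 q1, hset1] at h2
      exact hT h2
    have hzvw : (z, v) ∉ w1 ++ (u, v) :: w2 := by
      intro hm
      obtain ⟨⟨z1, h1, h2⟩, -⟩ := (ih.mem z v).1 hm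
      rw [hO.unique _ _ _ _ h1 q2, hset2] at h2
      exact hT h2
    have hvuw : (v, u) ∉ w1 ++ (u, v) :: w2 := by
      intro hm
      obtain ⟨⟨z1, h1, h2⟩, -⟩ := (ih.mem v u).1 hm
      rw [hO.unique _ _ _ _ h1 hO', hset] at h2
      exact hT h2
    have hnd := ih.nodup
    have hnd' : (w1 ++ w2).Nodup ∧ (u, v) ∉ w1 ++ w2 := by
      rw [List.nodup_middle] at hnd
      exact ⟨(List.nodup_cons.1 hnd).2, (List.nodup_cons.1 hnd).1⟩
    have hold : ∀ e : V × V, e ∈ w1 ++ w2 ↔ e ∈ w1 ++ (u, v) :: w2 ∧ e ≠ (u, v) := by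
      intro e
      simp only [List.mem_append, List.mem_cons]
      constructor
      · intro h
        refine ⟨by tauto, ?_⟩
        rintro rfl
        exact hnd'.2 (List.mem_append.2 h)
      · rintro ⟨h1 | h1 | h1, h2⟩
        · exact Or.inl h1
        · exact absurd h1 h2
        · exact Or.inr h1
    have hnew : ∀ e : V × V, e ∈ w1 ++ (u, z) :: (z, v) :: w2 ↔ e = (u, z) ∨ e = (z, v) ∨ (e ∈ w1 ++ (u, v) :: w2 ∧ e ≠ (u, v)) := by
      intro e
      rw [← hold e]
      simp only [List.mem_append, List.mem_cons]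
      tauto
    have hpairne1 : ({u, z} : Finset V) ≠ {u, v} := by
      intro h
      have : z ∈ ({u, v} : Finset V) := by rw [← h]; simp
      simp only [Finset.mem_insert, Finset.mem_singleton] at this
      rcases this with h | h
      · exact huz h.symm
      · exact hvz h.symm
    have hpairne2 : ({z, v} : Finset V) ≠ {u, v} := by
      intro h
      have : z ∈ ({u, v} : Finset V) := by rw [← h]; simp
      simp only [Finset.mem_insert, Finset.mem_singleton] at this
      rcases this with h | h
      · exact huz h.symm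
      · exact hvz h.symm
    refine ⟨?_, ?_, ?_, ?_, ?_, ?_, s1_chain ih.chain, s1_closed ih.closed, ?_⟩
    · intro t ht
      rcases Finset.mem_insert.1 ht with rfl | ht
      · exact Finset.mem_filter.2 ⟨hf, Finset.card_eq_three.2 ⟨u, v, z, hvu.symm, huz, hvz, rfl⟩⟩
      · exact ih.sub ht
    · rw [Finset.card_insert_of_notMem huvC, Finset.card_insert_of_notMem hT, ih.card]
    · intro x y hxy hc
      rcases Finset.mem_insert.1 hc with hc | hc
      · have hx : x ∈ ({u, v} : Finset V) := by rw [← hc]; simp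
        have hy : y ∈ ({u, v} : Finset V) := by rw [← hc]; simp
        simp only [Finset.mem_insert, Finset.mem_singleton] at hx hy
        rcases hx with rfl | rfl <;> rcases hy with rfl | rfl
        · exact absurd rfl hxy
        · exact ⟨z0, hz0, Finset.mem_insert_of_mem hz0T⟩
        · exact ⟨z, hO', by rw [hset]; exact Finset.mem_insert_self _ _⟩
        · exact absurd rfl hxy
      · obtain ⟨z1, h1, h2⟩ := ih.inC x y hxy hc
        exact ⟨z1, h1, Finset.mem_insert_of_mem h2⟩
    · intro t ht
      rcases Finset.mem_insert.1 ht with rfl | ht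
      · refine Finset.mem_filter.2 ⟨K.down _ hf _ ?_ (by simp), Finset.card_pair hvu.symm⟩
        intro x hx
        simp only [Finset.mem_insert, Finset.mem_singleton] at hx ⊢
        tauto
      · exact ih.edgesC ht
    · rw [List.nodup_middle]
      have h1 : List.Perm ((z, v) :: (w1 ++ w2)) (w1 ++ (z, v) :: w2) := List.perm_middle.symm
      rw [List.nodup_cons]
      refine ⟨?_, ?_⟩
      · intro hm
        rcases List.mem_append.1 hm with h | h
        · exact huzw (List.mem_append_left _ h)
        · rcases List.mem_cons.1 h with h | h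
          · exact huz (Prod.mk.inj h).1
          · exact huzw (List.mem_append_right _ (List.mem_cons_of_mem _ h))
      · rw [← h1.nodup_iff, List.nodup_cons]
        refine ⟨?_, hnd'.1⟩
        intro hm
        exact hzvw ((hold _).1 hm).1
    · intro x y
      rw [hnew (x, y)]
      constructor
      · rintro (h | h | ⟨h, h'⟩)
        · obtain ⟨rfl, rfl⟩ := Prod.mk.inj h
          refine ⟨⟨v, q1, by rw [hset1]; exact Finset.mem_insert_self _ _⟩, ?_⟩
          rw [Finset.mem_insert, not_or]
          exact ⟨hpairne1, huzC⟩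
        · obtain ⟨rfl, rfl⟩ := Prod.mk.inj h
          refine ⟨⟨u, q2, by rw [hset2]; exact Finset.mem_insert_self _ _⟩, ?_⟩
          rw [Finset.mem_insert, not_or]
          exact ⟨hpairne2, hzvC⟩
        · obtain ⟨⟨z1, h1, h2⟩, h3⟩ := (ih.mem x y).1 h
          refine ⟨⟨z1, h1, Finset.mem_insert_of_mem h2⟩, ?_⟩
          rw [Finset.mem_insert, not_or]
          refine ⟨?_, h3⟩
          intro hc
          have hx : x ∈ ({u, v} : Finset V) := by rw [← hc]; simp
          have hy : y ∈ ({u, v} : Finset V) := by rw [← hc]; simp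
          have hxy : x ≠ y := (hO.face _ _ _ h1).1
          simp only [Finset.mem_insert, Finset.mem_singleton] at hx hy
          rcases hx with rfl | rfl <;> rcases hy with rfl | rfl
          · exact hxy rfl
          · exact h' rfl
          · exact hvuw h
          · exact hxy rfl
      · rintro ⟨⟨z1, h1, h2⟩, h3⟩
        rw [Finset.mem_insert, not_or] at h3
        rcases Finset.mem_insert.1 h2 with h2 | h2
        · rcases s1_cyc hO hO' h1 (h2.trans hset.symm) with ⟨rfl, rfl⟩ | ⟨rfl, rfl⟩ | ⟨rfl, rfl⟩
          · exact absurd (Finset.pair_comm _ _) h3.1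
          · exact Or.inl rfl
          · exact Or.inr (Or.inl rfl)
        · refine Or.inr (Or.inr ⟨(ih.mem x y).2 ⟨⟨z1, h1, h2⟩, h3.2⟩, ?_⟩)
          intro he
          obtain ⟨rfl, rfl⟩ := Prod.mk.inj he
          exact h3.1 rfl
    · intro t ht x hx
      have key : ∀ t ∈ T, ∀ x ∈ t, ∃ y, (x, y) ∈ w1 ++ (u, z) :: (z, v) :: w2 := by
        intro t ht x hx
        obtain ⟨y, hy⟩ := ih.vert t ht x hx
        by_cases he : (x, y) = (u, v)
        · obtain ⟨rfl, rfl⟩ := Prod.mk.inj he
          exact ⟨z, (hnew _).2 (Or.inl rfl)⟩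
        · exact ⟨y, (hnew _).2 (Or.inr (Or.inr ⟨hy, he⟩))⟩
      rcases Finset.mem_insert.1 ht with rfl | ht
      · simp only [Finset.mem_insert, Finset.mem_singleton] at hx
        rcases hx with rfl | rfl | rfl
        · exact ⟨z, (hnew _).2 (Or.inl rfl)⟩
        · exact key _ hz0T _ (by simp)
        · exact ⟨v, (hnew _).2 (Or.inr (Or.inl rfl))⟩
      · exact key t ht x hx

end H32D
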