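import Pool.Agent.Lib.H32D.SDefs

set_option autoImplicit false

/-!
# H32D, chunk S2 (M): any two triangles are connected through edges

Let `X` be a nonempty set of triangles of the surface such that a triangle with an edge in common with a triangle of `X` is in `X`; then `X` is everything.
Around a vertex `v`: if one triangle at `v` is in `X` then all are, because the link of `v` is connected: walk in the link (neighbours `a - b - c`
of `v` with `{v, a, b}`, `{v, b, c}` faces share the edge `{v, b}`; every triangle at `v` is `{v, a, b}` with `a - b` an edge of the link). Then the set of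
vertices all of whose triangles are in `X` is closed under adjacency (an edge is in a triangle: `pure`), and `K.graph` is connected.

Auxiliary names start with `s2_`.
-/

open Finset

namespace H32D

theorem s2_closed {A : Type} {G : SimpleGraph A} (hG : G.Connected) (S : Set A) (hne : ∃ a, a ∈ S)
    (hcl : ∀ a ∈ S, ∀ b, G.Adj a b → b ∈ S) (b : A) : b ∈ S := by
  obtain ⟨a, ha⟩ := hne
  obtain ⟨w⟩ := hG.preconnected a b
  induction w with
  | nil => exact ha
  | cons h _ ih => exact ih (hcl _ ha _ h)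

theorem s2_adj {V : Type} [Fintype V] [DecidableEq V] {K : Cpx V} {t : Finset V} (ht : t ∈ K.faces) {a b : V} (ha : a ∈ t) (hb : b ∈ t)
    (hab : a ≠ b) : K.graph.Adj a b := by
  refine ⟨hab, K.down t ht _ ?_ (by simp)⟩
  intro x hx
  simp only [Finset.mem_insert, Finset.mem_singleton] at hx
  rcases hx with rfl | rfl
  · exact ha
  · exact hb

theorem s2_two {V : Type} [DecidableEq V] {t t' : Finset V} {a b : V} (hab : a ≠ b) (h1 : a ∈ t) (h2 : b ∈ t) (h3 : a ∈ t')
    (h4 : b ∈ t') : 2 ≤ (t ∩ t').card := by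
  rw [← Finset.card_pair hab]
  apply Finset.card_le_card
  intro x hx
  simp only [Finset.mem_insert, Finset.mem_singleton] at hx
  rcases hx with rfl | rfl
  · exact Finset.mem_inter.2 ⟨h1, h3⟩
  · exact Finset.mem_inter.2 ⟨h2, h4⟩

theorem s2_other {V : Type} [DecidableEq V] {t : Finset V} (ht : t.card = 3) (v : V) : ∃ a ∈ t, a ≠ v := by
  by_contra h
  push Not at h
  have : t ⊆ {v} := fun a ha => Finset.mem_singleton.2 (h a ha)
  have := Finset.card_le_card this
  rw [ht, Finset.card_singleton] at this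
  omega

theorem tris_connected {V : Type} [Fintype V] [DecidableEq V] {K : Cpx V} (hK : IsSurface K) (X : Finset (Finset V))
    (hX : X ⊆ K.tris) (hne : X.Nonempty) (hcl : ∀ t ∈ X, ∀ t' ∈ K.tris, 2 ≤ (t ∩ t').card → t' ∈ X) : X = K.tris := by
  have hA : ∀ v, (∃ x ∈ X, v ∈ x) → ∀ t ∈ K.tris, v ∈ t → t ∈ X := by
    rintro v ⟨x, hx, hvx⟩ t ht hvt
    obtain ⟨hxf, hx3⟩ := Finset.mem_filter.1 (hX hx)
    obtain ⟨htf, ht3⟩ := Finset.mem_filter.1 ht
    obtain ⟨a, hat, hav⟩ := s2_other ht3 v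
    obtain ⟨b, hbx, hbv⟩ := s2_other hx3 v
    have key := s2_closed (hK.link v) {a | ∃ t ∈ X, v ∈ t ∧ a.1 ∈ t}
      ⟨⟨b, s2_adj hxf hvx hbx hbv.symm⟩, x, hx, hvx, hbx⟩ ?_ ⟨a, s2_adj htf hvt hat hav.symm⟩
    · obtain ⟨t', ht', hvt', hat'⟩ := key
      exact hcl t' ht' t ht (s2_two hav.symm hvt' hat' hvt hat)
    · rintro ⟨c, hc⟩ ⟨t1, ht1, hvt1, hct1⟩ ⟨c', hc'⟩ ⟨hcc', hf⟩
      have hvc : v ≠ c := hc.1
      have hvc' : v ≠ c' := hc'.1
      have hcc : c ≠ c' := fun h => hcc' (Subtype.ext h)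
      have htri : ({v, c, c'} : Finset V) ∈ K.tris :=
        Finset.mem_filter.2 ⟨hf, Finset.card_eq_three.2 ⟨v, c, c', hvc, hvc', hcc, rfl⟩⟩
      exact ⟨_, hcl t1 ht1 _ htri (s2_two hvc hvt1 hct1 (by simp) (by simp)), by simp, by simp⟩
  have hB : ∀ v, ∃ x ∈ X, v ∈ x := by
    obtain ⟨x, hx⟩ := hne
    obtain ⟨hxf, hx3⟩ := Finset.mem_filter.1 (hX hx)
    obtain ⟨v0, hv0⟩ := K.nonempty x hxf
    intro v
    refine s2_closed hK.conn {v | ∃ x ∈ X, v ∈ x} ⟨v0, x, hx, hv0⟩ ?_ v
    rintro a ha b hab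
    obtain ⟨t, htf, hst, ht3⟩ := hK.pure _ hab.2
    have hat : a ∈ t := hst (by simp)
    have hbt : b ∈ t := hst (by simp)
    exact ⟨t, hA a ha t (Finset.mem_filter.2 ⟨htf, ht3⟩) hat, hbt⟩
  refine Finset.Subset.antisymm hX fun t ht => ?_
  obtain ⟨v, hv⟩ := K.nonempty t (Finset.mem_filter.1 ht).1
  exact hA v (hB v) t ht hv

end H32D
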