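import Pool.Agent.Lib.H32D.S1
import Pool.Agent.Lib.H32D.S2

set_option autoImplicit false

/-!
# H32D, chunk S3 (M): all triangles can be glued

Take `Built O T C w` with `T` of maximal cardinality (start with one triangle: `V` is nonempty, so there is a face of card `3`, and `total`
gives an orientation of it). If `T ≠ K.tris`, by `tris_connected` there are `t ∈ T` and `t' ∈ K.tris`, `t' ∉ T` with two common vertices `u`, `v`
(exactly two since `t ≠ t'`); choose the names with `O u v z0`, `t = {u, v, z0}` (one of the two directions is in the positive boundary of `t`).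
`t' = {u, v, z}` with `O v u z` (not `O u v z`, by `unique` it would be `t`). `{u, v} ∉ C`: otherwise `O v u z' ∈ T` by `inC`, so `t' ∈ T`.
So `(u, v) ∈ w` by `mem`, split `w` there and apply `Built.step`.

Auxiliary names start with `s3_`.
-/

open Finset

namespace H32D

theorem s3_third {V : Type} [DecidableEq V] {t : Finset V} (ht : t.card = 3) {u v : V} (hu : u ∈ t) (hv : v ∈ t) (huv : u ≠ v) :
    ∃ z, z ≠ u ∧ z ≠ v ∧ t = {u, v, z} := by
  have h1 : ((t.erase u).erase v).card = 1 := by
    rw [Finset.card_erase_of_mem (Finset.mem_erase.2 ⟨huv.symm, hv⟩), Finset.card_erase_of_mem hu, ht]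
  obtain ⟨z, hz⟩ := Finset.card_eq_one.1 h1
  have hz' : z ∈ (t.erase u).erase v := by rw [hz]; simp
  obtain ⟨hzv, hz2⟩ := Finset.mem_erase.1 hz'
  obtain ⟨hzu, hzt⟩ := Finset.mem_erase.1 hz2
  refine ⟨z, hzu, hzv, ?_⟩
  symm
  apply Finset.eq_of_subset_of_card_le
  · intro x hx
    simp only [Finset.mem_insert, Finset.mem_singleton] at hx
    rcases hx with rfl | rfl | rfl
    · exact hu
    · exact hv
    · exact hzt
  · rw [ht, Finset.card_eq_three.2 ⟨u, v, z, huv, hzu.symm, hzv.symm, rfl⟩]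

theorem s3_step {V : Type} [Fintype V] [DecidableEq V] {K : Cpx V} {O : V → V → V → Prop} (hO : IsOrientation K O)
    {T C : Finset (Finset V)} {w : List (V × V)} (h : Built O T C w) {u v z0 : V} {t' : Finset V}
    (hT : ({u, v, z0} : Finset V) ∈ T) (hz0 : O u v z0) (ht' : t' ∈ K.tris) (hu : u ∈ t') (hv : v ∈ t') (ht'T : t' ∉ T) :
    ∃ T' C' w', Built O T' C' w' ∧ T'.card = T.card + 1 := by
  have inv := built_inv hO h
  have huv : u ≠ v := (hO.face _ _ _ hz0).1
  obtain ⟨htf, ht3⟩ := Finset.mem_filter.1 ht'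
  obtain ⟨z, hzu, hzv, hzt⟩ := s3_third ht3 hu hv huv
  have hO2 : O v u z := by
    rcases hO.total u v z huv hzv.symm hzu.symm (by rw [← hzt]; exact htf) with h1 | h1
    · exfalso
      rw [hO.unique _ _ _ _ h1 hz0] at hzt
      rw [hzt] at ht'T
      exact ht'T hT
    · exact h1
  have huvC : ({u, v} : Finset V) ∉ C := by
    intro hc
    obtain ⟨z1, h1, h2⟩ := inv.inC v u huv.symm (by rwa [Finset.pair_comm])
    rw [hO.unique _ _ _ _ h1 hO2, Finset.insert_comm, ← hzt] at h2
    exact ht'T h2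
  have hmem : (u, v) ∈ w := (inv.mem u v).2 ⟨⟨z0, hz0, hT⟩, huvC⟩
  obtain ⟨w1, w2, rfl⟩ := List.append_of_mem hmem
  rw [hzt] at ht'T
  exact ⟨_, _, _, Built.step T C w1 w2 u v z h hO2 ht'T, Finset.card_insert_of_notMem ht'T⟩

theorem s3_grow {V : Type} [Fintype V] [DecidableEq V] {K : Cpx V} (hK : IsSurface K) {O : V → V → V → Prop}
    (hO : IsOrientation K O) {T C : Finset (Finset V)} {w : List (V × V)} (h : Built O T C w) (hne : T ≠ K.tris) :
    ∃ T' C' w', Built O T' C' w' ∧ T'.card = T.card + 1 := by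
  have inv := built_inv hO h
  have hex : ∃ t ∈ T, ∃ t' ∈ K.tris, 2 ≤ (t ∩ t').card ∧ t' ∉ T := by
    by_contra hcon
    push Not at hcon
    refine hne (tris_connected hK T inv.sub ?_ fun t ht t' ht' hc => hcon t ht t' ht' hc)
    rw [← Finset.card_pos, ← inv.card]
    omega
  obtain ⟨t, ht, t', ht', hc, ht'T⟩ := hex
  obtain ⟨u, hu, v, hv, huv⟩ := Finset.one_lt_card.1 hc
  obtain ⟨hut, hut'⟩ := Finset.mem_inter.1 hu
  obtain ⟨hvt, hvt'⟩ := Finset.mem_inter.1 hv
  obtain ⟨htf, ht3⟩ := Finset.mem_filter.1 (inv.sub ht)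
  obtain ⟨z, hzu, hzv, hzt⟩ := s3_third ht3 hut hvt huv
  rcases hO.total u v z huv hzv.symm hzu.symm (by rw [← hzt]; exact htf) with h1 | h1
  · exact s3_step hO h (by rw [← hzt]; exact ht) h1 ht' hut' hvt' ht'T
  · exact s3_step hO h (by rw [Finset.insert_comm, ← hzt]; exact ht) h1 ht' hvt' hut' ht'T

theorem exists_built {V : Type} [Fintype V] [DecidableEq V] {K : Cpx V} (hK : IsSurface K) {O : V → V → V → Prop}
    (hO : IsOrientation K O) : ∃ C w, Built O K.tris C w := by
  have key : ∀ n : ℕ, ∀ (T C : Finset (Finset V)) (w : List (V × V)), Built O T C w → K.tris.card - T.card = n →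
      ∃ C w, Built O K.tris C w := by
    intro n
    induction n using Nat.strong_induction_on with
    | _ n ih =>
      intro T C w h hn
      by_cases hT : T = K.tris
      · exact ⟨C, w, hT ▸ h⟩
      · obtain ⟨T', C', w', h', hc⟩ := s3_grow hK hO h hT
        have h1 := Finset.card_le_card (built_inv (K := K) hO h').sub
        refine ih (K.tris.card - T'.card) ?_ T' C' w' h' rfl
        omega
  obtain ⟨v⟩ := hK.conn.nonempty
  obtain ⟨t, htf, hvt, ht3⟩ := hK.pure _ (K.vertex v)
  obtain ⟨a, b, c, hab, hac, hbc, rfl⟩ := Finset.card_eq_three.1 ht3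
  rcases hO.total a b c hab hbc hac htf with h1 | h1
  · exact key _ _ _ _ (Built.base a b c h1) rfl
  · exact key _ _ _ _ (Built.base b a c h1) rfl

end H32D
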