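import Pool.Agent.Lib.H32D.S1

set_option autoImplicit false

/-!
# H32D, chunk S4 (M): extending a labelling over the glued edges

Induct on `Built`, for all `μ`. Base: take `lab = μ`; every cyclic order of the triangle is flat since the product of the boundary word is `1`
(note that `{a, b, c}` is the only triangle in `T`; a triple `(a', b', c')` with the same set is a cyclic rotation or a reflection of it).
Step: given `μ` for the new word, define `μ'` equal to `μ` except `μ' u v = μ u z * μ z v` and `μ' v u = (μ u z * μ z v)⁻¹`; the product of `μ'` along the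
old word is the product of `μ` along the new word (`(u, v)` occurs once in the old word and `(v, u)` not at all, by `built_inv`), apply the induction
hypothesis: `lab` agrees with `μ'` outside `C`, in particular on `u v`, `u z`, `z v` (`{u, v}, {u, z}, {z, v} ∉ C`, since an edge in `C` has both
triangles in `T` and `{u, v, z} ∉ T`).

Auxiliary names start with `s4_`.
-/

open Finset

namespace H32D

theorem s4_six {V : Type} [DecidableEq V] {H : Type} [Group H] {lab : V → V → H} (hinv : ∀ a b, lab b a = (lab a b)⁻¹)
    {a b c : V} (h : lab a b * lab b c = lab a c) {x y z : V} (hxy : x ≠ y) (hyz : y ≠ z) (hxz : x ≠ z)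
    (he : ({x, y, z} : Finset V) = {a, b, c}) : lab x y * lab y z = lab x z := by
  have hx : x ∈ ({a, b, c} : Finset V) := by rw [← he]; simp
  have hy : y ∈ ({a, b, c} : Finset V) := by rw [← he]; simp
  have hz : z ∈ ({a, b, c} : Finset V) := by rw [← he]; simp
  simp only [Finset.mem_insert, Finset.mem_singleton] at hx hy hz
  have hba := hinv a b
  have hcb := hinv b c
  have hca := hinv a c
  rcases hx with rfl | rfl | rfl <;> rcases hy with rfl | rfl | rfl <;> rcases hz with rfl | rfl | rfl <;>
    first
      | exact absurd rfl hxy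
      | exact absurd rfl hyz
      | exact absurd rfl hxz
      | exact h
      | (rw [hba, hcb, hca, ← h]; group)
      | (rw [hba, hca, ← h]; group)
      | (rw [hcb, hca, ← h]; group)
      | (rw [hba, hcb, ← h]; group)
      | (rw [hba, ← h]; group)
      | (rw [hcb, ← h]; group)
      | (rw [hca, ← h]; group)

theorem exists_flat {V : Type} [Fintype V] [DecidableEq V] {K : Cpx V} {O : V → V → V → Prop} (hO : IsOrientation K O)
    {T C : Finset (Finset V)} {w : List (V × V)} (h : Built O T C w) {H : Type} [Group H] (μ : V → V → H)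
    (hinv : ∀ a b, μ b a = (μ a b)⁻¹) (hw : (w.map (fun e => μ e.1 e.2)).prod = 1) :
    ∃ lab : V → V → H, (∀ a b, lab b a = (lab a b)⁻¹) ∧ (∀ a b, ({a, b} : Finset V) ∉ C → lab a b = μ a b) ∧
      ∀ a b c, a ≠ b → b ≠ c → a ≠ c → ({a, b, c} : Finset V) ∈ T → lab a b * lab b c = lab a c := by
  induction h generalizing μ with
  | base a b c h =>
    refine ⟨μ, hinv, fun _ _ _ => rfl, ?_⟩
    intro x y z hxy hyz hxz hm
    refine s4_six hinv (a := a) (b := b) (c := c) ?_ hxy hyz hxz (Finset.mem_singleton.1 hm)
    simp only [List.map_cons, List.map_nil, List.prod_cons, List.prod_nil, mul_one] at hw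
    rw [← mul_assoc] at hw
    rw [eq_inv_of_mul_eq_one_left hw, ← hinv]
  | step T C w1 w2 u v z hb hO' hT ih =>
    have inv := built_inv hO hb
    obtain ⟨hvu, huz, hvz, -⟩ := hO.face _ _ _ hO'
    have q1 := hO.rot _ _ _ hO'
    have q2 := hO.rot _ _ _ q1
    have hset1 : ({u, z, v} : Finset V) = {u, v, z} := by rw [Finset.pair_comm]
    have hset2 : ({z, v, u} : Finset V) = {u, v, z} := by
      ext x; simp only [Finset.mem_insert, Finset.mem_singleton]; tauto
    have huvC : ({u, v} : Finset V) ∉ C := ((inv.mem u v).1 (by simp)).2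
    have huzC : ({u, z} : Finset V) ∉ C := by
      intro hc
      obtain ⟨z1, h1, h2⟩ := inv.inC u z huz hc
      rw [hO.unique _ _ _ _ h1 q1, hset1] at h2
      exact hT h2
    have hzvC : ({z, v} : Finset V) ∉ C := by
      intro hc
      obtain ⟨z1, h1, h2⟩ := inv.inC z v hvz.symm hc
      rw [hO.unique _ _ _ _ h1 q2, hset2] at h2
      exact hT h2
    have hvuw : (v, u) ∉ w1 ++ (u, v) :: w2 := by
      intro hm
      obtain ⟨⟨z1, h1, h2⟩, -⟩ := (inv.mem v u).1 hm
      rw [hO.unique _ _ _ _ h1 hO', Finset.insert_comm] at h2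
      exact hT h2
    have hnd : (w1 ++ w2).Nodup ∧ (u, v) ∉ w1 ++ w2 := by
      have := inv.nodup
      rw [List.nodup_middle] at this
      exact ⟨(List.nodup_cons.1 this).2, (List.nodup_cons.1 this).1⟩
    obtain ⟨ν, hν⟩ : ∃ ν : V → V → H, ν = fun x y => if x = u ∧ y = v then μ u z * μ z v else if x = v ∧ y = u then
        (μ u z * μ z v)⁻¹ else μ x y := ⟨_, rfl⟩
    have hν1 : ν u v = μ u z * μ z v := by rw [hν]; simp
    have hν2 : ν v u = (μ u z * μ z v)⁻¹ := by rw [hν]; simp [hvu]
    have hν3 : ∀ x y, ¬ (x = u ∧ y = v) → ¬ (x = v ∧ y = u) → ν x y = μ x y := by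
      intro x y h1 h2
      rw [hν]
      simp only [h1, h2, if_false]
    have hνinv : ∀ x y, ν y x = (ν x y)⁻¹ := by
      intro x y
      by_cases h1 : x = u ∧ y = v
      · obtain ⟨rfl, rfl⟩ := h1
        rw [hν1, hν2]
      · by_cases h2 : x = v ∧ y = u
        · obtain ⟨rfl, rfl⟩ := h2
          rw [hν1, hν2, inv_inv]
        · rw [hν3 x y h1 h2, hν3 y x (fun h => h2 ⟨h.2, h.1⟩) (fun h => h1 ⟨h.2, h.1⟩), hinv]
    have hmap : ∀ l : List (V × V), (∀ e ∈ l, e ∈ w1 ++ w2) → l.map (fun e => ν e.1 e.2) = l.map (fun e => μ e.1 e.2) := by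
      intro l hl
      refine List.map_congr_left fun e he => ?_
      refine hν3 _ _ ?_ ?_
      · rintro ⟨h1, h2⟩
        have : e = (u, v) := Prod.ext h1 h2
        exact hnd.2 (this ▸ hl e he)
      · rintro ⟨h1, h2⟩
        have he' : e = (v, u) := Prod.ext h1 h2
        have := hl e he
        rw [he'] at this
        refine hvuw ?_
        rcases List.mem_append.1 this with h | h
        · exact List.mem_append_left _ h
        · exact List.mem_append_right _ (List.mem_cons_of_mem _ h)
    have hνw : ((w1 ++ (u, v) :: w2).map (fun e => ν e.1 e.2)).prod = 1 := by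
      rw [List.map_append, List.map_cons, List.prod_append, List.prod_cons, hmap w1 (fun e he => List.mem_append_left _ he),
        hmap w2 (fun e he => List.mem_append_right _ he), hν1]
      rw [List.map_append, List.map_cons, List.map_cons, List.prod_append, List.prod_cons, List.prod_cons] at hw
      rw [← hw]
      group
    obtain ⟨lab, h1, h2, h3⟩ := ih ν hνinv hνw
    refine ⟨lab, h1, ?_, ?_⟩
    · intro x y hxy
      rw [Finset.mem_insert, not_or] at hxy
      rw [h2 x y hxy.2]
      refine hν3 x y ?_ ?_
      · rintro ⟨rfl, rfl⟩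
        exact hxy.1 rfl
      · rintro ⟨rfl, rfl⟩
        exact hxy.1 (Finset.pair_comm _ _)
    · intro a b c hab hbc hac hm
      rcases Finset.mem_insert.1 hm with hm | hm
      · refine s4_six h1 (a := u) (b := z) (c := v) ?_ hab hbc hac (hm.trans hset1.symm)
        rw [h2 u z huzC, h2 z v hzvC, h2 u v huvC, hν1, hν3 u z (fun h => hvz h.2.symm) (fun h => hvu h.1.symm),
          hν3 z v (fun h => huz h.1.symm) (fun h => hvz h.1.symm)]
      · exact h3 a b c hab hbc hac hm

end H32D
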