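import Pool.Agent.Lib.H32D.Defs

set_option autoImplicit false

/-!
# H32D, definitions of module S (a surjection of the fundamental group onto a free group of rank two)

`Built K O T C w`: the triangles in `T` have been glued one after the other along the edges in `C` (a spanning tree of the dual graph of `T`); `w` is
the boundary word of the resulting polygon, a closed walk of directed edges.
-/

open Finset

namespace H32D

inductive Built {V : Type} [Fintype V] [DecidableEq V] (O : V → V → V → Prop) :
    Finset (Finset V) → Finset (Finset V) → List (V × V) → Prop
  | base (a b c : V) (h : O a b c) : Built O {{a, b, c}} ∅ [(a, b), (b, c), (c, a)]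
  | step (T C : Finset (Finset V)) (w1 w2 : List (V × V)) (u v z : V) (hb : Built O T C (w1 ++ (u, v) :: w2)) (hO : O v u z)
      (hT : ({u, v, z} : Finset V) ∉ T) : Built O (insert {u, v, z} T) (insert {u, v} C) (w1 ++ (u, z) :: (z, v) :: w2)

/-- The triangles of `K`. -/
def Cpx.tris {V : Type} [Fintype V] [DecidableEq V] (K : Cpx V) : Finset (Finset V) := K.faces.filter (fun t => t.card = 3)

/-- The edges of `K`. -/
def Cpx.edges {V : Type} [Fintype V] [DecidableEq V] (K : Cpx V) : Finset (Finset V) := K.faces.filter (fun t => t.card = 2)

/-- A flat labelling of the directed edges by a group: inverse on the reversed edge, and the product around a triangle is trivial. -/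
structure Flat {V : Type} [Fintype V] [DecidableEq V] (K : Cpx V) {H : Type} [Group H] (lab : V → V → H) : Prop where
  inv : ∀ a b, lab b a = (lab a b)⁻¹
  tri : ∀ a b c, a ≠ b → b ≠ c → a ≠ c → ({a, b, c} : Finset V) ∈ K.faces → lab a b * lab b c = lab a c

/-- The graph of the edges of `K` with trivial label. -/
def trivGraph {V : Type} [Fintype V] [DecidableEq V] (K : Cpx V) {H : Type} [Group H] (lab : V → V → H) (h : Flat K lab) :
    SimpleGraph V where
  Adj a b := K.graph.Adj a b ∧ lab a b = 1
  symm := ⟨fun a b hab => ⟨hab.1.symm, by rw [h.inv, hab.2, inv_one]⟩⟩
  loopless := ⟨fun _ hab => hab.1.ne rfl⟩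

/-- The generators of the free group of rank two. -/
abbrev F2 : Type := FreeGroup Bool

/-- What module S provides: a flat labelling by the free group of rank two, trivial on a connected spanning subgraph, such that both generators
are labels of edges. -/
structure GoodLabel {V : Type} [Fintype V] [DecidableEq V] (K : Cpx V) (lab : V → V → F2) : Prop where
  flat : Flat K lab
  conn : (trivGraph K lab flat).Connected
  gen : ∀ i : Bool, ∃ a b, K.graph.Adj a b ∧ lab a b = FreeGroup.of i

end H32D
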