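import Pool.Agent.Lib.H32D.TDefs

set_option autoImplicit false

/-!
# H32D, chunk T1 (M): generic positions

Choose `g 0, g 1, ...` one after the other. When the colours `< k` are placed, the new vector `g k ∈ [0,1]ⁿ` has to avoid, for all at most five
old colours, all their offsets and the offset `d` of the new point, the set (affine span of the at most five old points) `- d`. An affine
span of at most five points of `ℝⁿ`, `n ≥ 5`, is not everything, so it has measure zero
(`MeasureTheory.Measure.addHaar_affineSubspace`); there are finitely many of them, and the cube has positive measure. The new family is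
affinely independent by `AffineIndependent.affineIndependent_of_notMem_span` (the subfamily without the new colour is independent by induction;
the new colour occurs at most once by injectivity). Induct over `q` (`Fin.snoc` or functions on `ℕ`).

Auxiliary names start with `t1_`.
-/

open Finset

namespace H32D

theorem t1_span_ne_top {n k : ℕ} (hn : 5 ≤ n) (hk : k ≤ 5) (p : Fin k → Fin n → ℝ) :
    affineSpan ℝ (Set.range p) ≠ ⊤ := by
  intro h
  rcases Nat.eq_zero_or_pos k with rfl | hpos
  · rw [Set.range_eq_empty, AffineSubspace.span_empty] at h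
    exact absurd h (AffineSubspace.bot_ne_top ℝ _ _)
  · obtain ⟨m, rfl⟩ : ∃ m, k = m + 1 := ⟨k - 1, by omega⟩
    have h1 := finrank_vectorSpan_range_le ℝ p (n := m) (by simp)
    have h2 : vectorSpan ℝ (Set.range p) = ⊤ := by
      rw [← direction_affineSpan, h, AffineSubspace.direction_top]
    rw [h2, finrank_top, Module.finrank_fin_fun] at h1
    omega

theorem t1_null {n k : ℕ} (hn : 5 ≤ n) (hk : k ≤ 5) (p : Fin k → Fin n → ℝ) (e : Fin n → ℝ) :
    MeasureTheory.volume {v : Fin n → ℝ | v + e ∈ affineSpan ℝ (Set.range p)} = 0 := by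
  have h : MeasureTheory.volume ((affineSpan ℝ (Set.range p) : Set (Fin n → ℝ))) = 0 :=
    MeasureTheory.Measure.addHaar_affineSubspace _ _ (t1_span_ne_top hn hk p)
  have h2 : {v : Fin n → ℝ | v + e ∈ affineSpan ℝ (Set.range p)} =
      (fun v => v + e) ⁻¹' (affineSpan ℝ (Set.range p) : Set (Fin n → ℝ)) := rfl
  rw [h2, MeasureTheory.measure_preimage_add_right, h]

theorem t1_exists {n : ℕ} (hn : 5 ≤ n) {q : ℕ} (g : Fin q → Fin n → ℝ) :
    ∃ v : Fin n → ℝ, (∀ i, 0 ≤ v i ∧ v i ≤ 1) ∧ ∀ (k : ℕ), k ≤ 5 → ∀ (c : Fin k → Fin q) (d : Fin k → Fin n → ℤ) (e : Fin n → ℤ),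
      (v + fun i => (e i : ℝ)) ∉ affineSpan ℝ (Set.range (fun a : Fin k => (fun i => g (c a) i + (d a i : ℝ) : Fin n → ℝ))) := by
  by_contra hcon
  push Not at hcon
  have hsub : Set.Icc (0 : Fin n → ℝ) 1 ⊆ ⋃ (k : {k : ℕ // k ≤ 5}), ⋃ (c : Fin k.1 → Fin q), ⋃ (d : Fin k.1 → Fin n → ℤ), ⋃ (e : Fin n → ℤ),
      {v : Fin n → ℝ | (v + fun i => (e i : ℝ)) ∈ affineSpan ℝ (Set.range (fun a : Fin k.1 => (fun i => g (c a) i + (d a i : ℝ) : Fin n → ℝ)))} := by
    intro v hv
    obtain ⟨k, hk, c, d, e, h⟩ := hcon v (fun i => ⟨hv.1 i, hv.2 i⟩)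
    simp only [Set.mem_iUnion]
    exact ⟨⟨k, hk⟩, c, d, e, h⟩
  have hnull : MeasureTheory.volume (⋃ (k : {k : ℕ // k ≤ 5}), ⋃ (c : Fin k.1 → Fin q), ⋃ (d : Fin k.1 → Fin n → ℤ), ⋃ (e : Fin n → ℤ),
      {v : Fin n → ℝ | (v + fun i => (e i : ℝ)) ∈ affineSpan ℝ (Set.range (fun a : Fin k.1 => (fun i => g (c a) i + (d a i : ℝ) : Fin n → ℝ)))}) = 0 := by
    refine MeasureTheory.measure_iUnion_null fun k => MeasureTheory.measure_iUnion_null fun c =>
      MeasureTheory.measure_iUnion_null fun d => MeasureTheory.measure_iUnion_null fun e => ?_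
    exact t1_null hn k.2 _ _
  have h1 := MeasureTheory.measure_mono_null hsub hnull
  rw [Real.volume_Icc_pi] at h1
  simp at h1

theorem t1_step {n : ℕ} {q : ℕ} {g : Fin q → Fin n → ℝ} (hg : Generic n q g) {v : Fin n → ℝ} (hv : ∀ i, 0 ≤ v i ∧ v i ≤ 1)
    (h : ∀ (k : ℕ), k ≤ 5 → ∀ (c : Fin k → Fin q) (d : Fin k → Fin n → ℤ) (e : Fin n → ℤ),
      (v + fun i => (e i : ℝ)) ∉ affineSpan ℝ (Set.range (fun a : Fin k => (fun i => g (c a) i + (d a i : ℝ) : Fin n → ℝ)))) :
    Generic n (q + 1) (Fin.snoc (α := fun _ => Fin n → ℝ) g v) := by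
  refine ⟨?_, ?_⟩
  · intro c i
    refine Fin.lastCases ?_ (fun j => ?_) c
    · rw [Fin.snoc_last]
      exact hv i
    · rw [Fin.snoc_castSucc]
      exact hg.1 j i
  · intro k c d hk hc hd
    by_cases hlast : ∃ a, c a = Fin.last q
    · obtain ⟨a0, ha0⟩ := hlast
      obtain ⟨m, rfl⟩ : ∃ m, k = m + 1 := ⟨k - 1, by have := a0.2; omega⟩
      have hne : ∀ b : Fin m, c (a0.succAbove b) ≠ Fin.last q := by
        intro b hb
        have h1 := hc (hb.trans ha0.symm)
        exact Fin.succAbove_ne a0 b h1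
      choose c' hc' using fun b => Fin.exists_castSucc_eq.2 (hne b)
      have hinj : Function.Injective c' := by
        intro b b' hb
        have h1 : c (a0.succAbove b) = c (a0.succAbove b') := by rw [← hc' b, ← hc' b', hb]
        exact Fin.succAbove_right_injective (hc h1)
      have hpt : ∀ b : Fin m, (fun i => (Fin.snoc (α := fun _ => Fin n → ℝ) g v : Fin (q + 1) → Fin n → ℝ) (c (a0.succAbove b)) i + (d (a0.succAbove b) i : ℝ) : Fin n → ℝ) =
          fun i => g (c' b) i + (d (a0.succAbove b) i : ℝ) := by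
        intro b
        rw [← hc' b, Fin.snoc_castSucc]
      refine AffineIndependent.affineIndependent_of_notMem_span (i := a0) ?_ ?_
      · rw [← affineIndependent_equiv (finSuccAboveEquiv a0)]
        have h2 := hg.2 m c' (fun b => d (a0.succAbove b)) (by omega) hinj (fun b i => hd _ i)
        have h6 := funext hpt
        rw [← h6] at h2
        exact h2
      · have h3 := h m (by omega) c' (fun b => d (a0.succAbove b)) (d a0)
        have h4 : (fun a : Fin (m + 1) => (fun i => (Fin.snoc (α := fun _ => Fin n → ℝ) g v : Fin (q + 1) → Fin n → ℝ) (c a) i + (d a i : ℝ) : Fin n → ℝ)) '' {x | x ≠ a0} =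
            Set.range (fun a : Fin m => (fun i => g (c' a) i + (d (a0.succAbove a) i : ℝ) : Fin n → ℝ)) := by
          ext y
          constructor
          · rintro ⟨a, ha, rfl⟩
            obtain ⟨b, rfl⟩ := Fin.exists_succAbove_eq ha
            exact ⟨b, (hpt b).symm⟩
          · rintro ⟨b, rfl⟩
            exact ⟨a0.succAbove b, Fin.succAbove_ne a0 b, hpt b⟩
        rw [h4]
        have h5 : (fun i => (Fin.snoc (α := fun _ => Fin n → ℝ) g v : Fin (q + 1) → Fin n → ℝ) (c a0) i + (d a0 i : ℝ) : Fin n → ℝ) = v + fun i => (d a0 i : ℝ) := by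
          rw [ha0, Fin.snoc_last]
          rfl
        rw [h5]
        exact h3
    · push Not at hlast
      choose c' hc' using fun b => Fin.exists_castSucc_eq.2 (hlast b)
      have hinj : Function.Injective c' := by
        intro b b' hb
        have h1 : c b = c b' := by rw [← hc' b, ← hc' b', hb]
        exact hc h1
      have h2 := hg.2 k c' d hk hinj hd
      have h6 : (fun (b : Fin k) => (fun i => (Fin.snoc (α := fun _ => Fin n → ℝ) g v : Fin (q + 1) → Fin n → ℝ) (c b) i + (d b i : ℝ) : Fin n → ℝ)) =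
          fun b => (fun i => g (c' b) i + (d b i : ℝ) : Fin n → ℝ) := by
        funext b
        rw [← hc' b, Fin.snoc_castSucc]
      rw [h6]
      exact h2

theorem exists_generic (n : ℕ) (hn : 5 ≤ n) (q : ℕ) : ∃ g : Fin q → Fin n → ℝ, Generic n q g := by
  induction q with
  | zero =>
    refine ⟨fun c => c.elim0, fun c => c.elim0, fun k c d hk hc hd => ?_⟩
    have : IsEmpty (Fin k) := ⟨fun a => (c a).elim0⟩
    exact affineIndependent_of_subsingleton ℝ _
  | succ q ih =>
    obtain ⟨g, hg⟩ := ih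
    obtain ⟨v, hv, h⟩ := t1_exists hn g
    exact ⟨_, t1_step hg hv h⟩

end H32D
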