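import Pool.Agent.Lib.H32D.TDefs

set_option autoImplicit false

/-!
# H32D, chunk T2 (M): the uniform gap

First for finsets `I J` of `Fin q × (Fin n → ℤ)` (a box, so finitely many pairs): the points of `I ∪ J` have different colours, hence are affinely
independent (`Generic`, reindex by `Fin k`, `k = (I ∪ J).card ≤ 6`), so the convex hulls of the points of `I` and of `J` are disjoint
(`AffineIndependent.convexHull_inter`), compact (finite sets) and nonempty, hence at positive distance; take the minimum over the finitely many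
pairs. The general statement: push the weights forward along `u ↦ (c u, d u)`, which is injective on `I ∪ J`.

Auxiliary names start with `t2_`.
-/

open Finset

namespace H32D

theorem t2_min {T : Type} [Finite T] (Q : T → ℝ → Prop) (hQ : ∀ t a b, a ≤ b → Q t b → Q t a)
    (h : ∀ t, ∃ δ : ℝ, 0 < δ ∧ Q t δ) : ∃ δ : ℝ, 0 < δ ∧ δ ≤ 1 ∧ ∀ t, Q t δ := by
  classical
  have := Fintype.ofFinite T
  choose f hf using h
  have key : ∀ s : Finset T, ∃ δ : ℝ, 0 < δ ∧ δ ≤ 1 ∧ ∀ t ∈ s, δ ≤ f t := by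
    intro s
    induction s using Finset.induction_on with
    | empty => exact ⟨1, one_pos, le_rfl, by simp⟩
    | insert a s ha ih =>
      obtain ⟨δ, h1, h2, h3⟩ := ih
      refine ⟨min δ (f a), lt_min h1 (hf a).1, (min_le_left _ _).trans h2, ?_⟩
      intro t ht
      rcases Finset.mem_insert.1 ht with rfl | ht
      · exact min_le_right _ _
      · exact (min_le_left _ _).trans (h3 t ht)
  obtain ⟨δ, h1, h2, h3⟩ := key Finset.univ
  exact ⟨δ, h1, h2, fun t => hQ t _ _ (h3 t (Finset.mem_univ t)) (hf t).2⟩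

theorem t2_indep {n q : ℕ} {g : Fin q → Fin n → ℝ} (hg : Generic n q g) {ι : Type} [Fintype ι] (hι : Fintype.card ι ≤ 6)
    (c : ι → Fin q) (d : ι → Fin n → ℤ) (hc : Function.Injective c) (hd : ∀ a i, |d a i| ≤ 10) :
    AffineIndependent ℝ (fun a => pt g (c a) (d a)) := by
  have h := hg.2 (Fintype.card ι) (fun a => c ((Fintype.equivFin ι).symm a)) (fun a => d ((Fintype.equivFin ι).symm a)) hι
    (hc.comp (Fintype.equivFin ι).symm.injective) (fun a i => hd _ i)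
  rw [← affineIndependent_equiv (Fintype.equivFin ι).symm]
  exact h

theorem t2_one {n q : ℕ} {g : Fin q → Fin n → ℝ} (hg : Generic n q g) {k l : ℕ} (hk : k ≤ 3) (hl : l ≤ 3)
    (c : Fin k ⊕ Fin l → Fin q) (d : Fin k ⊕ Fin l → Fin n → ℤ) (hc : Function.Injective c) (hd : ∀ a i, |d a i| ≤ 10) :
    ∃ δ : ℝ, 0 < δ ∧ ∀ (w : Fin k → ℝ) (w' : Fin l → ℝ), w ∈ stdSimplex ℝ (Fin k) → w' ∈ stdSimplex ℝ (Fin l) →
      δ ≤ dist (∑ a, w a • pt g (c (Sum.inl a)) (d (Sum.inl a))) (∑ a, w' a • pt g (c (Sum.inr a)) (d (Sum.inr a))) := by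
  have hI := t2_indep hg (ι := Fin k ⊕ Fin l) (by simp; omega) c d hc hd
  obtain ⟨F, hF⟩ : ∃ F : (Fin k → ℝ) × (Fin l → ℝ) → ℝ, ∀ x, F x =
      dist (∑ a, x.1 a • pt g (c (Sum.inl a)) (d (Sum.inl a))) (∑ a, x.2 a • pt g (c (Sum.inr a)) (d (Sum.inr a))) := ⟨_, fun _ => rfl⟩
  by_cases hne : (stdSimplex ℝ (Fin k) ×ˢ stdSimplex ℝ (Fin l)).Nonempty
  · have hcomp : IsCompact (stdSimplex ℝ (Fin k) ×ˢ stdSimplex ℝ (Fin l)) :=
      (isCompact_stdSimplex ℝ (Fin k)).prod (isCompact_stdSimplex ℝ (Fin l))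
    have hcont : ContinuousOn F (stdSimplex ℝ (Fin k) ×ˢ stdSimplex ℝ (Fin l)) := by
      rw [funext hF]
      apply Continuous.continuousOn
      fun_prop
    obtain ⟨x, hx, hmin⟩ := hcomp.exists_isMinOn hne hcont
    have hpos : 0 < F x := by
      rw [hF, dist_pos]
      intro heq
      rw [affineIndependent_iff] at hI
      have h1 := hI Finset.univ (Sum.elim x.1 (fun b => - x.2 b)) (by
        rw [Fintype.sum_sum_type]
        simp only [Sum.elim_inl, Sum.elim_inr, Finset.sum_neg_distrib]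
        rw [hx.1.2, hx.2.2]
        ring) (by
        rw [Fintype.sum_sum_type]
        simp only [Sum.elim_inl, Sum.elim_inr, neg_smul, Finset.sum_neg_distrib]
        rw [heq]
        exact add_neg_cancel _)
      have h2 : ∑ a, x.1 a = 0 := Finset.sum_eq_zero fun a _ => h1 (Sum.inl a) (Finset.mem_univ _)
      rw [hx.1.2] at h2
      exact one_ne_zero h2
    refine ⟨F x, hpos, fun w w' hw hw' => ?_⟩
    rw [← hF (w, w')]
    exact isMinOn_iff.1 hmin (w, w') ⟨hw, hw'⟩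
  · exact ⟨1, one_pos, fun w w' hw hw' => absurd ⟨(w, w'), hw, hw'⟩ hne⟩

theorem t2_int (z : ℤ) (hz : |z| ≤ 10) : ∃ m : Fin 21, ((m : ℕ) : ℤ) - 10 = z := by
  obtain ⟨h1, h2⟩ := abs_le.1 hz
  exact ⟨⟨(z + 10).toNat, by omega⟩, by simp; omega⟩

theorem t2_sum {n q : ℕ} (g : Fin q → Fin n → ℝ) {U : Type} (I : Finset U) {k : ℕ} (e : Fin k ≃ I) (c : U → Fin q)
    (d : U → Fin n → ℤ) (w : U → ℝ) :
    ∑ u ∈ I, w u • pt g (c u) (d u) = ∑ a : Fin k, w (e a) • pt g (c (e a)) (d (e a)) := by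
  rw [← Finset.sum_coe_sort I, ← Equiv.sum_comp e]

theorem exists_gap {n q : ℕ} {g : Fin q → Fin n → ℝ} (hg : Generic n q g) :
    ∃ δ : ℝ, 0 < δ ∧ δ ≤ 1 ∧ ∀ (U : Type) (_ : DecidableEq U) (I J : Finset U) (c : U → Fin q) (d : U → Fin n → ℤ) (w w' : U → ℝ),
      I.card ≤ 3 → J.card ≤ 3 → Disjoint I J → Set.InjOn c (↑(I ∪ J) : Set U) → (∀ u ∈ I ∪ J, ∀ i, |d u i| ≤ 10) →
      (∀ u ∈ I, 0 ≤ w u) → (∀ u ∈ J, 0 ≤ w' u) → ∑ u ∈ I, w u = 1 → ∑ u ∈ J, w' u = 1 →
      δ ≤ dist (∑ u ∈ I, w u • pt g (c u) (d u)) (∑ u ∈ J, w' u • pt g (c u) (d u)) := by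
  obtain ⟨δ, h1, h2, h3⟩ := t2_min (T := Σ (k : Fin 4) (l : Fin 4), (Fin k ⊕ Fin l → Fin q) × (Fin k ⊕ Fin l → Fin n → Fin 21))
    (fun t δ => Function.Injective t.2.2.1 → ∀ (w : Fin t.1 → ℝ) (w' : Fin t.2.1 → ℝ), w ∈ stdSimplex ℝ (Fin t.1) → w' ∈ stdSimplex ℝ (Fin t.2.1) →
      δ ≤ dist (∑ a, w a • pt g (t.2.2.1 (Sum.inl a)) (fun i => ((t.2.2.2 (Sum.inl a) i : ℕ) : ℤ) - 10))
        (∑ a, w' a • pt g (t.2.2.1 (Sum.inr a)) (fun i => ((t.2.2.2 (Sum.inr a) i : ℕ) : ℤ) - 10)))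
    (fun t a b hab hb hinj w w' hw hw' => hab.trans (hb hinj w w' hw hw')) (fun t => by
      by_cases hinj : Function.Injective t.2.2.1
      · obtain ⟨δ, h1, h2⟩ := t2_one hg (k := t.1) (l := t.2.1) (by omega) (by omega) t.2.2.1 (fun a i => ((t.2.2.2 a i : ℕ) : ℤ) - 10) hinj
          (fun a i => by
            rw [abs_le]
            have := (t.2.2.2 a i).2
            constructor <;> omega)
        exact ⟨δ, h1, fun _ => h2⟩
      · exact ⟨1, one_pos, fun h => absurd h hinj⟩)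
  refine ⟨δ, h1, h2, ?_⟩
  intro U _ I J c d w w' hI hJ hIJ hc hd hw hw' hs hs'
  have eI : Fin I.card ≃ I := I.equivFin.symm
  have eJ : Fin J.card ≃ J := J.equivFin.symm
  have hmem : ∀ x : Fin I.card ⊕ Fin J.card, (Sum.elim (fun a => (eI a : U)) (fun b => (eJ b : U)) x) ∈ I ∪ J := by
    rintro (a | b)
    · exact Finset.mem_union_left _ (eI a).2
    · exact Finset.mem_union_right _ (eJ b).2
  have hinj : Function.Injective (Sum.elim (fun a => (eI a : U)) (fun b => (eJ b : U))) := by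
    refine Function.Injective.sumElim (fun a b hab => eI.injective (Subtype.ext hab)) (fun a b hab => eJ.injective (Subtype.ext hab)) (fun a b hab => ?_)
    have h5 := (eI a).2
    rw [hab] at h5
    exact Finset.disjoint_left.1 hIJ h5 (eJ b).2
  choose m hm using fun (x : Fin I.card ⊕ Fin J.card) (i : Fin n) =>
    t2_int (d (Sum.elim (fun a => (eI a : U)) (fun b => (eJ b : U)) x) i) (hd _ (hmem x) i)
  have h4 := h3 ⟨⟨I.card, by omega⟩, ⟨J.card, by omega⟩, fun x => c (Sum.elim (fun a => (eI a : U)) (fun b => (eJ b : U)) x), m⟩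
    (fun x y hxy => hinj (hc (by simpa using hmem x) (by simpa using hmem y) hxy)) (fun a => w (eI a)) (fun b => w' (eJ b))
    ⟨fun a => hw _ (eI a).2, by
      rw [← hs, ← Finset.sum_coe_sort I]
      exact Equiv.sum_comp eI (fun u : I => w u)⟩
    ⟨fun a => hw' _ (eJ a).2, by
      rw [← hs', ← Finset.sum_coe_sort J]
      exact Equiv.sum_comp eJ (fun u : J => w' u)⟩
  rw [t2_sum g I eI, t2_sum g J eJ]
  have h6 : ∀ x, (fun i => (((m x i : Fin 21) : ℕ) : ℤ) - 10) = d (Sum.elim (fun a => (eI a : U)) (fun b => (eJ b : U)) x) :=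
    fun x => funext fun i => hm x i
  simp only [h6] at h4
  exact h4

end H32D
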