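import Pool.Agent.Lib.H32D.Defs

set_option autoImplicit false

/-!
# H32D, definitions of module T (from a system of hat functions to a thick embedding)
-/

open Finset

namespace H32D

/-- A generic choice of the vectors `g c ∈ [0,1]ⁿ`, one for each colour `c`: at most six points `g c + d` of different colours, with integer
offsets `d` of size at most `10`, are always affinely independent (possible since `n ≥ 5`). -/
def Generic (n q : ℕ) (g : Fin q → Fin n → ℝ) : Prop :=
  (∀ c i, 0 ≤ g c i ∧ g c i ≤ 1) ∧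
    ∀ (k : ℕ) (c : Fin k → Fin q) (d : Fin k → Fin n → ℤ), k ≤ 6 → Function.Injective c → (∀ a i, |d a i| ≤ 10) →
      AffineIndependent ℝ (fun a : Fin k => (fun i => g (c a) i + (d a i : ℝ) : Fin n → ℝ))

/-- The point with colour `c` and offset `d`. -/
def pt {n q : ℕ} (g : Fin q → Fin n → ℝ) (c : Fin q) (d : Fin n → ℤ) : Fin n → ℝ := fun i => g c i + (d i : ℝ)

/-- A system of hat functions `φ x u` (`x` in the realization of `K`, `u ∈ A` the vertices of a subdivision), with the location `loc u` of the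
vertex `u` in the realization and its lattice site `site u`. -/
structure HatSystem {W : Type} [Fintype W] [DecidableEq W] (K : Cpx W) (n : ℕ) {U : Type} [DecidableEq U] (A : Finset U)
    (φ : (W → ℝ) → U → ℝ) (loc : U → W → ℝ) (site : U → Fin n → ℤ) : Prop where
  cont : ∀ u, ContinuousOn (fun x => φ x u) K.real
  nonneg : ∀ x ∈ K.real, ∀ u, 0 ≤ φ x u
  off : ∀ x ∈ K.real, ∀ u, u ∉ A → φ x u = 0
  sum : ∀ x ∈ K.real, ∑ u ∈ A, φ x u = 1
  card : ∀ x ∈ K.real, (A.filter (fun u => φ x u ≠ 0)).card ≤ 3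
  loc : ∀ x ∈ K.real, ∀ v, ∑ u ∈ A, φ x u * loc u v = x v
  near : ∀ x ∈ K.real, ∀ u u', φ x u ≠ 0 → φ x u' ≠ 0 → ∀ i, |site u i - site u' i| ≤ 1
  disj : ∀ s ∈ K.faces, ∀ t ∈ K.faces, Disjoint s t → ∀ x ∈ K.cell s, ∀ y ∈ K.cell t, ∀ u, φ x u ≠ 0 → φ y u = 0

/-- The map into `ℝⁿ` (sup norm) given by hat functions, colours and sites. -/
noncomputable def posMap {W U : Type} {n q : ℕ} (A : Finset U) (φ : (W → ℝ) → U → ℝ) (site : U → Fin n → ℤ)
    (col : U → Fin q) (g : Fin q → Fin n → ℝ) (x : W → ℝ) : Fin n → ℝ :=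
  ∑ u ∈ A, φ x u • pt g (col u) (site u)

end H32D
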