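import Pool.Agent.Lib.H32D.WDefs

set_option autoImplicit false

/-!
# H32D, chunk W2 (M): the lists of sites along words

All by induction on the word. `endL_toWord`: `endL σ p g.toWord = (FreeGroup.lift σ g)⁻¹ p` (show
`endL σ p w = (FreeGroup.lift σ (FreeGroup.mk w))⁻¹ p` by induction; `FreeGroup.mk_toWord`). `body_reverse`: with
`body p w = preL p w ++ [site (endL p w)]` one has `body (endL p w) (invRev w) = (body p w).reverse`; use `body p (w1 ++ w2) = preL p w1 ++ body (endL p w1) w2`
and `segL (l.1, !l.2) (stepL l p) = (segL l p).reverse`.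

Auxiliary names start with `w2_`.
-/

open Finset

namespace H32D

variable {P : Type} {n : ℕ}

theorem endL_append (σ : Bool → Equiv.Perm P) (p : P) (w w' : List (Bool × Bool)) :
    endL σ p (w ++ w') = endL σ (endL σ p w) w' := by
  induction w generalizing p with
  | nil => rfl
  | cons l w ih => exact ih (stepL σ l p)

theorem w2_step (σ : Bool → Equiv.Perm P) (l : Bool × Bool) (p : P) :
    stepL σ l p = (FreeGroup.lift σ (FreeGroup.mk [l]))⁻¹ p := by
  obtain ⟨i, b⟩ := l
  cases b with
  | false =>
    simp [stepL, FreeGroup.lift_mk]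
  | true =>
    simp [stepL, FreeGroup.lift_mk]

theorem w2_back (σ : Bool → Equiv.Perm P) (l : Bool × Bool) (p : P) : stepL σ (l.1, !l.2) (stepL σ l p) = p := by
  obtain ⟨i, b⟩ := l
  cases b <;> simp [stepL]

theorem w2_end (σ : Bool → Equiv.Perm P) (w : List (Bool × Bool)) : ∀ p : P,
    endL σ p w = (FreeGroup.lift σ (FreeGroup.mk w))⁻¹ p := by
  induction w with
  | nil =>
    intro p
    rw [← FreeGroup.one_eq_mk, map_one, inv_one]
    rfl
  | cons l w ih =>
    intro p
    have e : (FreeGroup.mk (l :: w) : FreeGroup Bool) = FreeGroup.mk [l] * FreeGroup.mk w := by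
      rw [FreeGroup.mul_mk]; rfl
    rw [e, map_mul, mul_inv_rev, Equiv.Perm.mul_apply, ← w2_step]
    exact ih (stepL σ l p)

theorem w2_seg (σ : Bool → Equiv.Perm P) (J : Bool → P → List (Fin n → ℤ)) (l : Bool × Bool) (p : P) :
    segL σ J (l.1, !l.2) (stepL σ l p) = (segL σ J l p).reverse := by
  obtain ⟨i, b⟩ := l
  cases b <;> simp [segL, stepL]

theorem endL_toWord (σ : Bool → Equiv.Perm P) (p : P) (g : FreeGroup Bool) :
    endL σ p g.toWord = (FreeGroup.lift σ g)⁻¹ p := by
  rw [w2_end, FreeGroup.mk_toWord]

theorem endL_invRev (σ : Bool → Equiv.Perm P) (p : P) (w : List (Bool × Bool)) :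
    endL σ (endL σ p w) (FreeGroup.invRev w) = p := by
  rw [w2_end, w2_end, ← FreeGroup.inv_mk, map_inv, inv_inv]
  exact Equiv.apply_symm_apply _ _

theorem preL_append (σ : Bool → Equiv.Perm P) (site : P → Fin n → ℤ) (J : Bool → P → List (Fin n → ℤ)) (p : P)
    (w w' : List (Bool × Bool)) : preL σ site J p (w ++ w') = preL σ site J p w ++ preL σ site J (endL σ p w) w' := by
  induction w generalizing p with
  | nil => rfl
  | cons l w ih =>
    simp only [List.cons_append, preL, ih (stepL σ l p), List.append_assoc]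
    rfl

theorem body_reverse (σ : Bool → Equiv.Perm P) (site : P → Fin n → ℤ) (J : Bool → P → List (Fin n → ℤ)) (p : P)
    (w : List (Bool × Bool)) : preL σ site J (endL σ p w) (FreeGroup.invRev w) ++ [site p] =
      (preL σ site J p w ++ [site (endL σ p w)]).reverse := by
  induction w generalizing p with
  | nil => rfl
  | cons l w ih =>
    have e : FreeGroup.invRev (l :: w) = FreeGroup.invRev w ++ [(l.1, !l.2)] := by
      simp [FreeGroup.invRev]
    have ih' := ih (stepL σ l p)
    rw [e, show endL σ p (l :: w) = endL σ (stepL σ l p) w from rfl, preL_append, endL_invRev]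
    rw [show preL σ site J (stepL σ l p) [(l.1, !l.2)] = site (stepL σ l p) :: (segL σ J (l.1, !l.2) (stepL σ l p) ++ []) from rfl,
      w2_seg, List.append_nil]
    rw [show preL σ site J p (l :: w) = site p :: (segL σ J l p ++ preL σ site J (stepL σ l p) w) from rfl]
    rw [show preL σ site J (endL σ (stepL σ l p) w) (FreeGroup.invRev w) ++ site (stepL σ l p) :: (segL σ J l p).reverse ++ [site p] =
      (preL σ site J (endL σ (stepL σ l p) w) (FreeGroup.invRev w) ++ [site (stepL σ l p)]) ++ (segL σ J l p).reverse ++ [site p] by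
        simp, ih']
    simp

end H32D
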