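import Pool.Agent.Lib.H32D.Defs

set_option autoImplicit false

/-!
# H32D, definitions of module W (words in a free group and lists of sites)

`P` is a finite set (the sheets) with a permutation `σ i` for every generator `i`; a letter `(i, true)` leads from the sheet `p` to
`(σ i)⁻¹ p`, the letter `(i, false)` from `p` to `σ i p` (so reading the word of `g` from the sheet `p` one arrives at `(lift σ g)⁻¹ p`).
`J i p` is a list of sites from `site p` to `site (σ i p)` (both ends included).
-/

open Finset

namespace H32D

variable {P : Type} {n : ℕ}

/-- The sheet reached from `p` by the letter `l`. -/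
def stepL (σ : Bool → Equiv.Perm P) (l : Bool × Bool) (p : P) : P := if l.2 then (σ l.1)⁻¹ p else σ l.1 p

/-- The sheet reached from `p` by the word `w`. -/
def endL (σ : Bool → Equiv.Perm P) : P → List (Bool × Bool) → P
  | p, [] => p
  | p, l :: w => endL σ (stepL σ l p) w

/-- The list of sites from `site p` to `site (stepL σ l p)`. -/
def segL (σ : Bool → Equiv.Perm P) (J : Bool → P → List (Fin n → ℤ)) (l : Bool × Bool) (p : P) : List (Fin n → ℤ) :=
  if l.2 then (J l.1 ((σ l.1)⁻¹ p)).reverse else J l.1 p

/-- The list of sites along the word, without the last one. -/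
def preL (σ : Bool → Equiv.Perm P) (site : P → Fin n → ℤ) (J : Bool → P → List (Fin n → ℤ)) :
    P → List (Bool × Bool) → List (Fin n → ℤ)
  | _, [] => []
  | p, l :: w => site p :: (segL σ J l p ++ preL σ site J (stepL σ l p) w)

/-- The complete list: the site of the first sheet (for the vertex), the list along the word, the site of the last sheet twice. -/
def fullL (σ : Bool → Equiv.Perm P) (site : P → Fin n → ℤ) (J : Bool → P → List (Fin n → ℤ)) (p : P) (w : List (Bool × Bool)) :
    List (Fin n → ℤ) :=
  site p :: (preL σ site J p w ++ [site (endL σ p w), site (endL σ p w)])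

/-- Two sites at distance at most one. -/
def Near {n : ℕ} (z z' : Fin n → ℤ) : Prop := ∀ i, |z i - z' i| ≤ 1

/-- A routing: `J i p` is a chain of sites from `site p` to `site (σ i p)`. -/
structure Routing (σ : Bool → Equiv.Perm P) (site : P → Fin n → ℤ) (J : Bool → P → List (Fin n → ℤ)) : Prop where
  head : ∀ i p, (J i p).head? = some (site p)
  last : ∀ i p, (J i p).getLast? = some (site (σ i p))
  chain : ∀ i p, (J i p).IsChain Near

end H32D
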